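import Pool.Agent.J6H16.TH.Mn
import Pool.Agent.N782.GN.All2

/-!
# The theorem on average over `l ≤ L`, for `L ≥ M^{1/2+ε}`: all the parts together
-/

set_option autoImplicit false

namespace Pool.Agent.J6H16.TH

open Pool.Agent.N782.GN

theorem c_bil2 : S_BIL2 := bil2 Pool.Agent.N56.GN.chr_lat c_ker

theorem c_tg2 : S_TG2 := tg2 Pool.Agent.N56.GN.chr_lat Pool.Agent.N407.GN.cnt c_bil2 Pool.Agent.N407.GN.lip

theorem c_t2 : S_T2 := t_all2 c_tg2 c_mb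

theorem c_ii2 : S_II2 := ii2 c_mub c_t2 Pool.Agent.N954.GN.div_rect

/-- the thin Fouvry–Iwaniec theorem for `L ≥ M^{1/2+ε}` -/
theorem c_main2 : S_MAIN2 :=
  main_all2 c_mub c_dvb c_vau c_ii2 c_ti c_til c_mt1 (Pool.Agent.N521.GN.mt2 c_mub c_mt1) c_lk

end Pool.Agent.J6H16.TH
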