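import Pool.Agent.N7.GN.Bil2

/-!
# Counting the pairs with a given determinant and a given ratio
-/

set_option autoImplicit false

namespace Pool.Agent.J6H16.TH

open Finset
open Pool.Agent.N782.GN
open Pool.Agent.N7.GN.Bil

lemma int_dvd_iff (d : ℤ) (z : ZI) : ((d : ℤ) : ZI) ∣ z ↔ d ∣ z.re ∧ d ∣ z.im := Zsqrtd.intCast_dvd d z

/-- the quotient -/
lemma quo {D : ℕ} (hD : 1 ≤ D) {w1 w2 : ZI} {t : ℤ} (h : (dl w1 w2).natAbs = D)
    (hd : ((D : ℕ) : ZI) ∣ w2 - (t : ZI) * w1) :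
    ∃ ws : ZI, w2 = (t : ZI) * w1 + ((D : ℕ) : ZI) * ws ∧ (dl w1 ws = 1 ∨ dl w1 ws = -1) := by
  obtain ⟨ws, hws⟩ := hd
  have hw2 : w2 = (t : ZI) * w1 + ((D : ℕ) : ZI) * ws := by
    rw [← hws]
    ring
  refine ⟨ws, hw2, ?_⟩
  have h1 : dl w1 w2 = D * dl w1 ws := by
    have e1 : w2.re = t * w1.re + D * ws.re := by
      rw [hw2]
      simp
    have e2 : w2.im = t * w1.im + D * ws.im := by
      rw [hw2]
      simp
    unfold dl
    rw [e1, e2]
    ring
  rw [h1, Int.natAbs_mul, Int.natAbs_natCast] at h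
  have h2 : (dl w1 ws).natAbs = 1 := by
    have h3 : D * (dl w1 ws).natAbs = D * 1 := by rw [h, mul_one]
    exact Nat.eq_of_mul_eq_mul_left (by omega) h3
  omega

lemma cop_of_dl {w ws : ZI} (h : dl w ws = 1 ∨ dl w ws = -1) : IsCoprime w ws := by
  unfold dl at h
  rcases h with h | h
  · refine ⟨((ws.im : ℤ) : ZI), ((-w.im : ℤ) : ZI), ?_⟩
    apply Zsqrtd.ext
    · simp
      linarith
    · simp
      ring
  · refine ⟨((-ws.im : ℤ) : ZI), ((w.im : ℤ) : ZI), ?_⟩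
    apply Zsqrtd.ext
    · simp
      linarith
    · simp
      ring

/-- the point in the half-planes -/
noncomputable def pt (w1 ws : ZI) : ℂ := (ws : ℂ) / (w1 : ℂ)

lemma coe_ne {w : ZI} (h : w ≠ 0) : (w : ℂ) ≠ 0 := by
  intro h0
  apply h
  rw [← GaussianInt.toComplex_zero] at h0
  exact GaussianInt.toComplex_injective h0

lemma norm_coe_ge {w : ZI} (h : w ≠ 0) : 1 ≤ ‖(w : ℂ)‖ := by
  have h1 := norm_sq_eq w
  have h2 : 1 ≤ nz w := by
    unfold nz
    have h1 : (0 : ℤ) < Zsqrtd.norm w := GaussianInt.norm_pos.2 h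
    exact_mod_cast h1
  by_contra hc
  push Not at hc
  have h3 := norm_nonneg (w : ℂ)
  nlinarith

/-- separation -/
lemma sep {R : ℝ} (hR : 1 ≤ R) {w ws w' ws' : ZI} (hw : w ∈ cw R) (hw' : w' ∈ cw R)
    (hne : ws * w' ≠ ws' * w) : 1 / (4 * R ^ 2) ≤ ‖pt w ws - pt w' ws'‖ := by
  obtain ⟨a1, a2⟩ := norm_cw hR hw
  obtain ⟨b1, b2⟩ := norm_cw hR hw'
  have c1 : (w : ℂ) ≠ 0 := by
    intro h
    rw [h, norm_zero] at a1
    linarith
  have c2 : (w' : ℂ) ≠ 0 := by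
    intro h
    rw [h, norm_zero] at b1
    linarith
  have e : pt w ws - pt w' ws' = ((ws * w' - ws' * w : ZI) : ℂ) / ((w : ℂ) * (w' : ℂ)) := by
    unfold pt
    rw [GaussianInt.toComplex_sub, GaussianInt.toComplex_mul, GaussianInt.toComplex_mul]
    field_simp
  rw [e, norm_div, norm_mul]
  have h1 : 1 ≤ ‖((ws * w' - ws' * w : ZI) : ℂ)‖ := norm_coe_ge (sub_ne_zero.2 hne)
  have h2 : ‖(w : ℂ)‖ * ‖(w' : ℂ)‖ ≤ 4 * R ^ 2 := by nlinarith
  have h3 : 0 < ‖(w : ℂ)‖ * ‖(w' : ℂ)‖ := by nlinarith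
  exact div_le_div₀ (by linarith) h1 h3 h2

/-- equal points -/
lemma same {w ws w' ws' : ZI} (h : dl w ws = 1 ∨ dl w ws = -1) (h' : dl w' ws' = 1 ∨ dl w' ws' = -1)
    (hw : w ≠ 0) (he : ws * w' = ws' * w) : ∃ u : ZI, IsUnit u ∧ w' = w * u ∧ ws' = ws * u := by
  have c := cop_of_dl h
  have c' := cop_of_dl h'
  have d1 : w ∣ w' := by
    apply c.dvd_of_dvd_mul_left
    rw [he]
    exact dvd_mul_left _ _
  have d2 : w' ∣ w := by
    apply c'.dvd_of_dvd_mul_left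
    rw [← he]
    exact dvd_mul_left _ _
  obtain ⟨u, hu⟩ := associated_of_dvd_dvd d1 d2
  refine ⟨u, u.isUnit, hu.symm, ?_⟩
  have h1 : ws' * w = ws * u * w := by
    rw [← he, ← hu]
    ring
  exact mul_right_cancel₀ hw h1

lemma unit_box {u : ZI} (hu : IsUnit u) : u.re ∈ Icc (-1 : ℤ) 1 ∧ u.im ∈ Icc (-1 : ℤ) 1 := by
  have h1 : Zsqrtd.norm u = 1 := by
    rw [Zsqrtd.norm_eq_one_iff' (by norm_num)]
    exact hu
  rw [Zsqrtd.norm_def] at h1
  rw [mem_Icc, mem_Icc]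
  refine ⟨⟨?_, ?_⟩, ⟨?_, ?_⟩⟩ <;> nlinarith [sq_nonneg u.re, sq_nonneg u.im]

open Classical in
/-- the pairs with the determinant `± D` and the ratio `t` -/
noncomputable def prs (R : ℝ) (D : ℕ) (t : ℤ) : Finset (ZI × ZI) :=
  ((cw R) ×ˢ (cw R)).filter (fun p => (dl p.1 p.2).natAbs = D ∧ ((D : ℕ) : ZI) ∣ p.2 - (t : ZI) * p.1)

/-- the cell of a pair -/
noncomputable def cell (R : ℝ) (D : ℕ) (t : ℤ) (p : ZI × ZI) : ℤ × ℤ :=
  (⌊8 * R ^ 2 * (((p.2 : ℂ) / (p.1 : ℂ) - t) / D).re⌋, ⌊8 * R ^ 2 * (((p.2 : ℂ) / (p.1 : ℂ) - t) / D).im⌋)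

lemma pt_eq {D : ℕ} (hD : 1 ≤ D) {w1 w2 ws : ZI} {t : ℤ} (h0 : w1 ≠ 0)
    (h : w2 = (t : ZI) * w1 + ((D : ℕ) : ZI) * ws) : ((w2 : ℂ) / (w1 : ℂ) - t) / D = pt w1 ws := by
  have h1 := coe_ne h0
  have hD' : (D : ℂ) ≠ 0 := by
    have : D ≠ 0 := by omega
    exact_mod_cast this
  have h2 : (w2 : ℂ) = t * (w1 : ℂ) + D * (ws : ℂ) := by
    rw [h, GaussianInt.toComplex_add, GaussianInt.toComplex_mul, GaussianInt.toComplex_mul]
    simp
  unfold pt
  rw [h2]
  field_simp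
  ring

lemma floor_close {x y : ℝ} (h : ⌊x⌋ = ⌊y⌋) : |x - y| < 1 := Int.abs_sub_lt_one_of_floor_eq_floor h

open Classical in
theorem prs_card {R : ℝ} (hR : 1 ≤ R) {D : ℕ} (hD : 1 ≤ D) (t : ℤ) :
    ((prs R D t).card : ℝ) ≤ 6480 * R ^ 2 / D := by
  have hR0 : 0 < R := by linarith
  have hDR : (0 : ℝ) < D := by exact_mod_cast hD
  rcases (prs R D t).eq_empty_or_nonempty with he | ⟨p0, hp0⟩
  · rw [he]
    simp
    positivity
  -- `D ≤ 4 R²`
  have hD4 : (D : ℝ) ≤ 4 * R ^ 2 := by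
    unfold prs at hp0
    rw [mem_filter, mem_product] at hp0
    obtain ⟨⟨h1, h2⟩, h3, -⟩ := hp0
    have e1 : (D : ℝ) = |dlc (p0.1 : ℂ) (p0.2 : ℂ)| := by
      rw [dlc_eq, ← h3, Nat.cast_natAbs, Int.cast_abs]
    rw [e1]
    unfold dlc
    refine (Complex.abs_im_le_norm _).trans ?_
    rw [norm_mul, RCLike.norm_conj]
    have a1 := (norm_cw hR h1).2
    have a2 := (norm_cw hR h2).2
    nlinarith [norm_nonneg (p0.1 : ℂ), norm_nonneg (p0.2 : ℂ)]
  -- the fibres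
  have hfib : ∀ c ∈ (prs R D t).image (cell R D t), ((prs R D t).filter (fun p => cell R D t p = c)).card ≤ 9 := by
    intro c hc
    rw [mem_image] at hc
    obtain ⟨p, hp, rfl⟩ := hc
    have hp' := hp
    unfold prs at hp'
    rw [mem_filter, mem_product] at hp'
    obtain ⟨⟨h1, h2⟩, h3, h4⟩ := hp'
    obtain ⟨ws, hws, hdl⟩ := quo hD h3 h4
    have hn0 : p.1 ≠ 0 := by
      intro h0
      have := (norm_cw hR h1).1
      rw [h0] at this
      simp at this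
      linarith
    have hsub : (prs R D t).filter (fun q => cell R D t q = cell R D t p) ⊆
        ((Icc (-1 : ℤ) 1) ×ˢ (Icc (-1 : ℤ) 1)).image
          (fun k => (p.1 * (⟨k.1, k.2⟩ : ZI), p.2 * (⟨k.1, k.2⟩ : ZI))) := by
      intro q hq
      rw [mem_filter] at hq
      obtain ⟨hq, hcell⟩ := hq
      unfold prs at hq
      rw [mem_filter, mem_product] at hq
      obtain ⟨⟨g1, g2⟩, g3, g4⟩ := hq
      obtain ⟨ws', hws', hdl'⟩ := quo hD g3 g4
      have hm0 : q.1 ≠ 0 := by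
        intro h0
        have := (norm_cw hR g1).1
        rw [h0] at this
        simp at this
        linarith
      have heq : ws * q.1 = ws' * p.1 := by
        by_contra hne
        have s1 := sep hR h1 g1 hne
        unfold cell at hcell
        rw [Prod.mk.injEq, pt_eq hD hm0 hws', pt_eq hD hn0 hws] at hcell
        have f1 := floor_close hcell.1
        have f2 := floor_close hcell.2
        have k1 : (8 * R ^ 2) ^ 2 * ‖pt p.1 ws - pt q.1 ws'‖ ^ 2 < 2 := by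
          rw [← Complex.normSq_eq_norm_sq, Complex.normSq_apply, Complex.sub_re, Complex.sub_im]
          have l1 := abs_lt.1 f1
          have l2 := abs_lt.1 f2
          have m1 : (8 * R ^ 2 * (pt q.1 ws').re - 8 * R ^ 2 * (pt p.1 ws).re) ^ 2 < 1 := by
            nlinarith
          have m2 : (8 * R ^ 2 * (pt q.1 ws').im - 8 * R ^ 2 * (pt p.1 ws).im) ^ 2 < 1 := by
            nlinarith
          nlinarith
        have k2 : (8 * R ^ 2) ^ 2 * (1 / (4 * R ^ 2)) ^ 2 ≤ (8 * R ^ 2) ^ 2 * ‖pt p.1 ws - pt q.1 ws'‖ ^ 2 := by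
          gcongr
        have k3 : (8 * R ^ 2) ^ 2 * (1 / (4 * R ^ 2)) ^ 2 = 4 := by
          field_simp
          norm_num
        linarith
      obtain ⟨u, hu, e1, e2⟩ := same hdl hdl' hn0 heq
      obtain ⟨b1, b2⟩ := unit_box hu
      rw [mem_image]
      refine ⟨(u.re, u.im), mem_product.2 ⟨b1, b2⟩, ?_⟩
      have e3 : (⟨u.re, u.im⟩ : ZI) = u := rfl
      simp only [e3]
      apply Prod.ext
      · exact e1.symm
      · show p.2 * u = q.2
        rw [hws', hws, e1, e2]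
        ring
    refine (card_le_card hsub).trans (card_image_le.trans ?_)
    rw [card_product]
    decide
  have hcard : (prs R D t).card ≤ 9 * ((prs R D t).image (cell R D t)).card :=
    card_le_mul_card_image _ 9 hfib
  -- the cells
  set x0 : ℝ := 8 * R ^ 2 * (-(t : ℝ) / D - 2 / D) with hx0
  set x1 : ℝ := 8 * R ^ 2 * (-(t : ℝ) / D + 2 / D) with hx1
  have himg : (prs R D t).image (cell R D t) ⊆ (Icc ⌊x0⌋ ⌊x1⌋) ×ˢ (Icc (-8 : ℤ) 8) := by
    intro c hc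
    rw [mem_image] at hc
    obtain ⟨p, hp, rfl⟩ := hc
    unfold prs at hp
    rw [mem_filter, mem_product] at hp
    obtain ⟨⟨h1, h2⟩, h3, h4⟩ := hp
    obtain ⟨ws, hws, hdl⟩ := quo hD h3 h4
    obtain ⟨n1, n2⟩ := norm_cw hR h1
    obtain ⟨n3, n4⟩ := norm_cw hR h2
    have hn0 : p.1 ≠ 0 := by
      intro h0
      rw [h0] at n1
      simp at n1
      linarith
    have hD' : (D : ℂ) ≠ 0 := by
      have : D ≠ 0 := by omega
      exact_mod_cast this
    set z := ((p.2 : ℂ) / (p.1 : ℂ) - t) / D with hz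
    have hquot : ‖(p.2 : ℂ) / (p.1 : ℂ)‖ ≤ 2 := by
      rw [norm_div, div_le_iff₀ (by linarith)]
      linarith
    have hre : |z.re + t / D| ≤ 2 / D := by
      have e1 : z.re + t / D = (((p.2 : ℂ) / (p.1 : ℂ)) / (D : ℝ)).re := by
        rw [hz]
        have : ((p.2 : ℂ) / (p.1 : ℂ) - t) / D = ((p.2 : ℂ) / (p.1 : ℂ)) / (D : ℝ) - ((t / D : ℝ) : ℂ) := by
          push_cast
          rw [sub_div]
        rw [this, Complex.sub_re, Complex.ofReal_re]
        ring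
      rw [e1]
      refine (Complex.abs_re_le_norm _).trans ?_
      rw [norm_div, Complex.norm_real, Real.norm_of_nonneg hDR.le]
      exact div_le_div_of_nonneg_right hquot hDR.le
    have him : |z.im| ≤ 1 / R ^ 2 := by
      have e1 : z.im = dl p.1 ws / ‖(p.1 : ℂ)‖ ^ 2 := by
        rw [hz, pt_eq hD hn0 hws]
        unfold pt
        rw [Complex.div_im, Complex.normSq_eq_norm_sq, ← dlc_eq]
        unfold dlc
        rw [Complex.mul_im, Complex.conj_re, Complex.conj_im]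
        ring
      rw [e1, abs_div, abs_of_nonneg (sq_nonneg ‖(p.1 : ℂ)‖)]
      have e2 : |(dl p.1 ws : ℝ)| = 1 := by
        rcases hdl with h | h
        · rw [h]; simp
        · rw [h]; simp
      rw [e2]
      exact one_div_le_one_div_of_le (by positivity) (pow_le_pow_left₀ hR0.le n1 2)
    rw [mem_product]
    unfold cell
    simp only
    rw [← hz, mem_Icc, mem_Icc]
    have a1 := abs_le.1 hre
    have a2 := abs_le.1 him
    have hR2 : (0 : ℝ) < 8 * R ^ 2 := by positivity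
    refine ⟨⟨Int.floor_le_floor ?_, Int.floor_le_floor ?_⟩, ⟨Int.le_floor.2 ?_, ?_⟩⟩
    · rw [hx0]
      apply mul_le_mul_of_nonneg_left _ hR2.le
      have : -(t : ℝ) / D = -(t / D) := by ring
      rw [this]
      linarith
    · rw [hx1]
      apply mul_le_mul_of_nonneg_left _ hR2.le
      have : -(t : ℝ) / D = -(t / D) := by ring
      rw [this]
      linarith
    · push_cast
      have : 8 * R ^ 2 * (-(1 / R ^ 2)) ≤ 8 * R ^ 2 * z.im := mul_le_mul_of_nonneg_left a2.1 hR2.le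
      have e : 8 * R ^ 2 * (-(1 / R ^ 2)) = -8 := by field_simp
      linarith
    · have h5 : 8 * R ^ 2 * z.im ≤ 8 := by
        have : 8 * R ^ 2 * z.im ≤ 8 * R ^ 2 * (1 / R ^ 2) := mul_le_mul_of_nonneg_left a2.2 hR2.le
        have e : 8 * R ^ 2 * (1 / R ^ 2) = 8 := by field_simp
        linarith
      have h6 : ⌊8 * R ^ 2 * z.im⌋ ≤ ⌊(8 : ℝ)⌋ := Int.floor_le_floor h5
      have h7 : ⌊(8 : ℝ)⌋ = 8 := by norm_num
      omega
  have hcells : (((prs R D t).image (cell R D t)).card : ℝ) ≤ (x1 - x0 + 2) * 17 := by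
    have h1 := card_le_card himg
    rw [card_product, Int.card_Icc, Int.card_Icc] at h1
    have h2 : (((prs R D t).image (cell R D t)).card : ℝ) ≤
        (((⌊x1⌋ + 1 - ⌊x0⌋).toNat : ℕ) : ℝ) * (((8 : ℤ) + 1 - (-8)).toNat : ℕ) := by exact_mod_cast h1
    refine h2.trans ?_
    have h3 : x0 ≤ x1 := by
      rw [hx0, hx1]
      apply mul_le_mul_of_nonneg_left _ (by positivity)
      have : 0 < 2 / (D : ℝ) := by positivity
      linarith
    have h4 : ⌊x0⌋ ≤ ⌊x1⌋ := Int.floor_le_floor h3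
    have h5 : (((⌊x1⌋ + 1 - ⌊x0⌋).toNat : ℕ) : ℤ) = ⌊x1⌋ + 1 - ⌊x0⌋ := Int.toNat_of_nonneg (by omega)
    have h6 : (((⌊x1⌋ + 1 - ⌊x0⌋).toNat : ℕ) : ℝ) = ⌊x1⌋ + 1 - ⌊x0⌋ := by exact_mod_cast h5
    have h7 : ((((8 : ℤ) + 1 - (-8)).toNat : ℕ) : ℝ) = 17 := by
      have : ((8 : ℤ) + 1 - (-8)).toNat = 17 := by decide
      rw [this]
      norm_num
    rw [h6, h7]
    have h8 := Int.floor_le x1
    have h9 := Int.sub_one_lt_floor x0
    nlinarith
  have hx : x1 - x0 = 32 * R ^ 2 / D := by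
    rw [hx0, hx1]
    ring
  rw [hx] at hcells
  have hfin : ((prs R D t).card : ℝ) ≤ 9 * ((32 * R ^ 2 / D + 2) * 17) := by
    calc ((prs R D t).card : ℝ) ≤ 9 * (((prs R D t).image (cell R D t)).card : ℝ) := by exact_mod_cast hcard
      _ ≤ _ := by linarith
  have h2 : (2 : ℝ) ≤ 8 * R ^ 2 / D := by
    rw [le_div_iff₀ hDR]
    linarith
  calc ((prs R D t).card : ℝ) ≤ 9 * ((32 * R ^ 2 / D + 2) * 17) := hfin
    _ ≤ 9 * ((32 * R ^ 2 / D + 8 * R ^ 2 / D) * 17) := by linarith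
    _ = 6120 * R ^ 2 / D := by ring
    _ ≤ 6480 * R ^ 2 / D := by
      apply div_le_div_of_nonneg_right _ hDR.le
      nlinarith [sq_nonneg R]

end Pool.Agent.J6H16.TH
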