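import Pool.Agent.J6H16.TH.Ms3
import Pool.Agent.J6H16.TH.Prc
import Pool.Agent.N7.GN.Bil3

/-!
# The bilinear form with the kernel, for large determinants
-/

set_option autoImplicit false

namespace Pool.Agent.J6H16.TH

open Finset
open Pool.Agent.N782.GN
open Pool.Agent.N7.GN.Bil (rr F S F_congr F_le A2_eq sum_tau sum_H harm mem_cw norm_cw dlc_eq small)

open Classical in
/-- (BIL2) the bilinear form with a kernel, the large determinants by the mean square over the ratios -/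
def S_BIL2 : Prop := ∃ C : ℝ, 0 < C ∧ ∀ (R κ₀ κ₁ s δ η E ℒ : ℝ) (Q n N : ℕ) (x1 x2 : ℤ) (K : ℂ → ℂ → ℝ) (β : ZI → ℝ)
  (lam : ℤ → ℝ), 1 ≤ R → 0 < s → s ≤ 1 → 1 ≤ s * R ^ 2 → 0 < δ → δ ≤ 1 / 100 → 0 < η → η ≤ 1 / 100 → 0 ≤ κ₀ → 0 ≤ κ₁ →
  0 ≤ E → 1 ≤ Q → 1 ≤ n → 0 ≤ x1 → x1 + n ≤ N → 0 ≤ x2 → x2 + n ≤ N → 1 + Real.log (s * R ^ 2) ≤ ℒ →
  1 + Real.log N ≤ ℒ → Ker R κ₀ κ₁ s δ η K →
  (∀ z1 z2 : ℂ, R ≤ ‖z1‖ → ‖z1‖ ≤ 2 * R → R ≤ ‖z2‖ → ‖z2‖ ≤ 2 * R → |K z1 z2| * |dlc z1 z2| ≤ 1) →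
  (∀ w, |β w| ≤ 1) → (∀ l, |lam l| ≤ 1) →
  (∀ (q : ℕ) (r : ZI) (Y1 Y2 : ℝ), 1 ≤ q → q ≤ Q → R ^ 2 ≤ Y1 → Y1 ≤ Y2 → Y2 ≤ 4 * R ^ 2 →
    ∫ x in (0 : ℝ)..(2 * Real.pi), (∑ t ∈ (cw R).filter (fun t => Y1 < nz t ∧ nz t ≤ Y2 ∧ ((q : ℕ) : ZI) ∣ t - r),
      β t * sc δ x t) ^ 2 ≤ E) →
  |∑ w1 ∈ cw R, ∑ w2 ∈ cw R, β w1 * β w2 * (|(dl w1 w2 : ℝ)| * K w1 w2) *
      A2 lam (Ioc x1 (x1 + n)) (Ioc x2 (x2 + n)) w1 w2| ≤
    C * (R ^ 2 * ℒ ^ 20 * ((N : ℝ) ^ 2 / Real.sqrt Q + N * Real.sqrt (s * R ^ 2)) +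
      (Q : ℝ) ^ 5 * (n : ℝ) ^ 2 * (κ₁ * R ^ 2 * ((s + δ) * R ^ 2) + κ₀ * s * E / (δ ^ 2 * η ^ 2)))

lemma mod_mem {D d : ℕ} (hD : 1 ≤ D) (h : d ∣ D) {ρ : ℕ} (hρ : ρ ∈ rr D) : ρ % d ∈ rr d := by
  have hd : 0 < d := Nat.pos_of_dvd_of_pos h hD
  unfold rr at hρ ⊢
  rw [mem_filter, mem_range] at hρ ⊢
  refine ⟨Nat.mod_lt _ hd, ?_⟩
  have h1 : Nat.Coprime ρ d := Nat.Coprime.coprime_dvd_right h hρ.2
  unfold Nat.Coprime at h1 ⊢
  rw [← Nat.gcd_rec] 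
  rw [Nat.gcd_comm]
  exact h1

lemma lift_sum {D d : ℕ} (hD : 1 ≤ D) (h : d ∣ D) (g : ℕ → ℝ) (hg : ∀ x, 0 ≤ g x) :
    ∑ ρ ∈ rr D, g (ρ % d) ≤ ((D / d : ℕ) : ℝ) * ∑ τ ∈ rr d, g τ := by
  have hd : 0 < d := Nat.pos_of_dvd_of_pos h hD
  rw [← sum_fiberwise_of_maps_to (g := fun ρ => ρ % d) (t := rr d) (fun ρ hρ => mod_mem hD h hρ), mul_sum]
  refine sum_le_sum fun τ _ => ?_
  have h1 : ∑ ρ ∈ (rr D).filter (fun ρ => ρ % d = τ), g (ρ % d) =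
      ∑ _ρ ∈ (rr D).filter (fun ρ => ρ % d = τ), g τ := by
    refine sum_congr rfl fun ρ hρ => ?_
    rw [mem_filter] at hρ
    rw [hρ.2]
  rw [h1, sum_const, nsmul_eq_mul]
  refine mul_le_mul_of_nonneg_right ?_ (hg τ)
  norm_cast
  rw [← card_range (D / d)]
  apply card_le_card_of_injOn (fun ρ => ρ / d)
  · intro ρ hρ
    rw [mem_coe, mem_filter] at hρ
    unfold rr at hρ
    rw [mem_filter, mem_range] at hρ
    rw [mem_coe, mem_range]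
    exact Nat.div_lt_div_of_lt_of_dvd h hρ.1.1
  · intro ρ hρ ρ' hρ' he
    rw [mem_coe, mem_filter] at hρ hρ'
    simp only at he
    rw [← Nat.div_add_mod ρ d, ← Nat.div_add_mod ρ' d, he, hρ.2, hρ'.2]

/-- the first power mean over the ratios -/
noncomputable def gd (I1 I2 : Finset ℤ) (lam : ℤ → ℝ) (d : ℕ) : ℝ :=
  (1 / (d : ℝ)) * ∑ τ ∈ rr d, ‖F I1 I2 lam d τ‖

lemma gd_nonneg (I1 I2 : Finset ℤ) (lam : ℤ → ℝ) (d : ℕ) : 0 ≤ gd I1 I2 lam d :=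
  mul_nonneg (by positivity) (sum_nonneg fun _ _ => norm_nonneg _)

open Classical in
/-- the pairs with a given determinant -/
lemma one_D {R : ℝ} (hR : 1 ≤ R) {D : ℕ} (hD : 1 ≤ D) (Q : ℕ) (I1 I2 : Finset ℤ) (lam : ℤ → ℝ) (tt : ZI × ZI → ℤ)
    (htt : ∀ p ∈ (cw R) ×ˢ (cw R), (dl p.1 p.2).natAbs = D → IsCoprime (tt p) (D : ℤ) ∧
      ((D : ℕ) : ZI) ∣ p.2 - (tt p : ZI) * p.1) :
    ∑ p ∈ ((cw R) ×ˢ (cw R)).filter (fun p => (dl p.1 p.2).natAbs = D),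
      ∑ d ∈ D.divisors.filter (fun d => Q < d), ‖F I1 I2 lam d (tt p)‖ ≤
      6480 * R ^ 2 * ∑ d ∈ D.divisors.filter (fun d => Q < d), gd I1 I2 lam d := by
  have hD0 : (0 : ℤ) < D := by exact_mod_cast hD
  have hDr : (0 : ℝ) < D := by exact_mod_cast hD
  set Pr := ((cw R) ×ˢ (cw R)).filter (fun p => (dl p.1 p.2).natAbs = D) with hPr
  have hcast : ∀ x : ℤ, (((x % D).toNat : ℕ) : ℤ) = x % D := fun x =>
    Int.toNat_of_nonneg (Int.emod_nonneg x hD0.ne')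
  let ρ : ZI × ZI → ℕ := fun p => (tt p % D).toNat
  let Φ : ℕ → ℝ := fun r => ∑ d ∈ D.divisors.filter (fun d => Q < d), ‖F I1 I2 lam d (r : ℤ)‖
  have hΦ : ∀ r, 0 ≤ Φ r := fun r => sum_nonneg fun _ _ => norm_nonneg _
  have hdv : ∀ p, (D : ℤ) ∣ tt p - (ρ p : ℤ) := by
    intro p
    show (D : ℤ) ∣ tt p - (((tt p % D).toNat : ℕ) : ℤ)
    rw [hcast]
    exact Int.dvd_self_sub_emod
  have e1 : ∀ p ∈ Pr, ∑ d ∈ D.divisors.filter (fun d => Q < d), ‖F I1 I2 lam d (tt p)‖ = Φ (ρ p) := by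
    intro p _
    refine sum_congr rfl fun d hd => ?_
    rw [mem_filter, Nat.mem_divisors] at hd
    have hd1 : 1 ≤ d := by omega
    rw [F_congr I1 I2 lam hd1 (τ' := (ρ p : ℤ))]
    exact (Int.natCast_dvd_natCast.2 hd.1.1).trans (hdv p)
  rw [sum_congr rfl e1]
  have hmap : ∀ p ∈ Pr, ρ p ∈ rr D := by
    intro p hp
    rw [hPr, mem_filter] at hp
    obtain ⟨h1, -⟩ := htt p hp.1 hp.2
    unfold rr
    rw [mem_filter, mem_range]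
    have h2 := Int.emod_lt_of_pos (tt p) hD0
    have h3 := Int.emod_nonneg (tt p) hD0.ne'
    refine ⟨?_, ?_⟩
    · show (tt p % D).toNat < D
      omega
    · rw [← Nat.isCoprime_iff_coprime]
      show IsCoprime (((tt p % D).toNat : ℕ) : ℤ) (D : ℤ)
      rw [hcast]
      have h4 : tt p % (D : ℤ) = tt p + D * (-(tt p / D)) := by
        have := Int.emod_add_mul_ediv (tt p) D
        linarith
      rw [h4]
      exact h1.add_mul_left_left _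
  rw [← sum_fiberwise_of_maps_to hmap]
  have e2 : ∀ r ∈ rr D, ∑ p ∈ Pr.filter (fun p => ρ p = r), Φ (ρ p) ≤ 6480 * R ^ 2 / D * Φ r := by
    intro r _
    have h1 : ∑ p ∈ Pr.filter (fun p => ρ p = r), Φ (ρ p) = ∑ _p ∈ Pr.filter (fun p => ρ p = r), Φ r := by
      refine sum_congr rfl fun p hp => ?_
      rw [mem_filter] at hp
      rw [hp.2]
    rw [h1, sum_const, nsmul_eq_mul]
    refine mul_le_mul_of_nonneg_right ?_ (hΦ r)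
    refine le_trans ?_ (prs_card hR hD (r : ℤ))
    norm_cast
    apply card_le_card
    intro p hp
    rw [mem_filter, hPr, mem_filter] at hp
    obtain ⟨⟨hp1, hp2⟩, hp3⟩ := hp
    unfold prs
    rw [mem_filter]
    refine ⟨hp1, hp2, ?_⟩
    obtain ⟨-, h2⟩ := htt p hp1 hp2
    have h3 : ((D : ℕ) : ZI) ∣ ((tt p - (r : ℤ) : ℤ) : ZI) := by
      have h4 := hdv p
      rw [hp3] at h4
      obtain ⟨c, hc⟩ := h4
      exact ⟨(c : ZI), by rw [hc]; push_cast; rfl⟩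
    have h4 : p.2 - ((r : ℤ) : ZI) * p.1 = (p.2 - (tt p : ZI) * p.1) + ((tt p - (r : ℤ) : ℤ) : ZI) * p.1 := by
      push_cast
      ring
    rw [h4]
    exact dvd_add h2 (h3.mul_right _)
  refine (sum_le_sum e2).trans ?_
  rw [← mul_sum]
  have e3 : ∑ r ∈ rr D, Φ r ≤ ∑ d ∈ D.divisors.filter (fun d => Q < d), (D : ℝ) * gd I1 I2 lam d := by
    show ∑ r ∈ rr D, ∑ d ∈ D.divisors.filter (fun d => Q < d), ‖F I1 I2 lam d (r : ℤ)‖ ≤ _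
    rw [sum_comm]
    refine sum_le_sum fun d hd => ?_
    rw [mem_filter, Nat.mem_divisors] at hd
    have hd1 : 1 ≤ d := by omega
    have h1 := lift_sum hD hd.1.1 (fun x => ‖F I1 I2 lam d (x : ℤ)‖) (fun _ => norm_nonneg _)
    have h2 : ∑ r ∈ rr D, ‖F I1 I2 lam d (r : ℤ)‖ = ∑ r ∈ rr D, ‖F I1 I2 lam d ((r % d : ℕ) : ℤ)‖ := by
      refine sum_congr rfl fun r _ => ?_
      rw [F_congr I1 I2 lam hd1 (τ' := ((r % d : ℕ) : ℤ))]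
      push_cast
      exact Int.dvd_self_sub_emod
    rw [h2]
    refine h1.trans (le_of_eq ?_)
    unfold gd
    have hdr : (d : ℝ) ≠ 0 := by positivity
    rw [Nat.cast_div hd.1.1 hdr]
    field_simp
  calc 6480 * R ^ 2 / D * ∑ r ∈ rr D, Φ r ≤ 6480 * R ^ 2 / D *
        ∑ d ∈ D.divisors.filter (fun d => Q < d), (D : ℝ) * gd I1 I2 lam d :=
        mul_le_mul_of_nonneg_left e3 (by positivity)
    _ = _ := by
      rw [← mul_sum]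
      field_simp

/-- the mean over the moduli -/
lemma gd_total {N : ℕ} {I1 I2 : Finset ℤ} (h1 : ∀ l ∈ I1, 1 ≤ l ∧ l ≤ N) (h2 : ∀ l ∈ I2, 1 ≤ l ∧ l ≤ N)
    {lam : ℤ → ℝ} (hlam : ∀ l, |lam l| ≤ 1) {Q X : ℕ} (hQ : 1 ≤ Q) {ℒ : ℝ} (hℒ : 1 ≤ ℒ)
    (hN : 1 + Real.log N ≤ ℒ) (hX : 1 + Real.log X ≤ ℒ) :
    ∑ d ∈ Ioc Q X, (1 / (d : ℝ)) * gd I1 I2 lam d ≤
      14 * ℒ ^ 19 * ((N : ℝ) ^ 2 / Real.sqrt Q + N * Real.sqrt X) := by
  have hV := V_total h1 h2 hlam hQ hℒ hN hX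
  set Z : ℝ := (N : ℝ) ^ 4 / Q + (N : ℝ) ^ 2 * X with hZ
  have hQ0 : (0 : ℝ) < Q := by exact_mod_cast hQ
  have hZ0 : 0 ≤ Z := by positivity
  -- Cauchy–Schwarz
  set S0 : ℝ := ∑ d ∈ Ioc Q X, (1 / (d : ℝ)) * gd I1 I2 lam d with hS0
  have hS00 : 0 ≤ S0 := sum_nonneg fun d _ => mul_nonneg (by positivity) (gd_nonneg _ _ _ _)
  have e1 : S0 = ∑ p ∈ (Ioc Q X).sigma (fun d => rr d), (1 / (p.1 : ℝ)) * ((1 / (p.1 : ℝ)) * ‖F I1 I2 lam p.1 p.2‖) := by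
    rw [hS0, sum_sigma]
    refine sum_congr rfl fun d _ => ?_
    unfold gd
    rw [mul_sum, mul_sum]
  have hcs := sum_mul_sq_le_sq_mul_sq ((Ioc Q X).sigma (fun d => rr d)) (fun p => 1 / (p.1 : ℝ))
    (fun p => (1 / (p.1 : ℝ)) * ‖F I1 I2 lam p.1 p.2‖)
  rw [← e1, sum_sigma, sum_sigma] at hcs
  have e2 : ∑ d ∈ Ioc Q X, ∑ _τ ∈ rr d, (1 / (d : ℝ)) ^ 2 ≤ ℒ := by
    refine le_trans ?_ hX
    have a1 : ∀ d ∈ Ioc Q X, ∑ _τ ∈ rr d, (1 / (d : ℝ)) ^ 2 ≤ 1 / (d : ℝ) := by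
      intro d hd
      rw [mem_Ioc] at hd
      have hd0 : (0 : ℝ) < d := by
        have : 0 < d := by omega
        exact_mod_cast this
      rw [sum_const, nsmul_eq_mul]
      have a2 : ((rr d).card : ℝ) ≤ d := by
        have : (rr d).card ≤ (range d).card := card_filter_le _ _
        rw [card_range] at this
        exact_mod_cast this
      calc ((rr d).card : ℝ) * (1 / (d : ℝ)) ^ 2 ≤ d * (1 / (d : ℝ)) ^ 2 :=
            mul_le_mul_of_nonneg_right a2 (by positivity)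
        _ = 1 / (d : ℝ) := by field_simp
    refine (sum_le_sum a1).trans ?_
    have a3 : ∑ d ∈ Ioc Q X, 1 / (d : ℝ) ≤ ∑ e ∈ Icc 1 X, 1 / (e : ℝ) := by
      refine sum_le_sum_of_subset_of_nonneg ?_ fun _ _ _ => by positivity
      intro d hd
      rw [mem_Ioc] at hd
      rw [mem_Icc]
      omega
    refine a3.trans ?_
    have h4 := harmonic_le_one_add_log X
    have h5 : ((harmonic X : ℚ) : ℝ) = ∑ e ∈ Icc 1 X, 1 / (e : ℝ) := by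
      rw [harmonic_eq_sum_Icc]
      push_cast
      exact sum_congr rfl fun e _ => by rw [one_div]
    rw [← h5]
    exact h4
  have e3 : ∑ d ∈ Ioc Q X, ∑ τ ∈ rr d, ((1 / (d : ℝ)) * ‖F I1 I2 lam d τ‖) ^ 2 ≤ 192 * ℒ ^ 36 * Z := by
    refine le_trans (le_of_eq ?_) hV
    refine sum_congr rfl fun d _ => ?_
    unfold Vq
    rw [mul_sum]
    refine sum_congr rfl fun τ _ => ?_
    rw [mul_pow, one_div, one_div, inv_pow]
  have e4 : S0 ^ 2 ≤ (14 * ℒ ^ 19 * ((N : ℝ) ^ 2 / Real.sqrt Q + N * Real.sqrt X)) ^ 2 := by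
    have b1 : S0 ^ 2 ≤ ℒ * (192 * ℒ ^ 36 * Z) := by
      refine hcs.trans ?_
      refine mul_le_mul e2 e3 ?_ (by linarith)
      exact sum_nonneg fun d _ => sum_nonneg fun τ _ => by positivity
    have b2 : Z ≤ ((N : ℝ) ^ 2 / Real.sqrt Q + N * Real.sqrt X) ^ 2 := by
      have c1 : ((N : ℝ) ^ 2 / Real.sqrt Q) ^ 2 = (N : ℝ) ^ 4 / Q := by
        rw [div_pow, Real.sq_sqrt hQ0.le]
        ring
      have c2 : (N * Real.sqrt X) ^ 2 = (N : ℝ) ^ 2 * X := by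
        rw [mul_pow, Real.sq_sqrt (Nat.cast_nonneg X)]
      have c3 : 0 ≤ ((N : ℝ) ^ 2 / Real.sqrt Q) * (N * Real.sqrt X) := by positivity
      rw [hZ, ← c1, ← c2]
      nlinarith
    have b3 : ℒ * (192 * ℒ ^ 36 * Z) ≤ 196 * ℒ ^ 38 * Z := by
      have c4 : ℒ ^ 37 ≤ ℒ ^ 38 := pow_le_pow_right₀ hℒ (by norm_num)
      calc ℒ * (192 * ℒ ^ 36 * Z) = 192 * (ℒ ^ 37 * Z) := by ring
        _ ≤ 196 * (ℒ ^ 38 * Z) := by
            have : ℒ ^ 37 * Z ≤ ℒ ^ 38 * Z := mul_le_mul_of_nonneg_right c4 hZ0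
            have : 0 ≤ ℒ ^ 38 * Z := by positivity
            linarith
        _ = _ := by ring
    calc S0 ^ 2 ≤ 196 * ℒ ^ 38 * Z := b1.trans b3
      _ ≤ 196 * ℒ ^ 38 * ((N : ℝ) ^ 2 / Real.sqrt Q + N * Real.sqrt X) ^ 2 :=
          mul_le_mul_of_nonneg_left b2 (by positivity)
      _ = _ := by ring
  exact (abs_le_of_sq_le_sq' e4 (by positivity)).2

open Classical in
theorem bil2 (h1 : S_CHR) (h4 : S_KER) : S_BIL2 := by
  obtain ⟨C3, hC3, hker⟩ := h4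
  refine ⟨90720 + 2 * C3, by positivity, ?_⟩
  intro R κ₀ κ₁ s δ η E ℒ Q n N x1 x2 K β lam hR hs hs1 hsR hδ hδ1 hη hη1 hκ₀ hκ₁ hE hQ hn hx1 hx1N hx2 hx2N
    hLs hLN hKer hKdl hβ hlam hEE
  set I1 := Ioc x1 (x1 + (n : ℤ)) with hI1
  set I2 := Ioc x2 (x2 + (n : ℤ)) with hI2
  have hcard1 : (I1.card : ℝ) = n := by
    rw [hI1, Int.card_Ioc]
    have : (x1 + (n : ℤ) - x1).toNat = n := by omega
    rw [this]
  have hcard2 : (I2.card : ℝ) = n := by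
    rw [hI2, Int.card_Ioc]
    have : (x2 + (n : ℤ) - x2).toNat = n := by omega
    rw [this]
  -- the roots
  let tt : ZI → ZI → ℤ := fun w1 w2 =>
    if h : ct w1 = 1 ∧ ct w2 = 1 ∧ dl w1 w2 ≠ 0 then (h1 w1 w2 h.1 h.2.1 h.2.2).choose else 0
  have htt : ∀ w1 ∈ cw R, ∀ w2 ∈ cw R, dl w1 w2 ≠ 0 → IsCoprime (tt w1 w2) (dl w1 w2) ∧
      ((dl w1 w2 : ℤ) : ZI) ∣ w2 - (tt w1 w2 : ZI) * w1 ∧
      (∀ l1 l2 : ℤ, (∃ v : ZI, (w1 * v).re = l1 ∧ (w2 * v).re = l2) ↔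
        dl w1 w2 ∣ l2 - tt w1 w2 * l1) := by
    intro w1 hw1 w2 hw2 h0
    have h : ct w1 = 1 ∧ ct w2 = 1 ∧ dl w1 w2 ≠ 0 := ⟨(mem_cw hw1).2.2, (mem_cw hw2).2.2, h0⟩
    have h5 := (h1 w1 w2 h.1 h.2.1 h.2.2).choose_spec
    have h6 : tt w1 w2 = (h1 w1 w2 h.1 h.2.1 h.2.2).choose := dif_pos h
    rw [h6]
    exact ⟨h5.1, h5.2.1, h5.2.2.1⟩
  -- the two parts
  let P1 : ZI → ZI → ℂ := fun w1 w2 =>
    ∑ d ∈ (dl w1 w2).natAbs.divisors.filter (fun d => Q < d), F I1 I2 lam d (tt w1 w2)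
  let P2 : ZI → ZI → ℂ := fun w1 w2 => ∑ d ∈ Icc 1 Q, ∑ τ ∈ range d,
    (if ((d : ℕ) : ZI) ∣ w2 - ((τ : ℤ) : ZI) * w1 then F I1 I2 lam d τ else 0)
  have hterm : ∀ w1 ∈ cw R, ∀ w2 ∈ cw R,
      ((β w1 * β w2 * (|(dl w1 w2 : ℝ)| * K w1 w2) * A2 lam I1 I2 w1 w2 : ℝ) : ℂ) =
        ((β w1 * β w2 * K w1 w2 : ℝ) : ℂ) * P1 w1 w2 +
          ((β w1 * β w2 * K w1 w2 : ℝ) : ℂ) * P2 w1 w2 := by
    intro w1 hw1 w2 hw2
    by_cases h0 : dl w1 w2 = 0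
    · have hK0 : K w1 w2 = 0 := hKer.zero _ _ (by rw [dlc_eq, h0, Int.cast_zero])
      rw [hK0]
      simp
    · obtain ⟨-, hdv, hlat⟩ := htt w1 hw1 w2 hw2 h0
      have h5 := A2_eq h0 hlat lam I1 I2
      have h6 : P2 w1 w2 = ∑ d ∈ (dl w1 w2).natAbs.divisors.filter (fun d => ¬ Q < d),
          F I1 I2 lam d (tt w1 w2) := by
        have h7 : ∀ d ∈ Icc 1 Q, ∑ τ ∈ range d,
            (if ((d : ℕ) : ZI) ∣ w2 - ((τ : ℤ) : ZI) * w1 then F I1 I2 lam d τ else 0) =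
            if (d : ℤ) ∣ dl w1 w2 then F I1 I2 lam d (tt w1 w2) else 0 := by
          intro d hd
          exact sum_tau (mem_cw hw1).2.2 hdv I1 I2 lam (mem_Icc.1 hd).1
        show ∑ d ∈ Icc 1 Q, _ = _
        rw [sum_congr rfl h7, ← sum_filter]
        refine sum_congr ?_ fun _ _ => rfl
        ext d
        rw [mem_filter, mem_filter, Nat.mem_divisors, mem_Icc, Int.natCast_dvd]
        constructor
        · rintro ⟨⟨h8, h9⟩, h10⟩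
          exact ⟨⟨h10, Int.natAbs_ne_zero.2 h0⟩, by omega⟩
        · rintro ⟨⟨h8, h9⟩, h10⟩
          exact ⟨⟨Nat.pos_of_dvd_of_pos h8 (Nat.pos_of_ne_zero h9), by omega⟩, h8⟩
      have h7 : P1 w1 w2 + P2 w1 w2 = ((|(dl w1 w2 : ℝ)| * A2 lam I1 I2 w1 w2 : ℝ) : ℂ) := by
        rw [h5, h6]
        exact sum_filter_add_sum_filter_not _ _ _
      rw [← mul_add, h7]
      push_cast
      ring
  -- the first part
  set X := ⌊s * R ^ 2⌋₊ with hX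
  have hX1 : 1 ≤ X := Nat.le_floor (by simpa using hsR)
  have hXle : (X : ℝ) ≤ s * R ^ 2 := Nat.floor_le (by positivity)
  have hI1N : ∀ l ∈ I1, 1 ≤ l ∧ l ≤ N := by
    intro l hl
    rw [hI1, mem_Ioc] at hl
    omega
  have hI2N : ∀ l ∈ I2, 1 ≤ l ∧ l ≤ N := by
    intro l hl
    rw [hI2, mem_Ioc] at hl
    omega
  have hlogX : Real.log X ≤ Real.log (s * R ^ 2) :=
    Real.log_le_log (by exact_mod_cast hX1) hXle
  have hℒ1 : 1 ≤ ℒ := by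
    have := Real.log_nonneg hsR
    linarith
  have hpart1 : ‖∑ w1 ∈ cw R, ∑ w2 ∈ cw R, ((β w1 * β w2 * K w1 w2 : ℝ) : ℂ) * P1 w1 w2‖ ≤
      90720 * (R ^ 2 * ℒ ^ 20 * ((N : ℝ) ^ 2 / Real.sqrt Q + N * Real.sqrt (s * R ^ 2))) := by
    let Ψ : ZI × ZI → ℕ → ℝ := fun p D =>
      ∑ d ∈ D.divisors.filter (fun d => Q < d), ‖F I1 I2 lam d (tt p.1 p.2)‖
    have hb : ∀ p ∈ (cw R) ×ˢ (cw R), ‖((β p.1 * β p.2 * K p.1 p.2 : ℝ) : ℂ) * P1 p.1 p.2‖ ≤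
        ∑ D ∈ Icc 1 X, if (dl p.1 p.2).natAbs = D then (1 / (D : ℝ)) * Ψ p D else 0 := by
      rintro ⟨w1, w2⟩ hp
      rw [mem_product] at hp
      obtain ⟨hw1, hw2⟩ := hp
      simp only at hw1 hw2 ⊢
      rw [sum_ite_eq]
      obtain ⟨hn1, hn2⟩ := norm_cw hR hw1
      obtain ⟨hn3, hn4⟩ := norm_cw hR hw2
      by_cases h0 : dl w1 w2 = 0
      · have hK0 : K w1 w2 = 0 := hKer.zero _ _ (by rw [dlc_eq, h0, Int.cast_zero])
        rw [hK0, h0]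
        simp
      · have hpos : 1 ≤ (dl w1 w2).natAbs := Int.natAbs_pos.2 h0
        have hDr : |(dl w1 w2 : ℝ)| = (((dl w1 w2).natAbs : ℕ) : ℝ) := by
          rw [Nat.cast_natAbs, Int.cast_abs]
        by_cases hle : (dl w1 w2).natAbs ≤ X
        · rw [if_pos (mem_Icc.2 ⟨hpos, hle⟩)]
          have h5 := hKdl w1 w2 hn1 hn2 hn3 hn4
          rw [dlc_eq, hDr] at h5
          have hDpos : (0 : ℝ) < (((dl w1 w2).natAbs : ℕ) : ℝ) := by exact_mod_cast hpos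
          have h6 : |K w1 w2| ≤ 1 / (((dl w1 w2).natAbs : ℕ) : ℝ) := by
            rw [le_div_iff₀ hDpos]
            exact h5
          rw [norm_mul, Complex.norm_real, Real.norm_eq_abs, abs_mul, abs_mul]
          have h7 : |β w1| * |β w2| * |K w1 w2| ≤ 1 / (((dl w1 w2).natAbs : ℕ) : ℝ) := by
            have h8 : |β w1| * |β w2| ≤ 1 := mul_le_one₀ (hβ w1) (abs_nonneg _) (hβ w2)
            calc |β w1| * |β w2| * |K w1 w2| ≤ 1 * |K w1 w2| :=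
                  mul_le_mul_of_nonneg_right h8 (abs_nonneg _)
              _ ≤ _ := by rw [one_mul]; exact h6
          refine mul_le_mul h7 ?_ (norm_nonneg _) (by positivity)
          exact norm_sum_le _ _
        · have h5 : s * R ^ 2 < |dlc (w1 : ℂ) (w2 : ℂ)| := by
            rw [dlc_eq, hDr]
            rw [hX, not_le, Nat.floor_lt (by positivity)] at hle
            exact hle
          have hK0 : K w1 w2 = 0 := hKer.supp _ _ hn1 hn2 hn3 hn4 h5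
          rw [hK0]
          rw [if_neg (fun h => hle (mem_Icc.1 h).2)]
          simp
    have h5 : ‖∑ w1 ∈ cw R, ∑ w2 ∈ cw R, ((β w1 * β w2 * K w1 w2 : ℝ) : ℂ) * P1 w1 w2‖ ≤
        ∑ D ∈ Icc 1 X, (1 / (D : ℝ)) *
          ∑ p ∈ ((cw R) ×ˢ (cw R)).filter (fun p => (dl p.1 p.2).natAbs = D), Ψ p D := by
      rw [← sum_product' (f := fun w1 w2 => ((β w1 * β w2 * K w1 w2 : ℝ) : ℂ) * P1 w1 w2)]
      refine (norm_sum_le _ _).trans ?_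
      refine (sum_le_sum hb).trans (le_of_eq ?_)
      rw [sum_comm]
      refine sum_congr rfl fun D _ => ?_
      rw [← sum_filter, mul_sum]
    refine h5.trans ?_
    have h6 : ∀ D ∈ Icc 1 X, (1 / (D : ℝ)) *
          ∑ p ∈ ((cw R) ×ˢ (cw R)).filter (fun p => (dl p.1 p.2).natAbs = D), Ψ p D ≤
        6480 * R ^ 2 * ((1 / (D : ℝ)) * ∑ d ∈ D.divisors.filter (fun d => Q < d), gd I1 I2 lam d) := by
      intro D hD
      rw [mem_Icc] at hD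
      have h7 := one_D hR hD.1 Q I1 I2 lam (fun p => tt p.1 p.2) (by
        intro p hp hpD
        rw [mem_product] at hp
        have h0 : dl p.1 p.2 ≠ 0 := by
          intro h0
          rw [h0] at hpD
          simp at hpD
          omega
        obtain ⟨a1, a2, -⟩ := htt p.1 hp.1 p.2 hp.2 h0
        have a3 : (D : ℤ) ∣ dl p.1 p.2 := by
          rw [← hpD]
          exact Int.natAbs_dvd.2 dvd_rfl
        have a4 : dl p.1 p.2 ∣ (D : ℤ) := by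
          rw [← hpD]
          exact Int.dvd_natAbs.2 dvd_rfl
        refine ⟨a1.of_isCoprime_of_dvd_right a3, ?_⟩
        refine dvd_trans ?_ a2
        obtain ⟨c, hc⟩ := a3
        exact ⟨(c : ZI), by rw [hc]; push_cast; rfl⟩)
      calc (1 / (D : ℝ)) *
            ∑ p ∈ ((cw R) ×ˢ (cw R)).filter (fun p => (dl p.1 p.2).natAbs = D), Ψ p D
          ≤ (1 / (D : ℝ)) * (6480 * R ^ 2 * ∑ d ∈ D.divisors.filter (fun d => Q < d), gd I1 I2 lam d) :=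
            mul_le_mul_of_nonneg_left h7 (by positivity)
        _ = _ := by ring
    refine (sum_le_sum h6).trans ?_
    rw [← mul_sum]
    have h7 := sum_H (Q := Q) (X := X) (gd I1 I2 lam) (gd_nonneg I1 I2 lam)
    have hlog0 : 0 ≤ Real.log X := Real.log_natCast_nonneg X
    have h8 := gd_total hI1N hI2N hlam (Q := Q) (X := X) hQ hℒ1 hLN (by linarith)
    have h9 : (N : ℝ) ^ 2 / Real.sqrt Q + N * Real.sqrt X ≤
        (N : ℝ) ^ 2 / Real.sqrt Q + N * Real.sqrt (s * R ^ 2) := by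
      have : Real.sqrt X ≤ Real.sqrt (s * R ^ 2) := Real.sqrt_le_sqrt hXle
      have : N * Real.sqrt X ≤ N * Real.sqrt (s * R ^ 2) := mul_le_mul_of_nonneg_left this (Nat.cast_nonneg N)
      linarith
    have h10 : 0 ≤ ∑ d ∈ Ioc Q X, (1 / (d : ℝ)) * gd I1 I2 lam d :=
      sum_nonneg fun d _ => mul_nonneg (by positivity) (gd_nonneg _ _ _ _)
    have h11 : 0 ≤ (N : ℝ) ^ 2 / Real.sqrt Q + N * Real.sqrt (s * R ^ 2) := by positivity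
    calc 6480 * R ^ 2 * ∑ D ∈ Icc 1 X, (1 / (D : ℝ)) * ∑ d ∈ D.divisors.filter (fun d => Q < d), gd I1 I2 lam d
        ≤ 6480 * R ^ 2 * (ℒ * (14 * ℒ ^ 19 * ((N : ℝ) ^ 2 / Real.sqrt Q + N * Real.sqrt (s * R ^ 2)))) := by
          refine mul_le_mul_of_nonneg_left ?_ (by positivity)
          refine h7.trans ?_
          refine mul_le_mul (by linarith) (h8.trans ?_) h10 (by linarith)
          exact mul_le_mul_of_nonneg_left h9 (by positivity)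
      _ = _ := by ring
  -- the second part
  set B := C3 * (κ₁ * R ^ 2 * ((s + δ) * R ^ 2 + 1) + κ₀ * s * E / (δ ^ 2 * η ^ 2)) with hB
  have hB0 : 0 ≤ B := by positivity
  have hpart2 : ‖∑ w1 ∈ cw R, ∑ w2 ∈ cw R, ((β w1 * β w2 * K w1 w2 : ℝ) : ℂ) * P2 w1 w2‖ ≤
      (Q : ℝ) ^ 5 * (n : ℝ) ^ 2 * B := by
    have h5 : ∑ w1 ∈ cw R, ∑ w2 ∈ cw R, ((β w1 * β w2 * K w1 w2 : ℝ) : ℂ) * P2 w1 w2 =
        ∑ d ∈ Icc 1 Q, ∑ τ ∈ range d, F I1 I2 lam d (τ : ℤ) *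
          ((∑ w1 ∈ cw R, ∑ w2 ∈ cw R, (if ((d : ℕ) : ZI) ∣ w2 - ((τ : ℤ) : ZI) * w1 then
            β w1 * β w2 * K w1 w2 else 0) : ℝ) : ℂ) := by
      have h6 : ∀ w1 w2 : ZI, ((β w1 * β w2 * K w1 w2 : ℝ) : ℂ) * P2 w1 w2 =
          ∑ d ∈ Icc 1 Q, ∑ τ ∈ range d, F I1 I2 lam d (τ : ℤ) *
            ((if ((d : ℕ) : ZI) ∣ w2 - ((τ : ℤ) : ZI) * w1 then β w1 * β w2 * K w1 w2 else 0 : ℝ) : ℂ) := by
        intro w1 w2
        show _ * ∑ d ∈ Icc 1 Q, _ = _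
        rw [mul_sum]
        refine sum_congr rfl fun d _ => ?_
        rw [mul_sum]
        refine sum_congr rfl fun τ _ => ?_
        by_cases h7 : ((d : ℕ) : ZI) ∣ w2 - ((τ : ℤ) : ZI) * w1
        · rw [if_pos h7, if_pos h7]
          ring
        · rw [if_neg h7, if_neg h7]
          simp
      calc _ = ∑ w1 ∈ cw R, ∑ w2 ∈ cw R, ∑ d ∈ Icc 1 Q, ∑ τ ∈ range d, F I1 I2 lam d (τ : ℤ) *
            ((if ((d : ℕ) : ZI) ∣ w2 - ((τ : ℤ) : ZI) * w1 then β w1 * β w2 * K w1 w2 else 0 : ℝ) : ℂ) :=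
          sum_congr rfl fun w1 _ => sum_congr rfl fun w2 _ => h6 w1 w2
        _ = ∑ w1 ∈ cw R, ∑ d ∈ Icc 1 Q, ∑ τ ∈ range d, ∑ w2 ∈ cw R, F I1 I2 lam d (τ : ℤ) *
            ((if ((d : ℕ) : ZI) ∣ w2 - ((τ : ℤ) : ZI) * w1 then β w1 * β w2 * K w1 w2 else 0 : ℝ) : ℂ) := by
          refine sum_congr rfl fun w1 _ => ?_
          rw [sum_comm]
          exact sum_congr rfl fun d _ => sum_comm
        _ = ∑ d ∈ Icc 1 Q, ∑ τ ∈ range d, ∑ w1 ∈ cw R, ∑ w2 ∈ cw R, F I1 I2 lam d (τ : ℤ) *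
            ((if ((d : ℕ) : ZI) ∣ w2 - ((τ : ℤ) : ZI) * w1 then β w1 * β w2 * K w1 w2 else 0 : ℝ) : ℂ) := by
          rw [sum_comm]
          exact sum_congr rfl fun d _ => sum_comm
        _ = _ := by
          refine sum_congr rfl fun d _ => sum_congr rfl fun τ _ => ?_
          push_cast
          rw [mul_sum]
          refine sum_congr rfl fun w1 _ => ?_
          rw [mul_sum]
    rw [h5]
    have h6 : ∀ d ∈ Icc 1 Q, ∀ τ ∈ range d, ‖F I1 I2 lam d (τ : ℤ) *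
          ((∑ w1 ∈ cw R, ∑ w2 ∈ cw R, (if ((d : ℕ) : ZI) ∣ w2 - ((τ : ℤ) : ZI) * w1 then
            β w1 * β w2 * K w1 w2 else 0) : ℝ) : ℂ)‖ ≤ (Q : ℝ) ^ 3 * (n : ℝ) ^ 2 * B := by
      intro d hd τ _
      rw [mem_Icc] at hd
      have hdQ : (d : ℝ) ≤ Q := by exact_mod_cast hd.2
      rw [norm_mul, Complex.norm_real, Real.norm_eq_abs]
      have h7 := F_le I1 I2 hlam d (τ : ℤ)
      rw [hcard1, hcard2] at h7
      have h8 : |∑ w1 ∈ cw R, ∑ w2 ∈ cw R, (if ((d : ℕ) : ZI) ∣ w2 - ((τ : ℤ) : ZI) * w1 then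
          β w1 * β w2 * K w1 w2 else 0)| ≤ (d : ℝ) ^ 2 * B := by
        refine small (C := C3) (R := R) (κ₀ := κ₀) (κ₁ := κ₁) (s := s) (δ := δ) (η := η) (E := E)
          (K := K) ?_ hβ hd.1 ?_ (τ : ℤ)
        · intro β1 β2 hβ1 hβ2 hI hJ
          exact hker R κ₀ κ₁ s δ η E K β1 β2 hR hs hs1 hδ hδ1 hη hη1 hκ₀ hκ₁ hE hKer hβ1 hβ2 hI hJ
        · intro r Y1 Y2 hY1 hY2 hY3
          exact hEE d r Y1 Y2 hd.1 hd.2 hY1 hY2 hY3
      calc _ ≤ ((d : ℝ) * ((n : ℝ) * n)) * ((d : ℝ) ^ 2 * B) :=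
            mul_le_mul h7 h8 (abs_nonneg _) (by positivity)
        _ = (d : ℝ) ^ 3 * ((n : ℝ) ^ 2 * B) := by ring
        _ ≤ (Q : ℝ) ^ 3 * ((n : ℝ) ^ 2 * B) := by
            refine mul_le_mul_of_nonneg_right ?_ (by positivity)
            exact pow_le_pow_left₀ (Nat.cast_nonneg d) hdQ 3
        _ = _ := by ring
    refine (norm_sum_le _ _).trans ?_
    have h7 : ∀ d ∈ Icc 1 Q, ‖∑ τ ∈ range d, F I1 I2 lam d (τ : ℤ) *
          ((∑ w1 ∈ cw R, ∑ w2 ∈ cw R, (if ((d : ℕ) : ZI) ∣ w2 - ((τ : ℤ) : ZI) * w1 then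
            β w1 * β w2 * K w1 w2 else 0) : ℝ) : ℂ)‖ ≤ (Q : ℝ) * ((Q : ℝ) ^ 3 * (n : ℝ) ^ 2 * B) := by
      intro d hd
      refine (norm_sum_le _ _).trans ((sum_le_sum (h6 d hd)).trans ?_)
      rw [sum_const, card_range, nsmul_eq_mul]
      refine mul_le_mul_of_nonneg_right ?_ (by positivity)
      exact_mod_cast (mem_Icc.1 hd).2
    refine (sum_le_sum h7).trans (le_of_eq ?_)
    rw [sum_const, Nat.card_Icc, nsmul_eq_mul]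
    have : ((Q + 1 - 1 : ℕ) : ℝ) = Q := by norm_num
    rw [this]
    ring
  -- conclusion
  have hB1 : B ≤ 2 * C3 * (κ₁ * R ^ 2 * ((s + δ) * R ^ 2) + κ₀ * s * E / (δ ^ 2 * η ^ 2)) := by
    have h5 : 1 ≤ (s + δ) * R ^ 2 := by nlinarith [sq_nonneg R]
    have h6 : κ₁ * R ^ 2 * ((s + δ) * R ^ 2 + 1) ≤ κ₁ * R ^ 2 * (2 * ((s + δ) * R ^ 2)) :=
      mul_le_mul_of_nonneg_left (by linarith) (by positivity)
    have h7 : 0 ≤ κ₀ * s * E / (δ ^ 2 * η ^ 2) := by positivity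
    rw [hB]
    nlinarith
  have hlog1 : 0 ≤ Real.log (s * R ^ 2) := Real.log_nonneg hsR
  have hfin : |∑ w1 ∈ cw R, ∑ w2 ∈ cw R, β w1 * β w2 * (|(dl w1 w2 : ℝ)| * K w1 w2) *
      A2 lam I1 I2 w1 w2| =
      ‖∑ w1 ∈ cw R, ∑ w2 ∈ cw R, ((β w1 * β w2 * K w1 w2 : ℝ) : ℂ) * P1 w1 w2 +
        ∑ w1 ∈ cw R, ∑ w2 ∈ cw R, ((β w1 * β w2 * K w1 w2 : ℝ) : ℂ) * P2 w1 w2‖ := by
    rw [← Real.norm_eq_abs, ← Complex.norm_real, ← sum_add_distrib]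
    congr 1
    rw [Complex.ofReal_sum]
    refine sum_congr rfl fun w1 hw1 => ?_
    rw [Complex.ofReal_sum, ← sum_add_distrib]
    exact sum_congr rfl fun w2 hw2 => hterm w1 hw1 w2 hw2
  rw [hfin]
  refine (norm_add_le _ _).trans ?_
  have h5 : (Q : ℝ) ^ 5 * (n : ℝ) ^ 2 * B ≤ (Q : ℝ) ^ 5 * (n : ℝ) ^ 2 *
      (2 * C3 * (κ₁ * R ^ 2 * ((s + δ) * R ^ 2) + κ₀ * s * E / (δ ^ 2 * η ^ 2))) :=
    mul_le_mul_of_nonneg_left hB1 (by positivity)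
  have h6 : 0 ≤ R ^ 2 * ℒ ^ 20 * ((N : ℝ) ^ 2 / Real.sqrt Q + N * Real.sqrt (s * R ^ 2)) := by
    positivity
  have h7 : 0 ≤ (Q : ℝ) ^ 5 * (n : ℝ) ^ 2 *
      (κ₁ * R ^ 2 * ((s + δ) * R ^ 2) + κ₀ * s * E / (δ ^ 2 * η ^ 2)) := by positivity
  nlinarith [hpart1, hpart2, h5, mul_nonneg (by norm_num : (0 : ℝ) ≤ 90720) h7, mul_nonneg (by positivity : 0 ≤ 2 * C3) h6]

end Pool.Agent.J6H16.TH
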