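import Pool.Agent.N782.GN.FinA

/-!
# Project TH (helper16): from the average over `l ≤ L` to almost all `l ≤ L`, up to the length `L ^ (2 - ε)`
-/

set_option autoImplicit false

namespace Pool.Agent.J6H16.TH

open Finset Filter Topology Pool.Agent.N782.GN

/-- the hypothesis: small on average -/
structure Avg2 (S : ℝ → Finset ℤ) (f : ℤ → ℝ → ℝ) (s : ℤ → ℝ) : Prop where
  mono : ∀ l, ∀ y z : ℝ, y ≤ z → f l y ≤ f l z
  s0 : ∀ L : ℝ, ∀ l ∈ S L, 0 ≤ s l
  triv : ∃ C : ℝ, 0 < C ∧ ∀ L M : ℝ, 3 ≤ M → L ≤ M → ∀ l ∈ S L, f l M ≤ C * M * Real.log M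
  avg : ∀ (ε : ℝ) (A : ℕ), 0 < ε → ∃ C : ℝ, 0 < C ∧ ∀ M L : ℝ, 3 ≤ M → M ^ (1 / 2 + ε) ≤ L → L ≤ M ^ (1 - ε) →
    ∑ l ∈ S L, |f l M - M * s l| ≤ C * L * M / (Real.log M) ^ A

open Classical in
/-- the grid argument -/
theorem Avg2.grid {S : ℝ → Finset ℤ} {f : ℤ → ℝ → ℝ} {s : ℤ → ℝ} (h : Avg2 S f s) (ε : ℝ) (A : ℕ) (hε : 0 < ε) :
    ∃ L₀ : ℝ, ∀ L : ℝ, L₀ ≤ L →
      (((S L).filter (fun l => ¬ ∀ u : ℝ, L ^ (1 + ε) ≤ u → u ≤ L ^ (2 - ε) →
        |f l u - u * s l| ≤ u / (Real.log L) ^ A)).card : ℝ) ≤ L / (Real.log L) ^ A := by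
  by_cases hε4 : 1 / 2 < ε
  · -- the interval is empty
    obtain ⟨L₀, hL₀⟩ := eventually_atTop.1 (ev_log_pow 1 1 one_pos 0)
    refine ⟨max L₀ 3, fun L hL => ?_⟩
    have hL3 : 3 ≤ L := (le_max_right _ _).trans hL
    rw [filter_false_of_mem]
    · rw [card_empty]
      have : 0 ≤ Real.log L := Real.log_nonneg (by linarith)
      push_cast
      positivity
    · intro l _
      rw [not_not]
      intro u h1 h2
      exfalso
      have h3 : L ^ (2 - ε) < L ^ (1 + ε) := Real.rpow_lt_rpow_of_exponent_lt (by linarith) (by linarith)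
      linarith
  push Not at hε4
  obtain ⟨C₁, hC₁, htriv⟩ := h.triv
  set B : ℕ := A + 2 with hB
  set A' : ℕ := A + 2 * B + 2 with hA'
  obtain ⟨C, hC, havg⟩ := h.avg (ε / 10) A' (by positivity)
  have hev := ((((ev_log_pow 1 1 one_pos 0).and (eventually_ge_atTop (3 : ℝ))).and
    (ev_rpow_ge (ε / 2) 2 (by positivity))).and (ev_log_pow 1 (8 * C) one_pos 0)).and
    (ev_log_pow 1 (4 + 2 * C₁) one_pos 0)
  obtain ⟨L₀, hL₀⟩ := eventually_atTop.1 hev
  refine ⟨L₀, fun L hL => ?_⟩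
  obtain ⟨⟨⟨⟨hl1, hL3⟩, hL2⟩, hl2⟩, hl3⟩ := hL₀ L hL
  rw [zero_add, pow_one, one_mul] at hl1 hl2 hl3
  set ℓ := Real.log L with hℓ
  have hL0 : 0 < L := by linarith
  have hL1 : 1 ≤ L := by linarith
  have hℓ0 : 0 < ℓ := by linarith
  set ρ : ℝ := 1 + 1 / ℓ ^ B with hρ
  have hρ1 : 1 < ρ := by
    rw [hρ]
    have : 0 < 1 / ℓ ^ B := by positivity
    linarith
  have hℓB : 1 ≤ ℓ ^ B := one_le_pow₀ hl1
  have hρ2 : ρ ≤ 2 := by
    rw [hρ]
    have : 1 / ℓ ^ B ≤ 1 := by
      rw [div_le_one (by positivity)]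
      exact hℓB
    linarith
  set y : ℕ → ℝ := fun j => L ^ (1 + ε) * ρ ^ j with hy
  have hyL : ∀ j, L ^ (1 + ε) ≤ y j := fun j => by
    simp only [hy]
    exact le_mul_of_one_le_right (by positivity) (one_le_pow₀ hρ1.le)
  have hyL' : ∀ j, L ≤ y j := fun j => by
    refine le_trans ?_ (hyL j)
    calc L = L ^ (1 : ℝ) := (Real.rpow_one L).symm
      _ ≤ L ^ (1 + ε) := Real.rpow_le_rpow_of_exponent_le hL1 (by linarith)
  set J : ℕ := ⌈2 * ℓ ^ (B + 1)⌉₊ with hJ
  have hJ2 : (J : ℝ) ≤ 3 * ℓ ^ (B + 1) := by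
    have h1 := (Nat.ceil_lt_add_one (show 0 ≤ 2 * ℓ ^ (B + 1) by positivity)).le
    have h2 : 1 ≤ ℓ ^ (B + 1) := one_le_pow₀ hl1
    rw [hJ]
    linarith
  have hρJ : L ≤ ρ ^ J := by
    have h1 : 1 / ℓ ^ B / 2 ≤ Real.log ρ := by
      have h2 : 1 / ℓ ^ B ≤ 1 := by
        rw [div_le_one (by positivity)]
        exact hℓB
      have h3 : 0 < 1 / ℓ ^ B := by positivity
      have h4 := Real.one_sub_inv_le_log_of_pos (show 0 < ρ by linarith)
      refine le_trans ?_ h4
      rw [hρ]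
      set x := 1 / ℓ ^ B
      have h5 : 1 - (1 + x)⁻¹ = x / (1 + x) := by
        field_simp
        ring
      rw [h5]
      exact div_le_div_of_nonneg_left h3.le (by linarith) (by linarith)
    rw [← Real.log_le_log_iff hL0 (by positivity), Real.log_pow]
    have h2 : 2 * ℓ ^ (B + 1) ≤ J := Nat.le_ceil _
    calc Real.log L = 2 * ℓ ^ (B + 1) * (1 / ℓ ^ B / 2) := by
          rw [← hℓ, pow_succ]
          field_simp
      _ ≤ J * Real.log ρ := mul_le_mul h2 h1 (by positivity) (by positivity)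
  -- the bad set
  set Jset : Finset ℕ := (range (J + 1)).filter (fun j => y j ≤ L ^ (2 - ε / 2)) with hJset
  set bad : ℕ → Finset ℤ := fun j => (S L).filter (fun l => y j / ℓ ^ B < |f l (y j) - y j * s l|) with hbad
  have hbadc : ∀ j ∈ Jset, ((bad j).card : ℝ) ≤ C * L / ℓ ^ (A + B + 2) := by
    intro j hj
    rw [hJset, mem_filter] at hj
    have hy0 : 0 < y j := by linarith [hyL' j]
    have hy1 : 1 ≤ y j := by linarith [hyL' j]
    have k1 := havg (y j) L (by linarith [hyL' j]) ?_ ?_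
    · have k2 : ((bad j).card : ℝ) * (y j / ℓ ^ B) ≤ ∑ l ∈ S L, |f l (y j) - y j * s l| := by
        calc ((bad j).card : ℝ) * (y j / ℓ ^ B) = ∑ l ∈ bad j, y j / ℓ ^ B := by
              rw [sum_const, nsmul_eq_mul]
          _ ≤ ∑ l ∈ bad j, |f l (y j) - y j * s l| := sum_le_sum fun l hl => by
              simp only [hbad, mem_filter] at hl
              exact hl.2.le
          _ ≤ _ := sum_le_sum_of_subset_of_nonneg (filter_subset _ _) fun _ _ _ => abs_nonneg _
      have k3 : C * L * y j / (Real.log (y j)) ^ A' ≤ C * L * y j / ℓ ^ A' := by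
        refine div_le_div_of_nonneg_left (by positivity) (by positivity) ?_
        exact pow_le_pow_left₀ hℓ0.le (Real.log_le_log hL0 (hyL' j)) _
      have k4 : ((bad j).card : ℝ) * (y j / ℓ ^ B) ≤ C * L * y j / ℓ ^ A' := k2.trans (k1.trans k3)
      have k5 : ((bad j).card : ℝ) ≤ C * L * y j / ℓ ^ A' / (y j / ℓ ^ B) := by
        rw [le_div_iff₀ (by positivity)]
        exact k4
      refine k5.trans (le_of_eq ?_)
      rw [hA', show A + 2 * B + 2 = (A + B + 2) + B by ring, pow_add ℓ (A + B + 2) B]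
      field_simp
    · calc (y j) ^ (1 / 2 + ε / 10) ≤ (L ^ (2 - ε / 2)) ^ (1 / 2 + ε / 10) :=
            Real.rpow_le_rpow hy0.le hj.2 (by positivity)
        _ = L ^ ((2 - ε / 2) * (1 / 2 + ε / 10)) := by rw [← Real.rpow_mul hL0.le]
        _ ≤ L ^ (1 : ℝ) := Real.rpow_le_rpow_of_exponent_le hL1 (by nlinarith)
        _ = L := Real.rpow_one L
    · calc L = L ^ (1 : ℝ) := (Real.rpow_one L).symm
        _ ≤ L ^ ((1 + ε) * (1 - ε / 10)) := Real.rpow_le_rpow_of_exponent_le hL1 (by nlinarith)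
        _ = (L ^ (1 + ε)) ^ (1 - ε / 10) := by rw [← Real.rpow_mul hL0.le]
        _ ≤ (y j) ^ (1 - ε / 10) := Real.rpow_le_rpow (by positivity) (hyL j) (by linarith)
  -- the set in question is contained in the union
  have hsub : (S L).filter (fun l => ¬ ∀ u : ℝ, L ^ (1 + ε) ≤ u → u ≤ L ^ (2 - ε) →
      |f l u - u * s l| ≤ u / ℓ ^ A) ⊆ Jset.biUnion bad := by
    intro l hl
    rw [mem_filter] at hl
    obtain ⟨hlS, hl⟩ := hl
    by_contra hnot
    apply hl
    have hgood : ∀ j ∈ Jset, |f l (y j) - y j * s l| ≤ y j / ℓ ^ B := by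
      intro j hj
      by_contra hc
      push Not at hc
      apply hnot
      rw [mem_biUnion]
      refine ⟨j, hj, ?_⟩
      simp only [hbad, mem_filter]
      exact ⟨hlS, hc⟩
    intro u hu1 hu2
    have hu0 : 0 < u := lt_of_lt_of_le (by positivity) hu1
    -- the largest `j` with `y j ≤ u`
    have hex : ∃ j, u < y j := by
      refine ⟨J, ?_⟩
      calc u ≤ L ^ (2 - ε) := hu2
        _ < L ^ (1 + ε) * L := by
          calc L ^ (2 - ε) < L ^ ((1 + ε) + 1) := Real.rpow_lt_rpow_of_exponent_lt (by linarith) (by linarith)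
            _ = L ^ (1 + ε) * L := by rw [Real.rpow_add hL0, Real.rpow_one]
        _ ≤ y J := by
          simp only [hy]
          exact mul_le_mul_of_nonneg_left hρJ (by positivity)
    obtain ⟨j, hj1, hj2⟩ : ∃ j, y j ≤ u ∧ u < y (j + 1) := by
      have h1 := Nat.find_spec hex
      have h2 : Nat.find hex ≠ 0 := by
        intro h0
        rw [h0] at h1
        simp only [hy, pow_zero, mul_one] at h1
        linarith
      obtain ⟨j, hj⟩ := Nat.exists_eq_succ_of_ne_zero h2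
      refine ⟨j, ?_, ?_⟩
      · have := Nat.find_min hex (m := j) (by omega)
        push Not at this
        exact this
      · rw [hj] at h1
        exact h1
    have hjJ : j < J := by
      by_contra hc
      push Not at hc
      have h1 : y J ≤ y j := by
        simp only [hy]
        exact mul_le_mul_of_nonneg_left (pow_le_pow_right₀ hρ1.le hc) (by positivity)
      have h2 : L ^ (1 + ε) * L ≤ y J := by
        simp only [hy]
        exact mul_le_mul_of_nonneg_left hρJ (by positivity)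
      have h3 : L ^ (2 - ε) < L ^ (1 + ε) * L := by
        calc L ^ (2 - ε) < L ^ ((1 + ε) + 1) := Real.rpow_lt_rpow_of_exponent_lt (by linarith) (by linarith)
          _ = L ^ (1 + ε) * L := by rw [Real.rpow_add hL0, Real.rpow_one]
      linarith
    have hy1 : y (j + 1) = ρ * y j := by
      simp only [hy]
      rw [pow_succ]
      ring
    have hyj0 : 0 < y j := by linarith [hyL' j]
    have hup : y (j + 1) ≤ L ^ (2 - ε / 2) := by
      rw [hy1]
      calc ρ * y j ≤ 2 * u := mul_le_mul hρ2 hj1 hyj0.le (by norm_num)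
        _ ≤ L ^ (ε / 2) * L ^ (2 - ε) := mul_le_mul hL2 hu2 hu0.le (by positivity)
        _ = L ^ (2 - ε / 2) := by
          rw [← Real.rpow_add hL0]
          congr 1
          ring
    have hjm : j ∈ Jset := by
      rw [hJset, mem_filter, mem_range]
      refine ⟨by omega, le_trans ?_ hup⟩
      rw [hy1]
      nlinarith
    have hjm1 : j + 1 ∈ Jset := by
      rw [hJset, mem_filter, mem_range]
      exact ⟨by omega, hup⟩
    have g1 := hgood j hjm
    have g2 := hgood (j + 1) hjm1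
    rw [abs_le] at g1 g2
    have hs0 := h.s0 L l hlS
    have hyU : y j ≤ L ^ 2 := by
      refine hj1.trans (hu2.trans ?_)
      calc L ^ (2 - ε) ≤ L ^ (2 : ℝ) := Real.rpow_le_rpow_of_exponent_le hL1 (by linarith)
        _ = L ^ 2 := by
          rw [show (2 : ℝ) = ((2 : ℕ) : ℝ) by norm_num, Real.rpow_natCast]
    have hlogy : Real.log (y j) ≤ 2 * ℓ := by
      refine (Real.log_le_log hyj0 hyU).trans ?_
      rw [Real.log_pow]
      push_cast
      exact le_rfl
    have hs1 : s l ≤ (2 * C₁ + 1) * ℓ := by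
      have h1 := htriv L (y j) (by linarith [hyL' j]) (hyL' j) l hlS
      have h2 : y j * s l ≤ y j * ((2 * C₁ + 1) * ℓ) := by
        have h3 : y j / ℓ ^ B ≤ y j * 1 := by
          rw [mul_one]
          exact div_le_self hyj0.le hℓB
        have h4 : C₁ * y j * Real.log (y j) ≤ C₁ * y j * (2 * ℓ) := mul_le_mul_of_nonneg_left hlogy (by positivity)
        have h5 : y j * 1 ≤ y j * ℓ := mul_le_mul_of_nonneg_left hl1 hyj0.le
        nlinarith
      exact le_of_mul_le_mul_left h2 hyj0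
    have hd : (y (j + 1) - y j) * s l ≤ y j * ((2 * C₁ + 1) * ℓ / ℓ ^ B) := by
      have h1 : y (j + 1) - y j = y j * (1 / ℓ ^ B) := by
        rw [hy1, hρ]
        ring
      rw [h1]
      calc y j * (1 / ℓ ^ B) * s l ≤ y j * (1 / ℓ ^ B) * ((2 * C₁ + 1) * ℓ) :=
            mul_le_mul_of_nonneg_left hs1 (by positivity)
        _ = _ := by ring
    have m1 := h.mono l (y j) u hj1
    have m2 := h.mono l u (y (j + 1)) hj2.le
    have hfin : y (j + 1) / ℓ ^ B + y j * ((2 * C₁ + 1) * ℓ / ℓ ^ B) ≤ u / ℓ ^ A := by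
      have h1 : y (j + 1) / ℓ ^ B ≤ 2 * u / ℓ ^ B := by
        refine div_le_div_of_nonneg_right ?_ (by positivity)
        rw [hy1]
        exact mul_le_mul hρ2 hj1 hyj0.le (by norm_num)
      have h2 : y j * ((2 * C₁ + 1) * ℓ / ℓ ^ B) ≤ u * ((2 * C₁ + 1) * ℓ / ℓ ^ B) :=
        mul_le_mul_of_nonneg_right hj1 (by positivity)
      have h3 : 2 * u / ℓ ^ B + u * ((2 * C₁ + 1) * ℓ / ℓ ^ B) = u * ((2 + (2 * C₁ + 1) * ℓ) / ℓ ^ B) := by ring
      have h4 : (2 + (2 * C₁ + 1) * ℓ) / ℓ ^ B ≤ 1 / ℓ ^ A := by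
        rw [div_le_div_iff₀ (by positivity) (by positivity), one_mul, hB, pow_add ℓ A 2, mul_comm]
        refine mul_le_mul_of_nonneg_left ?_ (by positivity)
        nlinarith
      calc _ ≤ 2 * u / ℓ ^ B + u * ((2 * C₁ + 1) * ℓ / ℓ ^ B) := add_le_add h1 h2
        _ = u * ((2 + (2 * C₁ + 1) * ℓ) / ℓ ^ B) := h3
        _ ≤ u * (1 / ℓ ^ A) := mul_le_mul_of_nonneg_left h4 hu0.le
        _ = u / ℓ ^ A := by ring
    have hyj1 : y j / ℓ ^ B ≤ y (j + 1) / ℓ ^ B := by
      refine div_le_div_of_nonneg_right ?_ (by positivity)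
      linarith
    have hu3 : (u - y j) * s l ≤ (y (j + 1) - y j) * s l := mul_le_mul_of_nonneg_right (by linarith) hs0
    have hu4 : (y (j + 1) - u) * s l ≤ (y (j + 1) - y j) * s l := mul_le_mul_of_nonneg_right (by linarith) hs0
    rw [abs_le]
    constructor
    · linarith
    · linarith
  have hJc : ((Jset.card : ℕ) : ℝ) ≤ 4 * ℓ ^ (B + 1) := by
    have h1 : Jset.card ≤ J + 1 := by
      refine (card_filter_le _ _).trans ?_
      rw [card_range]
    have h2 : (1 : ℝ) ≤ ℓ ^ (B + 1) := one_le_pow₀ hl1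
    calc ((Jset.card : ℕ) : ℝ) ≤ ((J + 1 : ℕ) : ℝ) := by exact_mod_cast h1
      _ = J + 1 := by push_cast; ring
      _ ≤ _ := by linarith
  calc (((S L).filter (fun l => ¬ ∀ u : ℝ, L ^ (1 + ε) ≤ u → u ≤ L ^ (2 - ε) →
        |f l u - u * s l| ≤ u / ℓ ^ A)).card : ℝ) ≤ ((Jset.biUnion bad).card : ℝ) := by
        exact_mod_cast card_le_card hsub
    _ ≤ ∑ j ∈ Jset, ((bad j).card : ℝ) := by exact_mod_cast card_biUnion_le
    _ ≤ ∑ j ∈ Jset, C * L / ℓ ^ (A + B + 2) := sum_le_sum hbadc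
    _ = (Jset.card : ℝ) * (C * L / ℓ ^ (A + B + 2)) := by rw [sum_const, nsmul_eq_mul]
    _ ≤ 4 * ℓ ^ (B + 1) * (C * L / ℓ ^ (A + B + 2)) := mul_le_mul_of_nonneg_right hJc (by positivity)
    _ = 4 * C * (L / ℓ ^ A) / ℓ := by
        rw [show A + B + 2 = A + (B + 1) + 1 by ring, pow_succ ℓ (A + (B + 1)), pow_add ℓ A (B + 1)]
        field_simp
    _ ≤ L / ℓ ^ A := by
        rw [div_le_iff₀ hℓ0]
        have h1 : 0 ≤ L / ℓ ^ A := by positivity
        nlinarith

end Pool.Agent.J6H16.TH
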