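import Pool.Agent.J6H16.TH.II2
import Pool.Agent.N782.GN.MainD

/-!
# The theorem on average over `l ≤ L`, for `L ≥ M^{1/2+ε}`
-/

set_option autoImplicit false

namespace Pool.Agent.J6H16.TH

open Finset Filter Topology
open Pool.Agent.H304R3.HK (UH bb LamK)
open Pool.Agent.N782.GN

/-- (MAIN2) the theorem on average over `l ≤ L`, for `L ≥ M^{1/2+ε}` -/
def S_MAIN2 : Prop := ∀ (ε : ℝ) (A : ℕ), 0 < ε → ∃ C : ℝ, 0 < C ∧ ∀ (M L : ℝ), 3 ≤ M →
  M ^ (1 / 2 + ε) ≤ L → L ≤ M ^ (1 - ε) →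
  ∑ l ∈ Icc 1 ⌊L⌋, |∑ m ∈ Icc 1 ⌊M⌋, ArithmeticFunction.vonMangoldt (l ^ 2 + m ^ 2).natAbs - M * SS l| ≤
    C * L * M / (Real.log M) ^ A

/-- the parameter `W` -/
noncomputable def Wp2 (ε M L : ℝ) : ℝ := M / L * M ^ (ε / 8)

structure Pr2 (ε M L : ℝ) : Prop where
  e0 : 0 < ε
  e1 : ε ≤ 1 / 4
  M3 : 3 ≤ M
  L1 : M ^ (1 / 2 + ε) ≤ L
  L2 : L ≤ M ^ (1 - ε)

theorem Pr2.hM {ε M L : ℝ} (h : Pr2 ε M L) : 1 ≤ M := by linarith [h.M3]

theorem Pr2.hL {ε M L : ℝ} (h : Pr2 ε M L) : 1 ≤ L :=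
  (Real.one_le_rpow h.hM (by linarith [h.e0])).trans h.L1

theorem Pr2.hLM {ε M L : ℝ} (h : Pr2 ε M L) : L ≤ M := by
  refine h.L2.trans ?_
  calc M ^ (1 - ε) ≤ M ^ (1 : ℝ) := Real.rpow_le_rpow_of_exponent_le h.hM (by linarith [h.e0])
    _ = M := Real.rpow_one M

theorem Pr2.hML {ε M L : ℝ} (h : Pr2 ε M L) : M ^ ε ≤ M / L := by
  have hM0 : 0 < M := by linarith [h.hM]
  have hL0 : 0 < L := by linarith [h.hL]
  rw [le_div_iff₀ hL0]
  calc M ^ ε * L ≤ M ^ ε * M ^ (1 - ε) := mul_le_mul_of_nonneg_left h.L2 (by positivity)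
    _ = M := by rw [← Real.rpow_add hM0]; simp

theorem Pr2.hW0 {ε M L : ℝ} (h : Pr2 ε M L) : M ^ (3 * (ε / 8)) ≤ Wp2 ε M L := by
  have hM0 : 0 < M := by linarith [h.hM]
  unfold Wp2
  calc M ^ (3 * (ε / 8)) ≤ M ^ ε := Real.rpow_le_rpow_of_exponent_le h.hM (by linarith [h.e0])
    _ = M ^ ε * 1 := (mul_one _).symm
    _ ≤ M / L * M ^ (ε / 8) := mul_le_mul h.hML (Real.one_le_rpow h.hM (by linarith [h.e0])) zero_le_one
        (le_trans (by positivity) h.hML)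

theorem Pr2.hW {ε M L : ℝ} (h : Pr2 ε M L) : 1 ≤ Wp2 ε M L :=
  (Real.one_le_rpow h.hM (by linarith [h.e0])).trans h.hW0

theorem Pr2.hY0 {ε M L : ℝ} (h : Pr2 ε M L) : M ^ (3 * (ε / 8)) ≤ Yp ε M L := by
  unfold Yp
  have h1 : 1 ≤ M / L := by
    rw [le_div_iff₀ (by linarith [h.hL]), one_mul]
    exact h.hLM
  have h2 : 1 ≤ (M / L) ^ 2 := one_le_pow₀ h1
  have h3 : 0 ≤ M ^ (3 * (ε / 8)) := Real.rpow_nonneg (by linarith [h.hM]) _
  nlinarith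

theorem Pr2.hY {ε M L : ℝ} (h : Pr2 ε M L) : 1 ≤ Yp ε M L :=
  (Real.one_le_rpow h.hM (by linarith [h.e0])).trans h.hY0

theorem Pr2.hYW {ε M L : ℝ} (h : Pr2 ε M L) : Yp ε M L * Wp2 ε M L ≤ L * M ^ (1 - ε) := by
  unfold Yp Wp2
  have hM := h.hM
  have hL := h.hL
  have hM0 : 0 < M := by linarith
  have h1 : M ^ (2 + 4 * ε) ≤ L ^ 4 := by
    have h2 : (M ^ (1 / 2 + ε)) ^ 4 ≤ L ^ 4 := pow_le_pow_left₀ (by positivity) h.L1 4
    rw [← Real.rpow_natCast, ← Real.rpow_mul hM0.le] at h2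
    refine le_trans (le_of_eq ?_) h2
    congr 1
    push_cast
    ring
  have h3 : (M / L) ^ 2 * M ^ (3 * (ε / 8)) * (M / L * M ^ (ε / 8)) = M ^ (3 + ε / 2) / L ^ 3 := by
    have e1 : M ^ (3 + ε / 2) = M ^ 3 * (M ^ (3 * (ε / 8)) * M ^ (ε / 8)) := by
      rw [← Real.rpow_add hM0, ← Real.rpow_natCast M 3, ← Real.rpow_add hM0]
      congr 1
      push_cast
      ring
    rw [e1]
    ring
  rw [h3, div_le_iff₀ (by positivity)]
  have h4 : M ^ (3 + ε / 2) ≤ M ^ (2 + 4 * ε) * M ^ (1 - ε) := by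
    rw [← Real.rpow_add hM0]
    apply Real.rpow_le_rpow_of_exponent_le hM
    linarith [h.e0]
  calc M ^ (3 + ε / 2) ≤ M ^ (2 + 4 * ε) * M ^ (1 - ε) := h4
    _ ≤ L ^ 4 * M ^ (1 - ε) := mul_le_mul_of_nonneg_right h1 (by positivity)
    _ = _ := by ring

theorem Pr2.hYD {ε M L : ℝ} (h : Pr2 ε M L) : Yp ε M L ≤ L * M ^ (1 - ε) := by
  refine le_trans ?_ h.hYW
  have := h.hY
  have := h.hW
  nlinarith

theorem Pr2.hlog {ε M L : ℝ} (h : Pr2 ε M L) : 1 ≤ Real.log M := by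
  rw [Real.le_log_iff_exp_le (by linarith [h.hM])]
  have := Real.exp_one_lt_d9
  linarith [h.M3]

theorem Pr2.hlogYW {ε M L : ℝ} (h : Pr2 ε M L) : Real.log (Yp ε M L * Wp2 ε M L) ≤ 2 * Real.log M := by
  have h1 : Yp ε M L * Wp2 ε M L ≤ M ^ 2 := by
    refine h.hYW.trans ?_
    rw [sq]
    refine mul_le_mul h.hLM ?_ (Real.rpow_nonneg (by linarith [h.hM]) _) (by linarith [h.hM])
    calc M ^ (1 - ε) ≤ M ^ (1 : ℝ) := Real.rpow_le_rpow_of_exponent_le h.hM (by linarith [h.e0])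
      _ = M := Real.rpow_one M
  have h2 : 0 < Yp ε M L * Wp2 ε M L := mul_pos (by linarith [h.hY]) (by linarith [h.hW])
  refine (Real.log_le_log h2 h1).trans ?_
  rw [Real.log_pow]
  push_cast
  exact le_rfl

theorem Pr2.hlogY {ε M L : ℝ} (h : Pr2 ε M L) : Real.log (Yp ε M L) ≤ 2 * Real.log M := by
  refine le_trans (Real.log_le_log (by linarith [h.hY]) ?_) h.hlogYW
  have := h.hY
  have := h.hW
  nlinarith

theorem Pr2.hlogW {ε M L : ℝ} (h : Pr2 ε M L) : Real.log (Wp2 ε M L) ≤ 2 * Real.log M := by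
  refine le_trans (Real.log_le_log (by linarith [h.hW]) ?_) h.hlogYW
  have := h.hY
  have := h.hW
  nlinarith

/-- all the errors of Vaughan's identity -/
theorem err_all2 (hm : S_MUB) (hd : S_DVB) (hii : S_II2) (hti : S_TI) (htil : S_TIL) (ε : ℝ) (A : ℕ) (hε : 0 < ε) :
    ∃ C : ℝ, 0 < C ∧ ∀ (M L : ℝ) (lam : ℤ → ℝ), Pr2 ε M L → Lm L lam →
      |V0 M (Wp2 ε M L) lam + 1 / 4 * V1 M L (Yp ε M L) lam - 1 / 16 * V2 M L (Yp ε M L) (Wp2 ε M L) lam +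
        1 / 16 * V3 M (Yp ε M L) (Wp2 ε M L) lam| ≤ C * (L * M / (Real.log M) ^ A) := by
  obtain ⟨C3, hC3, h3⟩ := hii (ε / 8) A (by positivity)
  obtain ⟨C1, hC1, h1⟩ := hti ε hε
  obtain ⟨C2, hC2, h2⟩ := htil ε hε
  obtain ⟨K, hK, hdv⟩ := hd (ε / 4) (by positivity)
  obtain ⟨C4, hC4, h4⟩ := pow_log (ε / 20) (A + 1) (by positivity)
  refine ⟨C4 * (6 + (C2 + 12 * K + 2 * C1) + 8 * C1) + C3, by positivity, fun M L lam hP hlam => ?_⟩
  have hM := hP.hM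
  have hL := hP.hL
  have hM0 : 0 < M := by linarith
  have hlog := hP.hlog
  have hM3 := hP.M3
  set W := Wp2 ε M L with hWd
  set Y := Yp ε M L with hYd
  set ℓ := Real.log M with hℓ
  -- the power saving
  set Q : ℝ := L * M ^ (1 - ε / 20) * ℓ with hQ
  have hQ0 : 0 < Q := by positivity
  have hQA : Q ≤ C4 * (L * M / ℓ ^ A) := by
    have h5 := h4 M hM
    have h6 : ℓ * ℓ ^ A ≤ C4 * M ^ (ε / 20) := by
      refine le_trans (le_of_eq ?_) h5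
      rw [pow_succ]
      ring
    rw [hQ, mul_div_assoc', le_div_iff₀ (by positivity)]
    calc L * M ^ (1 - ε / 20) * ℓ * ℓ ^ A = L * M ^ (1 - ε / 20) * (ℓ * ℓ ^ A) := by ring
      _ ≤ L * M ^ (1 - ε / 20) * (C4 * M ^ (ε / 20)) := mul_le_mul_of_nonneg_left h6 (by positivity)
      _ = C4 * (L * (M ^ (1 - ε / 20) * M ^ (ε / 20))) := by ring
      _ = C4 * (L * M) := by
        rw [← Real.rpow_add hM0, sub_add_cancel, Real.rpow_one]
  have hpw : ∀ a : ℝ, a ≤ 1 - ε / 20 → L * M ^ a * ℓ ≤ Q := by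
    intro a ha
    rw [hQ]
    have : M ^ a ≤ M ^ (1 - ε / 20) := Real.rpow_le_rpow_of_exponent_le hM ha
    gcongr
  have he0 := hP.e0
  have he1 := hP.e1
  -- V0
  have hV0 : |V0 M W lam| ≤ 6 * Q := by
    refine (V0_le hm hP.hW hL hlam).trans ?_
    have h5 : Real.sqrt W ≤ M ^ (1 - ε / 20) := by
      have e1 : W ≤ M ^ (1 / 2 : ℝ) := by
        rw [hWd, Wp2, div_mul_eq_mul_div, div_le_iff₀ (by linarith)]
        calc M * M ^ (ε / 8) = M ^ (1 + ε / 8) := by rw [Real.rpow_add hM0, Real.rpow_one]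
          _ ≤ M ^ (1 / 2 + (1 / 2 + ε)) := Real.rpow_le_rpow_of_exponent_le hM (by linarith)
          _ = M ^ (1 / 2 : ℝ) * M ^ (1 / 2 + ε) := Real.rpow_add hM0 _ _
          _ ≤ M ^ (1 / 2 : ℝ) * L := mul_le_mul_of_nonneg_left hP.L1 (by positivity)
      have e2 : Real.sqrt W ≤ W := by
        rw [Real.sqrt_le_left (by linarith [hP.hW])]
        nlinarith [hP.hW]
      refine e2.trans (e1.trans ?_)
      exact Real.rpow_le_rpow_of_exponent_le hM (by linarith)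
    have h6 : 1 ≤ M ^ (1 - ε / 20) := Real.one_le_rpow hM (by linarith)
    have h7 := hP.hlogW
    have h8 : 0 ≤ Real.log W := Real.log_nonneg hP.hW
    calc L * (2 * Real.sqrt W + 1) * Real.log W ≤ L * (2 * M ^ (1 - ε / 20) + M ^ (1 - ε / 20)) * (2 * ℓ) := by
          gcongr
      _ = 6 * Q := by
        rw [hQ]
        ring
  -- er1
  have hT1 : ∀ D : ℝ, 1 ≤ D → D ≤ L * M ^ (1 - ε) → ∑ a ∈ bl D, |er1 M L lam a| ≤ C1 * L * M ^ (1 - ε / 10) :=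
    fun D hD1 hD2 => h1 M L D lam (by linarith) hL hP.L2 hD1 hD2 hlam
  have hT2 : ∀ D : ℝ, 1 ≤ D → D ≤ L * M ^ (1 - ε) → ∑ a ∈ bl D, |er2 M L lam a| ≤ C2 * L * M ^ (1 - ε / 20) :=
    fun D hD1 hD2 => h2 M L D lam (by linarith) hL hP.L2 hD1 hD2 hlam
  have hV2 : |V2 M L Y W lam| ≤ 8 * C1 * Q := by
    refine (V2_le hm hP.hY hP.hW).trans ?_
    have h5 := hT1 (Y * W) (by nlinarith [hP.hY, hP.hW]) hP.hYW
    have h6 : 0 ≤ ∑ a ∈ bl (Y * W), |er1 M L lam a| := sum_nonneg fun _ _ => abs_nonneg _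
    calc 4 * Real.log (Y * W) * ∑ a ∈ bl (Y * W), |er1 M L lam a|
        ≤ 4 * (2 * ℓ) * (C1 * L * M ^ (1 - ε / 10)) := by
          refine mul_le_mul ?_ h5 h6 (by positivity)
          linarith [hP.hlogYW]
      _ = 8 * C1 * (L * M ^ (1 - ε / 10) * ℓ) := by ring
      _ ≤ 8 * C1 * Q := mul_le_mul_of_nonneg_left (hpw _ (by linarith)) (by positivity)
  have hV1 : |V1 M L Y lam| ≤ (C2 + 12 * K + 2 * C1) * Q := by
    refine (V1_le hP.hY).trans ?_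
    have h5 := hT1 Y hP.hY hP.hYD
    have h6 := hT2 Y hP.hY hP.hYD
    have h7 : ∑ b ∈ bl Y, |er3 M L lam b| ≤ (K * (2 * M ^ 2) ^ (ε / 4)) * L * (2 * Real.log L + 4 * L * (1 + Real.log M)) := by
      refine er3_le hM hL hlam hP.hLM (by positivity) fun z hz hz2 => (hdv z hz).trans ?_
      exact mul_le_mul_of_nonneg_left (Real.rpow_le_rpow (nz_nonneg z) hz2 (by positivity)) hK.le
    have h8 : Real.log L ≤ ℓ := Real.log_le_log (by linarith) hP.hLM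
    have h9 : (2 * M ^ 2) ^ (ε / 4) ≤ M ^ (3 * ε / 4) := by
      have h10 : 2 * M ^ 2 ≤ M ^ (3 : ℝ) := by
        rw [show (3 : ℝ) = ((3 : ℕ) : ℝ) by norm_num, Real.rpow_natCast]
        nlinarith [sq_nonneg M]
      calc (2 * M ^ 2) ^ (ε / 4) ≤ (M ^ (3 : ℝ)) ^ (ε / 4) := Real.rpow_le_rpow (by positivity) h10 (by positivity)
        _ = M ^ (3 * ε / 4) := by
          rw [← Real.rpow_mul hM0.le]
          congr 1
          ring
    have h10 : (K * (2 * M ^ 2) ^ (ε / 4)) * L * (2 * Real.log L + 4 * L * (1 + Real.log M)) ≤ 12 * K * Q := by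
      have h11 : 2 * Real.log L + 4 * L * (1 + Real.log M) ≤ 12 * (M ^ (1 - ε) * ℓ) := by
        have h12 := hP.L2
        have h13 : 1 ≤ M ^ (1 - ε) := Real.one_le_rpow hM (by linarith)
        have h14 : ℓ ≤ M ^ (1 - ε) * ℓ := by nlinarith
        have h15 : L * (1 + ℓ) ≤ M ^ (1 - ε) * (2 * ℓ) := mul_le_mul h12 (by linarith) (by linarith) (by linarith)
        nlinarith
      calc (K * (2 * M ^ 2) ^ (ε / 4)) * L * (2 * Real.log L + 4 * L * (1 + Real.log M))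
          ≤ (K * M ^ (3 * ε / 4)) * L * (12 * (M ^ (1 - ε) * ℓ)) := by
            refine mul_le_mul ?_ h11 ?_ (by positivity)
            · gcongr
            · have := Real.log_nonneg hL
              positivity
        _ = 12 * K * (L * (M ^ (3 * ε / 4) * M ^ (1 - ε)) * ℓ) := by ring
        _ = 12 * K * (L * M ^ (1 - ε / 4) * ℓ) := by
            rw [← Real.rpow_add hM0]
            congr 4
            ring
        _ ≤ 12 * K * Q := mul_le_mul_of_nonneg_left (hpw _ (by linarith)) (by positivity)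
    have h11 : Real.log Y * ∑ b ∈ bl Y, |er1 M L lam b| ≤ 2 * C1 * Q := by
      have h12 : 0 ≤ ∑ a ∈ bl Y, |er1 M L lam a| := sum_nonneg fun _ _ => abs_nonneg _
      calc Real.log Y * ∑ b ∈ bl Y, |er1 M L lam b| ≤ (2 * ℓ) * (C1 * L * M ^ (1 - ε / 10)) :=
            mul_le_mul hP.hlogY h5 h12 (by positivity)
        _ = 2 * C1 * (L * M ^ (1 - ε / 10) * ℓ) := by ring
        _ ≤ 2 * C1 * Q := mul_le_mul_of_nonneg_left (hpw _ (by linarith)) (by positivity)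
    have h12 : C2 * L * M ^ (1 - ε / 20) ≤ C2 * Q := by
      rw [hQ]
      have : 0 ≤ C2 * (L * M ^ (1 - ε / 20)) := by positivity
      nlinarith
    linarith
  have hV3 : |V3 M Y W lam| ≤ C3 * (L * M / ℓ ^ A) := by
    have h5 := h3 M L Y W lam hM3 ?_ ?_ ?_ ?_ hlam
    · unfold V3
      refine h5.trans (le_of_eq ?_)
      rw [mul_assoc, mul_div_assoc]
    · refine le_trans (Real.rpow_le_rpow_of_exponent_le hM ?_) hP.L1
      linarith
    · refine hP.L2.trans (Real.rpow_le_rpow_of_exponent_le hM ?_)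
      linarith
    · exact le_rfl
    · exact le_rfl
  have hQ1 : (6 + (C2 + 12 * K + 2 * C1) + 8 * C1) * Q ≤
      (6 + (C2 + 12 * K + 2 * C1) + 8 * C1) * (C4 * (L * M / ℓ ^ A)) :=
    mul_le_mul_of_nonneg_left hQA (by positivity)
  have hX : 0 ≤ C3 * (L * M / ℓ ^ A) := by positivity
  have e1 := abs_add_le (V0 M W lam + 1 / 4 * V1 M L Y lam - 1 / 16 * V2 M L Y W lam) (1 / 16 * V3 M Y W lam)
  have e2 := abs_sub (V0 M W lam + 1 / 4 * V1 M L Y lam) (1 / 16 * V2 M L Y W lam)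
  have e3 := abs_add_le (V0 M W lam) (1 / 4 * V1 M L Y lam)
  have e4 : |1 / 4 * V1 M L Y lam| = 1 / 4 * |V1 M L Y lam| := by
    rw [abs_mul, abs_of_pos (by norm_num : (0 : ℝ) < 1 / 4)]
  have e5 : |1 / 16 * V2 M L Y W lam| = 1 / 16 * |V2 M L Y W lam| := by
    rw [abs_mul, abs_of_pos (by norm_num : (0 : ℝ) < 1 / 16)]
  have e6 : |1 / 16 * V3 M Y W lam| = 1 / 16 * |V3 M Y W lam| := by
    rw [abs_mul, abs_of_pos (by norm_num : (0 : ℝ) < 1 / 16)]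
  rw [e4] at e3
  rw [e5] at e2
  rw [e6] at e1
  have f1 : 0 ≤ |V1 M L Y lam| := abs_nonneg _
  have f2 : 0 ≤ |V2 M L Y W lam| := abs_nonneg _
  have f3 : 0 ≤ |V3 M Y W lam| := abs_nonneg _
  calc _ ≤ |V0 M W lam| + |V1 M L Y lam| + |V2 M L Y W lam| + |V3 M Y W lam| := by linarith
    _ ≤ 6 * Q + (C2 + 12 * K + 2 * C1) * Q + 8 * C1 * Q + C3 * (L * M / ℓ ^ A) := by linarith
    _ = (6 + (C2 + 12 * K + 2 * C1) + 8 * C1) * Q + C3 * (L * M / ℓ ^ A) := by ring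
    _ ≤ (6 + (C2 + 12 * K + 2 * C1) + 8 * C1) * (C4 * (L * M / ℓ ^ A)) + C3 * (L * M / ℓ ^ A) := by linarith
    _ = _ := by ring

theorem em_bd2 (h1 : S_MT1) (h2 : S_MT2) (ε : ℝ) (A : ℕ) (hε : 0 < ε) :
    ∃ C : ℝ, 0 < C ∧ ∀ (M L : ℝ), Pr2 ε M L → 3 ≤ M ^ (3 * (ε / 8)) →
      ∑ l ∈ Icc 1 ⌊L⌋, |Em l M (Yp ε M L) (Wp2 ε M L) - 2 * M * SS l| ≤ C * (L * M / (Real.log M) ^ A) := by
  obtain ⟨C1, hC1, h1⟩ := h1 (A + 1)
  obtain ⟨C2, hC2, h2⟩ := h2 (A + 1)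
  set c : ℝ := 3 * (ε / 8) with hc
  have hc0 : 0 < c := by positivity
  refine ⟨(C1 + 2 * C1 + C2) / c ^ (A + 1), by positivity, fun M L hP h3 => ?_⟩
  have hM := hP.hM
  have hL := hP.hL
  have hM0 : 0 < M := by linarith
  have hlog := hP.hlog
  set W := Wp2 ε M L with hWd
  set Y := Yp ε M L with hYd
  set ℓ := Real.log M with hℓ
  have hY3 : 3 ≤ Y := h3.trans hP.hY0
  have hW3 : 3 ≤ W := h3.trans hP.hW0
  have hlY : c * ℓ ≤ Real.log Y := by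
    have h4 := Real.log_le_log (Real.rpow_pos_of_pos hM0 _) hP.hY0
    rwa [Real.log_rpow hM0] at h4
  have hcl : 0 < c * ℓ := by positivity
  have h4 : ∀ B : ℝ, 0 ≤ B → B / (Real.log Y) ^ (A + 1) ≤ B / (c ^ (A + 1) * ℓ ^ (A + 1)) := by
    intro B hB
    rw [← mul_pow]
    exact div_le_div_of_nonneg_left hB (by positivity) (pow_le_pow_left₀ hcl.le hlY _)
  obtain ⟨g1, g2⟩ := h1 L Y hL hY3
  have g3 := h2 L Y W hL hY3 hW3
  have e1 : ∑ l ∈ Icc 1 ⌊L⌋, |Em l M Y W - 2 * M * SS l| ≤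
      M * ℓ * ∑ l ∈ Icc 1 ⌊L⌋, |∑ b ∈ bl Y, mu b * (kap l b / nz b)| +
      2 * M * ∑ l ∈ Icc 1 ⌊L⌋, |1 / 4 * ∑ b ∈ bl Y, mu b * (kap l b / nz b) * Real.log (nz b) + SS l| +
      M / 8 * ∑ l ∈ Icc 1 ⌊L⌋, |∑ b ∈ bl Y, ∑ c ∈ bl W, mu b * LamK c * (kap l (b * c) / nz (b * c))| := by
    rw [mul_sum, mul_sum, mul_sum, ← sum_add_distrib, ← sum_add_distrib]
    refine sum_le_sum fun l _ => ?_
    rw [em_eq]
    refine (abs_sub _ _).trans (add_le_add ((abs_sub _ _).trans (add_le_add ?_ ?_)) ?_)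
    · rw [abs_mul, abs_of_nonneg (mul_nonneg hM0.le (by linarith))]
      refine mul_le_mul_of_nonneg_right ?_ (abs_nonneg _)
      nlinarith
    · rw [abs_mul, abs_of_nonneg (by positivity)]
    · rw [abs_mul, abs_of_nonneg (by positivity)]
  refine e1.trans ?_
  have hLM0 : 0 < L * M := by nlinarith
  have k1 : M * ℓ * ∑ l ∈ Icc 1 ⌊L⌋, |∑ b ∈ bl Y, mu b * (kap l b / nz b)| ≤
      C1 / c ^ (A + 1) * (L * M / ℓ ^ A) := by
    calc _ ≤ M * ℓ * (C1 * L / (c ^ (A + 1) * ℓ ^ (A + 1))) :=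
          mul_le_mul_of_nonneg_left (g1.trans (h4 _ (by positivity))) (by positivity)
      _ = C1 / c ^ (A + 1) * (L * M / ℓ ^ A) := by
          rw [pow_succ ℓ A]
          field_simp
  have k2 : 2 * M * ∑ l ∈ Icc 1 ⌊L⌋, |1 / 4 * ∑ b ∈ bl Y, mu b * (kap l b / nz b) * Real.log (nz b) + SS l| ≤
      2 * C1 / c ^ (A + 1) * (L * M / ℓ ^ A) := by
    calc _ ≤ 2 * M * (C1 * L / (c ^ (A + 1) * ℓ ^ (A + 1))) :=
          mul_le_mul_of_nonneg_left (g2.trans (h4 _ (by positivity))) (by positivity)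
      _ ≤ 2 * M * (C1 * L / (c ^ (A + 1) * ℓ ^ A)) := by
          refine mul_le_mul_of_nonneg_left ?_ (by positivity)
          refine div_le_div_of_nonneg_left (by positivity) (by positivity) ?_
          refine mul_le_mul_of_nonneg_left ?_ (by positivity)
          exact pow_le_pow_right₀ hlog (by omega)
      _ = 2 * C1 / c ^ (A + 1) * (L * M / ℓ ^ A) := by
          field_simp
  have k3 : M / 8 * ∑ l ∈ Icc 1 ⌊L⌋, |∑ b ∈ bl Y, ∑ c ∈ bl W, mu b * LamK c * (kap l (b * c) / nz (b * c))| ≤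
      C2 / c ^ (A + 1) * (L * M / ℓ ^ A) := by
    have hlW := hP.hlogW
    have hlW0 : 0 ≤ Real.log W := Real.log_nonneg hP.hW
    calc _ ≤ M / 8 * (C2 * L * Real.log W / (c ^ (A + 1) * ℓ ^ (A + 1))) :=
          mul_le_mul_of_nonneg_left (g3.trans (h4 _ (by positivity))) (by positivity)
      _ ≤ M / 8 * (C2 * L * (8 * ℓ) / (c ^ (A + 1) * ℓ ^ (A + 1))) := by
          refine mul_le_mul_of_nonneg_left ?_ (by positivity)
          refine div_le_div_of_nonneg_right ?_ (by positivity)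
          refine mul_le_mul_of_nonneg_left ?_ (by positivity)
          linarith
      _ = C2 / c ^ (A + 1) * (L * M / ℓ ^ A) := by
          rw [pow_succ ℓ A]
          field_simp
  calc _ ≤ C1 / c ^ (A + 1) * (L * M / ℓ ^ A) + 2 * C1 / c ^ (A + 1) * (L * M / ℓ ^ A) +
        C2 / c ^ (A + 1) * (L * M / ℓ ^ A) := by linarith
    _ = _ := by ring

/-- the sum over `l` for `Λ` of `ℤ[i]` -/
theorem sumK2 (hm : S_MUB) (hd : S_DVB) (hv : S_VAU) (hii : S_II2) (hti : S_TI) (htil : S_TIL) (ε : ℝ) (A : ℕ)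
    (hε : 0 < ε) : ∃ C : ℝ, 0 < C ∧ ∀ (M L : ℝ), Pr2 ε M L →
      ∑ l ∈ Icc 1 ⌊L⌋, |∑ m ∈ Icc ⌈-M⌉ ⌊M⌋, LamK (⟨l, m⟩ : ZI) - Em l M (Yp ε M L) (Wp2 ε M L)| ≤
        C * (L * M / (Real.log M) ^ A) := by
  obtain ⟨C, hC, h⟩ := err_all2 hm hd hii hti htil ε A hε
  refine ⟨C, hC, fun M L hP => ?_⟩
  set X : ℤ → ℝ := fun l => ∑ m ∈ Icc ⌈-M⌉ ⌊M⌋, LamK (⟨l, m⟩ : ZI) - Em l M (Yp ε M L) (Wp2 ε M L) with hX
  set lam : ℤ → ℝ := fun l => if l ∈ Icc 1 ⌊L⌋ then sgn (X l) else 0 with hlam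
  have hLm : Lm L lam := by
    constructor
    · intro l
      simp only [hlam]
      split_ifs
      · exact abs_sgn _
      · simp
    · intro l hl
      simp only [hlam]
      rw [if_neg]
      intro h1
      rw [mem_box] at h1
      rcases hl with h2 | h2
      · omega
      · linarith [h1.2]
  have h1 := vaughan_l hv hP.hM hLm hP.hLM hP.hY hP.hW
  have h2 := h M L lam hP hLm
  rw [← h1] at h2
  refine le_trans (le_of_eq ?_) ((le_abs_self _).trans h2)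
  refine sum_congr rfl fun l hl => ?_
  simp only [hlam]
  rw [if_pos hl, sgn_mul]

/-- the theorem for large `M` -/
theorem main_large2 (hm : S_MUB) (hd : S_DVB) (hv : S_VAU) (hii : S_II2) (hti : S_TI) (htil : S_TIL) (hm1 : S_MT1)
    (hm2 : S_MT2) (hlk : S_LK) (ε : ℝ) (A : ℕ) (hε : 0 < ε) :
    ∃ C : ℝ, 0 < C ∧ ∀ (M L : ℝ), Pr2 ε M L → 3 ≤ M ^ (3 * (ε / 8)) →
      ∑ l ∈ Icc 1 ⌊L⌋, |∑ m ∈ Icc 1 ⌊M⌋, ArithmeticFunction.vonMangoldt (l ^ 2 + m ^ 2).natAbs - M * SS l| ≤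
        C * (L * M / (Real.log M) ^ A) := by
  obtain ⟨C1, hC1, h1⟩ := sumK2 hm hd hv hii hti htil ε A hε
  obtain ⟨C2, hC2, h2⟩ := em_bd2 hm1 hm2 ε A hε
  obtain ⟨C3, hC3, h3⟩ := hlk
  obtain ⟨C4, hC4, h4⟩ := pow_log (1 / 2) (A + 3) (by norm_num)
  obtain ⟨C5, hC5, h5⟩ := pow_log 1 (A + 1) (by norm_num)
  refine ⟨(C1 + C2 + C3 * C4 + 2 * C5) / 2, by positivity, fun M L hP hM8 => ?_⟩
  have hM := hP.hM
  have hL := hP.hL
  have hM0 : 0 < M := by linarith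
  have hlog := hP.hlog
  set ℓ := Real.log M with hℓ
  have g1 := h1 M L hP
  have g2 := h2 M L hP hM8
  have g3 := h3 M L (by linarith [hP.M3]) hL hP.hLM
  have k3 : C3 * M * ℓ ^ 3 ≤ C3 * C4 * (L * M / ℓ ^ A) := by
    have h6 := h4 M hM
    have h7 : M ^ (1 / 2 : ℝ) ≤ L := (Real.rpow_le_rpow_of_exponent_le hM (by linarith [hP.e0])).trans hP.L1
    rw [mul_div_assoc', le_div_iff₀ (by positivity)]
    calc C3 * M * ℓ ^ 3 * ℓ ^ A = C3 * M * ℓ ^ (A + 3) := by ring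
      _ ≤ C3 * M * (C4 * L) := by
        refine mul_le_mul_of_nonneg_left (h6.trans ?_) (by positivity)
        exact mul_le_mul_of_nonneg_left h7 hC4.le
      _ = _ := by ring
  have k4 : L * (2 * ℓ) ≤ 2 * C5 * (L * M / ℓ ^ A) := by
    have h6 := h5 M hM
    rw [Real.rpow_one] at h6
    rw [mul_div_assoc', le_div_iff₀ (by positivity)]
    calc L * (2 * ℓ) * ℓ ^ A = 2 * L * ℓ ^ (A + 1) := by ring
      _ ≤ 2 * L * (C5 * M) := mul_le_mul_of_nonneg_left h6 (by positivity)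
      _ = _ := by ring
  have k5 : ∀ l ∈ Icc 1 ⌊L⌋, 2 * |∑ m ∈ Icc 1 ⌊M⌋, ArithmeticFunction.vonMangoldt (l ^ 2 + m ^ 2).natAbs - M * SS l| ≤
      |∑ m ∈ Icc ⌈-M⌉ ⌊M⌋, LamK (⟨l, m⟩ : ZI) - Em l M (Yp ε M L) (Wp2 ε M L)| +
      |Em l M (Yp ε M L) (Wp2 ε M L) - 2 * M * SS l| +
      ∑ m ∈ Icc ⌈-M⌉ ⌊M⌋, |LamK (⟨l, m⟩ : ZI) - ArithmeticFunction.vonMangoldt (l ^ 2 + m ^ 2).natAbs| +
      2 * ℓ := by
    intro l hl
    have e1 := two_sided hM (fun m => ArithmeticFunction.vonMangoldt (l ^ 2 + m ^ 2).natAbs) (fun m => by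
      simp only [neg_sq])
    have e2 := vM_sq hl
    have e3 : Real.log L ≤ ℓ := Real.log_le_log (by linarith) hP.hLM
    have e4 : |∑ m ∈ Icc ⌈-M⌉ ⌊M⌋, LamK (⟨l, m⟩ : ZI) -
        ∑ m ∈ Icc ⌈-M⌉ ⌊M⌋, ArithmeticFunction.vonMangoldt (l ^ 2 + m ^ 2).natAbs| ≤
        ∑ m ∈ Icc ⌈-M⌉ ⌊M⌋, |LamK (⟨l, m⟩ : ZI) - ArithmeticFunction.vonMangoldt (l ^ 2 + m ^ 2).natAbs| := by
      rw [← sum_sub_distrib]
      exact abs_sum_le_sum_abs _ _
    rw [show 2 * |∑ m ∈ Icc 1 ⌊M⌋, ArithmeticFunction.vonMangoldt (l ^ 2 + m ^ 2).natAbs - M * SS l| =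
      |2 * (∑ m ∈ Icc 1 ⌊M⌋, ArithmeticFunction.vonMangoldt (l ^ 2 + m ^ 2).natAbs - M * SS l)| by
        rw [abs_mul, abs_of_pos (by norm_num : (0 : ℝ) < 2)]]
    have e5 : 2 * (∑ m ∈ Icc 1 ⌊M⌋, ArithmeticFunction.vonMangoldt (l ^ 2 + m ^ 2).natAbs - M * SS l) =
        (∑ m ∈ Icc ⌈-M⌉ ⌊M⌋, LamK (⟨l, m⟩ : ZI) - Em l M (Yp ε M L) (Wp2 ε M L)) +
        (Em l M (Yp ε M L) (Wp2 ε M L) - 2 * M * SS l) -
        (∑ m ∈ Icc ⌈-M⌉ ⌊M⌋, LamK (⟨l, m⟩ : ZI) -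
          ∑ m ∈ Icc ⌈-M⌉ ⌊M⌋, ArithmeticFunction.vonMangoldt (l ^ 2 + m ^ 2).natAbs) -
        ArithmeticFunction.vonMangoldt (l ^ 2 + 0 ^ 2).natAbs := by
      rw [e1]
      ring
    rw [e5]
    refine (abs_sub _ _).trans (add_le_add ((abs_sub _ _).trans (add_le_add (abs_add_le _ _) e4)) ?_)
    linarith
  have k6 := sum_le_sum k5
  rw [← mul_sum, sum_add_distrib, sum_add_distrib, sum_add_distrib, sum_const, nsmul_eq_mul] at k6
  have k7 : ((Icc 1 ⌊L⌋).card : ℝ) ≤ L := by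
    rw [Int.card_Icc, show ⌊L⌋ + 1 - 1 = ⌊L⌋ by ring]
    have h5 : ((⌊L⌋.toNat : ℕ) : ℤ) = ⌊L⌋ := Int.toNat_of_nonneg (Int.floor_nonneg.2 (by linarith))
    have h6 : ((⌊L⌋.toNat : ℕ) : ℝ) = (⌊L⌋ : ℝ) := by exact_mod_cast h5
    rw [h6]
    exact Int.floor_le L
  have k8 : ((Icc 1 ⌊L⌋).card : ℝ) * (2 * ℓ) ≤ L * (2 * ℓ) := mul_le_mul_of_nonneg_right k7 (by linarith)
  have k9 : 2 * ∑ l ∈ Icc 1 ⌊L⌋, |∑ m ∈ Icc 1 ⌊M⌋, ArithmeticFunction.vonMangoldt (l ^ 2 + m ^ 2).natAbs - M * SS l| ≤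
      (C1 + C2 + C3 * C4 + 2 * C5) * (L * M / ℓ ^ A) := by
    calc _ ≤ C1 * (L * M / ℓ ^ A) + C2 * (L * M / ℓ ^ A) + C3 * C4 * (L * M / ℓ ^ A) + 2 * C5 * (L * M / ℓ ^ A) := by
          linarith
      _ = _ := by ring
  linarith

/-- **the theorem** -/
theorem main_all2 (hm : S_MUB) (hd : S_DVB) (hv : S_VAU) (hii : S_II2) (hti : S_TI) (htil : S_TIL) (hm1 : S_MT1)
    (hm2 : S_MT2) (hlk : S_LK) : S_MAIN2 := by
  intro ε A hε
  obtain ⟨C1, hC1, h1⟩ := main_large2 hm hd hv hii hti htil hm1 hm2 hlk ε A hε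
  set M0 : ℝ := max 3 ((3 : ℝ) ^ (1 / (3 * (ε / 8)))) with hM0
  have hM03 : 3 ≤ M0 := le_max_left _ _
  set K : ℝ := ∑ l ∈ Icc 1 ⌊M0⌋, (∑ m ∈ Icc 1 ⌊M0⌋, ArithmeticFunction.vonMangoldt (l ^ 2 + m ^ 2).natAbs +
    M0 * |SS l|) with hK
  have hK0 : 0 ≤ K := sum_nonneg fun l _ => add_nonneg
    (sum_nonneg fun m _ => ArithmeticFunction.vonMangoldt_nonneg) (by positivity)
  have hlM0 : 0 ≤ Real.log M0 := Real.log_nonneg (by linarith)
  refine ⟨C1 + K * (Real.log M0) ^ A, by positivity, fun M L hM3 hL1 hL2 => ?_⟩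
  have hM1 : 1 < M := by linarith
  have hε6 : ε ≤ 1 / 4 := by
    have h2 : M ^ (1 / 2 + ε) ≤ M ^ (1 - ε) := hL1.trans hL2
    have h3 := (Real.rpow_le_rpow_left_iff hM1).1 h2
    linarith
  have hP : Pr2 ε M L := ⟨hε, hε6, hM3, hL1, hL2⟩
  have hL := hP.hL
  have hlog := hP.hlog
  have hX : 0 ≤ L * M / (Real.log M) ^ A := by positivity
  rw [show (C1 + K * (Real.log M0) ^ A) * L * M / (Real.log M) ^ A =
    (C1 + K * (Real.log M0) ^ A) * (L * M / (Real.log M) ^ A) by ring]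
  by_cases hc : 3 ≤ M ^ (3 * (ε / 8))
  · refine (h1 M L hP hc).trans ?_
    refine mul_le_mul_of_nonneg_right ?_ hX
    have : 0 ≤ K * (Real.log M0) ^ A := by positivity
    linarith
  · push Not at hc
    have hMM0 : M ≤ M0 := by
      refine le_trans ?_ (le_max_right _ _)
      have h2 : (M ^ (3 * (ε / 8))) ^ (1 / (3 * (ε / 8))) ≤ (3 : ℝ) ^ (1 / (3 * (ε / 8))) :=
        Real.rpow_le_rpow (by positivity) hc.le (by positivity)
      rw [← Real.rpow_mul (by linarith), mul_one_div_cancel (by positivity), Real.rpow_one] at h2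
      exact h2
    have h2 : ∑ l ∈ Icc 1 ⌊L⌋, |∑ m ∈ Icc 1 ⌊M⌋, ArithmeticFunction.vonMangoldt (l ^ 2 + m ^ 2).natAbs - M * SS l| ≤ K := by
      rw [hK]
      have hLM0 : L ≤ M0 := hP.hLM.trans hMM0
      calc _ ≤ ∑ l ∈ Icc 1 ⌊L⌋, (∑ m ∈ Icc 1 ⌊M0⌋, ArithmeticFunction.vonMangoldt (l ^ 2 + m ^ 2).natAbs +
            M0 * |SS l|) := by
            refine sum_le_sum fun l _ => (abs_sub _ _).trans (add_le_add ?_ ?_)
            · rw [abs_of_nonneg (sum_nonneg fun m _ => ArithmeticFunction.vonMangoldt_nonneg)]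
              refine sum_le_sum_of_subset_of_nonneg ?_ fun m _ _ => ArithmeticFunction.vonMangoldt_nonneg
              exact Icc_subset_Icc le_rfl (Int.floor_le_floor hMM0)
            · rw [abs_mul, abs_of_nonneg (by linarith)]
              exact mul_le_mul_of_nonneg_right hMM0 (abs_nonneg _)
        _ ≤ _ := by
            refine sum_le_sum_of_subset_of_nonneg ?_ fun l _ _ => add_nonneg
              (sum_nonneg fun m _ => ArithmeticFunction.vonMangoldt_nonneg) (by positivity)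
            exact Icc_subset_Icc le_rfl (Int.floor_le_floor hLM0)
    refine h2.trans ?_
    have h3 : (Real.log M) ^ A ≤ (Real.log M0) ^ A :=
      pow_le_pow_left₀ (by linarith) (Real.log_le_log (by linarith) hMM0) A
    have h4 : 1 ≤ L * M := by nlinarith
    have h5 : K ≤ K * (Real.log M0) ^ A * (L * M / (Real.log M) ^ A) := by
      rw [mul_assoc]
      refine le_mul_of_one_le_right hK0 ?_
      rw [mul_div_assoc', le_div_iff₀ (by positivity), one_mul]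
      have : 0 ≤ (Real.log M0) ^ A := by positivity
      nlinarith
    have h6 : 0 ≤ C1 * (L * M / (Real.log M) ^ A) := by positivity
    calc K ≤ K * (Real.log M0) ^ A * (L * M / (Real.log M) ^ A) := h5
      _ ≤ _ := by
        rw [add_mul]
        linarith

end Pool.Agent.J6H16.TH
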