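import Pool.Agent.N782.GN.FinE
import Pool.Agent.J6H16.TH.Fa
import Pool.Agent.J6H16.TH.Mn

/-!
# Project TH (helper16): from `Λ(l² + m²)` to the number of the primes `l² + m²`, `l ^ (1 + ε) ≤ m ≤ l ^ (2 - ε)`;
almost all `l`
-/

set_option autoImplicit false

namespace Pool.Agent.J6H16.TH

open Finset Filter Topology Pool.Agent.N782.GN

theorem fdx1 {q : ℝ} (h : 3 ≤ q) : 9 ≤ q ^ 2 := by nlinarith

theorem fdx2 {k ℓ x y : ℝ} (hk : 0 ≤ k) (a2 : k * x ≤ y) (a3 : 0.6931471803 < x) (h : y ≤ 4 * ℓ) (hl : 1 ≤ ℓ) :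
    k + 1 ≤ 7 * ℓ := by
  have h1 : k * 0.6931471803 ≤ k * x := mul_le_mul_of_nonneg_left a3.le hk
  linarith

theorem fdx3 {x ℓ : ℝ} (hx : 0 ≤ x) (hl : 1 ≤ ℓ) : x + 7 * ℓ * (3 * x) ≤ 22 * x * ℓ := by
  have h1 : x * 1 ≤ x * ℓ := mul_le_mul_of_nonneg_left hl hx
  linarith

theorem fdx4 {ℓ : ℝ} (hl : 1 ≤ ℓ) : ℓ ≤ ℓ ^ 2 ∧ 1 ≤ ℓ ^ 2 := by
  constructor <;> nlinarith

theorem conv2 (ε : ℝ) (A : ℕ) (K : ℝ) (hε : 0 < ε) (hK : 0 ≤ K) : ∃ L₀ : ℝ, 3 ≤ L₀ ∧ ∀ L : ℝ, L₀ ≤ L →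
    ∀ (l : ℕ) (s : ℝ) (c : ℕ → ℝ), 1 ≤ l → (l : ℝ) ≤ L → 0 ≤ s → s ≤ K * Real.log L → (∀ m, 0 ≤ c m ∧ c m ≤ 2) →
    (∀ t : ℕ, L ^ (1 + ε / 2) ≤ t → (t : ℝ) ≤ L ^ (2 - ε) → |TT c l t - t * s| ≤ t / (Real.log L) ^ (A + 1)) →
    ∀ u : ℝ, L ^ (1 + ε) ≤ u → u ≤ L ^ (2 - ε) →
      |PP c l ⌊u⌋₊ - s * ∫ t in (2 : ℝ)..u, 1 / (2 * Real.log t)| ≤ u / (Real.log L) ^ A := by
  have hev := (((ev_log_rpow (ε / 2) (by positivity) (A + 2) (2 * (356 + 5 * K))).and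
    (eventually_ge_atTop (3 : ℝ))).and (ev_rpow_ge (ε / 2) 3 (by positivity))).and (ev_log_pow 1 4 one_pos 0)
  obtain ⟨L₀, hL₀⟩ := eventually_atTop.1 hev
  refine ⟨max L₀ 3, le_max_right _ _, fun L hL l s c hl1 hlL hs0 hsK hc hT u hu1 hu2 => ?_⟩
  obtain ⟨⟨⟨h1, hL3⟩, h2⟩, h3⟩ := hL₀ L ((le_max_left _ _).trans hL)
  rw [zero_add, pow_one, one_mul] at h3
  set ℓ := Real.log L with hℓ
  have hL0 : 0 < L := by linarith
  have hL1 : 1 ≤ L := by linarith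
  have hℓ0 : 0 < ℓ := by linarith
  have hε2 : ε ≤ 1 / 2 := by
    by_contra hcon
    push Not at hcon
    have h6 : L ^ (2 - ε) < L ^ (1 + ε) := Real.rpow_lt_rpow_of_exponent_lt (by linarith) (by linarith)
    linarith
  set N0 : ℕ := ⌈L ^ (1 + ε / 2)⌉₊ with hN0
  set N : ℕ := ⌊u⌋₊ with hN
  have hu0 : 0 < u := lt_of_lt_of_le (by positivity) hu1
  have hP1 : L ≤ L ^ (1 + ε / 2) := by
    calc L = L ^ (1 : ℝ) := (Real.rpow_one L).symm
      _ ≤ _ := Real.rpow_le_rpow_of_exponent_le hL1 (by linarith)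
  have hP2 : 3 * L ^ (1 + ε / 2) ≤ L ^ (1 + ε) := by
    calc 3 * L ^ (1 + ε / 2) ≤ L ^ (ε / 2) * L ^ (1 + ε / 2) := mul_le_mul_of_nonneg_right h2 (by positivity)
      _ = L ^ (1 + ε) := by
        rw [← Real.rpow_add hL0]
        congr 1
        ring
  have hN0a : L ^ (1 + ε / 2) ≤ N0 := Nat.le_ceil _
  have hN0b : (N0 : ℝ) ≤ 2 * L ^ (1 + ε / 2) := by
    have := (Nat.ceil_lt_add_one (show 0 ≤ L ^ (1 + ε / 2) by positivity)).le
    rw [hN0]
    linarith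
  have hN0c : 3 ≤ N0 := by
    have : (3 : ℝ) ≤ N0 := by linarith
    exact_mod_cast this
  have hNu : (N : ℝ) ≤ u := Nat.floor_le hu0.le
  have hNu2 : u ≤ N + 1 := (Nat.lt_floor_add_one u).le
  have hN0N : N0 ≤ N := by
    apply Nat.le_floor
    linarith
  have hlN0 : (l : ℝ) ≤ N0 := by linarith
  -- the factor `q`
  have hq : L ^ (1 + ε / 2) = L * L ^ (ε / 2) := by rw [Real.rpow_add hL0, Real.rpow_one]
  have hu5 : L * L ^ (ε / 2) * L ^ (ε / 2) ≤ u := by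
    refine le_trans (le_of_eq ?_) hu1
    rw [mul_assoc, ← Real.rpow_add hL0, add_halves, Real.rpow_add hL0, Real.rpow_one]
  have huq : u * L ^ (ε / 2) ≤ L ^ 2 := by
    calc u * L ^ (ε / 2) ≤ L ^ (2 - ε) * L ^ (ε / 2) := mul_le_mul_of_nonneg_right hu2 (by positivity)
      _ = L ^ (2 - ε / 2) := by
        rw [← Real.rpow_add hL0]
        congr 1
        ring
      _ ≤ L ^ (2 : ℝ) := Real.rpow_le_rpow_of_exponent_le hL1 (by linarith)
      _ = L ^ 2 := by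
        rw [show (2 : ℝ) = ((2 : ℕ) : ℝ) by norm_num, Real.rpow_natCast]
  have hLu : L ≤ u := by linarith
  have hqu : L ^ (ε / 2) ≤ u ^ (1 / 3 : ℝ) := by
    calc L ^ (ε / 2) ≤ L ^ (1 / 3 : ℝ) := Real.rpow_le_rpow_of_exponent_le hL1 (by linarith)
      _ ≤ u ^ (1 / 3 : ℝ) := Real.rpow_le_rpow hL0.le hLu (by norm_num)
  set q := L ^ (ε / 2) with hqd
  have hq0 : 0 < q := by positivity
  have hq1 : 3 ≤ q := h2
  have b1 : (l : ℝ) / N0 ≤ 1 / q := by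
    have hN00 : (0 : ℝ) < N0 := by linarith
    rw [div_le_div_iff₀ hN00 hq0, one_mul]
    calc (l : ℝ) * q ≤ L * q := mul_le_mul_of_nonneg_right hlL hq0.le
      _ ≤ N0 := by rw [← hq]; exact hN0a
  have b2 : (N : ℝ) * ((l : ℝ) / N0) ^ 2 ≤ u / q := by
    calc (N : ℝ) * ((l : ℝ) / N0) ^ 2 ≤ u * (1 / q) ^ 2 := by gcongr
      _ = u / q * (1 / q) := by ring
      _ ≤ u / q * 1 := by
        refine mul_le_mul_of_nonneg_left ?_ (by positivity)
        rw [div_le_one hq0]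
        linarith
      _ = u / q := mul_one _
  have b3 : L * q ≤ u / q := by
    rw [le_div_iff₀ hq0]
    exact hu5
  have b4 : (N0 : ℝ) ≤ 2 * (u / q) := by
    refine hN0b.trans ?_
    rw [hq]
    linarith
  have b5 : L ≤ u / q := by
    refine le_trans ?_ b3
    exact le_mul_of_one_le_right hL0.le (by linarith)
  set X : ℕ := l ^ 2 + N ^ 2 with hX
  have hXr0 : (X : ℝ) ≤ 2 * u ^ 2 := by
    rw [hX]
    push_cast
    have a1 : (l : ℝ) ^ 2 ≤ u ^ 2 := pow_le_pow_left₀ (by positivity) (hlL.trans hLu) 2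
    have a2 : (N : ℝ) ^ 2 ≤ u ^ 2 := pow_le_pow_left₀ (by positivity) hNu 2
    linarith
  have hXpos : 0 < X := by positivity
  have hXr1 : (1 : ℝ) ≤ X := by exact_mod_cast hXpos
  have hlogX : Real.log (X : ℝ) ≤ 4 * ℓ := by
    have a1 : (X : ℝ) ≤ L ^ 4 := by
      refine hXr0.trans ?_
      have a2 : (u * q) ^ 2 ≤ (L ^ 2) ^ 2 := pow_le_pow_left₀ (by positivity) huq 2
      have a3 : 9 ≤ q ^ 2 := fdx1 hq1
      have a4 : 0 ≤ u ^ 2 := sq_nonneg u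
      calc 2 * u ^ 2 ≤ q ^ 2 * u ^ 2 := mul_le_mul_of_nonneg_right (by linarith) a4
        _ = (u * q) ^ 2 := by ring
        _ ≤ (L ^ 2) ^ 2 := a2
        _ = L ^ 4 := by ring
    refine (Real.log_le_log (by linarith) a1).trans ?_
    rw [Real.log_pow]
    push_cast
    exact le_rfl
  have hlog2 : ((Nat.log 2 X : ℕ) : ℝ) + 1 ≤ 7 * ℓ := by
    have a1 : (2 : ℝ) ^ (Nat.log 2 X) ≤ X := by
      have := Nat.pow_log_le_self 2 hXpos.ne'
      exact_mod_cast this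
    have a2 := Real.log_le_log (by positivity) a1
    rw [Real.log_pow] at a2
    have a3 := Real.log_two_gt_d9
    have a4 : (0 : ℝ) ≤ (Nat.log 2 X : ℕ) := Nat.cast_nonneg _
    exact fdx2 a4 a2 a3 hlogX (by linarith)
  have hX3 : (X : ℝ) ^ (1 / 3 : ℝ) ≤ 2 * (u / q) := by
    have e1 : (X : ℝ) ^ (1 / 3 : ℝ) ≤ (8 * u ^ 2) ^ (1 / 3 : ℝ) :=
      Real.rpow_le_rpow (by positivity) (by
        have h9 := sq_nonneg u
        linarith) (by norm_num)
    have e2 : (8 * u ^ 2) ^ (1 / 3 : ℝ) = 2 * u ^ (2 / 3 : ℝ) := by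
      rw [Real.mul_rpow (by norm_num) (by positivity)]
      congr 1
      · rw [show (8 : ℝ) = (2 : ℝ) ^ (3 : ℝ) by norm_num, ← Real.rpow_mul (by norm_num)]
        norm_num
      · rw [← Real.rpow_natCast, ← Real.rpow_mul hu0.le]
        norm_num
    have e3 : u ^ (2 / 3 : ℝ) * q ≤ u := by
      calc u ^ (2 / 3 : ℝ) * q ≤ u ^ (2 / 3 : ℝ) * u ^ (1 / 3 : ℝ) :=
            mul_le_mul_of_nonneg_left hqu (by positivity)
        _ = u := by
          rw [← Real.rpow_add hu0]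
          norm_num
    have e4 : u ^ (2 / 3 : ℝ) ≤ u / q := by
      rw [le_div_iff₀ hq0]
      exact e3
    linarith
  have hUq1 : 1 ≤ u / q := by linarith
  -- the prime powers
  set PB : ℝ := 2 * Real.log (X : ℝ) * (l + (Nat.log 2 X + 1) * ((X : ℝ) ^ (1 / 3 : ℝ) + 1)) with hPB
  have hPBb : PB ≤ 176 * (u / q) * ℓ ^ 2 := by
    have a0 : 0 ≤ Real.log (X : ℝ) := Real.log_nonneg hXr1
    have a1 : (l : ℝ) + (Nat.log 2 X + 1) * ((X : ℝ) ^ (1 / 3 : ℝ) + 1) ≤ u / q + 7 * ℓ * (3 * (u / q)) := by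
      have a2 : ((Nat.log 2 X : ℕ) + 1 : ℝ) * ((X : ℝ) ^ (1 / 3 : ℝ) + 1) ≤ 7 * ℓ * (3 * (u / q)) :=
        mul_le_mul hlog2 (by linarith) (by positivity) (by positivity)
      linarith
    have a3 : u / q + 7 * ℓ * (3 * (u / q)) ≤ 22 * (u / q) * ℓ := fdx3 (by linarith) (by linarith)
    calc PB ≤ 2 * (4 * ℓ) * (22 * (u / q) * ℓ) := by
          rw [hPB]
          exact mul_le_mul (by linarith) (a1.trans a3) (by positivity) (by positivity)
      _ = 176 * (u / q) * ℓ ^ 2 := by ring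
  set E0 : ℝ := u / ℓ ^ (A + 1) + PB with hE0
  have hE : ∀ n : ℕ, N0 ≤ n → n ≤ N → |TH c l n - n * s| ≤ E0 := by
    intro n hn1 hn2
    have hn1' : (N0 : ℝ) ≤ n := by exact_mod_cast hn1
    have hn2' : (n : ℝ) ≤ N := by exact_mod_cast hn2
    have a1 := hT n (hN0a.trans hn1') (by linarith)
    have a2 := TT_TH c hc l N n hl1 hn2
    have a3 : (n : ℝ) / ℓ ^ (A + 1) ≤ u / ℓ ^ (A + 1) := by
      refine div_le_div_of_nonneg_right ?_ (by positivity)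
      linarith
    have a4 := abs_add_le (TH c l n - TT c l n) (TT c l n - n * s)
    rw [sub_add_sub_cancel] at a4
    rw [abs_sub_comm (TT c l n) (TH c l n)] at a2
    have a5 : |TH c l n - TT c l n| ≤ PB := a2
    linarith
  refine (PP_eq c hc l N0 N s E0 hl1 hN0c hN0N hs0 hlN0 hE u hNu hNu2).trans ?_
  -- the final estimate
  have b6 : s * (N * ((l : ℝ) / N0) ^ 2 + N0 + 2) ≤ K * ℓ * (5 * (u / q)) := by
    refine mul_le_mul hsK ?_ (by positivity) (by positivity)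
    linarith
  have b7 : 2 * E0 + 2 * N0 + s * (N * ((l : ℝ) / N0) ^ 2 + N0 + 2) ≤
      2 * (u / ℓ ^ (A + 1)) + (u / q) * ((356 + 5 * K) * ℓ ^ 2) := by
    have c1 : PB ≤ 176 * (u / q) * ℓ ^ 2 := hPBb
    have c2 : ℓ ≤ ℓ ^ 2 := (fdx4 (by linarith)).1
    have c3 : 1 ≤ ℓ ^ 2 := (fdx4 (by linarith)).2
    have hx : 0 ≤ u / q := by positivity
    have c4 : 2 * (N0 : ℝ) ≤ 4 * (u / q) * ℓ ^ 2 := by
      have h9 := mul_le_mul_of_nonneg_left c3 (show 0 ≤ 4 * (u / q) by positivity)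
      linarith
    have c5 : K * ℓ * (5 * (u / q)) ≤ 5 * K * (u / q) * ℓ ^ 2 := by
      have : 0 ≤ 5 * K * (u / q) := by positivity
      have h9 := mul_le_mul_of_nonneg_left c2 this
      linarith
    rw [hE0]
    have e : (u / q) * ((356 + 5 * K) * ℓ ^ 2) = 2 * (176 * (u / q) * ℓ ^ 2) + 4 * (u / q) * ℓ ^ 2 +
      5 * K * (u / q) * ℓ ^ 2 := by ring
    rw [e]
    linarith
  refine b7.trans ?_
  have d1 : 2 * (u / ℓ ^ (A + 1)) ≤ 1 / 2 * (u / ℓ ^ A) := by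
    rw [pow_succ, ← div_div]
    have : 0 ≤ u / ℓ ^ A := by positivity
    rw [mul_div_assoc', div_le_iff₀ hℓ0]
    have h9 := mul_le_mul_of_nonneg_left h3 this
    linarith
  have d2 : (u / q) * ((356 + 5 * K) * ℓ ^ 2) ≤ 1 / 2 * (u / ℓ ^ A) := by
    have d3 : 2 * (356 + 5 * K) * ℓ ^ (A + 2) ≤ q := h1
    have d4 : u / q * ((356 + 5 * K) * ℓ ^ 2) = u * ((356 + 5 * K) * ℓ ^ 2 / q) := by ring
    rw [d4, show 1 / 2 * (u / ℓ ^ A) = u * (1 / (2 * ℓ ^ A)) by ring]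
    refine mul_le_mul_of_nonneg_left ?_ hu0.le
    rw [div_le_div_iff₀ hq0 (by positivity), one_mul]
    calc (356 + 5 * K) * ℓ ^ 2 * (2 * ℓ ^ A) = 2 * (356 + 5 * K) * ℓ ^ (A + 2) := by ring
      _ ≤ q := d3
  linarith

theorem avg2 (hM : S_MAIN2) (hs : S_SSL) : Avg2 (fun L => Icc 1 ⌊L⌋) f1 SS where
  mono := f1_mono
  s0 := fun L l hl => by
    rw [mem_box] at hl
    exact (hs l (by omega)).2.le
  triv := ⟨3, by norm_num, fun L M hM3 hLM l hl => by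
    rw [mem_box] at hl
    exact f1_triv l M hM3 hl.1 (hl.2.trans hLM)⟩
  avg := fun ε A hε => by
    obtain ⟨C, hC, h⟩ := hM ε A hε
    exact ⟨C, hC, fun M L h1 h2 h3 => h M L h1 h2 h3⟩

open Classical in
/-- **for almost all `l ≤ L`** -/
theorem almost_all2 (hM : S_MAIN2) (hs : S_SSL) (ε : ℝ) (A : ℕ) (hε : 0 < ε) : ∃ L₀ : ℝ, 3 ≤ L₀ ∧ ∀ L : ℝ, L₀ ≤ L →
    (((Icc 1 ⌊L⌋₊).filter (fun l : ℕ => ¬ ∀ u : ℝ, L ^ (1 + ε) ≤ u → u ≤ L ^ (2 - ε) →
      |PP (fun _ => 1) l ⌊u⌋₊ - SS l * ∫ t in (2 : ℝ)..u, 1 / (2 * Real.log t)| ≤ u / (Real.log L) ^ A)).card : ℝ) ≤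
      L / (Real.log L) ^ A := by
  obtain ⟨L₁, h1⟩ := (avg2 hM hs).grid (ε / 2) (A + 1) (by positivity)
  obtain ⟨L₂, hL₂, h2⟩ := conv2 ε A 7 hε (by norm_num)
  obtain ⟨L₃, h3⟩ := eventually_atTop.1 (ev_rpow_ge (ε / 2) 2 (by positivity))
  refine ⟨max (max L₁ L₂) L₃, le_trans hL₂ (le_trans (le_max_right _ _) (le_max_left _ _)), fun L hL => ?_⟩
  have hLL1 : L₁ ≤ L := (le_trans (le_max_left _ _) (le_max_left _ _)).trans hL
  have hLL2 : L₂ ≤ L := (le_trans (le_max_right _ _) (le_max_left _ _)).trans hL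
  have hLL3 : L₃ ≤ L := (le_max_right _ _).trans hL
  have hL3 : 3 ≤ L := hL₂.trans hLL2
  have hL0 : 0 < L := by linarith
  have hL1 : 1 ≤ L := by linarith
  have hlog : 1 ≤ Real.log L := by
    rw [Real.le_log_iff_exp_le hL0]
    have := Real.exp_one_lt_d9
    linarith
  have hq := h3 L hLL3
  by_cases hε4 : 1 / 2 < ε
  · rw [filter_false_of_mem]
    · rw [card_empty]
      push_cast
      positivity
    · intro l _
      rw [not_not]
      intro u h4 h5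
      exfalso
      have h6 : L ^ (2 - ε) < L ^ (1 + ε) := Real.rpow_lt_rpow_of_exponent_lt (by linarith) (by linarith)
      linarith
  push Not at hε4
  have key := h1 L hLL1
  have hsub : (((Icc 1 ⌊L⌋₊).filter (fun l : ℕ => ¬ ∀ u : ℝ, L ^ (1 + ε) ≤ u → u ≤ L ^ (2 - ε) →
      |PP (fun _ => 1) l ⌊u⌋₊ - SS l * ∫ t in (2 : ℝ)..u, 1 / (2 * Real.log t)| ≤ u / (Real.log L) ^ A)).card : ℝ) ≤
      ((((fun L : ℝ => Icc (1 : ℤ) ⌊L⌋) L).filter (fun l => ¬ ∀ u : ℝ, L ^ (1 + ε / 2) ≤ u → u ≤ L ^ (2 - ε / 2) →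
        |f1 l u - u * SS l| ≤ u / (Real.log L) ^ (A + 1))).card : ℝ) := by
    rw [Nat.cast_le]
    apply card_le_card_of_injOn (fun l : ℕ => (l : ℤ))
    · intro l hl
      rw [mem_coe, mem_filter, mem_Icc] at hl
      obtain ⟨⟨hl1, hlL⟩, hl⟩ := hl
      rw [Nat.le_floor_iff hL0.le] at hlL
      simp only [mem_coe, mem_filter]
      rw [mem_box]
      refine ⟨⟨by exact_mod_cast hl1, by exact_mod_cast hlL⟩, ?_⟩
      intro hg
      apply hl
      -- the bound for the singular series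
      have hSS := (hs (l : ℤ) (by omega)).2
      set t0 : ℝ := L ^ (1 + ε / 2) with ht0
      have hLt0 : L ≤ t0 := by
        calc L = L ^ (1 : ℝ) := (Real.rpow_one L).symm
          _ ≤ _ := Real.rpow_le_rpow_of_exponent_le hL1 (by linarith)
      have ht03 : 3 ≤ t0 := by linarith
      have hK : SS (l : ℤ) ≤ 7 * Real.log L := by
        have e1 := hg t0 le_rfl (Real.rpow_le_rpow_of_exponent_le hL1 (by linarith))
        have e2 := f1_triv (l : ℤ) t0 ht03 (by omega) (by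
          push_cast
          linarith)
        have e3 : Real.log t0 ≤ 2 * Real.log L := by
          rw [ht0, Real.log_rpow hL0]
          exact mul_le_mul_of_nonneg_right (by linarith) (by linarith)
        have e4 : t0 / (Real.log L) ^ (A + 1) ≤ t0 := div_le_self (by linarith) (one_le_pow₀ hlog)
        rw [abs_le] at e1
        have e5 : t0 * SS (l : ℤ) ≤ t0 * (7 * Real.log L) := by
          have e6 : 3 * t0 * Real.log t0 ≤ 3 * t0 * (2 * Real.log L) := mul_le_mul_of_nonneg_left e3 (by linarith)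
          have e7 : t0 ≤ t0 * Real.log L := le_mul_of_one_le_right (by linarith) hlog
          have e8 := e1.1
          linarith
        exact le_of_mul_le_mul_left e5 (by linarith)
      exact h2 L hLL2 l (SS (l : ℤ)) (fun _ => 1) hl1 hlL hSS.le hK (fun _ => by norm_num) (fun t ht1 ht2 => by
        have e1 := hg t ht1 (ht2.trans (Real.rpow_le_rpow_of_exponent_le hL1 (by linarith)))
        rw [f1_nat] at e1
        exact e1)
    · intro a _ b _ h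
      simpa using h
  refine hsub.trans (key.trans ?_)
  apply div_le_div_of_nonneg_left hL0.le (by positivity)
  exact pow_le_pow_right₀ hlog (by omega)

end Pool.Agent.J6H16.TH
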