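import Pool.Agent.J6H16.TH.Tm
import Pool.Agent.N277.GN.IIe

/-!
# The bilinear part of Vaughan's identity, for `W ≥ (M / L) M^ε`
-/

set_option autoImplicit false

namespace Pool.Agent.J6H16.TH

open Finset
open Pool.Agent.H304R3.HK (UH bb LamK)
open Pool.Agent.N782.GN
open Pool.Agent.N277.GN (nz_mul nz_natCast one_le_nz nz_pos abs_re_le abs_im_le card_bl aW_nonneg aW_le aW_zero mu_mul
  abs_be_le psi_nonneg psi_le psi_zero psi_one Phi_nonneg Phi_one bq mem_bq sum_bq_add sum_bq_pow box re_nat_mul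
  im_nat_mul ct_nat_mul ct_pos ct_exists ct_le content_sum sum_bq_eq hh Bl hh_zero hh_zero' hh_abs Bl_zero BX hh_ne Bl_bad
  GG Tg lg Lm_lg Tg_eq Tg_small psi_ne log_two_sq log_two_mul Tg_large smooth Big exists_big SI SI_eq sum_one_div
  sum_one_div_sq large_part SI_trivial)

/-- (II2) the bilinear sums, for `W ≥ (M / L) M^ε` -/
def S_II2 : Prop := ∀ (ε : ℝ) (A : ℕ), 0 < ε → ∃ C : ℝ, 0 < C ∧ ∀ (M L Y W : ℝ) (lam : ℤ → ℝ), 3 ≤ M →
  M ^ (1 / 2 + ε) ≤ L → L ≤ M ^ (1 - ε) → (M / L) ^ 2 * M ^ (3 * ε) ≤ Y → M / L * M ^ ε ≤ W → Lm L lam →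
  |∑ b ∈ (bl (2 * M ^ 2)).filter (fun b => Y < nz b), ∑ v ∈ bl (2 * M ^ 2), mu b * aW W v * Fz lam M (b * v)| ≤
    C * L * M / (Real.log M) ^ A

/-- the statement of `S_T2` for fixed constants -/
def TT2 (ε CT : ℝ) (a B' : ℕ) : Prop := ∀ (M L R P D : ℝ) (g : ℕ)
  (lam : ℤ → ℝ), 3 ≤ M → 1 ≤ L → L ≤ M ^ (1 - ε) → M / L * M ^ ε ≤ R → R ^ 2 ≤ L * M ^ (1 - ε) →
  M / (Real.log M) ^ B' ≤ R * P → R * P ≤ M → 1 ≤ D → D ≤ (Real.log M) ^ B' → 1 ≤ g → (g : ℝ) ≤ (Real.log M) ^ B' →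
  Lm L lam →
  ∑ v ∈ bl (9 * P ^ 2), Phi (Real.sqrt (nz v) / P) * (∑ w ∈ (bl (4 * R ^ 2)).filter (fun w => R ^ 2 < nz w),
    be g w * lam (w * v).re * psi D (Real.sqrt (nz (w * v)) / M)) ^ 2 ≤ CT * L ^ 2 * R ^ 2 / (Real.log M) ^ (2 * a)

theorem Bl_good2 (hm : S_MUB) {ε CT : ℝ} {a B' : ℕ} (hCT : 0 < CT) (hT : TT2 ε CT a B')
    (M L R P D W ℓ : ℝ) (g : ℕ)
    (lam : ℤ → ℝ) (hM : 3 ≤ M) (hL : 1 ≤ L) (hLM : L ≤ M ^ (1 - ε)) (hR : M / L * M ^ ε ≤ R)
    (hR2 : R ^ 2 ≤ L * M ^ (1 - ε))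
    (hRP : M / (Real.log M) ^ B' ≤ R * P) (hRP' : R * P ≤ M) (hD : 1 ≤ D) (hD' : D ≤ (Real.log M) ^ B')
    (hg : 1 ≤ g) (hg' : (g : ℝ) ≤ (Real.log M) ^ B') (hlam : Lm L lam) (hP : 1 ≤ P)
    (hℓ : 4 * Real.log (4 * P ^ 2) ≤ ℓ) :
    |Bl W D M R P g lam| ≤ 6 * Real.sqrt CT * ℓ * (L * (R * P)) / (Real.log M) ^ a := by
  classical
  have hlog : 0 < Real.log M := Real.log_pos (by linarith)
  have hR0 : 0 ≤ R := by
    refine le_trans ?_ hR
    positivity
  have hℓ0 : 0 ≤ ℓ := by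
    refine le_trans ?_ hℓ
    have : (1 : ℝ) ≤ 4 * P ^ 2 := by nlinarith
    have := Real.log_nonneg this
    linarith
  have key := hT M L R P D g lam hM hL hLM hR hR2 hRP hRP' hD hD' hg hg' hlam
  set inner : ZI → ℝ := fun v => ∑ w ∈ (bl (4 * R ^ 2)).filter (fun w => R ^ 2 < nz w),
    be g w * lam (w * v).re * psi D (Real.sqrt (nz (w * v)) / M) with hin
  have e1 : Bl W D M R P g lam = ∑ v ∈ bq (P ^ 2) (4 * P ^ 2), aW W v * inner v := by
    unfold Bl
    rw [sum_comm]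
    apply sum_congr rfl
    intro v _
    rw [hin]
    simp only
    rw [mul_sum]
    rfl
  have h1 : ∑ v ∈ bq (P ^ 2) (4 * P ^ 2), inner v ^ 2 ≤ CT * L ^ 2 * R ^ 2 / (Real.log M) ^ (2 * a) := by
    refine le_trans ?_ key
    have s1 : bq (P ^ 2) (4 * P ^ 2) ⊆ bl (9 * P ^ 2) := by
      intro v hv
      have hv' := mem_bq.1 hv
      rw [mem_bl]
      refine ⟨hv'.1, hv'.2.1.trans ?_⟩
      nlinarith [sq_nonneg P]
    refine le_trans ?_ (sum_le_sum_of_subset_of_nonneg s1 ?_)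
    · apply sum_le_sum
      intro v hv
      have hv' := mem_bq.1 hv
      rw [Phi_one, one_mul]
      · rw [le_div_iff₀ (by linarith), one_mul]
        exact Real.le_sqrt_of_sq_le hv'.2.2.le
      · rw [div_le_iff₀ (by linarith)]
        apply Real.sqrt_le_iff.2
        refine ⟨by linarith, ?_⟩
        nlinarith [hv'.2.1]
    · intro v _ _
      exact mul_nonneg (Phi_nonneg _) (sq_nonneg _)
  have h2 : ∑ v ∈ bq (P ^ 2) (4 * P ^ 2), (aW W v) ^ 2 ≤ 36 * P ^ 2 * ℓ ^ 2 := by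
    have b1 : ∀ v ∈ bq (P ^ 2) (4 * P ^ 2), (aW W v) ^ 2 ≤ ℓ ^ 2 := by
      intro v hv
      have hv' := mem_bq.1 hv
      have c1 := aW_le hm W hv'.1
      have c2 := aW_nonneg hm W v
      have c3 : Real.log (nz v) ≤ Real.log (4 * P ^ 2) := Real.log_le_log (nz_pos hv'.1) hv'.2.1
      have c4 : aW W v ≤ ℓ := by linarith
      gcongr
    refine (sum_le_sum b1).trans ?_
    rw [sum_const, nsmul_eq_mul]
    have c5 : ((bq (P ^ 2) (4 * P ^ 2)).card : ℝ) ≤ 9 * (4 * P ^ 2) := by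
      refine le_trans ?_ (card_bl (4 * P ^ 2) (by nlinarith))
      exact_mod_cast card_filter_le _ _
    have c6 : 0 ≤ ℓ ^ 2 := sq_nonneg _
    nlinarith
  have h3 : (Bl W D M R P g lam) ^ 2 ≤ (6 * Real.sqrt CT * ℓ * (L * (R * P)) / (Real.log M) ^ a) ^ 2 := by
    rw [e1]
    refine (sum_mul_sq_le_sq_mul_sq _ _ _).trans ?_
    have c1 : 0 ≤ ∑ v ∈ bq (P ^ 2) (4 * P ^ 2), inner v ^ 2 := sum_nonneg fun v _ => sq_nonneg _
    refine (mul_le_mul h2 h1 c1 (by positivity)).trans (le_of_eq ?_)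
    rw [div_pow, ← pow_mul, mul_comm a 2, mul_pow, mul_pow, mul_pow, Real.sq_sqrt hCT.le]
    ring
  apply abs_le_of_sq_le_sq h3
  positivity

/-- the parameters -/
structure Par2 (ε : ℝ) (A : ℕ) (M L Y W : ℝ) (lam : ℤ → ℝ) : Prop where
  big : Big ε A M
  e0 : 0 < ε
  e4 : ε ≤ 1 / 4
  L1 : M ^ (1 / 2 + ε) ≤ L
  L2 : L ≤ M ^ (1 - ε)
  hY : (M / L) ^ 2 * M ^ (3 * ε) ≤ Y
  hW : M / L * M ^ ε ≤ W
  hlam : Lm L lam

theorem Par2.L_pos {ε : ℝ} {A : ℕ} {M L Y W : ℝ} {lam : ℤ → ℝ} (h : Par2 ε A M L Y W lam) : 0 < L := by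
  have := h.big.h3
  exact lt_of_lt_of_le (by positivity) h.L1

theorem Par2.L_le {ε : ℝ} {A : ℕ} {M L Y W : ℝ} {lam : ℤ → ℝ} (h : Par2 ε A M L Y W lam) : L ≤ M := by
  have h3 := h.big.h3
  have h0 := h.e0
  refine h.L2.trans ?_
  calc M ^ (1 - ε) ≤ M ^ (1 : ℝ) := Real.rpow_le_rpow_of_exponent_le (by linarith) (by linarith)
    _ = M := Real.rpow_one M

theorem Par2.Y_pos {ε : ℝ} {A : ℕ} {M L Y W : ℝ} {lam : ℤ → ℝ} (h : Par2 ε A M L Y W lam) : 1 ≤ Y := by
  have h3 := h.big.h3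
  have h0 := h.e0
  have h1 := h.L_pos
  refine le_trans ?_ h.hY
  have a1 : 1 ≤ M / L := by
    rw [le_div_iff₀ h1, one_mul]
    exact h.L_le
  have a2 : 1 ≤ M ^ (3 * ε) := Real.one_le_rpow (by linarith) (by linarith)
  nlinarith [one_le_pow₀ a1 (n := 2)]

theorem Par2.W_one {ε : ℝ} {A : ℕ} {M L Y W : ℝ} {lam : ℤ → ℝ} (h : Par2 ε A M L Y W lam) : 1 ≤ W := by
  have h3 := h.big.h3
  have h0 := h.e0
  have h1 := h.L_pos
  refine le_trans ?_ h.hW
  have a1 : 1 ≤ M / L := by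
    rw [le_div_iff₀ h1, one_mul]
    exact h.L_le
  have a2 : 1 ≤ M ^ ε := Real.one_le_rpow (by linarith) (by linarith)
  exact one_le_mul_of_one_le_of_one_le a1 a2

theorem block2 (hm : S_MUB) {ε CT C1 : ℝ} {A : ℕ} (hCT : 0 < CT) (hT : TT2 (ε / 2) CT (2 * A + 5) (2 * A + 6))
    (hC1 : 0 < C1) (hB : BX C1) {M L Y W : ℝ} {lam : ℤ → ℝ} (h : Par2 ε A M L Y W lam) (g : ℕ) (hg : 1 ≤ g)
    (hg' : (g : ℝ) ≤ (Real.log M) ^ (A + 2)) (i j : ℕ) :
    |Bl W ((Real.log M) ^ (A + 2)) (M / g) (2 ^ i * Real.sqrt Y / g) (2 ^ j * Real.sqrt W) g (lg g lam)| ≤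
      96 * Real.sqrt CT * Real.log M * (L * M) / (Real.log M / 2) ^ (2 * A + 5) +
      16 * Real.log M * (C1 * (L * (8 * M / (Real.log M / 2) ^ (2 * A + 6) + 1) * (2 * Real.log M) +
        M * Real.sqrt M)) := by
  have h3 := h.big.h3
  have hε := h.e0
  have hL0 := h.L_pos
  have hLM := h.L_le
  have hY1 := h.Y_pos
  have hW1 := h.W_one
  set ℓ := Real.log M with hℓ
  have hl : 16 ≤ ℓ := h.big.hl
  have hℓ0 : 0 < ℓ := by linarith
  have hg1 : (1 : ℝ) ≤ g := by exact_mod_cast hg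
  have hgR : (0 : ℝ) < g := by linarith
  have hM0 : 0 < M := by linarith
  have hM1 : 1 ≤ M := by linarith
  have hE1 : 0 ≤ 96 * Real.sqrt CT * ℓ * (L * M) / (ℓ / 2) ^ (2 * A + 5) := by positivity
  have hE2 : 0 ≤ 16 * ℓ * (C1 * (L * (8 * M / (ℓ / 2) ^ (2 * A + 6) + 1) * (2 * ℓ) + M * Real.sqrt M)) := by
    positivity
  set q := M / g with hq
  have hq0 : 0 < q := by positivity
  have hqM : q ≤ M := div_le_self hM0.le hg1
  set R := 2 ^ i * Real.sqrt Y / g with hR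
  set P := 2 ^ j * Real.sqrt W with hP
  set D := ℓ ^ (A + 2) with hD
  have hD1 : 1 ≤ D := one_le_pow₀ (by linarith)
  have hR0 : 0 ≤ R := by positivity
  have hP0 : 0 ≤ P := by positivity
  have h2j : (1 : ℝ) ≤ 2 ^ j := one_le_pow₀ (by norm_num)
  have h2i : (1 : ℝ) ≤ 2 ^ i := one_le_pow₀ (by norm_num)
  have hsW : 1 ≤ Real.sqrt W := Real.one_le_sqrt.2 hW1
  have hP1 : 1 ≤ P := by
    rw [hP]
    nlinarith
  have hPW : W ≤ P ^ 2 := by
    rw [hP, mul_pow, Real.sq_sqrt (by linarith)]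
    have : (1 : ℝ) ≤ (2 ^ j) ^ 2 := one_le_pow₀ h2j
    nlinarith
  -- `g ≤ M^ε`
  have hgM : (g : ℝ) ≤ M ^ ε := by
    refine hg'.trans (le_trans ?_ h.big.hp)
    exact pow_le_pow_right₀ (by linarith) (by omega)
  have hlogg : Real.log g ≤ ε * ℓ := by
    rw [hℓ, ← Real.log_rpow hM0]
    exact Real.log_le_log hgR hgM
  have hlogq : ℓ / 2 ≤ Real.log q := by
    rw [hq, Real.log_div hM0.ne' hgR.ne']
    have : ε * ℓ ≤ 1 / 4 * ℓ := mul_le_mul_of_nonneg_right h.e4 hℓ0.le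
    rw [← hℓ]
    linarith
  have hlogq0 : 0 < Real.log q := by linarith
  have hq3 : 3 ≤ q := by
    have e1 := Real.add_one_le_exp (Real.log q)
    rw [Real.exp_log hq0] at e1
    linarith
  -- comparison of logarithms
  have hpow : ∀ n : ℕ, (ℓ / 2) ^ n ≤ (Real.log q) ^ n := fun n => pow_le_pow_left₀ (by linarith) hlogq n
  have hDq : D ≤ (Real.log q) ^ (2 * A + 6) := by
    refine le_trans ?_ (hpow _)
    have e1 : (ℓ / 2) ^ (2 * A + 6) = ℓ ^ (A + 2) * (ℓ ^ (A + 4) / 2 ^ (2 * A + 6)) := by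
      rw [div_pow, ← mul_div_assoc, ← pow_add]
      congr 2
      omega
    rw [e1, hD]
    apply le_mul_of_one_le_right (by positivity)
    rw [le_div_iff₀ (by positivity), one_mul]
    calc (2 : ℝ) ^ (2 * A + 6) ≤ 2 ^ (4 * (A + 4)) := pow_le_pow_right₀ (by norm_num) (by omega)
      _ = 16 ^ (A + 4) := by
          rw [pow_mul]
          norm_num
      _ ≤ ℓ ^ (A + 4) := pow_le_pow_left₀ (by norm_num) hl _
  have h4q : 4 ≤ (Real.log q) ^ (2 * A + 6) := by
    calc (4 : ℝ) ≤ 8 ^ 1 := by norm_num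
      _ ≤ 8 ^ (2 * A + 6) := pow_le_pow_right₀ (by norm_num) (by omega)
      _ ≤ (Real.log q) ^ (2 * A + 6) := pow_le_pow_left₀ (by norm_num) (by linarith) _
  -- powers of `q`
  have hqpow : M ^ (1 - ε) / g ≤ q ^ (1 - ε / 2) := by
    rw [hq, Real.div_rpow hM0.le hgR.le]
    have e1 : (g : ℝ) ^ (1 - ε / 2) ≤ g := by
      calc (g : ℝ) ^ (1 - ε / 2) ≤ (g : ℝ) ^ (1 : ℝ) := Real.rpow_le_rpow_of_exponent_le hg1 (by linarith)
        _ = g := Real.rpow_one _
    have e2 : M ^ (1 - ε) ≤ M ^ (1 - ε / 2) := Real.rpow_le_rpow_of_exponent_le hM1 (by linarith)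
    exact div_le_div₀ (by positivity) e2 (by positivity) e1
  have hLg1 : 1 ≤ L / g := by
    rw [le_div_iff₀ hgR, one_mul]
    refine hgM.trans (le_trans ?_ h.L1)
    exact Real.rpow_le_rpow_of_exponent_le hM1 (by linarith)
  have hLgM : L / g ≤ q ^ (1 - ε / 2) := by
    refine le_trans ?_ hqpow
    gcongr
    exact h.L2
  have hRlow : q / (L / g) * q ^ (ε / 2) ≤ R := by
    have e1 : q / (L / g) = M / L := by
      rw [hq]
      field_simp
    rw [e1]
    have e2 : M / L * M ^ (3 * ε / 2) ≤ Real.sqrt Y := by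
      apply Real.le_sqrt_of_sq_le
      refine le_trans (le_of_eq ?_) h.hY
      rw [mul_pow, ← Real.rpow_natCast (M ^ (3 * ε / 2)) 2, ← Real.rpow_mul hM0.le]
      congr 2
      push_cast
      ring
    have e3 : q ^ (ε / 2) ≤ M ^ (ε / 2) := Real.rpow_le_rpow hq0.le hqM (by linarith)
    have e4 : M ^ (ε / 2) ≤ M ^ (3 * ε / 2) / g := by
      rw [le_div_iff₀ hgR]
      calc M ^ (ε / 2) * g ≤ M ^ (ε / 2) * M ^ ε := by gcongr
        _ = M ^ (3 * ε / 2) := by
            rw [← Real.rpow_add hM0]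
            congr 1
            ring
    calc M / L * q ^ (ε / 2) ≤ M / L * (M ^ (3 * ε / 2) / g) := by
          gcongr
          exact e3.trans e4
      _ = M / L * M ^ (3 * ε / 2) / g := by ring
      _ ≤ Real.sqrt Y / g := by gcongr
      _ ≤ R := by
          rw [hR]
          gcongr
          have := Real.sqrt_nonneg Y
          nlinarith
  have hR1 : 1 ≤ R := by
    refine le_trans ?_ hRlow
    have e1 : q / (L / g) = M / L := by
      rw [hq]
      field_simp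
    rw [e1]
    have e2 : 1 ≤ M / L := by
      rw [le_div_iff₀ hL0, one_mul]
      exact hLM
    have e3 : 1 ≤ q ^ (ε / 2) := Real.one_le_rpow (by linarith) (by linarith)
    nlinarith
  -- three cases
  by_cases hc1 : q ≤ R * P
  · rw [Bl_zero (by linarith) hq0 hR0 hP0 hc1, abs_zero]
    linarith
  have hc1' := (not_le.1 hc1).le
  have hPM : P ≤ M := by
    have : P ≤ R * P := by nlinarith
    linarith
  have hlogP : 4 * Real.log (4 * P ^ 2) ≤ 16 * ℓ := by
    have e1 : Real.log (4 * P ^ 2) ≤ Real.log (M ^ 4) := by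
      apply Real.log_le_log (by positivity)
      have e2 : P ^ 2 ≤ M ^ 2 := by gcongr
      have e3 : 4 * M ^ 2 ≤ M ^ 4 := by
        have : M ^ 4 = M ^ 2 * M ^ 2 := by ring
        rw [this]
        apply mul_le_mul_of_nonneg_right _ (by positivity)
        nlinarith
      linarith
    rw [Real.log_pow] at e1
    push_cast at e1
    linarith
  have hLml := Lm_lg h.hlam hg
  by_cases hc2 : q / (Real.log q) ^ (2 * A + 6) ≤ R * P
  · -- good blocks
    have hR2 : R ^ 2 ≤ L / g * q ^ (1 - ε / 2) := by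
      have e1 : R ^ 2 * W ≤ q ^ 2 := by
        calc R ^ 2 * W ≤ R ^ 2 * P ^ 2 := by gcongr
          _ = (R * P) ^ 2 := by ring
          _ ≤ q ^ 2 := by gcongr
      have e2 : R ^ 2 * (M / L * M ^ ε) ≤ q ^ 2 := le_trans (by
        gcongr
        exact h.hW) e1
      have e3 : q ^ 2 ≤ L / g * q ^ (1 - ε / 2) * (M / L * M ^ ε) := by
        have f1 : q ^ (ε / 2) ≤ M ^ ε := by
          calc q ^ (ε / 2) ≤ M ^ (ε / 2) := Real.rpow_le_rpow hq0.le hqM (by linarith)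
            _ ≤ M ^ ε := Real.rpow_le_rpow_of_exponent_le hM1 (by linarith)
        have f2 : q ^ (1 - ε / 2) * q ^ (ε / 2) = q := by
          rw [← Real.rpow_add hq0]
          simp
        have f3 : L / g * q ^ (1 - ε / 2) * (M / L * M ^ ε) = q * (q ^ (1 - ε / 2) * M ^ ε) := by
          rw [hq]
          field_simp
        rw [f3]
        calc q ^ 2 = q * q := by ring
          _ = q * (q ^ (1 - ε / 2) * q ^ (ε / 2)) := by rw [f2]
          _ ≤ q * (q ^ (1 - ε / 2) * M ^ ε) := by gcongr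
      exact le_of_mul_le_mul_right (e2.trans e3) (by positivity)
    have key := Bl_good2 hm hCT hT q (L / g) R P D W (16 * ℓ) g (lg g lam) hq3 hLg1 hLgM hRlow hR2 hc2 hc1' hD1 hDq hg
      (hg'.trans hDq) hLml hP1 hlogP
    refine key.trans ?_
    have e1 : 6 * Real.sqrt CT * (16 * ℓ) * (L / g * (R * P)) / (Real.log q) ^ (2 * A + 5) ≤
        96 * Real.sqrt CT * ℓ * (L * M) / (ℓ / 2) ^ (2 * A + 5) := by
      have e2 : L / g * (R * P) ≤ L * M := by
        have : L / g ≤ L := div_le_self hL0.le hg1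
        have : R * P ≤ M := by linarith
        have : 0 ≤ R * P := by positivity
        gcongr
      have e3 : 6 * Real.sqrt CT * (16 * ℓ) * (L / g * (R * P)) ≤ 96 * Real.sqrt CT * ℓ * (L * M) := by
        have : 6 * Real.sqrt CT * (16 * ℓ) = 96 * Real.sqrt CT * ℓ := by ring
        rw [this]
        gcongr
      exact div_le_div₀ (by positivity) e3 (by positivity) (hpow _)
    linarith
  · -- bad blocks
    have hc2' := (not_le.1 hc2).le
    set H := 4 * (q / (Real.log q) ^ (2 * A + 6)) with hH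
    have hHq : H ≤ q := by
      rw [hH, ← mul_div_assoc, div_le_iff₀ (by positivity)]
      nlinarith
    have hHM : 2 * H ≤ 8 * M / (ℓ / 2) ^ (2 * A + 6) := by
      rw [hH]
      have e1 : q / (Real.log q) ^ (2 * A + 6) ≤ M / (ℓ / 2) ^ (2 * A + 6) :=
        div_le_div₀ hM0.le hqM (by positivity) (hpow _)
      calc 2 * (4 * (q / (Real.log q) ^ (2 * A + 6))) ≤ 8 * (M / (ℓ / 2) ^ (2 * A + 6)) := by linarith
        _ = _ := by ring
    have key := Bl_bad hm hB q (L / g) R P D W H (16 * ℓ) (2 * ℓ) g (lg g lam) hq0 (by positivity)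
      (by rw [hq]; gcongr) hLml (by rw [hH]; linarith) hHq hR0 hP1 hlogP (by positivity) (log_two_mul h3 hg)
    refine key.trans ?_
    have e1 : 16 * ℓ * (C1 * (L / g * (2 * H + 1) * (2 * ℓ) + q * Real.sqrt q)) ≤
        16 * ℓ * (C1 * (L * (8 * M / (ℓ / 2) ^ (2 * A + 6) + 1) * (2 * ℓ) + M * Real.sqrt M)) := by
      apply mul_le_mul_of_nonneg_left _ (by positivity)
      apply mul_le_mul_of_nonneg_left _ hC1.le
      have hH0 : 0 ≤ H := by positivity
      have e2 : L / g ≤ L := div_le_self hL0.le hg1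
      have e3 : q * Real.sqrt q ≤ M * Real.sqrt M := by
        have := Real.sqrt_le_sqrt hqM
        gcongr
      have e4 : L / g * (2 * H + 1) * (2 * ℓ) ≤ L * (8 * M / (ℓ / 2) ^ (2 * A + 6) + 1) * (2 * ℓ) := by
        apply mul_le_mul_of_nonneg_right _ (by positivity)
        apply mul_le_mul e2 (by linarith) (by linarith) hL0.le
      linarith
    linarith

/-- small contents -/
theorem small_part2 (hm : S_MUB) {ε CT C1 : ℝ} {A : ℕ} (hCT : 0 < CT) (hT : TT2 (ε / 2) CT (2 * A + 5) (2 * A + 6))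
    (hC1 : 0 < C1) (hB : BX C1) {M L Y W : ℝ} {lam : ℤ → ℝ} (h : Par2 ε A M L Y W lam) (n : ℕ)
    (hn : (n : ℝ) ≤ (Real.log M) ^ (A + 2)) :
    ∑ g ∈ Icc 1 n, |Tg W ((Real.log M) ^ (A + 2)) M Y (2 * M ^ 2) g lam| ≤
      (Real.log M) ^ (A + 2) * ((3 * Real.log M) * ((3 * Real.log M) *
      (96 * Real.sqrt CT * Real.log M * (L * M) / (Real.log M / 2) ^ (2 * A + 5) +
      16 * Real.log M * (C1 * (L * (8 * M / (Real.log M / 2) ^ (2 * A + 6) + 1) * (2 * Real.log M) +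
        M * Real.sqrt M))))) := by
  have h3 := h.big.h3
  have hL0 := h.L_pos
  have hY1 := h.Y_pos
  have hW1 := h.W_one
  set ℓ := Real.log M with hℓ
  have hl : 16 ≤ ℓ := h.big.hl
  have hℓ0 : 0 < ℓ := by linarith
  have hM0 : 0 < M := by linarith
  set E := 96 * Real.sqrt CT * ℓ * (L * M) / (ℓ / 2) ^ (2 * A + 5) +
      16 * ℓ * (C1 * (L * (8 * M / (ℓ / 2) ^ (2 * A + 6) + 1) * (2 * ℓ) + M * Real.sqrt M)) with hE
  have hE0 : 0 ≤ E := by positivity
  set I := ⌈2 * ℓ⌉₊ with hI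
  have hI1 : (I : ℝ) ≤ 3 * ℓ := by
    have := Nat.ceil_lt_add_one (show 0 ≤ 2 * ℓ by positivity)
    linarith
  have hI2 : M ^ 2 ≤ 4 ^ I := by
    have e1 : M ^ 2 = Real.exp (2 * ℓ) := by
      rw [hℓ, two_mul, Real.exp_add, Real.exp_log hM0]
      ring
    have e2 : Real.exp (2 * ℓ) ≤ Real.exp I := Real.exp_le_exp.2 (Nat.le_ceil _)
    have e3 : Real.exp I = (Real.exp 1) ^ I := by
      rw [← Real.exp_nat_mul, mul_one]
    have e4 : (Real.exp 1) ^ I ≤ 4 ^ I := by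
      apply pow_le_pow_left₀ (Real.exp_pos 1).le
      have := Real.exp_one_lt_d9
      linarith
    rw [e1]
    linarith [e3 ▸ e4]
  have key : ∀ g ∈ Icc 1 n, |Tg W (ℓ ^ (A + 2)) M Y (2 * M ^ 2) g lam| ≤ (3 * ℓ) * ((3 * ℓ) * E) := by
    intro g hg
    rw [mem_Icc] at hg
    have hgn : (g : ℝ) ≤ ℓ ^ (A + 2) := by
      refine le_trans ?_ hn
      exact_mod_cast hg.2
    rw [Tg_small W (ℓ ^ (A + 2)) M Y (2 * M ^ 2) g hg.1 lam (by linarith) (by positivity) (by linarith) (by linarith)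
      (by nlinarith [sq_nonneg M]) I I (by nlinarith) (by nlinarith)]
    refine (abs_sum_le_sum_abs _ _).trans ?_
    have s1 : ∀ i ∈ range I, |∑ j ∈ range I, Bl W (ℓ ^ (A + 2)) (M / g) (2 ^ i * Real.sqrt Y / g)
        (2 ^ j * Real.sqrt W) g (lg g lam)| ≤ (3 * ℓ) * E := by
      intro i _
      refine (abs_sum_le_sum_abs _ _).trans ?_
      refine (sum_le_sum fun j _ => block2 hm hCT hT hC1 hB h g hg.1 hgn i j).trans ?_
      rw [sum_const, card_range, nsmul_eq_mul]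
      gcongr
    refine (sum_le_sum s1).trans ?_
    rw [sum_const, card_range, nsmul_eq_mul]
    gcongr
  refine (sum_le_sum key).trans ?_
  rw [sum_const, Nat.card_Icc, nsmul_eq_mul]
  have : ((n + 1 - 1 : ℕ) : ℝ) = n := by simp
  rw [this]
  gcongr

/-- powers of the logarithm are absorbed -/
theorem absorb2 {ε : ℝ} {A : ℕ} {M L Y W : ℝ} {lam : ℤ → ℝ} (h : Par2 ε A M L Y W lam) (p : ℕ)
    (hp : p + A ≤ 2 * A + 6) : L * (Real.log M) ^ p ≤ L * M / (Real.log M) ^ A ∧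
      M * Real.sqrt M * (Real.log M) ^ p ≤ L * M / (Real.log M) ^ A := by
  have h3 := h.big.h3
  have hε := h.e0
  have hL0 := h.L_pos
  set ℓ := Real.log M with hℓ
  have hl : 16 ≤ ℓ := h.big.hl
  have hℓ0 : 0 < ℓ := by linarith
  have hM0 : 0 < M := by linarith
  have h1 : ℓ ^ (p + A) ≤ M ^ ε := (pow_le_pow_right₀ (by linarith) hp).trans h.big.hp
  have h2 : M ^ ε ≤ M := by
    calc M ^ ε ≤ M ^ (1 : ℝ) := Real.rpow_le_rpow_of_exponent_le (by linarith) (by linarith [h.e4])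
      _ = M := Real.rpow_one M
  constructor
  · rw [le_div_iff₀ (by positivity), mul_assoc, ← pow_add]
    apply mul_le_mul_of_nonneg_left _ hL0.le
    linarith
  · rw [le_div_iff₀ (by positivity)]
    have e1 : Real.sqrt M * ℓ ^ (p + A) ≤ L := by
      refine le_trans ?_ h.L1
      rw [Real.rpow_add hM0, ← Real.sqrt_eq_rpow]
      gcongr
    calc M * Real.sqrt M * ℓ ^ p * ℓ ^ A = M * (Real.sqrt M * ℓ ^ (p + A)) := by
          rw [pow_add]
          ring
      _ ≤ M * L := by gcongr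
      _ = L * M := mul_comm _ _

/-- the bound for large `M` -/
theorem main_large_ii (hm : S_MUB) {ε CT C1 : ℝ} {A : ℕ} (hCT : 0 < CT) (hT : TT2 (ε / 2) CT (2 * A + 5) (2 * A + 6))
    (hC1 : 0 < C1) (hB : BX C1) {M L Y W : ℝ} {lam : ℤ → ℝ} (h : Par2 ε A M L Y W lam) :
    |SI M Y W lam| ≤ (216 * C1 + 204 * C1 + 864 * 2 ^ (2 * A + 5) * Real.sqrt CT +
      144 * C1 * (16 * 2 ^ (2 * A + 6) + 3)) * (L * M / (Real.log M) ^ A) := by
  have h3 := h.big.h3
  have hε := h.e0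
  have hL0 := h.L_pos
  have hLM := h.L_le
  have ab := absorb2 h
  have hbl := h.big.hl
  have hbp := h.big.hp
  have hM0 : 0 < M := by linarith
  have hSm := small_part2 hm hCT hT hC1 hB h
  have hA2 : ((Real.log M) ^ (A + 2)) ≤ M ^ ε :=
    (pow_le_pow_right₀ (by linarith) (by omega)).trans hbp
  set x := Real.log M with hx
  have hx0 : 0 < x := by linarith
  set T := L * M / x ^ A with hT'
  have hT0 : 0 ≤ T := by positivity
  set D := x ^ (A + 2) with hD
  have hD0 : 0 < D := by positivity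
  have hD4 : 4 ≤ D := by
    calc (4 : ℝ) ≤ x ^ 1 := by rw [pow_one]; linarith
      _ ≤ x ^ (A + 2) := pow_le_pow_right₀ (by linarith) (by omega)
  have hDL : L ^ 2 * D ≤ M ^ 2 := by
    have e1 : L ^ 2 ≤ M ^ (2 - 2 * ε) := by
      calc L ^ 2 ≤ (M ^ (1 - ε)) ^ 2 := by
            have := h.L2
            gcongr
        _ = M ^ (2 - 2 * ε) := by
            rw [← Real.rpow_natCast, ← Real.rpow_mul hM0.le]
            congr 1
            push_cast
            ring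
    calc L ^ 2 * D ≤ M ^ (2 - 2 * ε) * M ^ ε := by gcongr
      _ = M ^ (2 - ε) := by
          rw [← Real.rpow_add hM0]
          congr 1
          ring
      _ ≤ M ^ (2 : ℝ) := Real.rpow_le_rpow_of_exponent_le (by linarith) (by linarith)
      _ = M ^ 2 := by
          rw [← Real.rpow_natCast]
          norm_num
  set N := ⌈Real.sqrt (2 * M ^ 2)⌉₊ with hN
  have hN1 : Real.sqrt (2 * M ^ 2) ≤ N := Nat.le_ceil _
  have hN2 : 1 + Real.log N ≤ 3 * x := by
    have e1 : (N : ℝ) ≤ M ^ 2 := by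
      have e2 := Nat.ceil_lt_add_one (Real.sqrt_nonneg (2 * M ^ 2))
      have e3 : Real.sqrt (2 * M ^ 2) ≤ 2 * M := by
        apply Real.sqrt_le_iff.2
        refine ⟨by linarith, ?_⟩
        nlinarith [sq_nonneg M]
      nlinarith
    have e4 : (0 : ℝ) < N := by
      refine lt_of_lt_of_le ?_ hN1
      positivity
    have e5 := Real.log_le_log e4 e1
    rw [Real.log_pow] at e5
    push_cast at e5
    linarith
  set n := ⌊D⌋₊ with hn
  have hn1 : (n : ℝ) ≤ D := Nat.floor_le hD0.le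
  have hn2 : D / 2 ≤ n := by
    have := Nat.lt_floor_add_one D
    linarith
  have hn3 : 1 ≤ n := by
    have : (0 : ℝ) < n := by linarith
    exact_mod_cast this
  have hn4 : (1 : ℝ) / n ≤ 2 / D := by
    rw [div_le_div_iff₀ (by exact_mod_cast hn3) hD0]
    linarith
  rw [SI_eq hm M Y W D lam N hN1]
  refine (abs_add_le _ _).trans ?_
  -- the three parts
  have p1 := smooth hm hB W D M Y L lam h3 hD4 hL0.le hLM hDL h.hlam
  have p2 := large_part hm hC1 hB W D M Y L lam h3 hD0.le hL0.le hLM h.hlam n N hn3 hN2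
  have p3 := hSm n hn1
  have q1 : |∑ g ∈ Icc 1 N, mu ((g : ℕ) : ZI) * Tg W D M Y (2 * M ^ 2) g lam| ≤
      ∑ g ∈ Icc 1 n, |Tg W D M Y (2 * M ^ 2) g lam| + ∑ g ∈ Ioc n N, |Tg W D M Y (2 * M ^ 2) g lam| := by
    refine (abs_sum_le_sum_abs _ _).trans ?_
    have e1 : ∀ g ∈ Icc 1 N, |mu ((g : ℕ) : ZI) * Tg W D M Y (2 * M ^ 2) g lam| ≤
        |Tg W D M Y (2 * M ^ 2) g lam| := by
      intro g _
      rw [abs_mul]
      have := abs_mu_le ((g : ℕ) : ZI)
      have := abs_nonneg (Tg W D M Y (2 * M ^ 2) g lam)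
      nlinarith
    refine (sum_le_sum e1).trans ?_
    rw [← sum_union]
    · apply sum_le_sum_of_subset_of_nonneg
      · intro g hg
        rw [mem_Icc] at hg
        rw [mem_union, mem_Icc, mem_Ioc]
        omega
      · intro g _ _
        exact abs_nonneg _
    · rw [disjoint_left]
      intro g hg hg'
      rw [mem_Icc] at hg
      rw [mem_Ioc] at hg'
      omega
  -- elementary bounds
  have r1 : L * M / D * x ^ 2 = T := by
    rw [hT', hD, pow_add]
    field_simp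
  have r2 := (ab 2 (by omega)).1
  have r3 := (ab 1 (by omega)).2
  have r4 := (ab 3 (by omega)).1
  have r5 := (ab 2 (by omega)).2
  have r6 := (ab (A + 6) (by omega)).1
  have r7 := (ab (A + 5) (by omega)).2
  have s1 : 2 * (12 * x * (C1 * (L * (3 * M / D + 1) * (2 * x) + M * Real.sqrt M))) ≤ 216 * C1 * T := by
    have e1 : 2 * (12 * x * (C1 * (L * (3 * M / D + 1) * (2 * x) + M * Real.sqrt M))) =
        24 * C1 * (6 * (L * M / D * x ^ 2) + 2 * (L * x ^ 2) + M * Real.sqrt M * x ^ 1) := by ring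
    rw [e1, r1]
    have e2 : 6 * T + 2 * (L * x ^ 2) + M * Real.sqrt M * x ^ 1 ≤ 9 * T := by linarith
    calc 24 * C1 * (6 * T + 2 * (L * x ^ 2) + M * Real.sqrt M * x ^ 1) ≤ 24 * C1 * (9 * T) := by gcongr
      _ = 216 * C1 * T := by ring
  have s2 : 12 * x * (C1 * ((2 * L * M * (1 / n) + L * (3 * x)) * (2 * x) + M * Real.sqrt M * (3 * x))) ≤
      204 * C1 * T := by
    have e0 : 2 * L * M * (1 / n) ≤ 2 * L * M * (2 / D) := by gcongr
    calc 12 * x * (C1 * ((2 * L * M * (1 / n) + L * (3 * x)) * (2 * x) + M * Real.sqrt M * (3 * x))) ≤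
        12 * x * (C1 * ((2 * L * M * (2 / D) + L * (3 * x)) * (2 * x) + M * Real.sqrt M * (3 * x))) := by gcongr
      _ = 12 * C1 * (8 * (L * M / D * x ^ 2) + 6 * (L * x ^ 3) + 3 * (M * Real.sqrt M * x ^ 2)) := by ring
      _ = 12 * C1 * (8 * T + 6 * (L * x ^ 3) + 3 * (M * Real.sqrt M * x ^ 2)) := by rw [r1]
      _ ≤ 12 * C1 * (17 * T) := by
          have : 8 * T + 6 * (L * x ^ 3) + 3 * (M * Real.sqrt M * x ^ 2) ≤ 17 * T := by linarith
          gcongr
      _ = 204 * C1 * T := by ring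
  have s3 : D * ((3 * x) * ((3 * x) *
      (96 * Real.sqrt CT * x * (L * M) / (x / 2) ^ (2 * A + 5) +
      16 * x * (C1 * (L * (8 * M / (x / 2) ^ (2 * A + 6) + 1) * (2 * x) + M * Real.sqrt M))))) ≤
      (864 * 2 ^ (2 * A + 5) * Real.sqrt CT + 144 * C1 * (16 * 2 ^ (2 * A + 6) + 3)) * T := by
    have e1 : D * ((3 * x) * ((3 * x) * (96 * Real.sqrt CT * x * (L * M) / (x / 2) ^ (2 * A + 5)))) =
        864 * 2 ^ (2 * A + 5) * Real.sqrt CT * T := by
      rw [hD, hT', div_pow]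
      have : x ^ (2 * A + 5) = x ^ (A + 2) * x ^ 3 * x ^ A := by
        rw [← pow_add, ← pow_add]
        congr 1
        omega
      rw [this]
      field_simp
      ring
    have e2 : D * ((3 * x) * ((3 * x) * (16 * x * (C1 * (L * (8 * M / (x / 2) ^ (2 * A + 6)) * (2 * x)))))) =
        144 * C1 * (16 * 2 ^ (2 * A + 6)) * T := by
      rw [hD, hT', div_pow]
      have : x ^ (2 * A + 6) = x ^ (A + 2) * x ^ 4 * x ^ A := by
        rw [← pow_add, ← pow_add]
        congr 1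
        omega
      rw [this]
      field_simp
      ring
    have e3 : D * ((3 * x) * ((3 * x) * (16 * x * (C1 * (L * (2 * x)))))) = 144 * C1 * (2 * (L * x ^ (A + 6))) := by
      rw [hD, show A + 6 = (A + 2) + 4 by omega, pow_add x (A + 2) 4]
      ring
    have e4 : D * ((3 * x) * ((3 * x) * (16 * x * (C1 * (M * Real.sqrt M))))) =
        144 * C1 * (M * Real.sqrt M * x ^ (A + 5)) := by
      rw [hD, show A + 5 = (A + 2) + 3 by omega, pow_add x (A + 2) 3]
      ring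
    have e5 : D * ((3 * x) * ((3 * x) *
      (96 * Real.sqrt CT * x * (L * M) / (x / 2) ^ (2 * A + 5) +
      16 * x * (C1 * (L * (8 * M / (x / 2) ^ (2 * A + 6) + 1) * (2 * x) + M * Real.sqrt M))))) =
      D * ((3 * x) * ((3 * x) * (96 * Real.sqrt CT * x * (L * M) / (x / 2) ^ (2 * A + 5)))) +
      D * ((3 * x) * ((3 * x) * (16 * x * (C1 * (L * (8 * M / (x / 2) ^ (2 * A + 6)) * (2 * x)))))) +
      D * ((3 * x) * ((3 * x) * (16 * x * (C1 * (L * (2 * x)))))) +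
      D * ((3 * x) * ((3 * x) * (16 * x * (C1 * (M * Real.sqrt M))))) := by ring
    rw [e5, e1, e2, e3, e4]
    have e6 : 144 * C1 * (2 * (L * x ^ (A + 6))) + 144 * C1 * (M * Real.sqrt M * x ^ (A + 5)) ≤ 144 * C1 * (3 * T) := by
      rw [← mul_add]
      have : 2 * (L * x ^ (A + 6)) + M * Real.sqrt M * x ^ (A + 5) ≤ 3 * T := by linarith
      gcongr
    have e7 : (864 * 2 ^ (2 * A + 5) * Real.sqrt CT + 144 * C1 * (16 * 2 ^ (2 * A + 6) + 3)) * T =
        864 * 2 ^ (2 * A + 5) * Real.sqrt CT * T + 144 * C1 * (16 * 2 ^ (2 * A + 6)) * T + 144 * C1 * (3 * T) := by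
      ring
    rw [e7]
    linarith
  have e8 : (216 * C1 + 204 * C1 + 864 * 2 ^ (2 * A + 5) * Real.sqrt CT +
      144 * C1 * (16 * 2 ^ (2 * A + 6) + 3)) * T = 216 * C1 * T + 204 * C1 * T +
      (864 * 2 ^ (2 * A + 5) * Real.sqrt CT + 144 * C1 * (16 * 2 ^ (2 * A + 6) + 3)) * T := by ring
  rw [e8]
  linarith

theorem ii2 (hm : S_MUB) (h1 : S_T2) (h2 : S_DIV) : S_II2 := by
  intro ε A hε
  obtain ⟨CT, hCT, hT⟩ := h1 (ε / 2) (2 * (2 * A + 5)) (2 * A + 6) (by linarith)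
  obtain ⟨C1, hC1, hB⟩ := box h2
  obtain ⟨M0, hM0, hbig⟩ := exists_big hε A
  set K := 216 * C1 + 204 * C1 + 864 * 2 ^ (2 * A + 5) * Real.sqrt CT +
      144 * C1 * (16 * 2 ^ (2 * A + 6) + 3) with hK
  have hlogM0 : 0 < Real.log M0 := Real.log_pos (by linarith)
  set K' := (9 * (2 * M0 ^ 2)) * ((9 * (2 * M0 ^ 2)) * (12 * Real.log M0)) * (Real.log M0) ^ A with hK'
  have hKp : 0 < K := by positivity
  have hKp' : 0 < K' := by positivity
  refine ⟨K + K', by positivity, ?_⟩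
  intro M L Y W lam hM hL1 hL2 hY hW hlam
  have hMp : 0 < M := by linarith
  have hlog : 0 < Real.log M := Real.log_pos (by linarith)
  have hL0 : 1 ≤ L := by
    refine le_trans ?_ hL1
    exact Real.one_le_rpow (by linarith) (by linarith)
  have hε4 : ε ≤ 1 / 4 := by
    have e1 := hL1.trans hL2
    rw [Real.rpow_le_rpow_left_iff (by linarith)] at e1
    linarith
  have e0 : 0 ≤ L * M / (Real.log M) ^ A := by positivity
  have e3 : (K + K') * L * M / (Real.log M) ^ A = K * (L * M / (Real.log M) ^ A) +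
      K' * (L * M / (Real.log M) ^ A) := by ring
  rw [e3]
  change |SI M Y W lam| ≤ _
  by_cases hc : M0 ≤ M
  · have key := main_large_ii hm hCT hT hC1 hB (⟨hbig M hc, hε, hε4, hL1, hL2, hY, hW, hlam⟩ : Par2 ε A M L Y W lam)
    have : 0 ≤ K' * (L * M / (Real.log M) ^ A) := by positivity
    linarith
  · have hc' := (not_le.1 hc).le
    have key := SI_trivial hm (Y := Y) (W := W) hM hlam
    have l1 : Real.log M ≤ Real.log M0 := Real.log_le_log hMp hc'
    have l2 : (9 * (2 * M ^ 2)) * ((9 * (2 * M ^ 2)) * (12 * Real.log M)) ≤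
        (9 * (2 * M0 ^ 2)) * ((9 * (2 * M0 ^ 2)) * (12 * Real.log M0)) := by
      gcongr
    have l3 : (9 * (2 * M0 ^ 2)) * ((9 * (2 * M0 ^ 2)) * (12 * Real.log M0)) ≤
        K' * (L * M / (Real.log M) ^ A) := by
      rw [hK', mul_assoc ((9 * (2 * M0 ^ 2)) * ((9 * (2 * M0 ^ 2)) * (12 * Real.log M0)))]
      apply le_mul_of_one_le_right (by positivity)
      rw [← mul_div_assoc, le_div_iff₀ (by positivity), one_mul]
      have l4 : (Real.log M) ^ A ≤ (Real.log M0) ^ A := pow_le_pow_left₀ hlog.le l1 A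
      have l5 : 1 ≤ L * M := by nlinarith
      nlinarith [pow_pos hlogM0 A]
    have : 0 ≤ K * (L * M / (Real.log M) ^ A) := by positivity
    linarith

end Pool.Agent.J6H16.TH
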