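import Pool.Agent.Helper112.Bilinear
import Pool.Agent.N7.GN.Bil2
import Pool.Agent.N494.GN.Lsd

/-!
# Gauss sums of imprimitive characters, and Parseval's formula for the multiplicative convolution
-/

set_option autoImplicit false

namespace Pool.Agent.J6H16.TH

open Finset
open Pool.Agent.N782.GN
open Pool.Agent.Helper112.MLS (T norm_gauss sum_all norm_char)

/-- `∑_a χ(a) T(a)` -/
noncomputable def gs (q : ℕ) [NeZero q] (N : ℕ) (α : ℕ → ℂ) (χ : DirichletCharacter ℂ q) : ℂ :=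
  ∑ a : ZMod q, χ a * T q N α a

lemma sum_zmod (q : ℕ) [NeZero q] (g : ZMod q → ℂ) : ∑ a : ZMod q, g a = ∑ a ∈ range q, g (a : ZMod q) := by
  apply sum_bij (fun (a : ZMod q) _ => a.val)
  · intro a _
    rw [mem_range]
    exact ZMod.val_lt a
  · intro a _ b _ hab
    exact ZMod.val_injective q hab
  · intro b hb
    rw [mem_range] at hb
    exact ⟨(b : ZMod q), mem_univ _, by rw [ZMod.val_natCast, Nat.mod_eq_of_lt hb]⟩
  · intro a _
    congr 1
    exact (ZMod.natCast_zmod_val a).symm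

lemma T_ee (q : ℕ) [NeZero q] (N : ℕ) (α : ℕ → ℂ) (a : ℕ) :
    T q N α (a : ZMod q) = ∑ n ∈ Icc 1 N, α n * ee (n * a / q) := by
  rw [Pool.Agent.Helper112.MLS.T_eq]
  exact sum_congr rfl fun n _ => by rw [Pool.Agent.N494.GN.ee_eq]

open Classical in
lemma change_apply (f r : ℕ) (h : f ∣ f * r) (ψ : DirichletCharacter ℂ f) (b : ℕ) :
    DirichletCharacter.changeLevel h ψ (b : ZMod (f * r)) = if b.Coprime r then ψ (b : ZMod f) else 0 := by
  by_cases hb : b.Coprime (f * r)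
  · have h1 := DirichletCharacter.changeLevel_eq_cast_of_dvd' ψ h (a := (b : ℤ))
      (by exact_mod_cast Nat.isCoprime_iff_coprime.mpr hb)
    push_cast at h1
    rw [h1, if_pos (Nat.Coprime.coprime_mul_left_right hb)]
  · rw [MulChar.map_nonunit _ (fun hu => hb ((ZMod.isUnit_iff_coprime b _).mp hu))]
    split_ifs with hg
    · have : ¬ b.Coprime f := fun hf => hb (Nat.Coprime.mul_right hf hg)
      rw [MulChar.map_nonunit _ (fun hu => this ((ZMod.isUnit_iff_coprime b _).mp hu))]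
    · rfl

open Classical in
lemma mob_cop (a r : ℕ) (hr : 1 ≤ r) : (if a.Coprime r then (1 : ℂ) else 0) =
    ∑ s ∈ r.divisors.filter (fun s => s ∣ a), ((ArithmeticFunction.moebius s : ℤ) : ℂ) := by
  have h1 : r.divisors.filter (fun s => s ∣ a) = (Nat.gcd a r).divisors := by
    ext s
    rw [mem_filter, Nat.mem_divisors, Nat.mem_divisors, Nat.dvd_gcd_iff]
    constructor
    · rintro ⟨⟨h1, h2⟩, h3⟩
      exact ⟨⟨h3, h1⟩, Nat.gcd_ne_zero_right h2⟩
    · rintro ⟨⟨h1, h2⟩, h3⟩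
      exact ⟨⟨h2, by omega⟩, h1⟩
  rw [h1]
  have h2 : ∑ s ∈ (Nat.gcd a r).divisors, (ArithmeticFunction.moebius s : ℤ) = if Nat.gcd a r = 1 then 1 else 0 := by
    have h3 := congrArg (fun F : ArithmeticFunction ℤ => F (Nat.gcd a r)) ArithmeticFunction.moebius_mul_coe_zeta
    simp only [ArithmeticFunction.coe_mul_zeta_apply, ArithmeticFunction.one_apply] at h3
    exact h3
  have h4 : ((∑ s ∈ (Nat.gcd a r).divisors, (ArithmeticFunction.moebius s : ℤ) : ℤ) : ℂ) =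
      ((if Nat.gcd a r = 1 then 1 else 0 : ℤ) : ℂ) := by rw [h2]
  push_cast at h4
  rw [h4]

lemma sum_mult (f s r : ℕ) (hs : 1 ≤ s) (g : ℕ → ℂ) [∀ a : ℕ, Decidable (s ∣ a)] :
    ∑ a ∈ (range (f * (s * r))).filter (fun a => s ∣ a), g a = ∑ b ∈ range (f * r), g (s * b) := by
  symm
  apply sum_bij (fun b _ => s * b)
  · intro b hb
    rw [mem_range] at hb
    rw [mem_filter, mem_range]
    refine ⟨?_, dvd_mul_right _ _⟩
    calc s * b < s * (f * r) := Nat.mul_lt_mul_of_pos_left hb hs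
      _ = f * (s * r) := by ring
  · intro b _ b' _ h
    exact Nat.eq_of_mul_eq_mul_left hs h
  · intro a ha
    rw [mem_filter, mem_range] at ha
    obtain ⟨h1, b, rfl⟩ := ha
    refine ⟨b, ?_, rfl⟩
    rw [mem_range]
    have : s * b < s * (f * r) := by
      calc s * b < f * (s * r) := h1
        _ = s * (f * r) := by ring
    exact Nat.lt_of_mul_lt_mul_left this
  · intro b _
    rfl

lemma sum_block (f r : ℕ) (g : ℕ → ℂ) :
    ∑ b ∈ range (f * r), g b = ∑ b ∈ range f, ∑ j ∈ range r, g (b + f * j) := by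
  rw [sum_comm]
  induction r with
  | zero => simp
  | succ r ih =>
    rw [mul_add, mul_one, sum_range_add, ih, sum_range_succ]
    congr 1
    exact sum_congr rfl fun b _ => by rw [add_comm]

lemma gauss_nat (f : ℕ) [NeZero f] {ψ : DirichletCharacter ℂ f} (hψ : ψ.IsPrimitive) (m : ℕ) :
    ∑ b ∈ range f, ψ (b : ZMod f) * ee (m * b / f) =
      ψ⁻¹ (m : ZMod f) * gaussSum ψ (ZMod.stdAddChar : AddChar (ZMod f) ℂ) := by
  rw [← gaussSum_mulShift_of_isPrimitive _ hψ (m : ZMod f)]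
  unfold gaussSum
  rw [sum_zmod]
  refine sum_congr rfl fun b _ => ?_
  rw [AddChar.mulShift_apply]
  congr 1
  have : ((m : ZMod f) * (b : ZMod f)) = (((m * b : ℕ) : ℤ) : ZMod f) := by push_cast; rfl
  rw [this, ZMod.stdAddChar_coe]
  unfold ee
  congr 1
  push_cast
  ring

lemma ram (r : ℕ) (hr : 1 ≤ r) (n : ℕ) [Decidable (r ∣ n)] :
    ∑ j ∈ range r, ee (n * j / r) = if r ∣ n then (r : ℂ) else 0 := by
  have h := Pool.Agent.N7.GN.Bil.orth hr (n : ℤ)
  have e : ∑ j ∈ range r, ee (n * j / r) = ∑ x ∈ range r, ee ((x : ℝ) / r * ((n : ℤ) : ℝ)) := by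
    refine sum_congr rfl fun j _ => ?_
    congr 1
    push_cast
    ring
  rw [e, h]
  simp only [Int.natCast_dvd_natCast]

lemma inner_B (f r : ℕ) [NeZero f] (hr : 1 ≤ r) {ψ : DirichletCharacter ℂ f} (hψ : ψ.IsPrimitive) (n : ℕ)
    [Decidable (r ∣ n)] :
    ∑ b ∈ range (f * r), ψ (b : ZMod f) * ee (n * b / ((f * r : ℕ) : ℝ)) =
      if r ∣ n then (r : ℂ) * (ψ⁻¹ ((n / r : ℕ) : ZMod f) * gaussSum ψ (ZMod.stdAddChar : AddChar (ZMod f) ℂ))
      else 0 := by
  have hf0 : (f : ℝ) ≠ 0 := by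
    have := NeZero.ne f
    exact_mod_cast this
  have hr0 : (r : ℝ) ≠ 0 := by positivity
  rw [sum_block]
  have h1 : ∀ b ∈ range f, ∑ j ∈ range r, ψ ((b + f * j : ℕ) : ZMod f) * ee (n * ((b + f * j : ℕ) : ℝ) / ((f * r : ℕ) : ℝ)) =
      (ψ (b : ZMod f) * ee (n * b / ((f * r : ℕ) : ℝ))) * ∑ j ∈ range r, ee (n * j / r) := by
    intro b _
    rw [mul_sum]
    refine sum_congr rfl fun j _ => ?_
    have e1 : (((b + f * j : ℕ) : ℕ) : ZMod f) = (b : ZMod f) := by
      push_cast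
      simp
    have e2 : n * ((b + f * j : ℕ) : ℝ) / ((f * r : ℕ) : ℝ) = n * b / ((f * r : ℕ) : ℝ) + n * j / r := by
      push_cast
      field_simp
    rw [e1, e2, Pool.Agent.N7.GN.Bil.ee_add]
    ring
  rw [sum_congr rfl h1, ← sum_mul, ram r hr n]
  split_ifs with h
  · obtain ⟨m, rfl⟩ := h
    rw [Nat.mul_div_cancel_left m (by omega), ← gauss_nat f hψ m, mul_comm]
    congr 1
    refine sum_congr rfl fun b _ => ?_
    congr 2
    push_cast
    field_simp
  · rw [mul_zero]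

lemma sum_quot (N r : ℕ) (hr : 1 ≤ r) (g : ℕ → ℂ) [∀ n : ℕ, Decidable (r ∣ n)] :
    ∑ n ∈ Icc 1 N, (if r ∣ n then g n else 0) = ∑ m ∈ Icc 1 (N / r), g (r * m) := by
  rw [← sum_filter]
  symm
  apply sum_bij (fun m _ => r * m)
  · intro m hm
    rw [mem_Icc] at hm
    rw [mem_filter, mem_Icc]
    refine ⟨⟨?_, ?_⟩, dvd_mul_right _ _⟩
    · exact Nat.mul_pos hr hm.1
    · exact (Nat.mul_le_mul_left r hm.2).trans (Nat.mul_div_le N r)
  · intro m _ m' _ h
    exact Nat.eq_of_mul_eq_mul_left hr h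
  · intro n hn
    rw [mem_filter, mem_Icc] at hn
    obtain ⟨⟨h1, h2⟩, m, rfl⟩ := hn
    refine ⟨m, ?_, rfl⟩
    rw [mem_Icc]
    constructor
    · rcases Nat.eq_zero_or_pos m with h0 | h0
      · subst h0
        simp at h1
      · exact h0
    · rw [Nat.le_div_iff_mul_le hr]
      linarith
  · intro m _
    rfl

/-- the sum over the multiples of `r` -/
noncomputable def Sm (N : ℕ) (α : ℕ → ℂ) (r f : ℕ) (ψ : DirichletCharacter ℂ f) : ℂ :=
  ∑ m ∈ Icc 1 (N / r), α (r * m) * ψ (m : ZMod f)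

open Classical in
/-- the sums `gs` for an imprimitive character -/
theorem gs_bound (f r : ℕ) [NeZero f] [NeZero (f * r)] (hr : 1 ≤ r) (N : ℕ) (α : ℕ → ℂ)
    {ψ : DirichletCharacter ℂ f} (hψ : ψ.IsPrimitive) (h : f ∣ f * r) :
    ‖gs (f * r) N α (DirichletCharacter.changeLevel h ψ)‖ ≤
      Real.sqrt f * ∑ s ∈ r.divisors, (s : ℝ) * ‖Sm N α s f ψ⁻¹‖ := by
  set G := gaussSum ψ (ZMod.stdAddChar : AddChar (ZMod f) ℂ) with hG
  have hGn : ‖G‖ = Real.sqrt f := by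
    rw [← norm_gauss f hψ, Real.sqrt_sq (norm_nonneg _)]
  have e1 : gs (f * r) N α (DirichletCharacter.changeLevel h ψ) =
      ∑ s ∈ r.divisors, ((ArithmeticFunction.moebius s : ℤ) : ℂ) * (ψ (s : ZMod f) *
        (((r / s : ℕ) : ℂ) * (G * Sm N α (r / s) f ψ⁻¹))) := by
    unfold gs
    rw [sum_zmod]
    have a1 : ∀ a ∈ range (f * r), DirichletCharacter.changeLevel h ψ (a : ZMod (f * r)) * T (f * r) N α (a : ZMod (f * r)) =
        ∑ s ∈ r.divisors, if s ∣ a then ((ArithmeticFunction.moebius s : ℤ) : ℂ) *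
          (ψ (a : ZMod f) * T (f * r) N α (a : ZMod (f * r))) else 0 := by
      intro a _
      rw [change_apply, ← sum_filter, ← sum_mul, ← mob_cop a r hr]
      split_ifs <;> ring
    rw [sum_congr rfl a1, sum_comm]
    refine sum_congr rfl fun s hs => ?_
    rw [Nat.mem_divisors] at hs
    obtain ⟨⟨r', rfl⟩, hr0⟩ := hs
    have hs1 : 1 ≤ s := Nat.pos_of_ne_zero (by rintro rfl; simp at hr0)
    have hr1 : 1 ≤ r' := Nat.pos_of_ne_zero (by rintro rfl; simp at hr0)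
    rw [Nat.mul_div_cancel_left r' (by omega)]
    rw [← sum_filter, ← mul_sum, sum_mult f s r' hs1]
    congr 1
    have hf0 : (f : ℝ) ≠ 0 := by
      have := NeZero.ne f
      exact_mod_cast this
    have a2 : ∀ b ∈ range (f * r'), ψ ((s * b : ℕ) : ZMod f) * T (f * (s * r')) N α ((s * b : ℕ) : ZMod (f * (s * r'))) =
        ψ (s : ZMod f) * ∑ n ∈ Icc 1 N, α n * (ψ (b : ZMod f) * ee (n * b / ((f * r' : ℕ) : ℝ))) := by
      intro b _
      rw [T_ee]
      push_cast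
      rw [map_mul, mul_assoc, mul_sum]
      congr 1
      refine sum_congr rfl fun n _ => ?_
      have e3 : (n : ℝ) * ((s : ℝ) * b) / (f * (s * r')) = n * b / (f * r') := by
        have h1 : (s : ℝ) ≠ 0 := by positivity
        have h2 : (r' : ℝ) ≠ 0 := by positivity
        field_simp
      rw [e3]
      ring
    rw [sum_congr rfl a2, ← mul_sum]
    congr 1
    rw [sum_comm]
    have a3 : ∀ n ∈ Icc 1 N, ∑ b ∈ range (f * r'), α n * (ψ (b : ZMod f) * ee (n * b / ((f * r' : ℕ) : ℝ))) =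
        if r' ∣ n then α n * ((r' : ℂ) * (ψ⁻¹ ((n / r' : ℕ) : ZMod f) * G)) else 0 := by
      intro n _
      rw [← mul_sum, inner_B f r' hr1 hψ n]
      split_ifs
      · rfl
      · rw [mul_zero]
    rw [sum_congr rfl a3, sum_quot N r' hr1]
    unfold Sm
    rw [mul_sum, mul_sum]
    refine sum_congr rfl fun m _ => ?_
    rw [Nat.mul_div_cancel_left m (by omega)]
    ring
  rw [e1]
  refine (norm_sum_le _ _).trans ?_
  rw [mul_sum]
  rw [← Nat.sum_div_divisors r (fun s => Real.sqrt f * ((s : ℝ) * ‖Sm N α s f ψ⁻¹‖))]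
  refine sum_le_sum fun s _ => ?_
  rw [norm_mul, norm_mul, norm_mul, norm_mul, hGn, Complex.norm_natCast]
  have m1 : ‖((ArithmeticFunction.moebius s : ℤ) : ℂ)‖ ≤ 1 := by
    rw [Complex.norm_intCast]
    exact_mod_cast ArithmeticFunction.abs_moebius_le_one
  have m2 : ‖ψ (s : ZMod f)‖ ≤ 1 := ψ.norm_le_one _
  have m3 : 0 ≤ ((r / s : ℕ) : ℝ) * (Real.sqrt f * ‖Sm N α (r / s) f ψ⁻¹‖) := by positivity
  calc ‖((ArithmeticFunction.moebius s : ℤ) : ℂ)‖ * (‖ψ (s : ZMod f)‖ * (((r / s : ℕ) : ℝ) *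
        (Real.sqrt f * ‖Sm N α (r / s) f ψ⁻¹‖)))
      ≤ 1 * (1 * (((r / s : ℕ) : ℝ) * (Real.sqrt f * ‖Sm N α (r / s) f ψ⁻¹‖))) := by gcongr
    _ = _ := by ring

/-- the multiplicative convolution -/
noncomputable def Fq (q : ℕ) [NeZero q] (N : ℕ) (α β : ℕ → ℂ) (t : ZMod q) : ℂ :=
  ∑ a : (ZMod q)ˣ, T q N α (-(t * a)) * T q N β a

lemma sum_unit (q : ℕ) [NeZero q] (χ : DirichletCharacter ℂ q) (g : ZMod q → ℂ) :
    ∑ a : ZMod q, χ a * g a = ∑ a : (ZMod q)ˣ, χ (a : ZMod q) * g a := by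
  classical
  have := sum_filter_add_sum_filter_not (univ : Finset (ZMod q)) (fun a => IsUnit a) (fun a => χ a * g a)
  rw [← this]
  have h0 : ∑ a ∈ univ.filter (fun a : ZMod q => ¬ IsUnit a), χ a * g a = 0 := by
    apply sum_eq_zero
    intro a ha
    rw [mem_filter] at ha
    rw [MulChar.map_nonunit _ ha.2, zero_mul]
  rw [h0, add_zero]
  symm
  apply sum_bij (fun (a : (ZMod q)ˣ) _ => (a : ZMod q))
  · intro a _; simp
  · intro a _ b _ hab; exact Units.ext hab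
  · intro b hb
    rw [mem_filter] at hb
    exact ⟨hb.2.unit, mem_univ _, rfl⟩
  · intro a _; rfl

/-- Parseval's formula -/
theorem pars (q : ℕ) [NeZero q] (N : ℕ) (α β : ℕ → ℂ) :
    (Nat.totient q : ℝ) * ∑ t : (ZMod q)ˣ, ‖Fq q N α β t‖ ^ 2 =
      ∑ χ : DirichletCharacter ℂ q, ‖gs q N α χ⁻¹‖ ^ 2 * ‖gs q N β χ‖ ^ 2 := by
  rw [← sum_all q (fun t => Fq q N α β t)]
  refine sum_congr rfl fun χ _ => ?_
  rw [← mul_pow, ← norm_mul]
  have h1 : ∑ t : ZMod q, χ⁻¹ t * Fq q N α β t = χ⁻¹ (-1) * (gs q N α χ⁻¹ * gs q N β χ) := by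
    unfold Fq
    have a1 : ∑ t : ZMod q, χ⁻¹ t * ∑ a : (ZMod q)ˣ, T q N α (-(t * a)) * T q N β a =
        ∑ a : (ZMod q)ˣ, T q N β a * ∑ t : ZMod q, χ⁻¹ t * T q N α (-(t * a)) := by
      simp_rw [mul_sum]
      rw [sum_comm]
      refine sum_congr rfl fun a _ => sum_congr rfl fun t _ => ?_
      ring
    rw [a1]
    have a2 : ∀ a : (ZMod q)ˣ, ∑ t : ZMod q, χ⁻¹ t * T q N α (-(t * a)) =
        χ⁻¹ (-1) * (χ (a : ZMod q) * gs q N α χ⁻¹) := by
      intro a
      unfold gs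
      rw [mul_sum, mul_sum]
      apply sum_bij (fun (t : ZMod q) _ => -(t * a))
      · intro t _
        exact mem_univ _
      · intro t _ t' _ h
        have h2 : t * (a : ZMod q) = t' * a := neg_injective h
        exact a.isUnit.mul_right_cancel h2
      · intro b _
        refine ⟨-(b * ((a⁻¹ : (ZMod q)ˣ) : ZMod q)), mem_univ _, ?_⟩
        simp
      · intro t _
        have h3 : χ⁻¹ (-(t * (a : ZMod q))) = χ⁻¹ (-1) * (χ⁻¹ t * χ⁻¹ (a : ZMod q)) := by
          rw [← map_mul, ← map_mul]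
          congr 1
          ring
        have h4 : χ⁻¹ (-1) * χ⁻¹ (-1) = 1 := by
          rw [← map_mul]
          simp
        have h5 : χ (a : ZMod q) * χ⁻¹ (a : ZMod q) = 1 := by
          rw [← MulChar.mul_apply, mul_inv_cancel]
          exact MulChar.one_apply_coe a
        rw [h3]
        calc χ⁻¹ t * T q N α (-(t * a)) = (χ⁻¹ (-1) * χ⁻¹ (-1)) * (χ (a : ZMod q) * χ⁻¹ (a : ZMod q)) *
              (χ⁻¹ t * T q N α (-(t * a))) := by rw [h4, h5]; ring
          _ = _ := by ring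
    have a3 : ∑ a : (ZMod q)ˣ, T q N β a * ∑ t : ZMod q, χ⁻¹ t * T q N α (-(t * a)) =
        ∑ a : (ZMod q)ˣ, χ⁻¹ (-1) * gs q N α χ⁻¹ * (χ (a : ZMod q) * T q N β a) := by
      refine sum_congr rfl fun a _ => ?_
      rw [a2 a]
      ring
    rw [a3, ← mul_sum]
    unfold gs
    rw [sum_unit q χ (T q N β)]
    ring
  rw [h1, norm_mul]
  have h2 : ‖χ⁻¹ (-1)‖ = 1 := by
    have h3 : IsUnit (-1 : ZMod q) := isUnit_one.neg
    have h4 := norm_char q χ⁻¹ (-1)
    rw [if_pos h3] at h4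
    exact h4
  rw [h2, one_mul]

end Pool.Agent.J6H16.TH
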