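import Pool.Agent.J6H16.TH.Ms1
import Pool.Agent.TH935.LP.L1

/-!
# The mean square over the ratios, by the large sieve for characters
-/

set_option autoImplicit false

namespace Pool.Agent.J6H16.TH

open Finset
open Pool.Agent.N782.GN
open Pool.Agent.Helper112.MLS (T norm_gauss sum_all norm_char)

/-- summation by parts -/
lemma abel_div (g : ℕ → ℝ) (hg : ∀ d, 0 ≤ g d) (A B : ℝ) (hA : 0 ≤ A) (hB : 0 ≤ B)
    (h : ∀ F : ℕ, ∑ d ∈ Icc 1 F, g d ≤ A + B * (F : ℝ) ^ 2) (Q X : ℕ) :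
    ∑ d ∈ Ioc Q X, (1 / (d : ℝ)) * g d ≤ A / ((Q : ℝ) + 1) + 2 * B * X := by
  have hG : ∀ k : ℕ, ∑ d ∈ Ioc Q k, g d ≤ A + B * (k : ℝ) ^ 2 := by
    intro k
    refine le_trans ?_ (h k)
    refine sum_le_sum_of_subset_of_nonneg ?_ fun d _ _ => hg d
    intro d hd
    rw [mem_Ioc] at hd
    rw [mem_Icc]
    omega
  have key : ∀ j : ℕ, ∑ d ∈ Ioc Q (Q + 1 + j), (1 / (d : ℝ)) * g d ≤
      (∑ d ∈ Ioc Q (Q + 1 + j), g d) / ((Q : ℝ) + 1 + j) +
        A * (1 / ((Q : ℝ) + 1) - 1 / ((Q : ℝ) + 1 + j)) + B * j := by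
    intro j
    induction j with
    | zero =>
      have h1 : Ioc Q (Q + 1 + 0) = {Q + 1} := by
        ext d
        simp only [mem_Ioc, mem_singleton]
        omega
      rw [h1, sum_singleton, sum_singleton]
      push_cast
      simp only [add_zero, sub_self, mul_zero]
      apply le_of_eq
      ring
    | succ j ih =>
      have h1 : Ioc Q (Q + 1 + (j + 1)) = insert (Q + 1 + j + 1) (Ioc Q (Q + 1 + j)) := by
        ext d
        simp only [mem_Ioc, mem_insert]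
        omega
      have h2 : Q + 1 + j + 1 ∉ Ioc Q (Q + 1 + j) := by
        rw [mem_Ioc]
        omega
      rw [h1, sum_insert h2, sum_insert h2]
      set k : ℝ := (Q : ℝ) + 1 + j with hk
      have hk0 : 0 < k := by positivity
      have e1 : ((Q + 1 + j + 1 : ℕ) : ℝ) = k + 1 := by
        rw [hk]
        push_cast
        ring
      have e2 : (Q : ℝ) + 1 + ((j + 1 : ℕ) : ℝ) = k + 1 := by
        rw [hk]
        push_cast
        ring
      rw [e1, e2]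
      set G : ℝ := ∑ d ∈ Ioc Q (Q + 1 + j), g d with hGdef
      have hGk : G ≤ A + B * k ^ 2 := by
        have := hG (Q + 1 + j)
        have e3 : ((Q + 1 + j : ℕ) : ℝ) = k := by
          rw [hk]
          push_cast
          ring
        rw [e3] at this
        exact this
      have h3 : G / k ≤ G / (k + 1) + A * (1 / k - 1 / (k + 1)) + B := by
        have h4 : G / k = G / (k + 1) + G / (k * (k + 1)) := by
          field_simp
        have h5 : G / (k * (k + 1)) ≤ (A + B * k ^ 2) / (k * (k + 1)) :=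
          div_le_div_of_nonneg_right hGk (by positivity)
        have h6 : (A + B * k ^ 2) / (k * (k + 1)) = A * (1 / k - 1 / (k + 1)) + B * (k / (k + 1)) := by
          field_simp
          ring
        have h7 : k / (k + 1) ≤ 1 := by
          rw [div_le_one (by positivity)]
          linarith
        have h8 : B * (k / (k + 1)) ≤ B := by nlinarith
        linarith
      have h9 : (g (Q + 1 + j + 1) + G) / (k + 1) = g (Q + 1 + j + 1) / (k + 1) + G / (k + 1) := add_div _ _ _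
      have h10 : 1 / (k + 1) * g (Q + 1 + j + 1) = g (Q + 1 + j + 1) / (k + 1) := by ring
      rw [h9, h10]
      push_cast
      have h11 : A * (1 / ((Q : ℝ) + 1) - 1 / (k + 1)) = A * (1 / ((Q : ℝ) + 1) - 1 / k) + A * (1 / k - 1 / (k + 1)) := by
        ring
      rw [h11]
      linarith
  have hQ0 : (0 : ℝ) < (Q : ℝ) + 1 := by positivity
  rcases le_total (Q + 1) X with hQX | hQX
  · obtain ⟨j, rfl⟩ := Nat.exists_eq_add_of_le hQX
    refine (key j).trans ?_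
    set k : ℝ := (Q : ℝ) + 1 + j with hk
    have hk0 : 0 < k := by positivity
    have hjk : (j : ℝ) ≤ k := by
      rw [hk]
      linarith
    have e3 : ((Q + 1 + j : ℕ) : ℝ) = k := by
      rw [hk]
      push_cast
      ring
    have h1 : (∑ d ∈ Ioc Q (Q + 1 + j), g d) / k ≤ A * (1 / k) + B * k := by
      have h2 := div_le_div_of_nonneg_right (hG (Q + 1 + j)) hk0.le
      rw [e3] at h2
      refine h2.trans (le_of_eq ?_)
      field_simp
    have h2 : B * j ≤ B * k := mul_le_mul_of_nonneg_left hjk hB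
    rw [e3]
    have h3 : A / ((Q : ℝ) + 1) = A * (1 / ((Q : ℝ) + 1)) := by ring
    rw [h3]
    linarith
  · have : Ioc Q X = ∅ ∨ X = Q + 1 := by
      rcases Nat.lt_or_ge X (Q + 1) with h1 | h1
      · left
        exact Ioc_eq_empty (by omega)
      · right
        omega
    rcases this with h1 | h1
    · rw [h1, sum_empty]
      positivity
    · subst h1
      have k0 := key 0
      have h2 := hG (Q + 1)
      simp only [add_zero, Nat.cast_zero, sub_self, mul_zero] at k0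
      refine k0.trans ?_
      have h3 := div_le_div_of_nonneg_right h2 hQ0.le
      refine h3.trans ?_
      push_cast
      have h4 : (A + B * ((Q : ℝ) + 1) ^ 2) / ((Q : ℝ) + 1) = A / ((Q : ℝ) + 1) + B * ((Q : ℝ) + 1) := by
        field_simp
      rw [h4]
      nlinarith

lemma tot_low (r : ℕ) (hr : 1 ≤ r) : (r : ℝ) ≤ (r.divisors.card : ℝ) * (Nat.totient r : ℝ) := by
  have h1 : ∑ d ∈ r.divisors, Nat.totient d = r := Nat.sum_totient r
  have h2 : ∑ d ∈ r.divisors, Nat.totient d ≤ r.divisors.card • Nat.totient r := by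
    apply sum_le_card_nsmul
    intro d hd
    have h3 := Nat.dvd_of_mem_divisors hd
    exact Nat.le_of_dvd (Nat.totient_pos.2 hr) (Nat.totient_dvd_of_dvd h3)
  rw [h1, smul_eq_mul] at h2
  exact_mod_cast h2

open Classical in
/-- the sum over the primitive characters -/
noncomputable def Up (N : ℕ) (α β : ℕ → ℂ) (r1 r2 f : ℕ) : ℝ :=
  ∑ ψ ∈ (univ : Finset (DirichletCharacter ℂ f)).filter (fun ψ => ψ.IsPrimitive),
    ‖Sm N α r1 f ψ‖ ^ 2 * ‖Sm N β r2 f ψ‖ ^ 2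

lemma Up_nonneg (N : ℕ) (α β : ℕ → ℂ) (r1 r2 f : ℕ) : 0 ≤ Up N α β r1 r2 f :=
  sum_nonneg fun _ _ => by positivity

/-- the convolution -/
noncomputable def Gc (N : ℕ) (α β : ℕ → ℂ) (r1 r2 k : ℕ) : ℂ :=
  ∑ p ∈ ((Icc 1 (N / r1)) ×ˢ (Icc 1 (N / r2))).filter (fun p => p.1 * p.2 = k), α (r1 * p.1) * β (r2 * p.2)

lemma Sm_mul (N : ℕ) (α β : ℕ → ℂ) (r1 r2 f : ℕ) (ψ : DirichletCharacter ℂ f) :
    Sm N α r1 f ψ * Sm N β r2 f ψ =
      ∑ k ∈ Icc 1 ((N / r1) * (N / r2)), Gc N α β r1 r2 k * ψ (k : ZMod f) := by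
  unfold Sm
  rw [sum_mul_sum, ← sum_product']
  have hmap : ∀ p ∈ (Icc 1 (N / r1)) ×ˢ (Icc 1 (N / r2)), p.1 * p.2 ∈ Icc 1 ((N / r1) * (N / r2)) := by
    intro p hp
    rw [mem_product, mem_Icc, mem_Icc] at hp
    rw [mem_Icc]
    exact ⟨Nat.mul_pos hp.1.1 hp.2.1, Nat.mul_le_mul hp.1.2 hp.2.2⟩
  rw [← sum_fiberwise_of_maps_to hmap]
  refine sum_congr rfl fun k _ => ?_
  unfold Gc
  rw [sum_mul]
  refine sum_congr rfl fun p hp => ?_
  rw [mem_filter] at hp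
  rw [← hp.2]
  push_cast
  rw [map_mul]
  ring

lemma Gc_le (N : ℕ) {α β : ℕ → ℂ} (hα : ∀ n, ‖α n‖ ≤ 1) (hβ : ∀ n, ‖β n‖ ≤ 1) (r1 r2 k : ℕ) (hk : 1 ≤ k) :
    ‖Gc N α β r1 r2 k‖ ≤ (k.divisors.card : ℝ) := by
  unfold Gc
  refine (norm_sum_le _ _).trans ?_
  have h1 : ∀ p ∈ ((Icc 1 (N / r1)) ×ˢ (Icc 1 (N / r2))).filter (fun p => p.1 * p.2 = k),
      ‖α (r1 * p.1) * β (r2 * p.2)‖ ≤ 1 := by
    intro p _
    rw [norm_mul]
    exact mul_le_one₀ (hα _) (norm_nonneg _) (hβ _)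
  refine (sum_le_card_nsmul _ _ _ h1).trans ?_
  rw [nsmul_eq_mul, mul_one]
  norm_cast
  apply card_le_card_of_injOn (fun p => p.1)
  · intro p hp
    rw [mem_coe, mem_filter] at hp
    rw [mem_coe, Nat.mem_divisors]
    exact ⟨⟨p.2, hp.2.symm⟩, by omega⟩
  · intro p hp p' hp' h
    rw [mem_coe, mem_filter, mem_product, mem_Icc] at hp
    rw [mem_coe, mem_filter] at hp'
    simp only at h
    have h2 : p.1 * p.2 = p.1 * p'.2 := by
      rw [hp.2, h, hp'.2]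
    have h3 := Nat.eq_of_mul_eq_mul_left (by omega) h2
    exact Prod.ext h h3

open Classical in
/-- the large sieve for the convolution -/
lemma Up_sieve (N : ℕ) {α β : ℕ → ℂ} (hα : ∀ n, ‖α n‖ ≤ 1) (hβ : ∀ n, ‖β n‖ ≤ 1) (r1 r2 F : ℕ) :
    ∑ f ∈ Icc 1 F, ((f : ℝ) / (Nat.totient f : ℝ)) * Up N α β r1 r2 f ≤
      6 * (((N / r1) * (N / r2) : ℕ) + (F : ℝ) ^ 2) *
        ((((N / r1) * (N / r2) : ℕ) : ℝ) * (1 + Real.log ((N / r1) * (N / r2) : ℕ)) ^ 4) := by
  have h1 := Pool.Agent.Helper112.mult_large_sieve ((N / r1) * (N / r2)) F (Gc N α β r1 r2)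
  have h2 : ∑ f ∈ Icc 1 F, ((f : ℝ) / (Nat.totient f : ℝ)) * Up N α β r1 r2 f =
      ∑ f ∈ Icc 1 F, ((f : ℝ) / (Nat.totient f : ℝ)) *
      ∑ χ ∈ (univ : Finset (DirichletCharacter ℂ f)).filter (fun χ => χ.IsPrimitive),
        ‖∑ n ∈ Icc 1 ((N / r1) * (N / r2)), Gc N α β r1 r2 n * χ (n : ZMod f)‖ ^ 2 := by
    refine sum_congr rfl fun f _ => ?_
    congr 1
    unfold Up
    refine sum_congr rfl fun ψ _ => ?_
    rw [← Sm_mul, norm_mul, mul_pow]
  rw [h2]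
  refine h1.trans ?_
  refine mul_le_mul_of_nonneg_left ?_ (by positivity)
  have h3 := Pool.Agent.TH935.LD.tau_pow_sum 2 ((N / r1) * (N / r2))
  refine le_trans (sum_le_sum fun k hk => ?_) h3
  rw [mem_Icc] at hk
  exact pow_le_pow_left₀ (norm_nonneg _) (Gc_le N hα hβ r1 r2 k hk.1) 2

lemma Sm_inv (N : ℕ) (β : ℕ → ℝ) (s f : ℕ) (ψ : DirichletCharacter ℂ f) :
    ‖Sm N (fun n => (β n : ℂ)) s f ψ⁻¹‖ = ‖Sm N (fun n => (β n : ℂ)) s f ψ‖ := by
  have h1 : Sm N (fun n => (β n : ℂ)) s f ψ⁻¹ = (starRingEnd ℂ) (Sm N (fun n => (β n : ℂ)) s f ψ) := by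
    unfold Sm
    rw [map_sum]
    refine sum_congr rfl fun m _ => ?_
    rw [map_mul, Complex.conj_ofReal]
    congr 1
    rw [← RCLike.star_def, MulChar.star_apply']
  rw [h1, RCLike.norm_conj]

open Classical in
lemma decomp (m : ℕ) [NeZero m] (w : DirichletCharacter ℂ m → ℝ) (hw : ∀ χ, 0 ≤ w χ)
    (W : (f : ℕ) → DirichletCharacter ℂ f → ℝ)
    (hW : ∀ f (h : f ∣ m) (ψ : DirichletCharacter ℂ f), ψ.IsPrimitive →
      w (DirichletCharacter.changeLevel h ψ) ≤ W f ψ) :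
    ∑ χ : DirichletCharacter ℂ m, w χ ≤
      ∑ f ∈ m.divisors,
        ∑ ψ ∈ (univ : Finset (DirichletCharacter ℂ f)).filter (fun χ => χ.IsPrimitive), W f ψ := by
  have h1 : ∀ χ ∈ (univ : Finset (DirichletCharacter ℂ m)), χ.conductor ∈ m.divisors := by
    intro χ _
    exact Nat.mem_divisors.mpr ⟨χ.conductor_dvd_level, NeZero.ne m⟩
  rw [← sum_fiberwise_of_maps_to h1]
  apply sum_le_sum
  intro f hf
  rw [Nat.mem_divisors] at hf
  have hfm := hf.1
  have h2 : ((univ : Finset (DirichletCharacter ℂ m)).filter (fun χ => χ.conductor = f)) ⊆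
      ((univ : Finset (DirichletCharacter ℂ f)).filter (fun χ => χ.IsPrimitive)).image
        (DirichletCharacter.changeLevel hfm) := by
    intro χ hχ
    rw [mem_filter] at hχ
    obtain ⟨_, hc⟩ := hχ
    subst hc
    rw [mem_image]
    exact ⟨χ.primitiveCharacter, by
      rw [mem_filter]; exact ⟨mem_univ _, χ.primitiveCharacter_isPrimitive⟩,
      χ.changeLevel_primitiveCharacter⟩
  calc _ ≤ ∑ χ ∈ ((univ : Finset (DirichletCharacter ℂ f)).filter (fun χ => χ.IsPrimitive)).image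
        (DirichletCharacter.changeLevel hfm), w χ :=
        sum_le_sum_of_subset_of_nonneg h2 fun χ _ _ => hw χ
    _ = ∑ ψ ∈ (univ : Finset (DirichletCharacter ℂ f)).filter (fun χ => χ.IsPrimitive),
        w (DirichletCharacter.changeLevel hfm ψ) := by
        rw [sum_image]
        intro x _ y _ hxy
        exact DirichletCharacter.changeLevel_injective hfm hxy
    _ ≤ _ := sum_le_sum fun ψ hψ => hW f hfm ψ (mem_filter.1 hψ).2

/-- the weight of a pair `(f, r)` -/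
noncomputable def Wf (N : ℕ) (α β : ℕ → ℂ) (f r : ℕ) : ℝ :=
  (f : ℝ) ^ 2 * (r.divisors.card : ℝ) ^ 2 *
    ∑ r1 ∈ r.divisors, ∑ r2 ∈ r.divisors, ((r1 : ℝ) * r2) ^ 2 * Up N α β r1 r2 f

lemma Wf_nonneg (N : ℕ) (α β : ℕ → ℂ) (f r : ℕ) : 0 ≤ Wf N α β f r := by
  unfold Wf
  exact mul_nonneg (by positivity) (sum_nonneg fun r1 _ => sum_nonneg fun r2 _ =>
    mul_nonneg (by positivity) (Up_nonneg _ _ _ _ _ _))

lemma cs_sq (s : Finset ℕ) (a : ℕ → ℝ) (c : ℝ) (hc : 0 ≤ c) (x : ℝ) (hx : 0 ≤ x)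
    (h : x ≤ Real.sqrt c * ∑ i ∈ s, a i) : x ^ 2 ≤ c * ((s.card : ℝ) * ∑ i ∈ s, (a i) ^ 2) := by
  have h1 : x ^ 2 ≤ (Real.sqrt c * ∑ i ∈ s, a i) ^ 2 := pow_le_pow_left₀ hx h 2
  refine h1.trans ?_
  rw [mul_pow, Real.sq_sqrt hc]
  exact mul_le_mul_of_nonneg_left sq_sum_le_card_mul_sum_sq hc

open Classical in
/-- the mean square for one modulus -/
theorem one_mod (q N : ℕ) [NeZero q] (α β : ℕ → ℝ) :
    (Nat.totient q : ℝ) * ∑ t : (ZMod q)ˣ, ‖Fq q N (fun n => (α n : ℂ)) (fun n => (β n : ℂ)) t‖ ^ 2 ≤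
      ∑ f ∈ q.divisors, Wf N (fun n => (α n : ℂ)) (fun n => (β n : ℂ)) f (q / f) := by
  set α' : ℕ → ℂ := fun n => (α n : ℂ) with hα'
  set β' : ℕ → ℂ := fun n => (β n : ℂ) with hβ'
  rw [pars]
  have key := decomp q (fun χ => ‖gs q N α' χ⁻¹‖ ^ 2 * ‖gs q N β' χ‖ ^ 2) (fun χ => by positivity)
    (fun f ψ => (f : ℝ) ^ 2 * ((q / f).divisors.card : ℝ) ^ 2 *
      ∑ r1 ∈ (q / f).divisors, ∑ r2 ∈ (q / f).divisors, ((r1 : ℝ) * r2) ^ 2 *
        (‖Sm N α' r1 f ψ‖ ^ 2 * ‖Sm N β' r2 f ψ‖ ^ 2)) ?_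
  · refine key.trans (le_of_eq ?_)
    refine sum_congr rfl fun f _ => ?_
    unfold Wf Up
    rw [← mul_sum]
    congr 1
    rw [sum_comm]
    refine sum_congr rfl fun r1 _ => ?_
    rw [sum_comm]
    refine sum_congr rfl fun r2 _ => ?_
    rw [mul_sum]
  · intro f h ψ hψ
    obtain ⟨r, rfl⟩ := h
    have hq0 : f * r ≠ 0 := NeZero.ne _
    have hf : NeZero f := ⟨fun h0 => hq0 (by rw [h0, zero_mul])⟩
    have hr : 1 ≤ r := Nat.pos_of_ne_zero fun h0 => hq0 (by rw [h0, mul_zero])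
    have hf1 : 0 < f := Nat.pos_of_ne_zero (NeZero.ne f)
    rw [Nat.mul_div_cancel_left r hf1]
    have hinv : (ψ⁻¹).IsPrimitive := by
      rw [DirichletCharacter.isPrimitive_def, DirichletCharacter.conductor_inv]
      exact hψ
    have g1 := gs_bound f r hr N α' hinv (dvd_mul_right f r)
    have g2 := gs_bound f r hr N β' hψ (dvd_mul_right f r)
    rw [inv_inv, map_inv] at g1
    have g2' : ‖gs (f * r) N β' (DirichletCharacter.changeLevel (dvd_mul_right f r) ψ)‖ ≤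
        Real.sqrt f * ∑ s ∈ r.divisors, (s : ℝ) * ‖Sm N β' s f ψ‖ := by
      refine g2.trans (le_of_eq ?_)
      congr 1
      refine sum_congr rfl fun s _ => ?_
      rw [hβ', Sm_inv]
    have k1 := cs_sq r.divisors (fun s => (s : ℝ) * ‖Sm N α' s f ψ‖) f (Nat.cast_nonneg f) _ (norm_nonneg _) g1
    have k2 := cs_sq r.divisors (fun s => (s : ℝ) * ‖Sm N β' s f ψ‖) f (Nat.cast_nonneg f) _ (norm_nonneg _) g2'
    have k3 := mul_le_mul k1 k2 (by positivity) (by positivity)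
    refine k3.trans (le_of_eq ?_)
    have e1 : (∑ i ∈ r.divisors, ((i : ℝ) * ‖Sm N α' i f ψ‖) ^ 2) * (∑ i ∈ r.divisors, ((i : ℝ) * ‖Sm N β' i f ψ‖) ^ 2) =
        ∑ r1 ∈ r.divisors, ∑ r2 ∈ r.divisors, ((r1 : ℝ) * r2) ^ 2 *
        (‖Sm N α' r1 f ψ‖ ^ 2 * ‖Sm N β' r2 f ψ‖ ^ 2) := by
      rw [sum_mul_sum]
      refine sum_congr rfl fun r1 _ => sum_congr rfl fun r2 _ => ?_
      ring
    rw [← e1]
    ring

end Pool.Agent.J6H16.TH
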