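import Pool.Agent.J6H16.TH.Ms2

/-!
# The mean square over the ratios, summed over the moduli
-/

set_option autoImplicit false

namespace Pool.Agent.J6H16.TH

open Finset
open Pool.Agent.N782.GN
open Pool.Agent.N7.GN (Bil.rr Bil.F Bil.S)
open Pool.Agent.Helper112.MLS (T norm_gauss sum_all norm_char)

lemma rr_sum {M : Type} [AddCommMonoid M] (q : ℕ) [NeZero q] (g : ZMod q → M) :
    ∑ a ∈ Bil.rr q, g (a : ZMod q) = ∑ u : (ZMod q)ˣ, g (u : ZMod q) := by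
  symm
  apply sum_bij (fun (u : (ZMod q)ˣ) _ => (u : ZMod q).val)
  · intro u _
    unfold Bil.rr
    rw [mem_filter, mem_range]
    exact ⟨ZMod.val_lt _, ZMod.val_coe_unit_coprime u⟩
  · intro u _ v _ h
    exact Units.ext (ZMod.val_injective q h)
  · intro b hb
    unfold Bil.rr at hb
    rw [mem_filter, mem_range] at hb
    refine ⟨ZMod.unitOfCoprime b hb.2, mem_univ _, ?_⟩
    rw [ZMod.coe_unitOfCoprime, ZMod.val_natCast, Nat.mod_eq_of_lt hb.1]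
  · intro u _
    rw [ZMod.natCast_zmod_val]

lemma T_int (q : ℕ) [NeZero q] (N : ℕ) (α : ℕ → ℂ) (a : ℤ) :
    T q N α (a : ZMod q) = ∑ n ∈ Icc 1 N, α n * ee ((a : ℝ) / q * n) := by
  unfold T
  refine sum_congr rfl fun n _ => ?_
  congr 1
  have : ((a : ZMod q) * (n : ZMod q)) = (((a * n : ℤ)) : ZMod q) := by push_cast; rfl
  rw [this, ZMod.stdAddChar_coe]
  unfold ee
  congr 1
  push_cast
  ring

open Classical in
/-- the coefficient on an interval -/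
noncomputable def cf (I : Finset ℤ) (lam : ℤ → ℝ) (n : ℕ) : ℝ := if (n : ℤ) ∈ I then lam n else 0

lemma cf_le (I : Finset ℤ) {lam : ℤ → ℝ} (h : ∀ l, |lam l| ≤ 1) (n : ℕ) : ‖((cf I lam n : ℝ) : ℂ)‖ ≤ 1 := by
  rw [Complex.norm_real, Real.norm_eq_abs]
  unfold cf
  split_ifs
  · exact h _
  · simp

lemma S_cf {N : ℕ} {I : Finset ℤ} (hI : ∀ l ∈ I, 1 ≤ l ∧ l ≤ N) (lam : ℤ → ℝ) (q : ℕ) [NeZero q] (a : ℤ) :
    Bil.S I lam ((a : ℝ) / q) = T q N (fun n => ((cf I lam n : ℝ) : ℂ)) (a : ZMod q) := by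
  classical
  rw [T_int]
  unfold Bil.S cf
  have h1 : ∀ n ∈ Icc 1 N, (((if (n : ℤ) ∈ I then lam n else 0 : ℝ)) : ℂ) * ee ((a : ℝ) / q * n) =
      if (n : ℤ) ∈ I then (lam n : ℂ) * ee ((a : ℝ) / q * ((n : ℤ) : ℝ)) else 0 := by
    intro n _
    split_ifs
    · push_cast
      rfl
    · simp
  rw [sum_congr rfl h1, ← sum_filter]
  apply sum_bij (fun (l : ℤ) _ => l.toNat)
  · intro l hl
    have := hI l hl
    rw [mem_filter, mem_Icc]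
    refine ⟨by omega, ?_⟩
    rw [Int.toNat_of_nonneg (by omega)]
    exact hl
  · intro l hl l' hl' h
    have := hI l hl
    have := hI l' hl'
    omega
  · intro n hn
    rw [mem_filter, mem_Icc] at hn
    exact ⟨(n : ℤ), hn.2, by simp⟩
  · intro l hl
    have := hI l hl
    rw [Int.toNat_of_nonneg (by omega)]

lemma F_cf {N : ℕ} {I1 I2 : Finset ℤ} (h1 : ∀ l ∈ I1, 1 ≤ l ∧ l ≤ N) (h2 : ∀ l ∈ I2, 1 ≤ l ∧ l ≤ N)
    (lam : ℤ → ℝ) (q : ℕ) [NeZero q] (τ : ℤ) :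
    Bil.F I1 I2 lam q τ = Fq q N (fun n => ((cf I1 lam n : ℝ) : ℂ)) (fun n => ((cf I2 lam n : ℝ) : ℂ))
      (τ : ZMod q) := by
  unfold Bil.F Fq
  rw [← rr_sum q (fun a => T q N (fun n => ((cf I1 lam n : ℝ) : ℂ)) (-((τ : ZMod q) * a)) *
    T q N (fun n => ((cf I2 lam n : ℝ) : ℂ)) a)]
  refine sum_congr rfl fun a _ => ?_
  rw [S_cf h1]
  have e1 := S_cf h2 lam q (a : ℤ)
  have e2 : Bil.S I2 lam ((a : ℝ) / q) = Bil.S I2 lam (((a : ℤ) : ℝ) / q) := by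
    rw [Int.cast_natCast]
  rw [e2, e1]
  push_cast
  rfl

/-- the mean square for one modulus -/
noncomputable def Vq (I1 I2 : Finset ℤ) (lam : ℤ → ℝ) (q : ℕ) : ℝ :=
  ∑ τ ∈ Bil.rr q, ‖Bil.F I1 I2 lam q τ‖ ^ 2

lemma Vq_nonneg (I1 I2 : Finset ℤ) (lam : ℤ → ℝ) (q : ℕ) : 0 ≤ Vq I1 I2 lam q :=
  sum_nonneg fun _ _ => by positivity

lemma Vq_le {N : ℕ} {I1 I2 : Finset ℤ} (h1 : ∀ l ∈ I1, 1 ≤ l ∧ l ≤ N) (h2 : ∀ l ∈ I2, 1 ≤ l ∧ l ≤ N)
    (lam : ℤ → ℝ) (q : ℕ) [NeZero q] :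
    (Nat.totient q : ℝ) * Vq I1 I2 lam q ≤
      ∑ f ∈ q.divisors, Wf N (fun n => ((cf I1 lam n : ℝ) : ℂ)) (fun n => ((cf I2 lam n : ℝ) : ℂ)) f (q / f) := by
  have h3 := one_mod q N (cf I1 lam) (cf I2 lam)
  refine le_trans (le_of_eq ?_) h3
  congr 1
  unfold Vq
  rw [← rr_sum q (fun t => ‖Fq q N (fun n => ((cf I1 lam n : ℝ) : ℂ)) (fun n => ((cf I2 lam n : ℝ) : ℂ)) t‖ ^ 2)]
  refine sum_congr rfl fun τ _ => ?_
  rw [F_cf h1 h2]
  push_cast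
  rfl

lemma sum_fr (Q X : ℕ) (w : ℕ → ℕ → ℝ) :
    ∑ q ∈ Ioc Q X, ∑ f ∈ q.divisors, w f (q / f) = ∑ r ∈ Icc 1 X, ∑ f ∈ Ioc (Q / r) (X / r), w f r := by
  rw [sum_sigma', sum_sigma']
  refine sum_nbij' (fun p : (Σ _ : ℕ, ℕ) => (⟨p.1 / p.2, p.2⟩ : Σ _ : ℕ, ℕ))
    (fun p : (Σ _ : ℕ, ℕ) => (⟨p.2 * p.1, p.2⟩ : Σ _ : ℕ, ℕ)) ?_ ?_ ?_ ?_ ?_
  · rintro ⟨q, f⟩ h
    simp only [mem_sigma, mem_Ioc, Nat.mem_divisors, mem_Icc] at h ⊢
    obtain ⟨⟨h1, h2⟩, ⟨r, rfl⟩, h4⟩ := h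
    have hf : 0 < f := Nat.pos_of_ne_zero fun h0 => h4 (by rw [h0, zero_mul])
    have hr : 0 < r := Nat.pos_of_ne_zero fun h0 => h4 (by rw [h0, mul_zero])
    rw [Nat.mul_div_cancel_left r hf]
    refine ⟨⟨hr, ?_⟩, ?_, ?_⟩
    · nlinarith
    · rw [Nat.div_lt_iff_lt_mul hr]
      exact h1
    · rw [Nat.le_div_iff_mul_le hr]
      exact h2
  · rintro ⟨r, f⟩ h
    simp only [mem_sigma, mem_Ioc, Nat.mem_divisors, mem_Icc] at h ⊢
    obtain ⟨⟨h1, h2⟩, h3, h4⟩ := h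
    rw [Nat.div_lt_iff_lt_mul h1] at h3
    rw [Nat.le_div_iff_mul_le h1] at h4
    exact ⟨⟨h3, h4⟩, dvd_mul_right _ _, by omega⟩
  · rintro ⟨q, f⟩ h
    simp only [mem_sigma, mem_Ioc, Nat.mem_divisors] at h ⊢
    obtain ⟨⟨h1, h2⟩, h3, h4⟩ := h
    rw [Nat.mul_div_cancel' h3]
  · rintro ⟨r, f⟩ h
    simp only [mem_sigma, mem_Ioc, mem_Icc] at h ⊢
    obtain ⟨⟨h1, h2⟩, h3, h4⟩ := h
    rw [Nat.mul_div_cancel_left r (Nat.zero_lt_of_lt h3)]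
  · rintro ⟨q, f⟩ _
    rfl

/-- the sum over `f` -/
lemma Up_sum {N : ℕ} {α β : ℕ → ℂ} (hα : ∀ n, ‖α n‖ ≤ 1) (hβ : ∀ n, ‖β n‖ ≤ 1) {r r1 r2 Q X : ℕ} {ℒ : ℝ}
    (hr : 1 ≤ r) (hr1 : 1 ≤ r1) (hr1r : r1 ≤ r) (hr2 : 1 ≤ r2) (hr2r : r2 ≤ r) (hQ : 1 ≤ Q)
    (hN : 1 + Real.log N ≤ ℒ) (hℒ : 1 ≤ ℒ) :
    ((r1 : ℝ) * r2) ^ 2 * ∑ f ∈ Ioc (Q / r) (X / r), (1 / (Nat.totient f : ℝ)) * Up N α β r1 r2 f ≤
      192 * ℒ ^ 4 * r * ((N : ℝ) ^ 4 / Q + (N : ℝ) ^ 2 * X) := by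
  set K : ℕ := (N / r1) * (N / r2) with hK
  set L4 : ℝ := (1 + Real.log (K : ℕ)) ^ 4 with hL4
  have hlogK0 : 0 ≤ Real.log (K : ℕ) := Real.log_natCast_nonneg K
  have hL40 : 0 ≤ L4 := by positivity
  have hab := abel_div (fun f => ((f : ℝ) / (Nat.totient f : ℝ)) * Up N α β r1 r2 f)
    (fun f => mul_nonneg (by positivity) (Up_nonneg _ _ _ _ _ _))
    (6 * (K : ℝ) * ((K : ℝ) * L4)) (6 * ((K : ℝ) * L4)) (by positivity) (by positivity)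
    (fun F => by
      have := Up_sieve N hα hβ r1 r2 F
      refine this.trans (le_of_eq ?_)
      ring) (Q / r) (X / r)
  have e1 : ∑ f ∈ Ioc (Q / r) (X / r), (1 / (Nat.totient f : ℝ)) * Up N α β r1 r2 f =
      ∑ d ∈ Ioc (Q / r) (X / r), (1 / (d : ℝ)) * (((d : ℝ) / (Nat.totient d : ℝ)) * Up N α β r1 r2 d) := by
    refine sum_congr rfl fun f hf => ?_
    rw [mem_Ioc] at hf
    have hf0 : (f : ℝ) ≠ 0 := by
      have : 0 < f := Nat.zero_lt_of_lt hf.1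
      positivity
    field_simp
  rw [e1]
  -- the bound for `K`
  have hr0 : (0 : ℝ) < r := by exact_mod_cast hr
  have hr10 : (0 : ℝ) < r1 := by exact_mod_cast hr1
  have hr20 : (0 : ℝ) < r2 := by exact_mod_cast hr2
  have hQ0 : (0 : ℝ) < Q := by exact_mod_cast hQ
  have hX0 : (0 : ℝ) ≤ X := Nat.cast_nonneg X
  have hrK : (r1 : ℝ) * r2 * K ≤ (N : ℝ) ^ 2 := by
    have h1 : r1 * (N / r1) ≤ N := Nat.mul_div_le N r1
    have h2 : r2 * (N / r2) ≤ N := Nat.mul_div_le N r2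
    have h3 : r1 * r2 * K ≤ N ^ 2 := by
      calc r1 * r2 * K = (r1 * (N / r1)) * (r2 * (N / r2)) := by rw [hK]; ring
        _ ≤ N * N := Nat.mul_le_mul h1 h2
        _ = N ^ 2 := by ring
    exact_mod_cast h3
  have hKlog : 1 + Real.log (K : ℕ) ≤ 2 * ℒ := by
    rcases Nat.eq_zero_or_pos K with h0 | h0
    · rw [h0]
      simp
      linarith
    · have hKN : K ≤ N ^ 2 := by
        calc K ≤ N * N := Nat.mul_le_mul (Nat.div_le_self _ _) (Nat.div_le_self _ _)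
          _ = N ^ 2 := by ring
      have h1 : Real.log (K : ℕ) ≤ Real.log ((N : ℝ) ^ 2) := by
        apply Real.log_le_log (by exact_mod_cast h0)
        exact_mod_cast hKN
      rw [Real.log_pow] at h1
      push_cast at h1
      linarith
  have hL4le : L4 ≤ 16 * ℒ ^ 4 := by
    calc L4 ≤ (2 * ℒ) ^ 4 := pow_le_pow_left₀ (by positivity) hKlog 4
      _ = _ := by ring
  have hfl : 1 / (((Q / r : ℕ) : ℝ) + 1) ≤ r / Q := by
    have h1 : (Q : ℝ) / r < ((Q / r : ℕ) : ℝ) + 1 := by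
      rw [← Nat.floor_div_eq_div (K := ℝ)]
      exact Nat.lt_floor_add_one _
    have h2 : 1 / (((Q / r : ℕ) : ℝ) + 1) ≤ 1 / ((Q : ℝ) / r) :=
      one_div_le_one_div_of_le (by positivity) h1.le
    rwa [one_div_div] at h2
  have hXr : ((X / r : ℕ) : ℝ) ≤ X / r := Nat.cast_div_le
  have hrr : (r1 : ℝ) * r2 ≤ r ^ 2 := by
    have h1 : (r1 : ℝ) ≤ r := by exact_mod_cast hr1r
    have h2 : (r2 : ℝ) ≤ r := by exact_mod_cast hr2r
    nlinarith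
  have hK0 : (0 : ℝ) ≤ K := Nat.cast_nonneg K
  -- the first term
  have t1 : ((r1 : ℝ) * r2) ^ 2 * (6 * (K : ℝ) * ((K : ℝ) * L4) / (((Q / r : ℕ) : ℝ) + 1)) ≤
      96 * ℒ ^ 4 * ((N : ℝ) ^ 4 * (r / Q)) := by
    have e2 : ((r1 : ℝ) * r2) ^ 2 * (6 * (K : ℝ) * ((K : ℝ) * L4) / (((Q / r : ℕ) : ℝ) + 1)) =
        6 * L4 * (((r1 : ℝ) * r2 * K) ^ 2 * (1 / (((Q / r : ℕ) : ℝ) + 1))) := by
      field_simp
    rw [e2]
    have h1 : ((r1 : ℝ) * r2 * K) ^ 2 ≤ (N : ℝ) ^ 4 := by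
      calc ((r1 : ℝ) * r2 * K) ^ 2 ≤ ((N : ℝ) ^ 2) ^ 2 := pow_le_pow_left₀ (by positivity) hrK 2
        _ = _ := by ring
    calc 6 * L4 * (((r1 : ℝ) * r2 * K) ^ 2 * (1 / (((Q / r : ℕ) : ℝ) + 1)))
        ≤ 6 * (16 * ℒ ^ 4) * ((N : ℝ) ^ 4 * (r / Q)) := by gcongr
      _ = _ := by ring
  have t2 : ((r1 : ℝ) * r2) ^ 2 * (2 * (6 * ((K : ℝ) * L4)) * ((X / r : ℕ) : ℝ)) ≤
      192 * ℒ ^ 4 * ((N : ℝ) ^ 2 * (r * X)) := by
    have e2 : ((r1 : ℝ) * r2) ^ 2 * (2 * (6 * ((K : ℝ) * L4)) * ((X / r : ℕ) : ℝ)) =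
        12 * L4 * (((r1 : ℝ) * r2 * K) * (((r1 : ℝ) * r2) * ((X / r : ℕ) : ℝ))) := by ring
    rw [e2]
    calc 12 * L4 * (((r1 : ℝ) * r2 * K) * (((r1 : ℝ) * r2) * ((X / r : ℕ) : ℝ)))
        ≤ 12 * (16 * ℒ ^ 4) * ((N : ℝ) ^ 2 * ((r : ℝ) ^ 2 * (X / r))) := by gcongr
      _ = _ := by
        field_simp
        ring
  have h0 : 0 ≤ ((r1 : ℝ) * r2) ^ 2 := by positivity
  have h5 := mul_le_mul_of_nonneg_left hab h0
  rw [mul_add] at h5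
  refine h5.trans ?_
  have e3 : 192 * ℒ ^ 4 * r * ((N : ℝ) ^ 4 / Q + (N : ℝ) ^ 2 * X) =
      192 * ℒ ^ 4 * ((N : ℝ) ^ 4 * (r / Q)) + 192 * ℒ ^ 4 * ((N : ℝ) ^ 2 * (r * X)) := by ring
  rw [e3]
  have e4 : 96 * ℒ ^ 4 * ((N : ℝ) ^ 4 * (r / Q)) ≤ 192 * ℒ ^ 4 * ((N : ℝ) ^ 4 * (r / Q)) := by
    have : 0 ≤ ℒ ^ 4 * ((N : ℝ) ^ 4 * (r / Q)) := by positivity
    linarith
  linarith

/-- the total mean square -/
theorem V_total {N : ℕ} {I1 I2 : Finset ℤ} (h1 : ∀ l ∈ I1, 1 ≤ l ∧ l ≤ N) (h2 : ∀ l ∈ I2, 1 ≤ l ∧ l ≤ N)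
    {lam : ℤ → ℝ} (hlam : ∀ l, |lam l| ≤ 1) {Q X : ℕ} (hQ : 1 ≤ Q) {ℒ : ℝ} (hℒ : 1 ≤ ℒ)
    (hN : 1 + Real.log N ≤ ℒ) (hX : 1 + Real.log X ≤ ℒ) :
    ∑ q ∈ Ioc Q X, (1 / (q : ℝ) ^ 2) * Vq I1 I2 lam q ≤
      192 * ℒ ^ 36 * ((N : ℝ) ^ 4 / Q + (N : ℝ) ^ 2 * X) := by
  set α : ℕ → ℂ := fun n => ((cf I1 lam n : ℝ) : ℂ) with hα
  set β : ℕ → ℂ := fun n => ((cf I2 lam n : ℝ) : ℂ) with hβ
  have hα1 : ∀ n, ‖α n‖ ≤ 1 := fun n => cf_le I1 hlam n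
  have hβ1 : ∀ n, ‖β n‖ ≤ 1 := fun n => cf_le I2 hlam n
  set Z : ℝ := (N : ℝ) ^ 4 / Q + (N : ℝ) ^ 2 * X with hZ
  have hZ0 : 0 ≤ Z := by positivity
  let w : ℕ → ℕ → ℝ := fun f r =>
    (1 / (((f : ℝ) * r) ^ 2 * ((Nat.totient f : ℝ) * (Nat.totient r : ℝ)))) * Wf N α β f r
  have s1 : ∑ q ∈ Ioc Q X, (1 / (q : ℝ) ^ 2) * Vq I1 I2 lam q ≤
      ∑ q ∈ Ioc Q X, ∑ f ∈ q.divisors, w f (q / f) := by
    refine sum_le_sum fun q hq => ?_
    rw [mem_Ioc] at hq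
    have hq1 : 1 ≤ q := by omega
    have : NeZero q := ⟨by omega⟩
    have h3 := Vq_le h1 h2 lam q
    have htot : (0 : ℝ) < Nat.totient q := by
      exact_mod_cast Nat.totient_pos.2 hq1
    have hq0 : (0 : ℝ) < q := by exact_mod_cast hq1
    have h4 : Vq I1 I2 lam q ≤ (1 / (Nat.totient q : ℝ)) * ∑ f ∈ q.divisors, Wf N α β f (q / f) := by
      rw [one_div, ← div_eq_inv_mul, le_div_iff₀ htot, mul_comm]
      exact h3
    calc (1 / (q : ℝ) ^ 2) * Vq I1 I2 lam q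
        ≤ (1 / (q : ℝ) ^ 2) * ((1 / (Nat.totient q : ℝ)) * ∑ f ∈ q.divisors, Wf N α β f (q / f)) :=
          mul_le_mul_of_nonneg_left h4 (by positivity)
      _ = ∑ f ∈ q.divisors, (1 / ((q : ℝ) ^ 2 * (Nat.totient q : ℝ))) * Wf N α β f (q / f) := by
          rw [← mul_assoc, mul_sum]
          refine sum_congr rfl fun f _ => ?_
          congr 1
          field_simp
      _ ≤ _ := by
          refine sum_le_sum fun f hf => ?_
          rw [Nat.mem_divisors] at hf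
          obtain ⟨⟨r, rfl⟩, hf0⟩ := hf
          have hf1 : 0 < f := Nat.pos_of_ne_zero fun h0 => hf0 (by rw [h0, zero_mul])
          have hr1 : 0 < r := Nat.pos_of_ne_zero fun h0 => hf0 (by rw [h0, mul_zero])
          rw [Nat.mul_div_cancel_left r hf1]
          refine mul_le_mul_of_nonneg_right ?_ (Wf_nonneg _ _ _ _ _)
          have h5 : (Nat.totient f : ℝ) * (Nat.totient r : ℝ) ≤ (Nat.totient (f * r) : ℝ) := by
            exact_mod_cast Nat.totient_super_multiplicative f r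
          have h6 : (0 : ℝ) < Nat.totient f := by exact_mod_cast Nat.totient_pos.2 hf1
          have h7 : (0 : ℝ) < Nat.totient r := by exact_mod_cast Nat.totient_pos.2 hr1
          have h8 : (0 : ℝ) < f := by exact_mod_cast hf1
          have h9 : (0 : ℝ) < r := by exact_mod_cast hr1
          apply one_div_le_one_div_of_le (by positivity)
          push_cast
          exact mul_le_mul_of_nonneg_left h5 (by positivity)
  refine s1.trans ?_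
  rw [sum_fr]
  have s2 : ∀ r ∈ Icc 1 X, ∑ f ∈ Ioc (Q / r) (X / r), w f r ≤
      192 * ℒ ^ 4 * Z * ((r.divisors.card : ℝ) ^ 5 / r) := by
    intro r hr
    rw [mem_Icc] at hr
    have hr0 : (0 : ℝ) < r := by exact_mod_cast hr.1
    have htr : (0 : ℝ) < Nat.totient r := by exact_mod_cast Nat.totient_pos.2 hr.1
    have e1 : ∑ f ∈ Ioc (Q / r) (X / r), w f r =
        ((r.divisors.card : ℝ) ^ 2 / ((r : ℝ) ^ 2 * (Nat.totient r : ℝ))) *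
          ∑ r1 ∈ r.divisors, ∑ r2 ∈ r.divisors, ((r1 : ℝ) * r2) ^ 2 *
            ∑ f ∈ Ioc (Q / r) (X / r), (1 / (Nat.totient f : ℝ)) * Up N α β r1 r2 f := by
      have e2 : ∀ f ∈ Ioc (Q / r) (X / r), w f r =
          ((r.divisors.card : ℝ) ^ 2 / ((r : ℝ) ^ 2 * (Nat.totient r : ℝ))) *
            ∑ r1 ∈ r.divisors, ∑ r2 ∈ r.divisors, ((r1 : ℝ) * r2) ^ 2 *
              ((1 / (Nat.totient f : ℝ)) * Up N α β r1 r2 f) := by
        intro f hf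
        rw [mem_Ioc] at hf
        have hf1 : 0 < f := Nat.zero_lt_of_lt hf.1
        have h8 : (0 : ℝ) < f := by exact_mod_cast hf1
        have h6 : (0 : ℝ) < Nat.totient f := by exact_mod_cast Nat.totient_pos.2 hf1
        have e3 : ∑ r1 ∈ r.divisors, ∑ r2 ∈ r.divisors, ((r1 : ℝ) * r2) ^ 2 *
              ((1 / (Nat.totient f : ℝ)) * Up N α β r1 r2 f) = (1 / (Nat.totient f : ℝ)) *
              ∑ r1 ∈ r.divisors, ∑ r2 ∈ r.divisors, ((r1 : ℝ) * r2) ^ 2 * Up N α β r1 r2 f := by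
          rw [mul_sum]
          refine sum_congr rfl fun r1 _ => ?_
          rw [mul_sum]
          refine sum_congr rfl fun r2 _ => ?_
          ring
        rw [e3]
        show (1 / (((f : ℝ) * r) ^ 2 * ((Nat.totient f : ℝ) * (Nat.totient r : ℝ)))) * Wf N α β f r = _
        unfold Wf
        field_simp
      rw [sum_congr rfl e2, ← mul_sum]
      congr 1
      rw [sum_comm]
      refine sum_congr rfl fun r1 _ => ?_
      rw [sum_comm]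
      refine sum_congr rfl fun r2 _ => ?_
      rw [mul_sum]
    rw [e1]
    have e4 : ∑ r1 ∈ r.divisors, ∑ r2 ∈ r.divisors, ((r1 : ℝ) * r2) ^ 2 *
            ∑ f ∈ Ioc (Q / r) (X / r), (1 / (Nat.totient f : ℝ)) * Up N α β r1 r2 f ≤
        (r.divisors.card : ℝ) ^ 2 * (192 * ℒ ^ 4 * r * Z) := by
      have e5 : ∀ r1 ∈ r.divisors, ∑ r2 ∈ r.divisors, ((r1 : ℝ) * r2) ^ 2 *
            ∑ f ∈ Ioc (Q / r) (X / r), (1 / (Nat.totient f : ℝ)) * Up N α β r1 r2 f ≤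
          (r.divisors.card : ℝ) * (192 * ℒ ^ 4 * r * Z) := by
        intro r1 hr1
        have hr1' := Nat.le_of_dvd hr.1 (Nat.dvd_of_mem_divisors hr1)
        have hr1'' := Nat.pos_of_mem_divisors hr1
        rw [← nsmul_eq_mul]
        apply sum_le_card_nsmul
        intro r2 hr2
        have hr2' := Nat.le_of_dvd hr.1 (Nat.dvd_of_mem_divisors hr2)
        have hr2'' := Nat.pos_of_mem_divisors hr2
        exact Up_sum hα1 hβ1 hr.1 hr1'' hr1' hr2'' hr2' hQ hN hℒ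
      have e6 := sum_le_card_nsmul r.divisors _ _ e5
      rw [nsmul_eq_mul] at e6
      refine e6.trans (le_of_eq ?_)
      ring
    have htl := tot_low r hr.1
    have e7 : 1 / (Nat.totient r : ℝ) ≤ (r.divisors.card : ℝ) / r := by
      rw [div_le_div_iff₀ htr hr0]
      linarith
    calc ((r.divisors.card : ℝ) ^ 2 / ((r : ℝ) ^ 2 * (Nat.totient r : ℝ))) *
          ∑ r1 ∈ r.divisors, ∑ r2 ∈ r.divisors, ((r1 : ℝ) * r2) ^ 2 *
            ∑ f ∈ Ioc (Q / r) (X / r), (1 / (Nat.totient f : ℝ)) * Up N α β r1 r2 f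
        ≤ ((r.divisors.card : ℝ) ^ 2 / ((r : ℝ) ^ 2 * (Nat.totient r : ℝ))) *
          ((r.divisors.card : ℝ) ^ 2 * (192 * ℒ ^ 4 * r * Z)) :=
          mul_le_mul_of_nonneg_left e4 (by positivity)
      _ = 192 * ℒ ^ 4 * Z * ((r.divisors.card : ℝ) ^ 4 / r * (1 / (Nat.totient r : ℝ))) := by
          field_simp
      _ ≤ 192 * ℒ ^ 4 * Z * ((r.divisors.card : ℝ) ^ 4 / r * ((r.divisors.card : ℝ) / r)) := by
          refine mul_le_mul_of_nonneg_left ?_ (by positivity)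
          exact mul_le_mul_of_nonneg_left e7 (by positivity)
      _ = 192 * ℒ ^ 4 * Z * ((r.divisors.card : ℝ) ^ 5 / r * (1 / r)) := by ring
      _ ≤ 192 * ℒ ^ 4 * Z * ((r.divisors.card : ℝ) ^ 5 / r * 1) := by
          refine mul_le_mul_of_nonneg_left ?_ (by positivity)
          refine mul_le_mul_of_nonneg_left ?_ (by positivity)
          rw [div_le_one hr0]
          exact_mod_cast hr.1
      _ = _ := by ring
  refine (sum_le_sum s2).trans ?_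
  rw [← mul_sum]
  have h3 := Pool.Agent.TH935.LD.tau_pow_div 5 X
  have hlogX : 0 ≤ Real.log X := Real.log_natCast_nonneg X
  have h4 : (1 + Real.log X) ^ (2 ^ 5) ≤ ℒ ^ 32 := pow_le_pow_left₀ (by linarith) hX _
  calc 192 * ℒ ^ 4 * Z * ∑ r ∈ Icc 1 X, (r.divisors.card : ℝ) ^ 5 / r
      ≤ 192 * ℒ ^ 4 * Z * ℒ ^ 32 := mul_le_mul_of_nonneg_left (h3.trans h4) (by positivity)
    _ = _ := by ring

end Pool.Agent.J6H16.TH
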