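import Pool.Agent.N391.GN.TG
import Pool.Agent.N407.GN.Cnt

/-!
# The dispersion for long `w`, part 1: counting
-/

set_option autoImplicit false

namespace Pool.Agent.J6H16.TH

open Finset
open Pool.Agent.N782.GN
open Pool.Agent.N407.GN (prim_param nz_sub_le card_bl)
open Pool.Agent.N391.GN (FF MPt xe xe_near xe_nonneg xe_le FF_eq Hf_lip Hf_supp abs_le_one_of Phi_nonneg Phi_le_one
  psi_nonneg psi_le_one om_nonneg om_le_one om_eq_one om_eq_zero Phi_zero_of_le Phi_zero_of_ge rh_lip rh_nonneg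
  dlc_coe cw_upper cw_lower sum_Ioc_split FF_diff PD PD_of pair_count harm_le TT expand part1 part3 TT_trivial large
  Hf_nonneg Hf_le_one)

open Classical in
/-- the number of the `w` for a given `v` -/
lemma vc {R P L : ℝ} (hP : 0 < P) (hPR : P ≤ R) (hL : 1 ≤ L) {v : ZI} (hv1 : P ^ 2 / 16 < nz v)
    (hv2 : nz v ≤ 16 * P ^ 2) :
    (((cw R).filter (fun w => 1 ≤ (w * v).re ∧ (((w * v).re : ℤ) : ℝ) ≤ L)).card : ℝ) ≤ 33 * L * R / P := by
  have hR0 : 0 < R := hP.trans_le hPR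
  obtain ⟨g, hg⟩ : ∃ g : ℕ, g = Int.gcd v.re v.im := ⟨_, rfl⟩
  have hv0 : 0 < nz v := lt_of_le_of_lt (by positivity) hv1
  have hg1 : 1 ≤ g := by
    rw [hg]
    apply Nat.pos_of_ne_zero
    intro h0
    rw [Int.gcd_eq_zero_iff] at h0
    rw [nz_eq, h0.1, h0.2] at hv0
    simp at hv0
  have hg0 : (0 : ℝ) < g := by exact_mod_cast hg1
  obtain ⟨a, ha⟩ : (g : ℤ) ∣ v.re := by rw [hg]; exact Int.gcd_dvd_left v.re v.im
  obtain ⟨b, hb⟩ : (g : ℤ) ∣ v.im := by rw [hg]; exact Int.gcd_dvd_right v.re v.im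
  have hab : Int.gcd a b = 1 := by
    have h1 : Int.gcd v.re v.im = g * Int.gcd a b := by
      rw [ha, hb, Int.gcd_mul_left, Int.natAbs_natCast]
    rw [← hg] at h1
    exact Nat.eq_of_mul_eq_mul_left hg1 (by rw [mul_one]; exact h1.symm)
  have hnz : nz v = (g : ℝ) ^ 2 * ((a : ℝ) ^ 2 + (b : ℝ) ^ 2) := by
    rw [nz_eq, ha, hb]
    push_cast
    ring
  set S := (cw R).filter (fun w => 1 ≤ (w * v).re ∧ (((w * v).re : ℤ) : ℝ) ≤ L) with hS
  have hre : ∀ w : ZI, (w * v).re = g * (w.re * a - w.im * b) := by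
    intro w
    rw [Zsqrtd.re_mul, ha, hb]
    ring
  have hmap : ∀ w ∈ S, w.re * a - w.im * b ∈ Icc (1 : ℤ) ⌊L / g⌋ := by
    intro w hw
    rw [hS, mem_filter, hre] at hw
    obtain ⟨-, h1, h2⟩ := hw
    rw [mem_Icc]
    have hg' : (0 : ℤ) < g := by exact_mod_cast hg1
    constructor
    · by_contra hcon
      push Not at hcon
      have : w.re * a - w.im * b ≤ 0 := by omega
      nlinarith
    · rw [Int.le_floor, le_div_iff₀ hg0]
      push_cast at h2 ⊢
      linarith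
  have hRP : 1 ≤ R * g / P := by
    rw [le_div_iff₀ hP, one_mul]
    have : (1 : ℝ) ≤ g := by exact_mod_cast hg1
    nlinarith
  have hfib : ∀ l ∈ Icc (1 : ℤ) ⌊L / g⌋, ((S.filter (fun w => w.re * a - w.im * b = l)).card : ℝ) ≤
      33 * (R * g / P) := by
    intro l _
    rcases (S.filter (fun w => w.re * a - w.im * b = l)).eq_empty_or_nonempty with he | ⟨w0, hw0⟩
    · rw [he]
      simp only [card_empty, Nat.cast_zero]
      linarith
    rw [mem_filter] at hw0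
    have hsub : S.filter (fun w => w.re * a - w.im * b = l) ⊆
        (Icc (-⌊16 * (R * g / P)⌋) ⌊16 * (R * g / P)⌋).image
          (fun j => (⟨w0.re + j * b, w0.im + j * a⟩ : ZI)) := by
      intro u hu
      rw [mem_filter] at hu
      have h1 : u.re * a - u.im * b = w0.re * a - w0.im * b := hu.2.trans hw0.2.symm
      obtain ⟨j, hj1, hj2⟩ := prim_param (a := b) (b := a) (x := u.re - w0.re)
        (y := u.im - w0.im) (by rw [Int.gcd_comm]; exact hab) (by linear_combination -h1)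
      rw [mem_image]
      refine ⟨j, ?_, ?_⟩
      · have h2 := nz_sub_le u w0
        have h3 : nz u ≤ 4 * R ^ 2 := (Pool.Agent.N407.GN.mem_cw (mem_filter.1 hu.1).1).1
        have h4 : nz w0 ≤ 4 * R ^ 2 := (Pool.Agent.N407.GN.mem_cw (mem_filter.1 hw0.1).1).1
        have h5 : nz (u - w0) = (j : ℝ) ^ 2 * ((a : ℝ) ^ 2 + (b : ℝ) ^ 2) := by
          rw [nz_eq, Zsqrtd.re_sub, Zsqrtd.im_sub, hj1, hj2]
          push_cast
          ring
        rw [h5] at h2
        have h6 : (j : ℝ) ^ 2 * (P ^ 2 / 16) ≤ 16 * R ^ 2 * g ^ 2 := by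
          calc (j : ℝ) ^ 2 * (P ^ 2 / 16) ≤ (j : ℝ) ^ 2 * nz v := mul_le_mul_of_nonneg_left hv1.le (sq_nonneg _)
            _ = ((j : ℝ) ^ 2 * ((a : ℝ) ^ 2 + (b : ℝ) ^ 2)) * g ^ 2 := by rw [hnz]; ring
            _ ≤ (16 * R ^ 2) * g ^ 2 := mul_le_mul_of_nonneg_right (by linarith) (sq_nonneg _)
        have h7 : (j : ℝ) ^ 2 ≤ (16 * (R * g / P)) ^ 2 := by
          rw [mul_pow, div_pow, ← mul_div_assoc, le_div_iff₀ (by positivity)]
          nlinarith
        have h8 := abs_le_of_sq_le_sq' h7 (by positivity)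
        rw [mem_Icc]
        constructor
        · rw [neg_le, Int.le_floor]
          push_cast
          linarith [h8.1]
        · exact Int.le_floor.2 h8.2
      · rw [Zsqrtd.ext_iff]
        simp only
        constructor <;> linarith
    have h2 := (Finset.card_le_card hsub).trans Finset.card_image_le
    rw [Int.card_Icc] at h2
    have hf0 : 0 ≤ ⌊16 * (R * g / P)⌋ := Int.floor_nonneg.2 (by positivity)
    have h3 : (((⌊16 * (R * g / P)⌋ + 1 - -⌊16 * (R * g / P)⌋).toNat : ℕ) : ℝ) ≤ 33 * (R * g / P) := by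
      have h4 : (((⌊16 * (R * g / P)⌋ + 1 - -⌊16 * (R * g / P)⌋).toNat : ℕ) : ℤ) =
          2 * ⌊16 * (R * g / P)⌋ + 1 := by omega
      have h5 : (((⌊16 * (R * g / P)⌋ + 1 - -⌊16 * (R * g / P)⌋).toNat : ℕ) : ℝ) =
          2 * (⌊16 * (R * g / P)⌋ : ℝ) + 1 := by exact_mod_cast h4
      rw [h5]
      have h6 := Int.floor_le (16 * (R * g / P))
      linarith
    exact (show ((_ : ℕ) : ℝ) ≤ ((_ : ℕ) : ℝ) from by exact_mod_cast h2).trans h3
  have h1 := Finset.card_eq_sum_card_fiberwise hmap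
  have h2 : (S.card : ℝ) = ∑ l ∈ Icc (1 : ℤ) ⌊L / g⌋, ((S.filter (fun w => w.re * a - w.im * b = l)).card : ℝ) := by
    rw [h1]
    push_cast
    rfl
  rw [h2]
  refine (Finset.sum_le_sum hfib).trans ?_
  rw [Finset.sum_const, Int.card_Icc, nsmul_eq_mul]
  have hfl : 0 ≤ ⌊L / g⌋ := Int.floor_nonneg.2 (by positivity)
  have h3 : (((⌊L / g⌋ + 1 - 1).toNat : ℕ) : ℝ) ≤ L / g := by
    have h4 : (((⌊L / g⌋ + 1 - 1).toNat : ℕ) : ℤ) = ⌊L / g⌋ := by omega
    have h5 : (((⌊L / g⌋ + 1 - 1).toNat : ℕ) : ℝ) = (⌊L / g⌋ : ℝ) := by exact_mod_cast h4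
    rw [h5]
    exact Int.floor_le _
  calc (((⌊L / g⌋ + 1 - 1).toNat : ℕ) : ℝ) * (33 * (R * g / P)) ≤ L / g * (33 * (R * g / P)) :=
        mul_le_mul_of_nonneg_right h3 (by positivity)
    _ = 33 * L * R / P := by field_simp

open Classical in
/-- the `v` for a given `w`, weighted -/
noncomputable def Uw (P L : ℝ) (w : ZI) : ℝ :=
  (((bl (9 * P ^ 2)).filter (fun v => P ^ 2 / 16 < nz v ∧ 1 ≤ (w * v).re ∧ (((w * v).re : ℤ) : ℝ) ≤ L)).card : ℝ)

lemma Phi_ne {P : ℝ} (hP : 0 < P) {x : ℝ} (hx : 0 ≤ x) (h : Phi (Real.sqrt x / P) ≠ 0) :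
    P ^ 2 / 16 < x ∧ x ≤ 16 * P ^ 2 := by
  have h7 : 1 / 2 < Real.sqrt x / P := by
    by_contra hcon
    exact h (Phi_zero_of_le (not_lt.1 hcon))
  have h6 : Real.sqrt x / P < 3 := by
    by_contra hcon
    exact h (Phi_zero_of_ge (not_lt.1 hcon))
  rw [div_lt_iff₀ hP] at h6
  rw [lt_div_iff₀ hP] at h7
  have h9 := Real.sq_sqrt hx
  constructor
  · rw [← h9]
    nlinarith
  · rw [← h9]
    have h10 := Real.sqrt_nonneg x
    nlinarith

lemma FF_bound2 {D M P L : ℝ} {lam : ℤ → ℝ} (hP : 0 < P) (hlam : Lm L lam) (w1 w2 : ZI) :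
    |FF D M P lam w1 w2| ≤ Uw P L w1 := by
  classical
  unfold FF Uw
  refine (Finset.abs_sum_le_sum_abs _ _).trans ?_
  rw [Finset.card_filter]
  push_cast
  refine Finset.sum_le_sum fun v _ => ?_
  have a1 := abs_le_one_of (Phi_nonneg (Real.sqrt (nz v) / P)) (Phi_le_one _)
  have a2 := abs_le_one_of (psi_nonneg D (Real.sqrt (nz (w1 * v)) / M)) (psi_le_one _ _)
  have a3 := abs_le_one_of (psi_nonneg D (Real.sqrt (nz (w2 * v)) / M)) (psi_le_one _ _)
  have a4 := hlam.1 (w1 * v).re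
  have a5 := hlam.1 (w2 * v).re
  by_cases hv : P ^ 2 / 16 < nz v ∧ 1 ≤ (w1 * v).re ∧ (((w1 * v).re : ℤ) : ℝ) ≤ L
  · rw [if_pos hv, abs_mul, abs_mul, abs_mul, abs_mul]
    refine mul_le_one₀ (mul_le_one₀ a1 (by positivity) (mul_le_one₀ a4 (abs_nonneg _) a2))
      (by positivity) (mul_le_one₀ a5 (abs_nonneg _) a3)
  · rw [if_neg hv]
    by_cases hPhi : Phi (Real.sqrt (nz v) / P) = 0
    · rw [hPhi]
      simp
    · have h1 := (Phi_ne hP (nz_nonneg v) hPhi).1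
      have : lam (w1 * v).re = 0 := by
        apply hlam.2
        by_contra hcon
        push Not at hcon
        exact hv ⟨h1, hcon⟩
      rw [this]
      simp

lemma bl_card {P : ℝ} (hP : 1 ≤ P) : ((bl (16 * P ^ 2)).card : ℝ) ≤ 81 * P ^ 2 := by
  refine (card_bl _).trans ?_
  have h2 : Real.sqrt (16 * P ^ 2) = 4 * P := by
    rw [show 16 * P ^ 2 = (4 * P) ^ 2 by ring, Real.sqrt_sq (by linarith)]
  rw [h2]
  nlinarith

lemma bl_mono {a b : ℝ} (h : a ≤ b) : bl a ⊆ bl b := by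
  intro v hv
  rw [mem_bl] at hv ⊢
  exact ⟨hv.1, hv.2.trans h⟩

/-- the pairs `(v, w)`, for `P ≤ R` -/
lemma Uw_sum {R P L : ℝ} (hP : 1 ≤ P) (hPR : P ≤ R) (hL : 1 ≤ L) :
    ∑ w ∈ cw R, Uw P L w ≤ 2673 * L * R * P := by
  classical
  have hP0 : 0 < P := by linarith
  have hR0 : 0 < R := by linarith
  have e1 : ∀ w : ZI, Uw P L w = ∑ v ∈ bl (9 * P ^ 2),
      (if P ^ 2 / 16 < nz v ∧ 1 ≤ (w * v).re ∧ (((w * v).re : ℤ) : ℝ) ≤ L then (1 : ℝ) else 0) := by
    intro w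
    unfold Uw
    rw [Finset.card_filter]
    push_cast
    rfl
  rw [sum_congr rfl fun w _ => e1 w, sum_comm]
  have h1 : ∀ v ∈ bl (9 * P ^ 2), ∑ w ∈ cw R,
      (if P ^ 2 / 16 < nz v ∧ 1 ≤ (w * v).re ∧ (((w * v).re : ℤ) : ℝ) ≤ L then (1 : ℝ) else 0) ≤ 33 * L * R / P := by
    intro v hv
    rw [mem_bl] at hv
    by_cases hv1 : P ^ 2 / 16 < nz v
    · have h2 := vc (v := v) hP0 hPR hL hv1 (hv.2.trans (by nlinarith [sq_nonneg P]))
      refine le_trans (le_of_eq ?_) h2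
      rw [Finset.card_filter]
      push_cast
      refine sum_congr rfl fun w _ => ?_
      simp only [hv1, true_and]
    · have h3 : ∀ w ∈ cw R, (if P ^ 2 / 16 < nz v ∧ 1 ≤ (w * v).re ∧ (((w * v).re : ℤ) : ℝ) ≤ L then (1 : ℝ) else 0) = 0 := by
        intro w _
        rw [if_neg (fun h => hv1 h.1)]
      rw [sum_congr rfl h3, sum_const_zero]
      positivity
  have h2 := sum_le_card_nsmul _ _ _ h1
  rw [nsmul_eq_mul] at h2
  refine h2.trans ?_
  have h3 : ((bl (9 * P ^ 2)).card : ℝ) ≤ 81 * P ^ 2 := by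
    refine le_trans ?_ (bl_card hP)
    exact_mod_cast card_le_card (bl_mono (by nlinarith [sq_nonneg P]))
  calc ((bl (9 * P ^ 2)).card : ℝ) * (33 * L * R / P) ≤ 81 * P ^ 2 * (33 * L * R / P) :=
        mul_le_mul_of_nonneg_right h3 (by positivity)
    _ = _ := by
      field_simp
      ring

/-- the pairs with a small determinant, for `P ≤ R` -/
theorem part1b {C R D M P L D1 : ℝ} {lam : ℤ → ℝ} {β : ZI → ℝ} (hC : 0 ≤ C) (hD1 : 0 < D1)
    (hP : 1 ≤ P) (hPR : P ≤ R) (hL : 1 ≤ L)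
    (h2 : ∀ w ∈ cw R, ∀ D : ℤ, (((cw R).filter (fun w2 => dl w w2 = D)).card : ℝ) ≤ C)
    (hβ : ∀ w, |β w| ≤ 1) (hlam : Lm L lam) :
    |∑ w1 ∈ cw R, ∑ w2 ∈ cw R, β w1 * β w2 * ((1 - om (|(dl w1 w2 : ℝ)| / D1)) * FF D M P lam w1 w2)| ≤
      2673 * C * (4 * D1 + 1) * R * L * P := by
  have hP0 : 0 < P := by linarith
  have hR0 : 0 < R := by linarith
  set m : ℤ := ⌊2 * D1⌋ with hm
  have hm0 : 0 ≤ m := Int.floor_nonneg.2 (by positivity)
  set S : Finset ℤ := Icc (-m) m with hS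
  have hcard : (S.card : ℝ) ≤ 4 * D1 + 1 := by
    rw [hS, Int.card_Icc]
    have h5 : (((m + 1 - -m).toNat : ℤ) : ℝ) = 2 * m + 1 := by
      rw [Int.toNat_of_nonneg (by omega)]
      push_cast
      ring
    have h6 : ((m + 1 - -m).toNat : ℝ) = 2 * m + 1 := by
      rw [← h5]
      push_cast
      rfl
    rw [h6]
    have := Int.floor_le (2 * D1)
    rw [← hm] at this
    linarith
  have hU0 : ∀ w, 0 ≤ Uw P L w := fun w => by unfold Uw; positivity
  have key : ∀ w1 ∈ cw R, ∀ w2 ∈ cw R,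
      |β w1 * β w2 * ((1 - om (|(dl w1 w2 : ℝ)| / D1)) * FF D M P lam w1 w2)| ≤
        if dl w1 w2 ∈ S then Uw P L w1 else 0 := by
    intro w1 hw1 w2 _
    have hF := FF_bound2 (D := D) (M := M) (P := P) (L := L) hP0 hlam w1 w2
    by_cases hin : dl w1 w2 ∈ S
    · rw [if_pos hin, abs_mul, abs_mul, abs_mul]
      have a1 := om_nonneg (|(dl w1 w2 : ℝ)| / D1)
      have a2 := om_le_one (|(dl w1 w2 : ℝ)| / D1)
      have a3 : |1 - om (|(dl w1 w2 : ℝ)| / D1)| ≤ 1 := abs_le_one_of (by linarith) (by linarith)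
      have a4 : |β w1| * |β w2| ≤ 1 := mul_le_one₀ (hβ _) (abs_nonneg _) (hβ _)
      have a5 : |1 - om (|(dl w1 w2 : ℝ)| / D1)| * |FF D M P lam w1 w2| ≤ 1 * Uw P L w1 :=
        mul_le_mul a3 hF (abs_nonneg _) zero_le_one
      calc |β w1| * |β w2| * (|1 - om (|(dl w1 w2 : ℝ)| / D1)| * |FF D M P lam w1 w2|)
          ≤ 1 * (1 * Uw P L w1) := mul_le_mul a4 a5 (by positivity) zero_le_one
        _ = Uw P L w1 := by ring
    · rw [if_neg hin]
      have h7 : 2 * D1 < |(dl w1 w2 : ℝ)| := by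
        rw [hS, mem_Icc, not_and_or] at hin
        push Not at hin
        have h8 : (m : ℝ) + 1 ≤ |(dl w1 w2 : ℝ)| := by
          rcases hin with h | h
          · have : dl w1 w2 ≤ -(m + 1) := by omega
            have h9 : (dl w1 w2 : ℝ) ≤ -((m : ℝ) + 1) := by exact_mod_cast this
            rw [le_abs]
            right
            linarith
          · have : m + 1 ≤ dl w1 w2 := by omega
            have h9 : (m : ℝ) + 1 ≤ (dl w1 w2 : ℝ) := by exact_mod_cast this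
            exact h9.trans (le_abs_self _)
        have := Int.lt_floor_add_one (2 * D1)
        rw [← hm] at this
        linarith
      rw [om_eq_one (by rw [le_div_iff₀ hD1]; linarith)]
      simp
  refine (Finset.abs_sum_le_sum_abs _ _).trans ?_
  have h10 : ∀ w1 ∈ cw R, |∑ w2 ∈ cw R, β w1 * β w2 *
      ((1 - om (|(dl w1 w2 : ℝ)| / D1)) * FF D M P lam w1 w2)| ≤ C * (4 * D1 + 1) * Uw P L w1 := by
    intro w1 hw1
    refine (Finset.abs_sum_le_sum_abs _ _).trans ?_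
    refine (Finset.sum_le_sum fun w2 hw2 => key w1 hw1 w2 hw2).trans ?_
    rw [← Finset.sum_filter, ← Finset.sum_fiberwise_of_maps_to (t := S) (g := fun w2 => dl w1 w2)
      (fun w2 hw2 => (mem_filter.1 hw2).2)]
    have h4 : ∀ d ∈ S, ∑ w2 ∈ ((cw R).filter (fun w2 => dl w1 w2 ∈ S)).filter (fun w2 => dl w1 w2 = d), Uw P L w1 ≤
        C * Uw P L w1 := by
      intro d _
      rw [sum_const, nsmul_eq_mul]
      refine mul_le_mul_of_nonneg_right (le_trans ?_ (h2 w1 hw1 d)) (hU0 w1)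
      norm_cast
      refine Finset.card_le_card fun w2 hw2 => ?_
      rw [mem_filter, mem_filter] at hw2
      exact mem_filter.2 ⟨hw2.1.1, hw2.2⟩
    have h5 := sum_le_card_nsmul _ _ _ h4
    rw [nsmul_eq_mul] at h5
    refine h5.trans ?_
    have h6 : 0 ≤ C * Uw P L w1 := mul_nonneg hC (hU0 w1)
    nlinarith
  refine (Finset.sum_le_sum h10).trans ?_
  rw [← mul_sum]
  have h11 := Uw_sum (R := R) (P := P) (L := L) hP hPR hL
  calc C * (4 * D1 + 1) * ∑ w ∈ cw R, Uw P L w ≤ C * (4 * D1 + 1) * (2673 * L * R * P) :=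
        mul_le_mul_of_nonneg_left h11 (by positivity)
    _ = _ := by ring

end Pool.Agent.J6H16.TH
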