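import Pool.Agent.J6H16.TH.Tg1

/-!
# The dispersion for long `w`, part 2: replacing the weight by its values at the ends of the intervals
-/

set_option autoImplicit false

namespace Pool.Agent.J6H16.TH

open Finset
open Pool.Agent.N782.GN
open Pool.Agent.N391.GN (FF MPt xe xe_near xe_nonneg xe_le FF_eq Hf_lip Hf_supp abs_le_one_of Phi_nonneg Phi_le_one
  psi_nonneg psi_le_one om_nonneg om_le_one om_eq_one om_eq_zero Phi_zero_of_le Phi_zero_of_ge rh_lip rh_nonneg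
  dlc_coe cw_upper cw_lower sum_Ioc_split FF_diff PD PD_of pair_count harm_le TT expand part1 part3 TT_trivial large
  Hf_nonneg Hf_le_one)

/-- the pairs with a large determinant, `R ≤ P` -/
theorem part2a {C R D M P L D1 : ℝ} {lam : ℤ → ℝ} {β : ZI → ℝ} (hchr : S_CHR) (hC : 0 ≤ C) (hD1 : 0 < D1)
    (hR : 0 < R) (hM : 0 < M) (hP : 0 < P) (hL : 0 < L) (hD : 1 ≤ D) (hRP : R * P ≤ M)
    (hRP2 : R ≤ P) (h81 : 1 ≤ 8 * (R * L / P))
    (hc : ((cw R).card : ℝ) ≤ C * R ^ 2)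
    (h2 : ∀ w ∈ cw R, ∀ D : ℤ, (((cw R).filter (fun w2 => dl w w2 = D)).card : ℝ) ≤ C)
    (hβ : ∀ w, |β w| ≤ 1) (hlam : Lm L lam) (J n : ℕ) (hJn : L ≤ ((J * n : ℕ) : ℝ)) :
    |∑ w1 ∈ cw R, ∑ w2 ∈ cw R, β w1 * β w2 * (om (|(dl w1 w2 : ℝ)| / D1) *
      (FF D M P lam w1 w2 - MPt D M P L lam J n w1 w2))| ≤
      18 * C ^ 2 * (24 * D * R * n / (P * D1)) * (L ^ 2 * R ^ 2) * (1 + Real.log (8 * (R * L / P))) := by
  have h8 : 8 * (R * L / P) ≤ 8 * L := by
    have : R * L / P ≤ L := by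
      rw [div_le_iff₀ hP]
      nlinarith
    linarith
  set K : ℕ := ⌊8 * (R * L / P)⌋₊ with hK
  set S : Finset ℤ := (Icc (-(K : ℤ)) K).erase 0 with hS
  set q : ℝ := 24 * D * R * n / (P * D1) * (9 * L ^ 2) with hq
  have hq0 : 0 ≤ q := by positivity
  have key : ∀ w1 ∈ cw R, ∀ w2 ∈ cw R,
      |β w1 * β w2 * (om (|(dl w1 w2 : ℝ)| / D1) *
        (FF D M P lam w1 w2 - MPt D M P L lam J n w1 w2))| ≤
        if dl w1 w2 ∈ S then q * (1 / |(dl w1 w2 : ℝ)|) else 0 := by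
    intro w1 hw1 w2 hw2
    have hnn : (0 : ℝ) ≤ if dl w1 w2 ∈ S then q * (1 / |(dl w1 w2 : ℝ)|) else 0 := by
      split_ifs
      · positivity
      · exact le_rfl
    by_cases hs : |(dl w1 w2 : ℝ)| ≤ D1
    · rw [om_eq_zero (by rw [div_le_one hD1]; exact hs)]
      simpa using hnn
    push Not at hs
    have hd0 : 0 < |(dl w1 w2 : ℝ)| := hD1.trans hs
    have hd : dl w1 w2 ≠ 0 := by
      intro h
      rw [h] at hd0
      simp at hd0
    obtain ⟨t, h3, h4⟩ := PD_of hchr hw1 hw2 hd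
    have h5 := FF_diff hD hM hP hRP hR hL.le hlam hw1 hw2 hd t h3 h4 J n hJn
    have a1 : |β w1| * |β w2| ≤ 1 := mul_le_one₀ (hβ _) (abs_nonneg _) (hβ _)
    have a2 : |om (|(dl w1 w2 : ℝ)| / D1)| ≤ 1 := abs_le_one_of (om_nonneg _) (om_le_one _)
    have a3 : |β w1 * β w2 * (om (|(dl w1 w2 : ℝ)| / D1) *
        (FF D M P lam w1 w2 - MPt D M P L lam J n w1 w2))| ≤
        |FF D M P lam w1 w2 - MPt D M P L lam J n w1 w2| := by
      rw [abs_mul, abs_mul, abs_mul]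
      calc |β w1| * |β w2| * (|om (|(dl w1 w2 : ℝ)| / D1)| *
            |FF D M P lam w1 w2 - MPt D M P L lam J n w1 w2|)
          ≤ 1 * (1 * |FF D M P lam w1 w2 - MPt D M P L lam J n w1 w2|) :=
            mul_le_mul a1 (mul_le_mul_of_nonneg_right a2 (abs_nonneg _)) (by positivity) zero_le_one
        _ = _ := by ring
    refine a3.trans (h5.trans ?_)
    split_ifs with c1 c2 c2
    · have b1 : L / |(dl w1 w2 : ℝ)| + 1 ≤ 9 * L / |(dl w1 w2 : ℝ)| := by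
        have : 1 ≤ 8 * L / |(dl w1 w2 : ℝ)| := by
          rw [le_div_iff₀ hd0]
          linarith
        have e : 9 * L / |(dl w1 w2 : ℝ)| = L / |(dl w1 w2 : ℝ)| + 8 * L / |(dl w1 w2 : ℝ)| := by ring
        linarith
      have b2 : 24 * D * R * n / (P * |(dl w1 w2 : ℝ)|) ≤ 24 * D * R * n / (P * D1) := by
        apply div_le_div_of_nonneg_left (by positivity) (by positivity)
        exact mul_le_mul_of_nonneg_left hs.le hP.le
      calc 24 * D * R * n / (P * |(dl w1 w2 : ℝ)|) * (L * (L / |(dl w1 w2 : ℝ)| + 1))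
          ≤ 24 * D * R * n / (P * D1) * (L * (9 * L / |(dl w1 w2 : ℝ)|)) :=
            mul_le_mul b2 (mul_le_mul_of_nonneg_left b1 hL.le) (by positivity) (by positivity)
        _ = q * (1 / |(dl w1 w2 : ℝ)|) := by
            rw [hq]
            ring
    · exfalso
      apply c2
      rw [hS, mem_erase, mem_Icc]
      refine ⟨hd, ?_⟩
      have b3 : ((|dl w1 w2| : ℤ) : ℝ) ≤ 8 * (R * L / P) := by
        push_cast
        exact c1
      have b4 : |dl w1 w2| ≤ (K : ℤ) := by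
        rw [hK, Int.natCast_floor_eq_floor (by positivity)]
        exact Int.le_floor.2 b3
      exact abs_le.1 b4
    · positivity
    · exact le_rfl
  refine (Finset.abs_sum_le_sum_abs _ _).trans ?_
  have h10 : ∀ w1 ∈ cw R, |∑ w2 ∈ cw R, β w1 * β w2 * (om (|(dl w1 w2 : ℝ)| / D1) *
      (FF D M P lam w1 w2 - MPt D M P L lam J n w1 w2))| ≤
      ∑ w2 ∈ (cw R).filter (fun w2 => dl w1 w2 ∈ S), q * (1 / |(dl w1 w2 : ℝ)|) := by
    intro w1 hw1
    refine (Finset.abs_sum_le_sum_abs _ _).trans ?_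
    rw [Finset.sum_filter]
    exact Finset.sum_le_sum fun w2 hw2 => key w1 hw1 w2 hw2
  refine (Finset.sum_le_sum h10).trans ?_
  refine (pair_count hC hc h2 S (fun d => q * (1 / |(d : ℝ)|)) (fun _ _ => by positivity)).trans ?_
  rw [← Finset.mul_sum]
  have h11 := harm_le K _ h81 (Nat.floor_le (by positivity))
  calc C ^ 2 * R ^ 2 * (q * ∑ d ∈ S, 1 / |(d : ℝ)|) ≤
        C ^ 2 * R ^ 2 * (q * (2 * (1 + Real.log (8 * (R * L / P))))) :=
        mul_le_mul_of_nonneg_left (mul_le_mul_of_nonneg_left h11 hq0) (by positivity)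
    _ = _ := by
      rw [hq]
      ring

open Classical in
/-- the common `v` -/
noncomputable def Vs (P L : ℝ) (w1 w2 : ZI) : Finset ZI :=
  (bl (16 * P ^ 2)).filter (fun v => P ^ 2 / 16 < nz v ∧ (1 ≤ (w1 * v).re ∧ (((w1 * v).re : ℤ) : ℝ) ≤ L) ∧
    (1 ≤ (w2 * v).re ∧ (((w2 * v).re : ℤ) : ℝ) ≤ L))

open Classical in
/-- the sum over the common `v` -/
lemma Vs_sum {R P L : ℝ} (hP : 1 ≤ P) (hPR : P ≤ R) (hL : 1 ≤ L) :
    ∑ w1 ∈ cw R, ∑ w2 ∈ cw R, ((Vs P L w1 w2).card : ℝ) ≤ 88209 * (L ^ 2 * R ^ 2) := by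
  have hP0 : 0 < P := by linarith
  have hR0 : 0 < R := by linarith
  let χ : ZI → ZI → ℝ := fun w v => if 1 ≤ (w * v).re ∧ (((w * v).re : ℤ) : ℝ) ≤ L then 1 else 0
  have e1 : ∀ w1 w2 : ZI, ((Vs P L w1 w2).card : ℝ) =
      ∑ v ∈ (bl (16 * P ^ 2)).filter (fun v => P ^ 2 / 16 < nz v), χ w1 v * χ w2 v := by
    intro w1 w2
    unfold Vs
    rw [Finset.card_filter]
    push_cast
    rw [sum_filter]
    refine sum_congr rfl fun v _ => ?_
    show _ = if _ then (if _ then (1 : ℝ) else 0) * (if _ then (1 : ℝ) else 0) else 0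
    by_cases h1 : P ^ 2 / 16 < nz v
    · by_cases h2 : 1 ≤ (w1 * v).re ∧ (((w1 * v).re : ℤ) : ℝ) ≤ L
      · by_cases h3 : 1 ≤ (w2 * v).re ∧ (((w2 * v).re : ℤ) : ℝ) ≤ L
        · rw [if_pos ⟨h1, h2, h3⟩, if_pos h1, if_pos h2, if_pos h3, mul_one]
        · rw [if_neg (fun h => h3 h.2.2), if_pos h1, if_neg h3, mul_zero]
      · rw [if_neg (fun h => h2 h.2.1), if_pos h1, if_neg h2, zero_mul]
    · rw [if_neg (fun h => h1 h.1), if_neg h1]
  have e2 : ∑ w1 ∈ cw R, ∑ w2 ∈ cw R, ((Vs P L w1 w2).card : ℝ) =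
      ∑ v ∈ (bl (16 * P ^ 2)).filter (fun v => P ^ 2 / 16 < nz v), (∑ w ∈ cw R, χ w v) ^ 2 := by
    calc _ = ∑ w1 ∈ cw R, ∑ v ∈ (bl (16 * P ^ 2)).filter (fun v => P ^ 2 / 16 < nz v), ∑ w2 ∈ cw R,
          χ w1 v * χ w2 v := by
          refine sum_congr rfl fun w1 _ => ?_
          rw [sum_congr rfl fun w2 _ => e1 w1 w2, sum_comm]
      _ = _ := by
          rw [sum_comm]
          refine sum_congr rfl fun v _ => ?_
          rw [sq, sum_mul_sum]
  rw [e2]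
  have h1 : ∀ v ∈ (bl (16 * P ^ 2)).filter (fun v => P ^ 2 / 16 < nz v), (∑ w ∈ cw R, χ w v) ^ 2 ≤
      (33 * L * R / P) ^ 2 := by
    intro v hv
    rw [mem_filter, mem_bl] at hv
    have h2 := vc (v := v) hP0 hPR hL hv.2 hv.1.2
    have h3 : ∑ w ∈ cw R, χ w v = (((cw R).filter (fun w => 1 ≤ (w * v).re ∧ (((w * v).re : ℤ) : ℝ) ≤ L)).card : ℝ) := by
      rw [Finset.card_filter]
      push_cast
      rfl
    rw [h3]
    exact pow_le_pow_left₀ (by positivity) h2 2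
  have h2 := sum_le_card_nsmul _ _ _ h1
  rw [nsmul_eq_mul] at h2
  refine h2.trans ?_
  have h3 : ((((bl (16 * P ^ 2)).filter (fun v => P ^ 2 / 16 < nz v)).card : ℕ) : ℝ) ≤ 81 * P ^ 2 := by
    refine le_trans ?_ (bl_card hP)
    exact_mod_cast card_filter_le _ _
  calc ((((bl (16 * P ^ 2)).filter (fun v => P ^ 2 / 16 < nz v)).card : ℕ) : ℝ) * (33 * L * R / P) ^ 2
      ≤ 81 * P ^ 2 * (33 * L * R / P) ^ 2 := mul_le_mul_of_nonneg_right h3 (by positivity)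
    _ = _ := by
      field_simp
      ring

open Classical in
theorem FF_diff2 {D M P L R D1 : ℝ} {lam : ℤ → ℝ} (hD : 1 ≤ D) (hM : 0 < M) (hP : 0 < P)
    (hRP : R * P ≤ M) (hR : 0 < R) (hL : 0 ≤ L) (hlam : Lm L lam) {w1 w2 : ZI}
    (hw1 : w1 ∈ cw R) (hw2 : w2 ∈ cw R)
    (hd : dl w1 w2 ≠ 0) (hD1 : 0 < D1) (hdD : D1 ≤ |(dl w1 w2 : ℝ)|)
    (hv : ∀ v : ZI, nz v * (dl w1 w2 : ℝ) ^ 2 =
      ‖(w2 : ℂ) * (((w1 * v).re : ℤ) : ℂ) - (w1 : ℂ) * (((w2 * v).re : ℤ) : ℂ)‖ ^ 2)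
    (J n : ℕ) (hJn : L ≤ ((J * n : ℕ) : ℝ)) (hn : 16 * (R * n) ≤ D1 * P) :
    |FF D M P lam w1 w2 - MPt D M P L lam J n w1 w2| ≤
      24 * D * R * n / (P * D1) * ((Vs P L w1 w2).card : ℝ) := by
  have hd' : (0 : ℝ) < |(dl w1 w2 : ℝ)| := abs_pos.2 (by exact_mod_cast hd)
  have hn1 : ‖(w1 : ℂ)‖ ≤ 2 * R := cw_upper hR hw1
  have hn2 : ‖(w2 : ℂ)‖ ≤ 2 * R := cw_upper hR hw2
  have hJn' : L ≤ (((J * n : ℕ) : ℤ) : ℝ) := by
    rw [Int.cast_natCast]
    exact hJn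
  have hrh : ∀ v : ZI, rh ((w1 * v).re : ℝ) ((w2 * v).re : ℝ) w1 w2 = Real.sqrt (nz v) := by
    intro v
    unfold rh
    rw [dlc_coe, Complex.ofReal_intCast, Complex.ofReal_intCast, div_eq_iff hd'.ne']
    have h1 := hv v
    have h2 : ‖(w2 : ℂ) * (((w1 * v).re : ℤ) : ℂ) - (w1 : ℂ) * (((w2 * v).re : ℤ) : ℂ)‖ =
        Real.sqrt (nz v * (dl w1 w2 : ℝ) ^ 2) := by
      rw [h1, Real.sqrt_sq (norm_nonneg _)]
    rw [h2, Real.sqrt_mul (nz_nonneg v), Real.sqrt_sq_eq_abs]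
  have e1 : FF D M P lam w1 w2 = ∑ i ∈ range J, ∑ l1 ∈ Ioc ((i * n : ℕ) : ℤ) ((i * n : ℕ) + n),
      ∑ j ∈ range J, ∑ l2 ∈ Ioc ((j * n : ℕ) : ℤ) ((j * n : ℕ) + n),
      if ∃ v : ZI, (w1 * v).re = l1 ∧ (w2 * v).re = l2 then
        lam l1 * lam l2 * Hf D M P l1 l2 w1 w2 else 0 := by
    rw [FF_eq hP hlam w1 w2 hd hv ((J * n : ℕ) : ℤ) hJn', sum_Ioc_split]
    refine Finset.sum_congr rfl fun i _ => Finset.sum_congr rfl fun l1 _ => ?_
    rw [sum_Ioc_split]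
  have e2 : MPt D M P L lam J n w1 w2 =
      ∑ i ∈ range J, ∑ l1 ∈ Ioc ((i * n : ℕ) : ℤ) ((i * n : ℕ) + n),
      ∑ j ∈ range J, ∑ l2 ∈ Ioc ((j * n : ℕ) : ℤ) ((j * n : ℕ) + n),
      if ∃ v : ZI, (w1 * v).re = l1 ∧ (w2 * v).re = l2 then
        lam l1 * lam l2 * Hf D M P (xe L n i) (xe L n j) w1 w2 else 0 := by
    unfold MPt A2
    refine Finset.sum_congr rfl fun i _ => ?_
    rw [Finset.sum_comm]
    refine Finset.sum_congr rfl fun j _ => ?_
    rw [Finset.mul_sum]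
    refine Finset.sum_congr rfl fun l1 _ => ?_
    rw [Finset.mul_sum]
    refine Finset.sum_congr rfl fun l2 _ => ?_
    split_ifs
    · ring
    · ring
  set κ : ℝ := 24 * D * R * n / (P * D1) with hκ
  have hκ0 : 0 ≤ κ := by positivity
  set T : Finset (ℤ × ℤ) := (Vs P L w1 w2).image (fun v => ((w1 * v).re, (w2 * v).re)) with hT
  have hU : ∀ i ∈ range J, ∀ l1 ∈ Ioc ((i * n : ℕ) : ℤ) ((i * n : ℕ) + n), ∀ j ∈ range J,
      ∀ l2 ∈ Ioc ((j * n : ℕ) : ℤ) ((j * n : ℕ) + n),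
      |(if ∃ v : ZI, (w1 * v).re = l1 ∧ (w2 * v).re = l2 then
        lam l1 * lam l2 * Hf D M P l1 l2 w1 w2 else 0) -
       (if ∃ v : ZI, (w1 * v).re = l1 ∧ (w2 * v).re = l2 then
        lam l1 * lam l2 * Hf D M P (xe L n i) (xe L n j) w1 w2 else 0)| ≤
      if (l1, l2) ∈ T then κ else 0 := by
    intro i _ l1 hl1 j _ l2 hl2
    have hnn : (0 : ℝ) ≤ if (l1, l2) ∈ T then κ else 0 := by
      split_ifs
      · exact hκ0
      · exact le_rfl
    by_cases hex : ∃ v : ZI, (w1 * v).re = l1 ∧ (w2 * v).re = l2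
    · rw [if_pos hex, if_pos hex, ← mul_sub, abs_mul, abs_mul]
      by_cases h1 : lam l1 = 0
      · rw [h1]
        simp only [abs_zero, zero_mul]
        exact hnn
      by_cases h2 : lam l2 = 0
      · rw [h2]
        simp only [abs_zero, mul_zero, zero_mul]
        exact hnn
      have g1 := mt (hlam.2 l1) h1
      have g2 := mt (hlam.2 l2) h2
      push Not at g1 g2
      have a1 := hlam.1 l1
      have a2 := hlam.1 l2
      have a3 : |lam l1| * |lam l2| ≤ 1 := mul_le_one₀ a1 (abs_nonneg _) a2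
      have b1 := xe_near n i l1 hl1 g1.2
      have b2 := xe_near n j l2 hl2 g2.2
      -- the distance of the two absolute values
      have hdist : |rh (l1 : ℝ) (l2 : ℝ) w1 w2 - rh (xe L n i) (xe L n j) w1 w2| ≤ P / 4 := by
        refine (rh_lip _ _ _ _ _ _).trans ?_
        rw [dlc_coe, div_le_iff₀ hd']
        have c1 : ‖(w2 : ℂ)‖ * |(l1 : ℝ) - xe L n i| ≤ 2 * R * n := mul_le_mul hn2 b1 (abs_nonneg _) (by positivity)
        have c2 : ‖(w1 : ℂ)‖ * |(l2 : ℝ) - xe L n j| ≤ 2 * R * n := mul_le_mul hn1 b2 (abs_nonneg _) (by positivity)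
        have c3 : D1 * P ≤ |(dl w1 w2 : ℝ)| * P := mul_le_mul_of_nonneg_right hdD hP.le
        nlinarith
      obtain ⟨v, hv1, hv2⟩ := hex
      have hrv : rh (l1 : ℝ) (l2 : ℝ) w1 w2 = Real.sqrt (nz v) := by
        rw [← hrh v, hv1, hv2]
      rw [hrv] at hdist
      by_cases hin : P / 4 < Real.sqrt (nz v) ∧ Real.sqrt (nz v) ≤ 4 * P
      · have hsq := Real.sq_sqrt (nz_nonneg v)
        have hmem : (l1, l2) ∈ T := by
          rw [hT, mem_image]
          refine ⟨v, ?_, by rw [hv1, hv2]⟩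
          unfold Vs
          rw [mem_filter, mem_bl]
          have k1 : P ^ 2 / 16 < nz v := by
            rw [← hsq]
            nlinarith
          have k2 : nz v ≤ 16 * P ^ 2 := by
            rw [← hsq]
            nlinarith
          refine ⟨⟨?_, k2⟩, k1, ?_, ?_⟩
          · rintro rfl
            have : nz (0 : ZI) = 0 := by simp [nz]
            rw [this] at k1
            have : 0 ≤ P ^ 2 / 16 := by positivity
            linarith
          · rw [hv1]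
            exact g1
          · rw [hv2]
            exact g2
        rw [if_pos hmem]
        have a4 : |Hf D M P l1 l2 w1 w2 - Hf D M P (xe L n i) (xe L n j) w1 w2| ≤ κ := by
          have := Hf_lip hD hM hP hRP hR (l1 : ℝ) (l2 : ℝ) (xe L n i) (xe L n j) n w1 w2 hn1 hn2 b1 b2
          rw [dlc_coe] at this
          refine this.trans ?_
          rw [hκ]
          apply div_le_div_of_nonneg_left (by positivity) (by positivity)
          exact mul_le_mul_of_nonneg_left hdD hP.le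
        calc |lam l1| * |lam l2| * |Hf D M P l1 l2 w1 w2 - Hf D M P (xe L n i) (xe L n j) w1 w2|
            ≤ 1 * κ := mul_le_mul a3 a4 (abs_nonneg _) zero_le_one
          _ = κ := one_mul _
      · -- both weights vanish
        have hz : ∀ r : ℝ, |Real.sqrt (nz v) - r| ≤ P / 4 → Phi (r / P) = 0 := by
          intro r hr
          rw [abs_le] at hr
          rw [not_and_or] at hin
          rcases hin with h | h
          · push Not at h
            apply Phi_zero_of_le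
            rw [div_le_iff₀ hP]
            linarith
          · push Not at h
            apply Phi_zero_of_ge
            rw [le_div_iff₀ hP]
            linarith
        have q1 : Hf D M P l1 l2 w1 w2 = 0 := by
          unfold Hf
          rw [hrv, hz _ (by rw [sub_self, abs_zero]; positivity)]
          ring
        have q2 : Hf D M P (xe L n i) (xe L n j) w1 w2 = 0 := by
          unfold Hf
          rw [hz _ hdist]
          ring
        rw [q1, q2]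
        simpa using hnn
    · rw [if_neg hex, if_neg hex, sub_zero, abs_zero]
      exact hnn
  have hdiff : |FF D M P lam w1 w2 - MPt D M P L lam J n w1 w2| ≤
      ∑ l1 ∈ Ioc (0 : ℤ) ((J * n : ℕ) : ℤ), ∑ l2 ∈ Ioc (0 : ℤ) ((J * n : ℕ) : ℤ),
        if (l1, l2) ∈ T then κ else 0 := by
    rw [e1, e2, ← Finset.sum_sub_distrib, sum_Ioc_split]
    refine (Finset.abs_sum_le_sum_abs _ _).trans (Finset.sum_le_sum fun i hi => ?_)
    rw [← Finset.sum_sub_distrib]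
    refine (Finset.abs_sum_le_sum_abs _ _).trans (Finset.sum_le_sum fun l1 hl1 => ?_)
    rw [← Finset.sum_sub_distrib, sum_Ioc_split]
    refine (Finset.abs_sum_le_sum_abs _ _).trans (Finset.sum_le_sum fun j hj => ?_)
    rw [← Finset.sum_sub_distrib]
    exact (Finset.abs_sum_le_sum_abs _ _).trans (Finset.sum_le_sum fun l2 hl2 => hU i hi l1 hl1 j hj l2 hl2)
  refine hdiff.trans ?_
  rw [← Finset.sum_product' (f := fun l1 l2 => if (l1, l2) ∈ T then κ else 0), ← Finset.sum_filter,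
    Finset.sum_const, nsmul_eq_mul, mul_comm]
  refine mul_le_mul_of_nonneg_left ?_ hκ0
  norm_cast
  refine (card_le_card (t := T) fun p hp => (mem_filter.1 hp).2).trans ?_
  rw [hT]
  exact card_image_le

/-- the pairs with a large determinant, `P ≤ R` -/
theorem part2b {R D M P L D1 : ℝ} {lam : ℤ → ℝ} {β : ZI → ℝ} (hchr : S_CHR) (hD1 : 0 < D1)
    (hM : 0 < M) (hP : 1 ≤ P) (hPR : P ≤ R) (hL : 1 ≤ L) (hD : 1 ≤ D) (hRP : R * P ≤ M)
    (hβ : ∀ w, |β w| ≤ 1) (hlam : Lm L lam) (J n : ℕ) (hJn : L ≤ ((J * n : ℕ) : ℝ))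
    (hn : 16 * (R * n) ≤ D1 * P) :
    |∑ w1 ∈ cw R, ∑ w2 ∈ cw R, β w1 * β w2 * (om (|(dl w1 w2 : ℝ)| / D1) *
      (FF D M P lam w1 w2 - MPt D M P L lam J n w1 w2))| ≤
      88209 * (24 * D * R * n / (P * D1)) * (L ^ 2 * R ^ 2) := by
  have hP0 : 0 < P := by linarith
  have hR0 : 0 < R := by linarith
  have hL0 : 0 < L := by linarith
  have hκ0 : 0 ≤ 24 * D * R * n / (P * D1) := by positivity
  have key : ∀ w1 ∈ cw R, ∀ w2 ∈ cw R,
      |β w1 * β w2 * (om (|(dl w1 w2 : ℝ)| / D1) *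
        (FF D M P lam w1 w2 - MPt D M P L lam J n w1 w2))| ≤
        24 * D * R * n / (P * D1) * ((Vs P L w1 w2).card : ℝ) := by
    intro w1 hw1 w2 hw2
    have hnn : 0 ≤ 24 * D * R * n / (P * D1) * ((Vs P L w1 w2).card : ℝ) := by positivity
    by_cases hs : |(dl w1 w2 : ℝ)| ≤ D1
    · rw [om_eq_zero (by rw [div_le_one hD1]; exact hs)]
      simpa using hnn
    push Not at hs
    have hd0 : 0 < |(dl w1 w2 : ℝ)| := hD1.trans hs
    have hd : dl w1 w2 ≠ 0 := by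
      intro h
      rw [h] at hd0
      simp at hd0
    obtain ⟨t, h3, h4⟩ := PD_of hchr hw1 hw2 hd
    have h5 := FF_diff2 hD hM hP0 hRP hR0 hL0.le hlam hw1 hw2 hd hD1 hs.le h4 J n hJn hn
    have a1 : |β w1| * |β w2| ≤ 1 := mul_le_one₀ (hβ _) (abs_nonneg _) (hβ _)
    have a2 : |om (|(dl w1 w2 : ℝ)| / D1)| ≤ 1 := abs_le_one_of (om_nonneg _) (om_le_one _)
    refine le_trans ?_ h5
    rw [abs_mul, abs_mul, abs_mul]
    calc |β w1| * |β w2| * (|om (|(dl w1 w2 : ℝ)| / D1)| *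
          |FF D M P lam w1 w2 - MPt D M P L lam J n w1 w2|)
        ≤ 1 * (1 * |FF D M P lam w1 w2 - MPt D M P L lam J n w1 w2|) :=
          mul_le_mul a1 (mul_le_mul_of_nonneg_right a2 (abs_nonneg _)) (by positivity) zero_le_one
      _ = _ := by ring
  refine (Finset.abs_sum_le_sum_abs _ _).trans ?_
  have h10 : ∀ w1 ∈ cw R, |∑ w2 ∈ cw R, β w1 * β w2 * (om (|(dl w1 w2 : ℝ)| / D1) *
      (FF D M P lam w1 w2 - MPt D M P L lam J n w1 w2))| ≤
      ∑ w2 ∈ cw R, 24 * D * R * n / (P * D1) * ((Vs P L w1 w2).card : ℝ) := by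
    intro w1 hw1
    refine (Finset.abs_sum_le_sum_abs _ _).trans ?_
    exact Finset.sum_le_sum fun w2 hw2 => key w1 hw1 w2 hw2
  refine (Finset.sum_le_sum h10).trans ?_
  simp_rw [← mul_sum]
  have h11 := Vs_sum (R := R) (P := P) (L := L) hP hPR hL
  calc 24 * D * R * n / (P * D1) * ∑ w1 ∈ cw R, ∑ w2 ∈ cw R, ((Vs P L w1 w2).card : ℝ)
      ≤ 24 * D * R * n / (P * D1) * (88209 * (L ^ 2 * R ^ 2)) := mul_le_mul_of_nonneg_left h11 hκ0
    _ = _ := by ring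

/-- all three parts -/
theorem core2 {C R D M P L D1 X : ℝ} {lam : ℤ → ℝ} {β : ZI → ℝ} (hchr : S_CHR) (hC : 0 ≤ C) (hD1 : 0 < D1)
    (hR : 1 ≤ R) (hM : 0 < M) (hP : 1 ≤ P) (hL : 1 ≤ L) (hD : 1 ≤ D) (hRP : R * P ≤ M)
    (h81 : 1 ≤ 8 * (R * L / P))
    (hc : ((cw R).card : ℝ) ≤ C * R ^ 2)
    (h2 : ∀ w ∈ cw R, ∀ D : ℤ, (((cw R).filter (fun w2 => dl w w2 = D)).card : ℝ) ≤ C)
    (h3 : R ≤ P → ∀ w ∈ cw R, (((bl (9 * P ^ 2)).filter
      (fun v => 1 ≤ (w * v).re ∧ (((w * v).re : ℤ) : ℝ) ≤ L)).card : ℝ) ≤ C * L * P / R)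
    (hβ : ∀ w, |β w| ≤ 1) (hβ1 : ∀ w, ct w ≠ 1 → β w = 0) (hlam : Lm L lam) (J n : ℕ)
    (hJn : L ≤ ((J * n : ℕ) : ℝ)) (hn : 16 * (R * n) ≤ D1 * P)
    (hX : ∀ i ∈ range J, ∀ j ∈ range J, |∑ w1 ∈ cw R, ∑ w2 ∈ cw R, β w1 * β w2 *
      (|(dl w1 w2 : ℝ)| * Kf D M P D1 (xe L n i) (xe L n j) w1 w2) *
      A2 lam (Ioc ((i * n : ℕ) : ℤ) ((i * n : ℕ) + n)) (Ioc ((j * n : ℕ) : ℤ) ((j * n : ℕ) + n)) w1 w2| ≤ X) :
    TT M R P D β lam ≤ (C ^ 3 + 2673 * C) * (4 * D1 + 1) * R * L * P +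
      (18 * C ^ 2 + 88209) * (24 * D * R * n / (P * D1)) * (L ^ 2 * R ^ 2) *
        (1 + Real.log (8 * (R * L / P))) + (J : ℝ) ^ 2 * X := by
  have hR0 : 0 < R := by linarith
  have hP0 : 0 < P := by linarith
  have hL0 : 0 < L := by linarith
  have e : TT M R P D β lam =
      ∑ w1 ∈ cw R, ∑ w2 ∈ cw R, β w1 * β w2 * ((1 - om (|(dl w1 w2 : ℝ)| / D1)) * FF D M P lam w1 w2) +
      ∑ w1 ∈ cw R, ∑ w2 ∈ cw R, β w1 * β w2 * (om (|(dl w1 w2 : ℝ)| / D1) *
        (FF D M P lam w1 w2 - MPt D M P L lam J n w1 w2)) +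
      ∑ w1 ∈ cw R, ∑ w2 ∈ cw R, β w1 * β w2 * (om (|(dl w1 w2 : ℝ)| / D1) *
        MPt D M P L lam J n w1 w2) := by
    unfold TT
    rw [expand D M P R β lam hβ1, ← Finset.sum_add_distrib, ← Finset.sum_add_distrib]
    refine Finset.sum_congr rfl fun w1 _ => ?_
    rw [← Finset.sum_add_distrib, ← Finset.sum_add_distrib]
    refine Finset.sum_congr rfl fun w2 _ => ?_
    ring
  rw [e]
  have p3 := part3 (β := β) (lam := lam) J n hX
  have hlg : 0 ≤ Real.log (8 * (R * L / P)) := Real.log_nonneg h81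
  have hκ0 : 0 ≤ 24 * D * R * n / (P * D1) := by positivity
  have t0 : 0 ≤ (4 * D1 + 1) * R * L * P := by positivity
  have t1 : 0 ≤ (24 * D * R * n / (P * D1)) * (L ^ 2 * R ^ 2) := by positivity
  have p1 : |∑ w1 ∈ cw R, ∑ w2 ∈ cw R, β w1 * β w2 * ((1 - om (|(dl w1 w2 : ℝ)| / D1)) * FF D M P lam w1 w2)| ≤
      (C ^ 3 + 2673 * C) * (4 * D1 + 1) * R * L * P := by
    rcases le_total R P with hh | hh
    · refine (part1 (D := D) (M := M) hC hD1 hR0 hP0 hL0.le hc h2 (h3 hh) hβ hlam).trans ?_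
      have : 0 ≤ 2673 * C * ((4 * D1 + 1) * R * L * P) := by positivity
      nlinarith
    · refine (part1b (D := D) (M := M) hC hD1 hP hh hL h2 hβ hlam).trans ?_
      have : 0 ≤ C ^ 3 * ((4 * D1 + 1) * R * L * P) := by positivity
      nlinarith
  have p2 : |∑ w1 ∈ cw R, ∑ w2 ∈ cw R, β w1 * β w2 * (om (|(dl w1 w2 : ℝ)| / D1) *
        (FF D M P lam w1 w2 - MPt D M P L lam J n w1 w2))| ≤
      (18 * C ^ 2 + 88209) * (24 * D * R * n / (P * D1)) * (L ^ 2 * R ^ 2) *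
        (1 + Real.log (8 * (R * L / P))) := by
    rcases le_total R P with hh | hh
    · refine (part2a hchr hC hD1 hR0 hM hP0 hL0 hD hRP hh h81 hc h2 hβ hlam J n hJn).trans ?_
      have : 0 ≤ 88209 * ((24 * D * R * n / (P * D1)) * (L ^ 2 * R ^ 2)) * (1 + Real.log (8 * (R * L / P))) := by
        positivity
      linarith
    · refine (part2b hchr hD1 hM hP hh hL hD hRP hβ hlam J n hJn hn).trans ?_
      have a1 : 0 ≤ 88209 * ((24 * D * R * n / (P * D1)) * (L ^ 2 * R ^ 2)) * Real.log (8 * (R * L / P)) := by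
        positivity
      have a2 : 0 ≤ 18 * C ^ 2 * ((24 * D * R * n / (P * D1)) * (L ^ 2 * R ^ 2)) * (1 + Real.log (8 * (R * L / P))) := by
        positivity
      linarith
  exact add_le_add (add_le_add ((le_abs_self _).trans p1) ((le_abs_self _).trans p2))
    ((le_abs_self _).trans p3)

end Pool.Agent.J6H16.TH
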