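import Pool.Agent.J6H16.TH.Tg2
import Pool.Agent.J6H16.TH.Bil4

/-!
# The dispersion for long `w`, part 3: the numbers
-/

set_option autoImplicit false

namespace Pool.Agent.J6H16.TH

open Finset
open Pool.Agent.N782.GN

/-- the first two parts -/
theorem numA {L R P D ℓ C5 C6 lg W D0 : ℝ} {A B j J n : ℕ}
    (hC5 : 0 ≤ C5) (hC6 : 0 ≤ C6) (hℓ : 100 ≤ ℓ) (hL : 0 < L) (hR : 0 < R) (hP : 0 < P)
    (hD0 : D0 = R * L / P) (hW : W = L ^ 2 * R ^ 2 / ℓ ^ A)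
    (hRLP : R * L * P ≤ W) (hD1 : 1 ≤ D) (hD : D ≤ ℓ ^ B) (hj : j = 2 * A + B + 2)
    (hJ1 : ℓ ^ j ≤ J) (hJn : (J : ℝ) * n ≤ 2 * L)
    (hlg0 : 0 ≤ 1 + lg) (hlg : 1 + lg ≤ 4 * ℓ) :
    C5 * (4 * (D0 / ℓ ^ A) + 1) * R * L * P +
      C6 * (24 * D * R * n / (P * (D0 / ℓ ^ A))) * (L ^ 2 * R ^ 2) * (1 + lg) ≤ (5 * C5 + 192 * C6) * W := by
  have hℓ0 : 0 < ℓ := by linarith
  have hJ0 : (0 : ℝ) < J := lt_of_lt_of_le (by positivity) hJ1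
  have hW0 : 0 < W := by rw [hW]; positivity
  have hD0pos : 0 < D0 := by rw [hD0]; positivity
  have t1 : C5 * (4 * (D0 / ℓ ^ A) + 1) * R * L * P ≤ 5 * C5 * W := by
    have e : C5 * (4 * (D0 / ℓ ^ A) + 1) * R * L * P = C5 * (4 * W + R * L * P) := by
      rw [hW, hD0]
      field_simp
    rw [e]
    nlinarith
  have t2 : C6 * (24 * D * R * n / (P * (D0 / ℓ ^ A))) * (L ^ 2 * R ^ 2) * (1 + lg) ≤ 192 * C6 * W := by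
    have e1 : 24 * D * R * n / (P * (D0 / ℓ ^ A)) = 24 * D * (n / L) * ℓ ^ A := by
      rw [hD0]
      field_simp
    have e2 : (n : ℝ) / L ≤ 2 / J := by
      rw [div_le_div_iff₀ hL hJ0]
      linarith
    have e3 : (n : ℝ) / L ≤ 2 / ℓ ^ j := by
      refine e2.trans ?_
      exact div_le_div_of_nonneg_left (by norm_num) (by positivity) hJ1
    have e4 : 24 * D * R * n / (P * (D0 / ℓ ^ A)) ≤ 48 / ℓ ^ (A + 2) := by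
      rw [e1]
      calc 24 * D * (n / L) * ℓ ^ A ≤ 24 * ℓ ^ B * (2 / ℓ ^ j) * ℓ ^ A := by
            gcongr
        _ = 48 / ℓ ^ (A + 2) := by
            rw [hj, show 2 * A + B + 2 = B + (A + (A + 2)) by ring, pow_add ℓ B, pow_add ℓ A (A + 2)]
            field_simp
            norm_num
    calc C6 * (24 * D * R * n / (P * (D0 / ℓ ^ A))) * (L ^ 2 * R ^ 2) * (1 + lg)
        ≤ C6 * (48 / ℓ ^ (A + 2)) * (L ^ 2 * R ^ 2) * (4 * ℓ) := by gcongr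
      _ = 192 * C6 * W / ℓ := by
          rw [hW, pow_add]
          field_simp
          ring
      _ ≤ 192 * C6 * W := div_le_self (by positivity) (by linarith)
  have e : (5 * C5 + 192 * C6) * W = 5 * C5 * W + 192 * C6 * W := by ring
  rw [e]
  exact add_le_add t1 t2

/-- the third part -/
theorem numB {M L R P D ℓ C3 C4 W D0 : ℝ} {A B j p q e a J n Q : ℕ}
    (hC3 : 0 < C3) (hC4 : 1 ≤ C4) (hℓ : 100 ≤ ℓ) (hL : 0 < L) (hM : 0 < M) (hR : 0 < R) (hP : 0 < P)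
    (hD0 : D0 = R * L / P) (hW : W = L ^ 2 * R ^ 2 / ℓ ^ A)
    (hsq : Real.sqrt (8 * D0) * ℓ ^ p ≤ L) (hD0M : R ^ 2 * L / M ≤ D0) (hD1 : 1 ≤ D) (hD : D ≤ ℓ ^ B)
    (hp : p = 2 * j + 20 + A) (hq : q = 2 * p) (he : e = 5 * q + B + 5 * A) (ha : a = 5 * q + 2 * A + 4 * e)
    (hJ1 : ℓ ^ j ≤ J) (hJ2 : (J : ℝ) ≤ 2 * ℓ ^ j) (hJn : (J : ℝ) * n ≤ 2 * L)
    (hQ1 : ℓ ^ q ≤ Q) (hQ2 : (Q : ℝ) ≤ 2 * ℓ ^ q) :
    (J : ℝ) ^ 2 * (C3 * (R ^ 2 * (4 * ℓ) ^ 20 * (((J * n : ℕ) : ℝ) ^ 2 / Real.sqrt Q +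
        ((J * n : ℕ) : ℝ) * Real.sqrt (8 * L / (P * R) * R ^ 2)) +
      (Q : ℝ) ^ 5 * (n : ℝ) ^ 2 * (C4 * D * (1 / ℓ ^ e) * D0 ^ 3 /
        (D0 / ℓ ^ A) ^ 4 * R ^ 2 * ((8 * L / (P * R) + L / M / ℓ ^ e) * R ^ 2) +
        1 / (D0 / ℓ ^ A) * (8 * L / (P * R)) * ((L / M) ^ 2 * R ^ 4 / ℓ ^ a) /
        ((L / M / ℓ ^ e) ^ 2 * (1 / ℓ ^ e) ^ 2)))) ≤
    C3 * (24 * 4 ^ 20 + 1152 * C4 + 1024) * W := by
  have hℓ0 : 0 < ℓ := by linarith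
  have hJ0 : (0 : ℝ) < J := lt_of_lt_of_le (by positivity) hJ1
  have hQ0 : (0 : ℝ) < Q := lt_of_lt_of_le (by positivity) hQ1
  have hn0 : (0 : ℝ) ≤ n := Nat.cast_nonneg n
  have hW0 : 0 < W := by rw [hW]; positivity
  have hD0pos : 0 < D0 := by rw [hD0]; positivity
  have hJn0 : 0 ≤ (J : ℝ) * n := by positivity
  have hJn2 : ((J : ℝ) * n) ^ 2 ≤ 4 * L ^ 2 := by nlinarith
  have hJsq : (J : ℝ) ^ 2 ≤ 4 * ℓ ^ (2 * j) := by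
    calc (J : ℝ) ^ 2 ≤ (2 * ℓ ^ j) ^ 2 := pow_le_pow_left₀ hJ0.le hJ2 2
      _ = _ := by rw [mul_pow, ← pow_mul, mul_comm j 2]; norm_num
  have hsQ : ℓ ^ p ≤ Real.sqrt Q := by
    refine Real.le_sqrt_of_sq_le ?_
    rw [← pow_mul, mul_comm p 2, ← hq]
    exact hQ1
  have e6 : 8 * L / (P * R) * R ^ 2 = 8 * D0 := by
    rw [hD0]
    field_simp
  have hcast : ((J * n : ℕ) : ℝ) = (J : ℝ) * n := by push_cast; rfl
  rw [hcast]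
  have t3a : (J : ℝ) ^ 2 * (R ^ 2 * (4 * ℓ) ^ 20 * (((J : ℝ) * n) ^ 2 / Real.sqrt Q)) ≤ 16 * 4 ^ 20 * W := by
    calc (J : ℝ) ^ 2 * (R ^ 2 * (4 * ℓ) ^ 20 * (((J : ℝ) * n) ^ 2 / Real.sqrt Q))
        ≤ (4 * ℓ ^ (2 * j)) * (R ^ 2 * (4 * ℓ) ^ 20 * ((4 * L ^ 2) / ℓ ^ p)) := by gcongr
      _ = 16 * 4 ^ 20 * W := by
          rw [hW, hp, pow_add ℓ (2 * j + 20) A, pow_add ℓ (2 * j) 20, mul_pow]
          field_simp
          ring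
  have t3b : (J : ℝ) ^ 2 * (R ^ 2 * (4 * ℓ) ^ 20 * (((J : ℝ) * n) * Real.sqrt (8 * L / (P * R) * R ^ 2))) ≤
      8 * 4 ^ 20 * W := by
    rw [e6]
    have f1 : Real.sqrt (8 * D0) ≤ L / ℓ ^ p := by
      rw [le_div_iff₀ (by positivity)]
      exact hsq
    calc (J : ℝ) ^ 2 * (R ^ 2 * (4 * ℓ) ^ 20 * (((J : ℝ) * n) * Real.sqrt (8 * D0)))
        ≤ (4 * ℓ ^ (2 * j)) * (R ^ 2 * (4 * ℓ) ^ 20 * ((2 * L) * (L / ℓ ^ p))) := by gcongr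
      _ = 8 * 4 ^ 20 * W := by
          rw [hW, hp, pow_add ℓ (2 * j + 20) A, pow_add ℓ (2 * j) 20, mul_pow]
          field_simp
          ring
  have hQ5 : (Q : ℝ) ^ 5 ≤ 32 * ℓ ^ (5 * q) := by
    calc (Q : ℝ) ^ 5 ≤ (2 * ℓ ^ q) ^ 5 := pow_le_pow_left₀ hQ0.le hQ2 5
      _ = 32 * ℓ ^ (5 * q) := by
          rw [mul_pow, ← pow_mul, mul_comm q 5]
          norm_num
  have t3c : (J : ℝ) ^ 2 * ((Q : ℝ) ^ 5 * (n : ℝ) ^ 2 * (C4 * D * (1 / ℓ ^ e) * D0 ^ 3 /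
        (D0 / ℓ ^ A) ^ 4 * R ^ 2 * ((8 * L / (P * R) + L / M / ℓ ^ e) * R ^ 2))) ≤
      1152 * C4 * W := by
    have g1 : (8 * L / (P * R) + L / M / ℓ ^ e) * R ^ 2 ≤ 9 * D0 := by
      have g2 : L / M / ℓ ^ e * R ^ 2 ≤ D0 := by
        calc L / M / ℓ ^ e * R ^ 2 = (R ^ 2 * L / M) / ℓ ^ e := by ring
          _ ≤ R ^ 2 * L / M := div_le_self (by positivity) (one_le_pow₀ (by linarith))
          _ ≤ D0 := hD0M
      rw [add_mul, e6]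
      linarith
    have g0 : 0 ≤ (8 * L / (P * R) + L / M / ℓ ^ e) * R ^ 2 := by positivity
    have g3 : (J : ℝ) ^ 2 * ((Q : ℝ) ^ 5 * (n : ℝ) ^ 2 * (C4 * D * (1 / ℓ ^ e) * D0 ^ 3 /
        (D0 / ℓ ^ A) ^ 4 * R ^ 2 * ((8 * L / (P * R) + L / M / ℓ ^ e) * R ^ 2))) =
        (J * n) ^ 2 * (Q : ℝ) ^ 5 * (C4 * D * (1 / ℓ ^ e) * (D0 ^ 3 /
        (D0 / ℓ ^ A) ^ 4)) * R ^ 2 * ((8 * L / (P * R) + L / M / ℓ ^ e) * R ^ 2) := by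
      ring
    rw [g3]
    calc (J * n) ^ 2 * (Q : ℝ) ^ 5 * (C4 * D * (1 / ℓ ^ e) * (D0 ^ 3 /
        (D0 / ℓ ^ A) ^ 4)) * R ^ 2 * ((8 * L / (P * R) + L / M / ℓ ^ e) * R ^ 2)
        ≤ (4 * L ^ 2) * (32 * ℓ ^ (5 * q)) * (C4 * ℓ ^ B * (1 / ℓ ^ e) * (D0 ^ 3 /
        (D0 / ℓ ^ A) ^ 4)) * R ^ 2 * (9 * D0) := by gcongr
      _ = 1152 * C4 * W := by
          rw [hW, he, show 5 * q + B + 5 * A = 5 * q + (B + (A + 4 * A)) by ring, pow_add ℓ (5 * q),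
            pow_add ℓ B, pow_add ℓ A, pow_mul' ℓ 4 A, div_pow]
          field_simp
          norm_num
  have t3d : (J : ℝ) ^ 2 * ((Q : ℝ) ^ 5 * (n : ℝ) ^ 2 * (1 / (D0 / ℓ ^ A) * (8 * L / (P * R)) *
        ((L / M) ^ 2 * R ^ 4 / ℓ ^ a) /
        ((L / M / ℓ ^ e) ^ 2 * (1 / ℓ ^ e) ^ 2))) ≤ 1024 * W := by
    have g1 : 1 / (D0 / ℓ ^ A) * (8 * L / (P * R)) *
        ((L / M) ^ 2 * R ^ 4 / ℓ ^ a) /
        ((L / M / ℓ ^ e) ^ 2 * (1 / ℓ ^ e) ^ 2) =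
        8 * R ^ 2 / (ℓ ^ (5 * q) * ℓ ^ A) := by
      rw [hD0, ha, show 5 * q + 2 * A + 4 * e = A + ((5 * q) + (A + e * 4)) by ring,
        pow_add ℓ A, pow_add ℓ (5 * q), pow_add ℓ A, pow_mul ℓ e 4]
      field_simp
    rw [g1]
    have g3 : (J : ℝ) ^ 2 * ((Q : ℝ) ^ 5 * (n : ℝ) ^ 2 * (8 * R ^ 2 / (ℓ ^ (5 * q) * ℓ ^ A))) =
        (J * n) ^ 2 * (Q : ℝ) ^ 5 * (8 * R ^ 2 / (ℓ ^ (5 * q) * ℓ ^ A)) := by ring
    rw [g3]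
    calc (J * n) ^ 2 * (Q : ℝ) ^ 5 * (8 * R ^ 2 / (ℓ ^ (5 * q) * ℓ ^ A))
        ≤ (4 * L ^ 2) * (32 * ℓ ^ (5 * q)) * (8 * R ^ 2 / (ℓ ^ (5 * q) * ℓ ^ A)) := by gcongr
      _ = 1024 * W := by
          rw [hW]
          field_simp
          norm_num
  have key : (J : ℝ) ^ 2 * (C3 * (R ^ 2 * (4 * ℓ) ^ 20 * (((J : ℝ) * n) ^ 2 / Real.sqrt Q +
        ((J : ℝ) * n) * Real.sqrt (8 * L / (P * R) * R ^ 2)) +
      (Q : ℝ) ^ 5 * (n : ℝ) ^ 2 * (C4 * D * (1 / ℓ ^ e) * D0 ^ 3 /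
        (D0 / ℓ ^ A) ^ 4 * R ^ 2 * ((8 * L / (P * R) + L / M / ℓ ^ e) * R ^ 2) +
        1 / (D0 / ℓ ^ A) * (8 * L / (P * R)) * ((L / M) ^ 2 * R ^ 4 / ℓ ^ a) /
        ((L / M / ℓ ^ e) ^ 2 * (1 / ℓ ^ e) ^ 2)))) =
      C3 * ((J : ℝ) ^ 2 * (R ^ 2 * (4 * ℓ) ^ 20 * (((J : ℝ) * n) ^ 2 / Real.sqrt Q)) +
        (J : ℝ) ^ 2 * (R ^ 2 * (4 * ℓ) ^ 20 * (((J : ℝ) * n) * Real.sqrt (8 * L / (P * R) * R ^ 2))) +
        (J : ℝ) ^ 2 * ((Q : ℝ) ^ 5 * (n : ℝ) ^ 2 * (C4 * D * (1 / ℓ ^ e) * D0 ^ 3 /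
        (D0 / ℓ ^ A) ^ 4 * R ^ 2 * ((8 * L / (P * R) + L / M / ℓ ^ e) * R ^ 2))) +
        (J : ℝ) ^ 2 * ((Q : ℝ) ^ 5 * (n : ℝ) ^ 2 * (1 / (D0 / ℓ ^ A) * (8 * L / (P * R)) *
        ((L / M) ^ 2 * R ^ 4 / ℓ ^ a) /
        ((L / M / ℓ ^ e) ^ 2 * (1 / ℓ ^ e) ^ 2)))) := by ring
  rw [key]
  have fin := mul_le_mul_of_nonneg_left (add_le_add (add_le_add (add_le_add t3a t3b) t3c) t3d) hC3.le
  refine fin.trans (le_of_eq ?_)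
  ring

/-- elementary consequences of the hypotheses -/
theorem facts2 {M L R P m ℓ : ℝ} {A B p j : ℕ} (hM : 0 < M) (hL1 : 1 ≤ L) (hR : 0 < R) (hP : 0 < P) (hm1 : 1 ≤ m)
    (hℓ1 : 100 ≤ ℓ) (hLm : L * m ≤ M) (hRL : M * m ≤ R ^ 2 * L) (hR2m : R ^ 2 * m ≤ L * M) (hRP : R * P ≤ M)
    (hMRP : M ≤ R * P * ℓ ^ B) (hjp : j + 1 ≤ p) (hAp : A ≤ p) (hmK : 64 * ℓ ^ (2 * p + B) ≤ m) :
    1 ≤ R ∧ 1 ≤ P ∧ R * L * P ≤ L ^ 2 * R ^ 2 / ℓ ^ A ∧ R ^ 2 * L / M ≤ R * L / P ∧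
      1 ≤ R * L / P ∧ Real.sqrt (8 * (R * L / P)) * ℓ ^ p ≤ L ∧ 8 * L / (P * R) ≤ 1 ∧ 2 * ℓ ^ j ≤ L := by
  have hL : 0 < L := by linarith
  have hm0 : 0 < m := by linarith
  have hℓ0 : 0 < ℓ := by linarith
  have hℓ1' : 1 ≤ ℓ := by linarith
  have hℓB : 0 < ℓ ^ B := by positivity
  have hℓA : 0 < ℓ ^ A := by positivity
  have hmp : ∀ k : ℕ, k ≤ 2 * p + B → 64 * ℓ ^ k ≤ m := fun k hk =>
    le_trans (mul_le_mul_of_nonneg_left (pow_le_pow_right₀ hℓ1' hk) (by norm_num)) hmK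
  have hmA := hmp A (by omega)
  have hmB := hmp B (by omega)
  have hLM : L ≤ M := by nlinarith
  -- `R ≥ 1`
  have hR1 : 1 ≤ R := by
    by_contra hcon
    push Not at hcon
    have : R ^ 2 < 1 := by nlinarith
    nlinarith
  -- `P ≥ 1`
  have hRm : R * m ≤ M := by
    have h1 : (R * m) ^ 2 ≤ M ^ 2 := by
      calc (R * m) ^ 2 = (R ^ 2 * m) * m := by ring
        _ ≤ (L * M) * m := mul_le_mul_of_nonneg_right hR2m hm0.le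
        _ = (L * m) * M := by ring
        _ ≤ M * M := mul_le_mul_of_nonneg_right hLm hM.le
        _ = M ^ 2 := by ring
    exact (abs_le_of_sq_le_sq' h1 hM.le).2
  have hPm : m ≤ P * ℓ ^ B := by
    have h1 : R * m ≤ R * (P * ℓ ^ B) := by
      calc R * m ≤ M := hRm
        _ ≤ R * P * ℓ ^ B := hMRP
        _ = _ := by ring
    exact le_of_mul_le_mul_left h1 hR
  have hP1 : 1 ≤ P := by
    have h1 : 1 * ℓ ^ B ≤ P * ℓ ^ B := by linarith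
    exact le_of_mul_le_mul_right h1 hℓB
  have hD0M : R ^ 2 * L / M ≤ R * L / P := by
    rw [div_le_div_iff₀ hM hP]
    have c1 := mul_le_mul_of_nonneg_left hRP (by positivity : 0 ≤ R * L)
    linarith [show R ^ 2 * L * P = R * L * (R * P) by ring]
  have hmD0 : m ≤ R * L / P := by
    refine le_trans ?_ hD0M
    rw [le_div_iff₀ hM]
    linarith
  have hD0L : R * L / P ≤ L ^ 2 * ℓ ^ B / m := by
    rw [div_le_div_iff₀ hP hm0]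
    -- `R L m ≤ L² ℓ^B P`
    have c1 : R * (R * L * m) ≤ R * (L ^ 2 * ℓ ^ B * P) := by
      calc R * (R * L * m) = L * (R ^ 2 * m) := by ring
        _ ≤ L * (L * M) := mul_le_mul_of_nonneg_left hR2m hL.le
        _ ≤ L * (L * (R * P * ℓ ^ B)) := by
            refine mul_le_mul_of_nonneg_left ?_ hL.le
            exact mul_le_mul_of_nonneg_left hMRP hL.le
        _ = _ := by ring
    exact le_of_mul_le_mul_left c1 hR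
  have hD0sq : 8 * (R * L / P) * (ℓ ^ p) ^ 2 ≤ L ^ 2 := by
    have c1 : 64 * ℓ ^ (2 * p + B) ≤ m := hmK
    have c2 : ℓ ^ (2 * p + B) = (ℓ ^ p) ^ 2 * ℓ ^ B := by
      rw [pow_add, mul_comm 2 p, pow_mul]
    calc 8 * (R * L / P) * (ℓ ^ p) ^ 2 ≤ 8 * (L ^ 2 * ℓ ^ B / m) * (ℓ ^ p) ^ 2 := by gcongr
      _ = L ^ 2 * (8 * ℓ ^ (2 * p + B) / m) := by
          rw [c2]
          ring
      _ ≤ L ^ 2 * 1 := by
          refine mul_le_mul_of_nonneg_left ?_ (by positivity)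
          rw [div_le_one hm0]
          have : 0 < ℓ ^ (2 * p + B) := by positivity
          linarith
      _ = L ^ 2 := mul_one _
  have hsq : Real.sqrt (8 * (R * L / P)) * ℓ ^ p ≤ L := by
    have h1 : (Real.sqrt (8 * (R * L / P)) * ℓ ^ p) ^ 2 ≤ L ^ 2 := by
      rw [mul_pow, Real.sq_sqrt (by positivity)]
      exact hD0sq
    exact (abs_le_of_sq_le_sq' h1 hL.le).2
  have hD01 : 1 ≤ R * L / P := hm1.trans hmD0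
  refine ⟨hR1, hP1, ?_, hD0M, hD01, hsq, ?_, ?_⟩
  · rw [le_div_iff₀ hℓA]
    have c1 : ℓ ^ A ≤ R * L / P := by linarith
    rw [le_div_iff₀ hP] at c1
    calc R * L * P * ℓ ^ A = (R * L) * (ℓ ^ A * P) := by ring
      _ ≤ (R * L) * (R * L) := mul_le_mul_of_nonneg_left c1 (by positivity)
      _ = _ := by ring
  · rw [div_le_one (by positivity)]
    have c2 : 8 * L * ℓ ^ B ≤ P * R * ℓ ^ B := by
      have c3 := mul_le_mul_of_nonneg_left hmB hL.le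
      have c4 : 0 ≤ L * ℓ ^ B := by positivity
      linarith [show P * R * ℓ ^ B = R * P * ℓ ^ B by ring]
    exact le_of_mul_le_mul_right c2 hℓB
  · have c1 : 1 ≤ Real.sqrt (8 * (R * L / P)) := by
      rw [Real.one_le_sqrt]
      linarith
    have c2 : ℓ ^ p ≤ L := by
      have : 1 * ℓ ^ p ≤ Real.sqrt (8 * (R * L / P)) * ℓ ^ p := mul_le_mul_of_nonneg_right c1 (by positivity)
      linarith
    have c3 : ℓ ^ (j + 1) ≤ ℓ ^ p := pow_le_pow_right₀ hℓ1' hjp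
    have c4 : 2 * ℓ ^ j ≤ ℓ ^ (j + 1) := by
      rw [pow_succ]
      have : 0 < ℓ ^ j := by positivity
      nlinarith
    linarith

end Pool.Agent.J6H16.TH
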