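import Pool.Agent.J6H16.TH.Tg3

/-!
# The dispersion for long `w`, the theorem
-/

set_option autoImplicit false

namespace Pool.Agent.J6H16.TH

open Finset
open Pool.Agent.N782.GN
open Pool.Agent.N391.GN (FF MPt xe xe_near xe_nonneg xe_le TT TT_trivial large mb_sum)

/-- (TG2) the dispersion, for `R² ≤ L M^{1-ε}` -/
def S_TG2 : Prop := ∀ (ε : ℝ) (A B : ℕ), 0 < ε → ∃ (A' B' : ℕ) (C : ℝ), 0 < C ∧ ∀ (M L R P D : ℝ) (β : ZI → ℝ)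
  (lam : ℤ → ℝ), 3 ≤ M → 1 ≤ L → L ≤ M ^ (1 - ε) → 0 < R → M ^ (1 + ε) ≤ R ^ 2 * L → R ^ 2 ≤ L * M ^ (1 - ε) →
  M / (Real.log M) ^ B ≤ R * P → R * P ≤ M → 1 ≤ D → D ≤ (Real.log M) ^ B →
  (∀ w, |β w| ≤ 1) → (∀ w, ct w ≠ 1 → β w = 0) → Lm L lam →
  (∀ (q : ℕ) (r : ZI) (Y1 Y2 : ℝ), 1 ≤ q → (q : ℝ) ≤ (Real.log M) ^ B' → 0 ≤ Y1 → Y1 ≤ Y2 → Y2 ≤ 4 * R ^ 2 →
    ∫ x in (0 : ℝ)..(2 * Real.pi), (∑ t ∈ (cls q r Y2).filter (fun t => Y1 < nz t),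
      β t * sc (L / M / (Real.log M) ^ B') x t) ^ 2 ≤ (L / M) ^ 2 * R ^ 4 / (Real.log M) ^ A') →
  ∑ v ∈ bl (9 * P ^ 2), Phi (Real.sqrt (nz v) / P) * (∑ w ∈ (bl (4 * R ^ 2)).filter (fun w => R ^ 2 < nz w),
    β w * lam (w * v).re * psi D (Real.sqrt (nz (w * v)) / M)) ^ 2 ≤ C * L ^ 2 * R ^ 2 / (Real.log M) ^ A

/-- the case of large `M` -/
theorem large_case2 (h1 : S_CHR) {C1 C3 C4 : ℝ} (hC1 : 0 < C1) (hC3 : 0 < C3) (hC4 : 1 ≤ C4)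
    {A B j p q e a : ℕ} (hj : j = 2 * A + B + 2) (hp : p = 2 * j + 20 + A) (hq : q = 2 * p)
    (he : e = 5 * q + B + 5 * A) (ha : a = 5 * q + 2 * A + 4 * e)
    {M L R P D m ℓ : ℝ} {β : ZI → ℝ} {lam : ℤ → ℝ}
    (hc1 : 1 ≤ R → ((cw R).card : ℝ) ≤ C1 * R ^ 2)
    (hc2 : 1 ≤ R → ∀ w ∈ cw R, ∀ D : ℤ, (((cw R).filter (fun w2 => dl w w2 = D)).card : ℝ) ≤ C1)
    (hc3 : 1 ≤ R → R ≤ P → ∀ w ∈ cw R, (((bl (9 * P ^ 2)).filter
      (fun v => 1 ≤ (w * v).re ∧ (((w * v).re : ℤ) : ℝ) ≤ L)).card : ℝ) ≤ C1 * L * P / R)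
    (hbil : 1 ≤ R → ∀ (s δ η E κ₁ D1 x y : ℝ) (Q n N : ℕ) (x1 x2 : ℤ), 0 < s → s ≤ 1 → 1 ≤ s * R ^ 2 → 0 < δ →
      0 < η → η ≤ 1 / 100 → δ ≤ η → 0 ≤ E → 1 ≤ Q → 1 ≤ n → R ^ 2 * δ ≤ η * (R * L / P) → 0 < D1 →
      D1 ≤ R * L / P → 0 ≤ x → x ≤ L → 0 ≤ y → y ≤ L → s = 8 * L / (P * R) → δ = L / M / ℓ ^ e →
      E = (L / M) ^ 2 * R ^ 4 / ℓ ^ a → (Q : ℝ) ≤ ℓ ^ e →
      κ₁ = C4 * D * η * (R * L / P) ^ 3 / D1 ^ 4 → 0 ≤ x1 → x1 + n ≤ N → 0 ≤ x2 → x2 + n ≤ N →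
      1 + Real.log (s * R ^ 2) ≤ 4 * ℓ → 1 + Real.log N ≤ 4 * ℓ →
      |∑ w1 ∈ cw R, ∑ w2 ∈ cw R, β w1 * β w2 * (|(dl w1 w2 : ℝ)| * Kf D M P D1 x y w1 w2) *
        A2 lam (Ioc x1 (x1 + n)) (Ioc x2 (x2 + n)) w1 w2| ≤
      C3 * (R ^ 2 * (4 * ℓ) ^ 20 * ((N : ℝ) ^ 2 / Real.sqrt Q + N * Real.sqrt (s * R ^ 2)) +
        (Q : ℝ) ^ 5 * (n : ℝ) ^ 2 * (κ₁ * R ^ 2 * ((s + δ) * R ^ 2) + 1 / D1 * s * E / (δ ^ 2 * η ^ 2))))
    (hM : 0 < M) (hL1 : 1 ≤ L) (hR : 0 < R) (hP : 0 < P) (hm1 : 1 ≤ m)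
    (hℓ1 : 100 ≤ ℓ) (hLm : L * m ≤ M) (hRL : M * m ≤ R ^ 2 * L) (hR2m : R ^ 2 * m ≤ L * M) (hRP : R * P ≤ M)
    (hMRP : M ≤ R * P * ℓ ^ B) (hmK : 64 * ℓ ^ (2 * p + B) ≤ m) (hlogM : Real.log M ≤ ℓ)
    (hD1 : 1 ≤ D) (hD : D ≤ ℓ ^ B)
    (hβ : ∀ w, |β w| ≤ 1) (hβ1 : ∀ w, ct w ≠ 1 → β w = 0) (hlam : Lm L lam) :
    TT M R P D β lam ≤ ((5 * (C1 ^ 3 + 2673 * C1) + 192 * (18 * C1 ^ 2 + 88209)) +
      C3 * (24 * 4 ^ 20 + 1152 * C4 + 1024)) * (L ^ 2 * R ^ 2 / ℓ ^ A) := by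
  have hL : 0 < L := by linarith
  have hm0 : 0 < m := by linarith
  have hℓ0 : 0 < ℓ := by linarith
  have hℓ1' : 1 ≤ ℓ := by linarith
  have pw : ∀ a b : ℕ, a ≤ b → ℓ ^ a ≤ ℓ ^ b := fun a b h => pow_le_pow_right₀ hℓ1' h
  obtain ⟨hR1, hP1, hRLP, hD0M, hD0ge, hsq, hs1, hJL0⟩ := facts2 (A := A) (B := B) (p := p) (j := j) hM hL1 hR hP hm1 hℓ1
    hLm hRL hR2m hRP hMRP (by omega) (by omega) hmK
  have hℓB : 0 < ℓ ^ B := by positivity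
  have hℓA : 0 < ℓ ^ A := by positivity
  have hD0pos : 0 < R * L / P := by linarith
  have h81 : 1 ≤ 8 * (R * L / P) := by linarith
  have hJpos : 0 < ℓ ^ j := by positivity
  obtain ⟨J, hJ1, hJ2⟩ : ∃ J : ℕ, ℓ ^ j ≤ J ∧ (J : ℝ) ≤ 2 * ℓ ^ j := by
    refine ⟨⌈ℓ ^ j⌉₊, Nat.le_ceil _, ?_⟩
    have c1 := (Nat.ceil_lt_add_one hJpos.le).le
    have c2 : 1 ≤ ℓ ^ j := one_le_pow₀ hℓ1'
    linarith
  have hJ0 : (0 : ℝ) < J := hJpos.trans_le hJ1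
  have hJL : (J : ℝ) ≤ L := hJ2.trans hJL0
  have hLJ : 1 ≤ L / J := (one_le_div hJ0).2 hJL
  obtain ⟨n, hn0, hn1, hn2⟩ : ∃ n : ℕ, 1 ≤ n ∧ (n : ℝ) ≤ 2 * (L / J) ∧ L / J ≤ n := by
    refine ⟨⌊L / J⌋₊ + 1, by omega, ?_, ?_⟩
    · push_cast
      have := Nat.floor_le (by positivity : 0 ≤ L / J)
      linarith
    · push_cast
      exact (Nat.lt_floor_add_one _).le
  have hJn : (J : ℝ) * n ≤ 2 * L := by
    have := mul_le_mul_of_nonneg_left hn1 hJ0.le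
    have e : (J : ℝ) * (2 * (L / J)) = 2 * L := by field_simp
    linarith
  have hJnL : L ≤ ((J * n : ℕ) : ℝ) := by
    push_cast
    have := mul_le_mul_of_nonneg_left hn2 hJ0.le
    have e : (J : ℝ) * (L / J) = L := by field_simp
    linarith
  have hQpos : 1 ≤ ℓ ^ q := one_le_pow₀ hℓ1'
  obtain ⟨Q, hQ1', hQ2, hQ1⟩ : ∃ Q : ℕ, 1 ≤ Q ∧ (Q : ℝ) ≤ 2 * ℓ ^ q ∧ ℓ ^ q ≤ Q := by
    refine ⟨⌈ℓ ^ q⌉₊, Nat.one_le_ceil_iff.2 (by linarith), ?_, Nat.le_ceil _⟩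
    have c1 := (Nat.ceil_lt_add_one (by linarith : 0 ≤ ℓ ^ q)).le
    linarith
  have hQe : (Q : ℝ) ≤ ℓ ^ e := by
    have c1 : ℓ ^ (q + 1) ≤ ℓ ^ e := pw _ _ (by omega)
    have c2 : 2 * ℓ ^ q ≤ ℓ ^ (q + 1) := by
      rw [pow_succ]
      have h9 := mul_le_mul_of_nonneg_left (show (2 : ℝ) ≤ ℓ by linarith) (show 0 ≤ ℓ ^ q by positivity)
      linarith
    linarith
  have hsR : 8 * L / (P * R) * R ^ 2 = 8 * (R * L / P) := by field_simp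
  have hLM1 : L / M ≤ 1 := by
    rw [div_le_one hM]
    have := mul_le_mul_of_nonneg_left hm1 hL.le
    linarith
  have hLM : L ≤ M := by
    rw [div_le_one hM] at hLM1
    exact hLM1
  have hM1 : 1 ≤ M := by linarith
  have hlgM : 0 ≤ Real.log M := Real.log_nonneg hM1
  have hlg0 : 0 ≤ 1 + Real.log (8 * (R * L / P)) := by
    have := Real.log_nonneg h81
    linarith
  have hlg : 1 + Real.log (8 * (R * L / P)) ≤ 4 * ℓ := by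
    have c0 : Real.sqrt (8 * (R * L / P)) ≤ M := by
      have c1 : 1 ≤ ℓ ^ p := one_le_pow₀ hℓ1'
      have c2 := Real.sqrt_nonneg (8 * (R * L / P))
      have h9 := mul_le_mul_of_nonneg_left c1 c2
      linarith
    have c1 : 8 * (R * L / P) ≤ M ^ 2 := by
      have := Real.sq_sqrt (by linarith : 0 ≤ 8 * (R * L / P))
      rw [← this]
      exact pow_le_pow_left₀ (Real.sqrt_nonneg _) c0 2
    have c2 := Real.log_le_log (by linarith) c1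
    rw [Real.log_pow] at c2
    push_cast at c2
    linarith
  have hlgN : 1 + Real.log ((J * n : ℕ) : ℝ) ≤ 4 * ℓ := by
    have c1 : ((J * n : ℕ) : ℝ) ≤ 2 * M := by
      push_cast
      linarith
    have c2 : (0 : ℝ) < ((J * n : ℕ) : ℝ) := lt_of_lt_of_le hL hJnL
    have c3 := Real.log_le_log c2 c1
    rw [Real.log_mul (by norm_num) hM.ne'] at c3
    have c4 : Real.log 2 < 1 := by
      have := Real.log_two_lt_d9
      linarith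
    linarith
  have hη1 : 1 / ℓ ^ e ≤ 1 / 100 := by
    refine one_div_le_one_div_of_le (by norm_num) ?_
    have : ℓ ^ 1 ≤ ℓ ^ e := pw _ _ (by omega)
    rw [pow_one] at this
    linarith
  have hη0 : 0 < 1 / ℓ ^ e := by positivity
  have hδη : L / M / ℓ ^ e ≤ 1 / ℓ ^ e :=
    div_le_div_of_nonneg_right hLM1 (by positivity)
  have hRδ : R ^ 2 * (L / M / ℓ ^ e) ≤ 1 / ℓ ^ e * (R * L / P) := by
    have e' : R ^ 2 * (L / M / ℓ ^ e) =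
        1 / ℓ ^ e * (R ^ 2 * L / M) := by ring
    rw [e']
    exact mul_le_mul_of_nonneg_left hD0M hη0.le
  have hD1D0 : R * L / P / ℓ ^ A ≤ R * L / P := div_le_self hD0pos.le (one_le_pow₀ hℓ1')
  have hD1pos : 0 < R * L / P / ℓ ^ A := by positivity
  have hx1 : ∀ i ∈ range J, (((i * n : ℕ) : ℤ) + n) ≤ ((J * n : ℕ) : ℤ) := by
    intro i hi
    rw [mem_range] at hi
    have : (i + 1) * n ≤ J * n := Nat.mul_le_mul_right n hi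
    have h2 : (((i + 1) * n : ℕ) : ℤ) ≤ ((J * n : ℕ) : ℤ) := by exact_mod_cast this
    push_cast at h2 ⊢
    linarith
  have hX : ∀ i ∈ range J, ∀ k ∈ range J, |∑ w1 ∈ cw R, ∑ w2 ∈ cw R, β w1 * β w2 *
      (|(dl w1 w2 : ℝ)| * Kf D M P (R * L / P / ℓ ^ A) (xe L n i) (xe L n k) w1 w2) *
      A2 lam (Ioc ((i * n : ℕ) : ℤ) ((i * n : ℕ) + n)) (Ioc ((k * n : ℕ) : ℤ) ((k * n : ℕ) + n)) w1 w2| ≤ _ :=
    fun i hi k hk => hbil hR1 (8 * L / (P * R)) (L / M / ℓ ^ e) (1 / ℓ ^ e)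
      ((L / M) ^ 2 * R ^ 4 / ℓ ^ a) _ (R * L / P / ℓ ^ A) (xe L n i) (xe L n k) Q n (J * n)
      ((i * n : ℕ) : ℤ) ((k * n : ℕ) : ℤ) (by positivity) hs1 (by rw [hsR]; exact h81) (by positivity)
      hη0 hη1 hδη (by positivity) hQ1' hn0 hRδ hD1pos hD1D0 (xe_nonneg hL.le n i) (xe_le L n i)
      (xe_nonneg hL.le n k) (xe_le L n k) rfl rfl rfl hQe rfl (by positivity) (hx1 i hi) (by positivity) (hx1 k hk)
      (by rw [hsR]; exact hlg) hlgN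
  have hn16 : 16 * (R * n) ≤ R * L / P / ℓ ^ A * P := by
    have c1 : R * L / P / ℓ ^ A * P = R * (L / ℓ ^ A) := by field_simp
    rw [c1]
    have c2 : 16 * (n : ℝ) ≤ L / ℓ ^ A := by
      rw [le_div_iff₀ hℓA]
      have c3 : (n : ℝ) ≤ 2 * (L / ℓ ^ j) := by
        refine hn1.trans ?_
        have : L / J ≤ L / ℓ ^ j := div_le_div_of_nonneg_left hL.le hJpos hJ1
        linarith
      have c4 : 32 * ℓ ^ A ≤ ℓ ^ j := by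
        have d1 : ℓ ^ (A + 1) ≤ ℓ ^ j := pw _ _ (by omega)
        have d2 : 32 * ℓ ^ A ≤ ℓ ^ (A + 1) := by
          rw [pow_succ]
          have h9 := mul_le_mul_of_nonneg_left (show (32 : ℝ) ≤ ℓ by linarith) hℓA.le
          linarith
        linarith
      calc 16 * (n : ℝ) * ℓ ^ A ≤ 16 * (2 * (L / ℓ ^ j)) * ℓ ^ A := by gcongr
        _ = L * (32 * ℓ ^ A / ℓ ^ j) := by ring
        _ ≤ L * 1 := by
            refine mul_le_mul_of_nonneg_left ?_ hL.le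
            rw [div_le_one hJpos]
            exact c4
        _ = L := mul_one L
    have h9 := mul_le_mul_of_nonneg_left c2 hR.le
    linarith
  have hcore := core2 (D := D) (M := M) h1 hC1.le hD1pos hR1 hM hP1 hL1 hD1 hRP h81 (hc1 hR1) (hc2 hR1)
    (hc3 hR1) hβ hβ1 hlam J n hJnL hn16 hX
  have hnumA := numA (L := L) (R := R) (P := P) (D := D) (ℓ := ℓ) (C5 := C1 ^ 3 + 2673 * C1) (C6 := 18 * C1 ^ 2 + 88209)
    (lg := Real.log (8 * (R * L / P))) (W := L ^ 2 * R ^ 2 / ℓ ^ A) (D0 := R * L / P) (A := A) (B := B) (j := j) (J := J) (n := n)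
    (by positivity) (by positivity) hℓ1 hL hR hP rfl rfl hRLP hD1 hD hj hJ1 hJn hlg0 hlg
  have hnumB := numB (M := M) (L := L) (R := R) (P := P) (D := D) (ℓ := ℓ) (C3 := C3) (C4 := C4)
    (W := L ^ 2 * R ^ 2 / ℓ ^ A) (D0 := R * L / P) (A := A) (B := B) (j := j) (p := p) (q := q) (e := e) (a := a)
    (J := J) (n := n) (Q := Q) hC3 hC4 hℓ1 hL hM hR hP rfl rfl hsq hD0M hD1 hD hp hq he ha hJ1 hJ2 hJn hQ1 hQ2
  refine hcore.trans ?_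
  exact (add_le_add hnumA hnumB).trans (le_of_eq (add_mul _ _ _).symm)

open Classical in
theorem tg2 (h1 : S_CHR) (h2 : S_CNT) (h3 : S_BIL2) (h4 : S_LIP) : S_TG2 := by
  intro ε A B hε
  obtain ⟨C1, hC1, hcnt⟩ := h2
  obtain ⟨C3, hC3, hbil⟩ := h3
  obtain ⟨C4, hC4, hlip⟩ := h4
  obtain ⟨j, hj⟩ : ∃ j : ℕ, j = 2 * A + B + 2 := ⟨_, rfl⟩
  obtain ⟨p, hp⟩ : ∃ p : ℕ, p = 2 * j + 20 + A := ⟨_, rfl⟩
  obtain ⟨q, hq⟩ : ∃ q : ℕ, q = 2 * p := ⟨_, rfl⟩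
  obtain ⟨e, he⟩ : ∃ e : ℕ, e = 5 * q + B + 5 * A := ⟨_, rfl⟩
  obtain ⟨a, ha⟩ : ∃ a : ℕ, a = 5 * q + 2 * A + 4 * e := ⟨_, rfl⟩
  obtain ⟨M0, hM03, hlarge⟩ := large ε hε (2 * p + B)
  obtain ⟨N1, hN1⟩ : ∃ N1 : ℝ, N1 = ((bl (9 * M0 ^ 4)).card : ℝ) := ⟨_, rfl⟩
  obtain ⟨N2, hN2⟩ : ∃ N2 : ℝ, N2 = ((bl (4 * M0 ^ 2)).card : ℝ) := ⟨_, rfl⟩
  obtain ⟨CL, hCL⟩ : ∃ CL : ℝ, CL = (5 * (C1 ^ 3 + 2673 * C1) + 192 * (18 * C1 ^ 2 + 88209)) +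
      C3 * (24 * 4 ^ 20 + 1152 * C4 + 1024) := ⟨_, rfl⟩
  have hN10 : 0 ≤ N1 := by rw [hN1]; positivity
  have hN20 : 0 ≤ N2 := by rw [hN2]; positivity
  have hCL0 : 0 < CL := by rw [hCL]; positivity
  have hlogM0 : 0 ≤ Real.log M0 := Real.log_nonneg (by linarith)
  refine ⟨a, e, CL + N1 * N2 ^ 2 * Real.log M0 ^ A, by positivity, ?_⟩
  intro M L R P D β lam hM3 hL1 hLM hR hMR hR2 hRPl hRP hD1 hD hβ hβ1 hlam hMB
  change TT M R P D β lam ≤ _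
  have hM : 0 < M := by linarith
  have hL : 0 < L := by linarith
  have hm1 : 1 ≤ M ^ ε := Real.one_le_rpow (by linarith) hε.le
  have hm0 : 0 < M ^ ε := by linarith
  have hMsub : M ^ (1 - ε) = M / M ^ ε := by
    rw [Real.rpow_sub hM, Real.rpow_one]
  rw [hMsub] at hLM hR2
  have hMadd : M ^ (1 + ε) = M * M ^ ε := by
    rw [Real.rpow_add hM, Real.rpow_one]
  rw [hMadd] at hMR
  have hℓ1 : 1 ≤ Real.log M := by
    rw [Real.le_log_iff_exp_le hM]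
    have := Real.exp_one_lt_d9
    linarith
  have hLm : L * M ^ ε ≤ M := (le_div_iff₀ hm0).1 hLM
  have hLM' : L ≤ M := (le_mul_of_one_le_right (by linarith) hm1).trans hLm
  have hP : 0 < P := by
    have h0 : 0 < R * P := lt_of_lt_of_le (by positivity) hRPl
    exact (pos_iff_pos_of_mul_pos h0).1 hR
  have hR2m : R ^ 2 * M ^ ε ≤ L * M := by
    have : R ^ 2 ≤ (L * M) / M ^ ε := by
      refine hR2.trans (le_of_eq ?_)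
      ring
    exact (le_div_iff₀ hm0).1 this
  have hR1 : 1 ≤ R := by
    by_contra hcon
    push Not at hcon
    have h5 : R ^ 2 < 1 := by nlinarith
    have h6 : M * 1 ≤ M * M ^ ε := mul_le_mul_of_nonneg_left hm1 hM.le
    nlinarith
  rcases lt_or_ge M M0 with hsmall | hbig
  · -- bounded `M`
    have hRM : R ^ 2 ≤ M0 ^ 2 := by
      have c1 : R ^ 2 * 1 ≤ R ^ 2 * M ^ ε := mul_le_mul_of_nonneg_left hm1 (sq_nonneg R)
      have c2 : L * M ≤ M0 * M0 := mul_le_mul (by linarith) (by linarith) (by linarith) (by linarith)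
      linarith
    have a1 : P ≤ M0 := by
      have := mul_le_mul_of_nonneg_right hR1 hP.le
      linarith
    have a2 : 9 * P ^ 2 ≤ 9 * M0 ^ 4 := by
      have b1 := pow_le_pow_left₀ hP.le a1 2
      have b2 : M0 ^ 2 ≤ M0 ^ 4 := pow_le_pow_right₀ (by linarith) (by norm_num)
      linarith
    have a3 : 4 * R ^ 2 ≤ 4 * M0 ^ 2 := by linarith
    have a4 := TT_trivial (M := M) (D := D) hβ hlam.1 (9 * M0 ^ 4) (4 * M0 ^ 2) a2 a3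
    rw [← hN1, ← hN2] at a4
    refine a4.trans ?_
    have a5 : Real.log M ^ A ≤ Real.log M0 ^ A :=
      pow_le_pow_left₀ (by linarith) (Real.log_le_log hM hsmall.le) A
    have a6 : 1 ≤ L ^ 2 * R ^ 2 := one_le_mul_of_one_le_of_one_le (one_le_pow₀ hL1) (one_le_pow₀ hR1)
    have hℓA : 0 < Real.log M ^ A := by positivity
    rw [mul_assoc _ (L ^ 2), le_div_iff₀ hℓA]
    have b1 : N1 * N2 ^ 2 * Real.log M ^ A ≤ N1 * N2 ^ 2 * Real.log M0 ^ A :=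
      mul_le_mul_of_nonneg_left a5 (by positivity)
    have b3 : (CL + N1 * N2 ^ 2 * Real.log M0 ^ A) * 1 ≤
        (CL + N1 * N2 ^ 2 * Real.log M0 ^ A) * (L ^ 2 * R ^ 2) :=
      mul_le_mul_of_nonneg_left a6 (by positivity)
    linarith
  · -- large `M`
    obtain ⟨hℓ100, hmK⟩ := hlarge M hbig
    have hℓB : 0 < Real.log M ^ B := by positivity
    have hfin := large_case2 (m := M ^ ε) (ℓ := Real.log M) (A := A) (B := B) (D := D) (P := P) (L := L)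
      h1 hC1 hC3 hC4 hj hp hq he ha (fun h => (hcnt R h).1) (fun h => (hcnt R h).2.1)
      (fun h h' w hw => (hcnt R h).2.2 w hw P L h' hL1) ?_ hM hL1 hR hP hm1 hℓ100
      hLm hMR hR2m hRP ((div_le_iff₀ hℓB).1 hRPl) hmK le_rfl hD1 hD hβ hβ1 hlam
    · refine hfin.trans ?_
      have e' : (CL + N1 * N2 ^ 2 * Real.log M0 ^ A) * L ^ 2 * R ^ 2 / Real.log M ^ A =
          (CL + N1 * N2 ^ 2 * Real.log M0 ^ A) * (L ^ 2 * R ^ 2 / Real.log M ^ A) := by ring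
      rw [← hCL, e']
      have h5 : (0 : ℝ) ≤ L ^ 2 * R ^ 2 / Real.log M ^ A := by positivity
      refine mul_le_mul_of_nonneg_right ?_ h5
      have : 0 ≤ N1 * N2 ^ 2 * Real.log M0 ^ A := by positivity
      linarith
    · intro hR1 s δ η E κ₁ D1 x y Q n N x1 x2 hs0 hs1 hsR hδ0 hη0 hη1 hδη hE0 hQ hn hRδ hD10 hD1D0 hx0 hxL hy0 hyL
        hs hδ hE hQl hκ hx1 hx1N hx2 hx2N hlg1 hlg2
      obtain ⟨g1, g2⟩ := hlip D M P D1 x y R L δ η hD1 hR1 hP hL hD10 hRP hD1D0 hx0 hxL hy0 hyL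
        hη0 hη1 hδ0 hδη hRδ
      rw [← hs, ← hκ] at g1
      have hκ0 : 0 ≤ κ₁ := by
        rw [hκ]
        have : 0 < D := by linarith
        positivity
      refine hbil R (1 / D1) κ₁ s δ η E (4 * Real.log M) Q n N x1 x2 (Kf D M P D1 x y) β lam hR1 hs0 hs1 hsR
        hδ0 (hδη.trans hη1) hη0 hη1 (by positivity) hκ0 hE0 hQ hn hx1 hx1N hx2 hx2N hlg1 hlg2 g1 g2 hβ hlam.1 ?_
      intro q' r Y1 Y2 hq' hqQ hY1 hY12 hY2
      have c1 : (q' : ℝ) ≤ Real.log M ^ e := by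
        have c2 : (q' : ℝ) ≤ Q := by exact_mod_cast hqQ
        exact c2.trans hQl
      have c3 := hMB q' r Y1 Y2 hq' c1 (le_trans (sq_nonneg R) hY1) hY12 hY2
      rw [← hδ, ← hE] at c3
      refine le_trans (le_of_eq ?_) c3
      refine intervalIntegral.integral_congr fun z _ => ?_
      exact congrArg (fun y : ℝ => y ^ 2) (mb_sum hβ1 q' r Y1 Y2 hY1 hY2 (sc δ z))

end Pool.Agent.J6H16.TH
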