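import Pool.Agent.J6H16.TH.Tg4
import Pool.Agent.N868.GN.TAll

/-!
# The dispersion for the Moebius function, for long `w`
-/

set_option autoImplicit false

namespace Pool.Agent.J6H16.TH

open Finset Pool.Agent.N782.GN Filter Topology
open Pool.Agent.N868.GN (bl_mono abs_be_le be_zero Phi_bd psi_bd ev_pow ev_rpow)

/-- (T2) the dispersion for the Moebius function, for `R² ≤ L M^{1-ε}` -/
def S_T2 : Prop := ∀ (ε : ℝ) (A B : ℕ), 0 < ε → ∃ C : ℝ, 0 < C ∧ ∀ (M L R P D : ℝ) (g : ℕ)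
  (lam : ℤ → ℝ), 3 ≤ M → 1 ≤ L → L ≤ M ^ (1 - ε) → M / L * M ^ ε ≤ R → R ^ 2 ≤ L * M ^ (1 - ε) →
  M / (Real.log M) ^ B ≤ R * P → R * P ≤ M → 1 ≤ D → D ≤ (Real.log M) ^ B → 1 ≤ g → (g : ℝ) ≤ (Real.log M) ^ B →
  Lm L lam →
  ∑ v ∈ bl (9 * P ^ 2), Phi (Real.sqrt (nz v) / P) * (∑ w ∈ (bl (4 * R ^ 2)).filter (fun w => R ^ 2 < nz w),
    be g w * lam (w * v).re * psi D (Real.sqrt (nz (w * v)) / M)) ^ 2 ≤ C * L ^ 2 * R ^ 2 / (Real.log M) ^ A

theorem t_all2 (h1 : S_TG2) (h2 : S_MB) : S_T2 := by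
  classical
  intro ε A B hε
  obtain ⟨A', B', C1, hC1, hTG⟩ := h1 ε A B hε
  obtain ⟨C2, hC2, hMB⟩ := h2 (ε / 4) (A' + 2 * B' + 2) (B + B' + 1) (by positivity)
  have hev : ∀ᶠ M : ℝ in atTop, Real.log M ^ B' ≤ M ^ (ε / 2) ∧
      1 ≤ (4 * ε) ^ (B + B' + 1) * Real.log M ^ (B + 1) ∧
      1 ≤ (4 * ε) ^ (B + B' + 1) * Real.log M ^ (B' + 1) ∧
      16 * C2 ≤ (4 * ε) ^ (A' + 2 * B' + 2) * Real.log M ^ (4 * B' + 1 + 1) := by
    filter_upwards [ev_rpow (ε / 2) (by positivity) B',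
      ev_pow ((4 * ε) ^ (B + B' + 1)) 1 (by positivity) B,
      ev_pow ((4 * ε) ^ (B + B' + 1)) 1 (by positivity) B',
      ev_pow ((4 * ε) ^ (A' + 2 * B' + 2)) (16 * C2) (by positivity) (4 * B' + 1)]
      with M a b c d
    exact ⟨a, b, c, d⟩
  obtain ⟨M1, hM1⟩ := eventually_atTop.1 hev
  obtain ⟨M0, hM0⟩ : ∃ M0, M0 = max M1 3 := ⟨_, rfl⟩
  have hM03 : 3 ≤ M0 := by rw [hM0]; exact le_max_right _ _
  obtain ⟨K1, hK1⟩ : ∃ K1 : ℝ, K1 = ((bl (9 * M0 ^ 2)).card : ℝ) := ⟨_, rfl⟩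
  obtain ⟨K2, hK2⟩ : ∃ K2 : ℝ, K2 = ((bl (4 * M0 ^ 2)).card : ℝ) := ⟨_, rfl⟩
  have hK10 : 0 ≤ K1 := by rw [hK1]; positivity
  have hK20 : 0 ≤ K2 := by rw [hK2]; positivity
  refine ⟨C1 + K1 * K2 ^ 2 * Real.log M0 ^ A, ?_, ?_⟩
  · have : 0 ≤ Real.log M0 := Real.log_nonneg (by linarith)
    positivity
  intro M L R P D g lam hM3 hL1 hLM hR1 hR2 hRP1 hRP2 hD1 hD2 hg1 hg2 hlam
  have hM0' : 0 < M := by linarith
  have hlog : 1 ≤ Real.log M := by
    rw [Real.le_log_iff_exp_le hM0']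
    have := Real.exp_one_lt_d9
    linarith
  have hL0 : 0 < L := by linarith
  -- lower bound for `R`
  have hML : M ^ ε ≤ M / L := by
    rw [le_div_iff₀ hL0]
    calc M ^ ε * L ≤ M ^ ε * M ^ (1 - ε) := by gcongr
      _ = M := by rw [← Real.rpow_add hM0']; simp
  have hRlow : M ^ (2 * ε) ≤ R := by
    refine le_trans ?_ hR1
    calc M ^ (2 * ε) = M ^ ε * M ^ ε := by rw [← Real.rpow_add hM0']; ring_nf
      _ ≤ M / L * M ^ ε := by gcongr
  have hR1' : 1 ≤ R := le_trans (Real.one_le_rpow (by linarith) (by positivity)) hRlow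
  have hR0 : 0 < R := by linarith
  have hR22 : R ^ 2 ≤ M ^ (2 - 2 * ε) := by
    refine hR2.trans ?_
    calc L * M ^ (1 - ε) ≤ M ^ (1 - ε) * M ^ (1 - ε) := by gcongr
      _ = M ^ (2 - 2 * ε) := by rw [← Real.rpow_add hM0']; ring_nf
  have hε5 : ε ≤ 1 / 3 := by
    have h3 : M ^ (4 * ε) ≤ M ^ (2 - 2 * ε) := by
      calc M ^ (4 * ε) = (M ^ (2 * ε)) ^ 2 := by
            rw [← Real.rpow_natCast, ← Real.rpow_mul hM0'.le]; norm_num; ring_nf
        _ ≤ R ^ 2 := by gcongr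
        _ ≤ _ := hR22
    have h4 := (Real.rpow_le_rpow_left_iff (by linarith : 1 < M)).1 h3
    linarith
  have hR2' : R ^ 2 ≤ M ^ 2 := by
    refine hR22.trans ?_
    calc M ^ (2 - 2 * ε) ≤ M ^ (2:ℝ) := Real.rpow_le_rpow_of_exponent_le (by linarith) (by linarith)
      _ = M ^ 2 := by norm_num
  have hRM : R ≤ M := (abs_le_of_sq_le_sq' hR2' hM0'.le).2
  have hRL2 : M ^ (1 + ε) ≤ R ^ 2 * L := by
    have h3 : M * M ^ ε ≤ R * L := by
      have h4 : M / L * M ^ ε * L ≤ R * L := mul_le_mul_of_nonneg_right hR1 hL0.le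
      have h5 : M / L * M ^ ε * L = M * M ^ ε := by field_simp
      linarith
    calc M ^ (1 + ε) = M * M ^ ε := by rw [Real.rpow_add hM0', Real.rpow_one]
      _ ≤ R * L := h3
      _ = 1 * (R * L) := (one_mul _).symm
      _ ≤ R * (R * L) := mul_le_mul_of_nonneg_right hR1' (by positivity)
      _ = R ^ 2 * L := by ring
  have hP0 : 0 < P := by
    have : 0 < R * P := lt_of_lt_of_le (by positivity) hRP1
    exact (pos_iff_pos_of_mul_pos this).1 hR0
  have hPM : P ≤ M := by nlinarith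
  have hnn : 0 ≤ L ^ 2 * R ^ 2 / Real.log M ^ A := by positivity
  rcases le_or_gt M0 M with hbig | hsmall
  · -- large `M`
    obtain ⟨c1, c2, c3, c4⟩ := hM1 M ((le_max_left _ _).trans (hM0 ▸ hbig))
    have hV : Real.log M * (4 * ε) ≤ Real.log (4 * R ^ 2) := by
      have h3 : M ^ (4 * ε) ≤ 4 * R ^ 2 := by
        calc M ^ (4 * ε) = (M ^ (2 * ε)) ^ 2 := by
              rw [← Real.rpow_natCast, ← Real.rpow_mul hM0'.le]; norm_num; ring_nf
          _ ≤ R ^ 2 := by gcongr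
          _ ≤ 4 * R ^ 2 := by nlinarith
      have h4 := Real.log_le_log (by positivity) h3
      rw [Real.log_rpow hM0'] at h4
      linarith
    have hx0 : 0 < Real.log M * (4 * ε) := by positivity
    have key := hTG M L R P D (be g) lam hM3 hL1 hLM hR0 hRL2 hR2 hRP1 hRP2 hD1 hD2 (abs_be_le g)
      (be_zero g) hlam (by
        intro q r Y1 Y2 hq1 hq2 hY1 hY2 hY3
        have b1 : (4 * R ^ 2) ^ (-(1 / 2) + ε / 4 : ℝ) ≤ L / M / Real.log M ^ B' := by
          rw [le_div_iff₀ (by positivity)]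
          have e1 : (4 * R ^ 2) ^ (-(1 / 2) + ε / 4 : ℝ) ≤ R ^ (-1 + ε / 2) := by
            calc (4 * R ^ 2) ^ (-(1 / 2) + ε / 4 : ℝ) ≤ (R ^ 2) ^ (-(1 / 2) + ε / 4 : ℝ) := by
                  apply Real.rpow_le_rpow_of_nonpos (by positivity) (by nlinarith) (by linarith)
              _ = R ^ (-1 + ε / 2) := by
                  rw [← Real.rpow_natCast, ← Real.rpow_mul hR0.le]
                  congr 1; push_cast; ring
          have e2 : R ^ (-1 + ε / 2) ≤ (L / M) * M ^ (-(ε / 2)) := by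
            have e3 : R ^ (-1 + ε / 2) = R ^ (-1 : ℝ) * R ^ (ε / 2) := by
              rw [← Real.rpow_add hR0]
            have e4 : R ^ (-1 : ℝ) ≤ (L / M) * M ^ (-ε) := by
              rw [Real.rpow_neg_one, Real.rpow_neg hM0'.le]
              have : (L / M) * (M ^ ε)⁻¹ = (M / L * M ^ ε)⁻¹ := by
                rw [mul_inv, inv_div]
              rw [this]
              exact inv_anti₀ (by positivity) hR1
            have e5 : R ^ (ε / 2) ≤ M ^ (ε / 2) := Real.rpow_le_rpow (by positivity) hRM (by positivity)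
            calc R ^ (-1 + ε / 2) = R ^ (-1 : ℝ) * R ^ (ε / 2) := e3
              _ ≤ ((L / M) * M ^ (-ε)) * M ^ (ε / 2) := by gcongr
              _ = (L / M) * M ^ (-(ε / 2)) := by
                  rw [mul_assoc, ← Real.rpow_add hM0']; congr 2; ring
          calc (4 * R ^ 2) ^ (-(1 / 2) + ε / 4 : ℝ) * Real.log M ^ B'
              ≤ ((L / M) * M ^ (-(ε / 2))) * M ^ (ε / 2) := by
                gcongr
                exact e1.trans e2
            _ = L / M := by
                rw [mul_assoc, ← Real.rpow_add hM0']; simp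
        have b2 : L / M / Real.log M ^ B' ≤ 1 := by
          have hLM' : L ≤ M := by
            refine hLM.trans ?_
            calc M ^ (1 - ε) ≤ M ^ (1:ℝ) :=
                  Real.rpow_le_rpow_of_exponent_le (by linarith) (by linarith)
              _ = M := Real.rpow_one M
          rw [div_div, div_le_one (by positivity)]
          have h1 : 1 ≤ Real.log M ^ B' := one_le_pow₀ hlog
          calc L ≤ M := hLM'
            _ = M * 1 := (mul_one _).symm
            _ ≤ M * Real.log M ^ B' := mul_le_mul_of_nonneg_left h1 hM0'.le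
        have b3 : (q : ℝ) ≤ Real.log (4 * R ^ 2) ^ (B + B' + 1) := by
          refine hq2.trans ?_
          calc Real.log M ^ B' = Real.log M ^ B' * 1 := (mul_one _).symm
            _ ≤ Real.log M ^ B' * ((4 * ε) ^ (B + B' + 1) * Real.log M ^ (B + 1)) := by gcongr
            _ = (Real.log M * (4 * ε)) ^ (B + B' + 1) := by
                rw [mul_pow]; ring
            _ ≤ _ := by gcongr
        have b4 : (g : ℝ) ≤ Real.log (4 * R ^ 2) ^ (B + B' + 1) := by
          refine hg2.trans ?_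
          calc Real.log M ^ B = Real.log M ^ B * 1 := (mul_one _).symm
            _ ≤ Real.log M ^ B * ((4 * ε) ^ (B + B' + 1) * Real.log M ^ (B' + 1)) := by gcongr
            _ = (Real.log M * (4 * ε)) ^ (B + B' + 1) := by
                rw [mul_pow]; ring
            _ ≤ _ := by gcongr
        refine (hMB (4 * R ^ 2) (L / M / Real.log M ^ B') Y1 Y2 q g r (by nlinarith) b1 b2 hY1
          hY2 hY3 hq1 b3 hg1 b4).trans ?_
        have b5 : C2 * (L / M / Real.log M ^ B') ^ 2 * (4 * R ^ 2) ^ 2 /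
            Real.log (4 * R ^ 2) ^ (A' + 2 * B' + 2) ≤
            C2 * (L / M / Real.log M ^ B') ^ 2 * (4 * R ^ 2) ^ 2 /
            (Real.log M * (4 * ε)) ^ (A' + 2 * B' + 2) := by gcongr
        refine b5.trans ?_
        rw [div_le_div_iff₀ (by positivity) (by positivity)]
        have hlp : 0 < Real.log M ^ B' := by positivity
        have b6 : C2 * (L / M / Real.log M ^ B') ^ 2 * (4 * R ^ 2) ^ 2 * Real.log M ^ A' =
            (L / M) ^ 2 * R ^ 4 * (16 * C2) * (Real.log M ^ A' / (Real.log M ^ B') ^ 2) := by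
          field_simp
          ring
        rw [b6]
        have b7 : (L / M) ^ 2 * R ^ 4 * (16 * C2) * (Real.log M ^ A' / (Real.log M ^ B') ^ 2) ≤
            (L / M) ^ 2 * R ^ 4 * ((4 * ε) ^ (A' + 2 * B' + 2) * Real.log M ^ (4 * B' + 1 + 1)) *
            (Real.log M ^ A' / (Real.log M ^ B') ^ 2) := by gcongr
        refine b7.trans (le_of_eq ?_)
        rw [mul_pow]
        field_simp
        ring)
    refine key.trans ?_
    have e : (C1 + K1 * K2 ^ 2 * Real.log M0 ^ A) * L ^ 2 * R ^ 2 / Real.log M ^ A =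
        C1 * L ^ 2 * R ^ 2 / Real.log M ^ A +
        (K1 * K2 ^ 2 * Real.log M0 ^ A) * (L ^ 2 * R ^ 2 / Real.log M ^ A) := by ring
    rw [e]
    have : 0 ≤ Real.log M0 := Real.log_nonneg (by linarith)
    have : 0 ≤ (K1 * K2 ^ 2 * Real.log M0 ^ A) * (L ^ 2 * R ^ 2 / Real.log M ^ A) := by
      positivity
    linarith
  · -- small `M`
    have hin : ∀ v : ZI, |∑ w ∈ (bl (4 * R ^ 2)).filter (fun w => R ^ 2 < nz w),
        be g w * lam (w * v).re * psi D (Real.sqrt (nz (w * v)) / M)| ≤ K2 := by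
      intro v
      refine (abs_sum_le_sum_abs _ _).trans ?_
      have e1 : ∀ w ∈ (bl (4 * R ^ 2)).filter (fun w => R ^ 2 < nz w),
          |be g w * lam (w * v).re * psi D (Real.sqrt (nz (w * v)) / M)| ≤ 1 := by
        intro w _
        rw [abs_mul, abs_mul]
        have a1 := abs_be_le g w
        have a2 := hlam.1 (w * v).re
        obtain ⟨a3, a4⟩ := psi_bd D (Real.sqrt (nz (w * v)) / M)
        rw [abs_of_nonneg a3]
        calc |be g w| * |lam (w * v).re| * psi D (Real.sqrt (nz (w * v)) / M) ≤ 1 * 1 * 1 := by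
              gcongr
          _ = 1 := by norm_num
      refine (sum_le_card_nsmul _ _ _ e1).trans ?_
      rw [nsmul_eq_mul, mul_one, hK2]
      have : ((bl (4 * R ^ 2)).filter (fun w => R ^ 2 < nz w)).card ≤ (bl (4 * M0 ^ 2)).card := by
        apply card_le_card
        refine (filter_subset _ _).trans (bl_mono ?_)
        nlinarith
      exact_mod_cast this
    have hout : ∑ v ∈ bl (9 * P ^ 2), Phi (Real.sqrt (nz v) / P) *
        (∑ w ∈ (bl (4 * R ^ 2)).filter (fun w => R ^ 2 < nz w),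
          be g w * lam (w * v).re * psi D (Real.sqrt (nz (w * v)) / M)) ^ 2 ≤ K1 * K2 ^ 2 := by
      have e1 : ∀ v ∈ bl (9 * P ^ 2), Phi (Real.sqrt (nz v) / P) *
          (∑ w ∈ (bl (4 * R ^ 2)).filter (fun w => R ^ 2 < nz w),
            be g w * lam (w * v).re * psi D (Real.sqrt (nz (w * v)) / M)) ^ 2 ≤ K2 ^ 2 := by
        intro v _
        obtain ⟨a1, a2⟩ := Phi_bd (Real.sqrt (nz v) / P)
        have a3 := hin v
        have a4 : (∑ w ∈ (bl (4 * R ^ 2)).filter (fun w => R ^ 2 < nz w),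
            be g w * lam (w * v).re * psi D (Real.sqrt (nz (w * v)) / M)) ^ 2 ≤ K2 ^ 2 := by
          rw [← sq_abs]
          gcongr
        calc _ ≤ 1 * K2 ^ 2 := by
              apply mul_le_mul a2 a4 (sq_nonneg _) zero_le_one
          _ = K2 ^ 2 := one_mul _
      refine (sum_le_card_nsmul _ _ _ e1).trans ?_
      rw [nsmul_eq_mul]
      have : ((bl (9 * P ^ 2)).card : ℝ) ≤ K1 := by
        rw [hK1]
        have : (bl (9 * P ^ 2)).card ≤ (bl (9 * M0 ^ 2)).card := by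
          apply card_le_card (bl_mono _)
          nlinarith
        exact_mod_cast this
      gcongr
    refine hout.trans ?_
    have e : (C1 + K1 * K2 ^ 2 * Real.log M0 ^ A) * L ^ 2 * R ^ 2 / Real.log M ^ A =
        C1 * (L ^ 2 * R ^ 2 / Real.log M ^ A) +
        (K1 * K2 ^ 2) * (Real.log M0 ^ A / Real.log M ^ A * (L ^ 2 * R ^ 2)) := by
      ring
    rw [e]
    have h4 : Real.log M ≤ Real.log M0 := Real.log_le_log hM0' hsmall.le
    have h5 : 1 ≤ Real.log M0 ^ A / Real.log M ^ A := by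
      rw [one_le_div (by positivity)]
      gcongr
    have h6 : 1 ≤ L ^ 2 * R ^ 2 := by
      have : 1 ≤ L ^ 2 := one_le_pow₀ hL1
      have : 1 ≤ R ^ 2 := one_le_pow₀ hR1'
      nlinarith
    have h7 : 1 ≤ Real.log M0 ^ A / Real.log M ^ A * (L ^ 2 * R ^ 2) := by
      calc (1:ℝ) = 1 * 1 := by norm_num
        _ ≤ _ := by gcongr
    have h8 : K1 * K2 ^ 2 * 1 ≤ (K1 * K2 ^ 2) * (Real.log M0 ^ A / Real.log M ^ A * (L ^ 2 * R ^ 2)) := by
      gcongr
    have h9 : 0 ≤ C1 * (L ^ 2 * R ^ 2 / Real.log M ^ A) := by positivity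
    linarith

end Pool.Agent.J6H16.TH
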